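import Mathlib
import Pool.Agent.LGO.PA.LinkB
import Pool.Agent.LGO.PC.BdLoc
import Pool.Agent.LGO.F.AsIsog
import Pool.Agent.LGO.U.BGal
import Pool.Agent.LGO.U.BMem
import Pool.Agent.LGO.U.BArch

/-!
# LGO/KC: the height of a number isogenous to a number of known height

`bd_isog`: `bd_of_loc` for the number `B` of the isogeny (`b_size`, `B_arch`).  `isog_one`: the isogeny estimate with the height of
one of the two numbers only (absorption of the logarithm, `F.as_absorb`).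
-/

namespace Pool.Agent.LGO.KC

open UpperHalfPlane Pool.Agent.Hhelper14.ZP Pool.Agent.EllSch Pool.Agent.LGO.U Pool.Agent.LGO

/-- an algebraic number is bounded in all fields which contain it -/
theorem bd_of_alg {y : ℂ} (hy : IsAlgebraic ℚ y) :
    ∃ B : ℝ, 0 ≤ B ∧ ∀ K : IntermediateField ℚ ℂ, y ∈ K → Bd K B y := by
  -- denominator
  have hyZ : IsAlgebraic ℤ y := (IsFractionRing.isAlgebraic_iff ℤ ℚ ℂ).2 hy
  obtain ⟨n, hn0, hn⟩ := hyZ.exists_integral_multiple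
  -- conjugates
  obtain ⟨p, hp, hp0⟩ := hy
  have hfin : (p.rootSet ℂ).Finite := Polynomial.rootSet_finite p ℂ
  obtain ⟨B, hB⟩ := (hfin.image fun z => ‖z‖).bddAbove
  have hnabs : 0 < n.natAbs := Int.natAbs_pos.2 hn0
  have hn1 : (1 : ℝ) ≤ (n.natAbs : ℝ) := by exact_mod_cast hnabs
  refine ⟨(n.natAbs : ℝ) + max B 0, by positivity, fun K hK => ⟨hK, ?_, ?_⟩⟩
  · refine ⟨n.natAbs, hnabs, ?_, ?_⟩
    · have h1 := Real.add_one_le_exp ((n.natAbs : ℝ) + max B 0)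
      have h2 : 0 ≤ max B 0 := le_max_right _ _
      linarith
    · have e : n • y = (n : ℂ) * y := by rw [zsmul_eq_mul]
      rw [e] at hn
      rcases Int.natAbs_eq n with h | h
      · have e2 : ((n.natAbs : ℕ) : ℂ) = (n : ℂ) := by
          conv_rhs => rw [h]
          simp
        rw [e2]; exact hn
      · have e2 : ((n.natAbs : ℕ) : ℂ) = -(n : ℂ) := by
          conv_rhs => rw [h]
          simp
        rw [e2, neg_mul]; exact hn.neg
  · intro σ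
    have h1 : Polynomial.aeval (σ ⟨y, hK⟩) p = 0 := by
      have h2 := Polynomial.aeval_algHom_apply (RingHom.toRatAlgHom σ) (⟨y, hK⟩ : K) p
      have h3 : Polynomial.aeval (⟨y, hK⟩ : K) p = 0 := by
        have h4 := Polynomial.aeval_algebraMap_apply ℂ (⟨y, hK⟩ : K) p
        have h5 : algebraMap K ℂ (⟨y, hK⟩ : K) = y := rfl
        rw [h5, hp0] at h4
        exact (map_eq_zero_iff (algebraMap K ℂ) (algebraMap K ℂ).injective).1 h4.symm
      rw [h3, map_zero] at h2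
      exact h2
    have h3 : σ ⟨y, hK⟩ ∈ p.rootSet ℂ := by
      rw [Polynomial.mem_rootSet]
      exact ⟨hp, h1⟩
    have h4 : ‖σ ⟨y, hK⟩‖ ≤ B := hB ⟨_, h3, rfl⟩
    have h5 := Real.add_one_le_exp ((n.natAbs : ℝ) + max B 0)
    have h6 : B ≤ max B 0 := le_max_left _ _
    linarith

private theorem HtK_pow {u : ℝ} (hu : 1 ≤ u) :
    (1 + Real.log u) ^ 12 ≤ (Nat.factorial 12 : ℝ) * Real.exp 1 * u := by
  have h0 : 0 ≤ 1 + Real.log u := by
    have := Real.log_nonneg hu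
    linarith
  have h1 := Real.pow_div_factorial_le_exp _ h0 12
  rw [Real.exp_add, Real.exp_log (by linarith), div_le_iff₀ (by positivity)] at h1
  linarith

private theorem HtK_real {C N b mx my : ℝ} (hC : 1 ≤ C) (hN : 1 ≤ N) (_hb : 0 ≤ b) (hmx : 1 ≤ mx)
    (hmy : 1 ≤ my) (h : N ^ 6 * my ≤ C * (1 + Real.log (mx * my)) ^ 6 * (b * mx)) :
    my ≤ C ^ 2 * ((Nat.factorial 12 : ℝ) * Real.exp 1) * b ^ 2 * mx ^ 3 := by
  have hu : 1 ≤ mx * my := one_le_mul_of_one_le_of_one_le hmx hmy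
  have h1 : my ≤ C * (1 + Real.log (mx * my)) ^ 6 * (b * mx) :=
    (le_mul_of_one_le_left (by linarith) (one_le_pow₀ hN)).trans h
  have h2 : my ^ 2 ≤ (C * (1 + Real.log (mx * my)) ^ 6 * (b * mx)) ^ 2 :=
    pow_le_pow_left₀ (by linarith) h1 2
  have h3 : (C * (1 + Real.log (mx * my)) ^ 6 * (b * mx)) ^ 2 =
      C ^ 2 * b ^ 2 * mx ^ 2 * (1 + Real.log (mx * my)) ^ 12 := by ring
  have h4 : C ^ 2 * b ^ 2 * mx ^ 2 * (1 + Real.log (mx * my)) ^ 12 ≤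
      C ^ 2 * b ^ 2 * mx ^ 2 * ((Nat.factorial 12 : ℝ) * Real.exp 1 * (mx * my)) :=
    mul_le_mul_of_nonneg_left (HtK_pow hu) (by positivity)
  have h5 : my * my ≤ my * (C ^ 2 * ((Nat.factorial 12 : ℝ) * Real.exp 1) * b ^ 2 * mx ^ 3) := by
    calc my * my = my ^ 2 := by ring
      _ ≤ _ := h2
      _ = _ := h3
      _ ≤ _ := h4
      _ = _ := by ring
  exact le_of_mul_le_mul_left h5 (by linarith)

theorem b_arch2 : ∃ C : ℝ, 1 ≤ C ∧ ∀ x y B : ℂ, IsB x y B → NCM x →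
    max 1 ‖y‖ ≤ C * ‖B‖ ^ 2 * max 1 ‖x‖ ^ 3 := by
  obtain ⟨C, hC, hb⟩ := B_arch
  have hf1 : (1 : ℝ) ≤ (Nat.factorial 12 : ℝ) := by exact_mod_cast Nat.factorial_pos 12
  have he1 : (1 : ℝ) ≤ Real.exp 1 := Real.one_le_exp zero_le_one
  refine ⟨C ^ 2 * ((Nat.factorial 12 : ℝ) * Real.exp 1), ?_, fun x y B hB hx => ?_⟩
  · have h1 : (1 : ℝ) ≤ C ^ 2 := one_le_pow₀ hC
    exact one_le_mul_of_one_le_of_one_le h1 (one_le_mul_of_one_le_of_one_le hf1 he1)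
  have hN : (1 : ℝ) ≤ mdeg x y := by exact_mod_cast mdeg_pos hB.isog
  have hmx : (1 : ℝ) ≤ max 1 ‖x‖ := le_max_left _ _
  have hmy : (1 : ℝ) ≤ max 1 ‖y‖ := le_max_left _ _
  have hx1 : ‖x‖ ≤ max 1 ‖x‖ := le_max_right _ _
  have hy1 : ‖y‖ ≤ max 1 ‖y‖ := le_max_right _ _
  have hu : 1 ≤ max 1 ‖x‖ * max 1 ‖y‖ := one_le_mul_of_one_le_of_one_le hmx hmy
  have hlog := Real.log_nonneg hu
  have hexp : max 1 ‖x‖ * max 1 ‖y‖ ≤ Real.exp (1 + Real.log (max 1 ‖x‖ * max 1 ‖y‖)) := by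
    rw [Real.exp_add, Real.exp_log (by linarith)]
    exact le_mul_of_one_le_left (by linarith) he1
  have hxm : max 1 ‖x‖ ≤ max 1 ‖x‖ * max 1 ‖y‖ := le_mul_of_one_le_right (by linarith) hmy
  have hym : max 1 ‖y‖ ≤ max 1 ‖x‖ * max 1 ‖y‖ := le_mul_of_one_le_left (by linarith) hmx
  have h1 := (hb x y B hB hx (1 + Real.log (max 1 ‖x‖ * max 1 ‖y‖)) (by linarith)
    (by linarith) (by linarith)).2
  exact HtK_real hC hN (norm_nonneg _) hmx hmy h1

/-- the height of an isogenous number -/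
theorem bd_isog : ∃ C : ℝ, 1 ≤ C ∧ ∀ (K : IntermediateField ℚ ℂ) [FiniteDimensional ℚ K] (h : ℝ) (x y : ℂ),
    Bd K h x → y ∈ K → NCM x → (∃ N, 0 < N ∧ IsogDeg N x y) →
      Bd K (C * Module.finrank ℚ K * (h + 1 + Real.log (mdeg x y))) y := by
  obtain ⟨C₁, hC₁, harch⟩ := b_arch2
  have hlC : 0 ≤ Real.log C₁ := Real.log_nonneg hC₁
  set c₀ : ℕ := (4 * 6 ^ 12) ^ 6 with hc₀
  have hc₀1 : (1 : ℝ) ≤ (c₀ : ℝ) := by
    rw [hc₀]
    norm_num
  have hc₀p : 0 < c₀ := by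
    rw [hc₀]
    positivity
  have hlc₀ : 0 ≤ Real.log c₀ := Real.log_nonneg hc₀1
  refine ⟨Real.log C₁ + 2 * Real.log c₀ + 24, by linarith, ?_⟩
  intro K _ h x y hbx hy hx hiso
  have hh : 0 ≤ h := hbx.nonneg
  obtain ⟨B, hB⟩ := exists_B hiso
  have hBK : B ∈ K := hB.mem hx K hbx.mem hy
  obtain ⟨m, hm, hmh, hmi⟩ := hbx.den
  have hN0 : 0 < mdeg x y := mdeg_pos hiso
  have hN1 : (1 : ℝ) ≤ mdeg x y := by exact_mod_cast hN0
  have hm1 : (1 : ℝ) ≤ m := by exact_mod_cast hm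
  have hD1 : (1 : ℝ) ≤ Module.finrank ℚ K := by
    exact_mod_cast Module.finrank_pos (R := ℚ) (M := K)
  have hlN : 0 ≤ Real.log (mdeg x y) := Real.log_nonneg hN1
  have hlm : Real.log m ≤ h := by
    have h1 := Real.log_le_log (by linarith) hmh
    rwa [Real.log_exp] at h1
  set n : ℕ := c₀ * (mdeg x y) ^ 12 * m with hn
  have hn0 : 0 < n := by
    rw [hn]
    positivity
  have hfin : ∀ (p : ℕ) [Fact p.Prime] (φ : ℂ →+* ℂ_[p]), ‖(n : ℂ_[p])‖ * max 1 ‖φ y‖ ≤ ‖φ B‖ := by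
    intro p _ φ
    have h1 := (PA.b_size φ hB hx).2
    have h2 : ‖(m : ℂ_[p])‖ * max 1 ‖φ x‖ ≤ 1 := by
      have h3 : ‖(m : ℂ_[p])‖ ≤ 1 := Pool.Agent.Hhelper14.ZP.norm_natCast_le (p := p) m
      have h4 : ‖(m : ℂ_[p])‖ * ‖φ x‖ ≤ 1 := by
        have h5 := PA.norm_le_one_of_integral φ hmi
        rwa [map_mul, map_natCast, norm_mul] at h5
      rcases le_total 1 ‖φ x‖ with h6 | h6
      · rw [max_eq_right h6]
        exact h4
      · rw [max_eq_left h6, mul_one]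
        exact h3
    have h7 : ((c₀ : ℕ) : ℂ_[p]) = ((4 * 6 ^ 12) ^ 6 : ℂ_[p]) := by
      rw [hc₀]
      simp only [Nat.cast_pow, Nat.cast_mul, Nat.cast_ofNat]
    have h8 : ‖(n : ℂ_[p])‖ = ‖((4 * 6 ^ 12) ^ 6 : ℂ_[p])‖ * ‖((mdeg x y : ℕ) : ℂ_[p])‖ ^ 12 *
        ‖(m : ℂ_[p])‖ := by
      rw [hn, Nat.cast_mul, Nat.cast_mul, h7, Nat.cast_pow, norm_mul, norm_mul, norm_pow (↑(mdeg x y) : ℂ_[p])]
    rw [h8]
    calc ‖((4 * 6 ^ 12) ^ 6 : ℂ_[p])‖ * ‖((mdeg x y : ℕ) : ℂ_[p])‖ ^ 12 * ‖(m : ℂ_[p])‖ * max 1 ‖φ y‖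
        = ‖(m : ℂ_[p])‖ * (‖((4 * 6 ^ 12) ^ 6 : ℂ_[p])‖ * (‖((mdeg x y : ℕ) : ℂ_[p])‖ ^ 12 *
          max 1 ‖φ y‖)) := by ring
      _ ≤ ‖(m : ℂ_[p])‖ * (‖φ B‖ * max 1 ‖φ x‖) := mul_le_mul_of_nonneg_left h1 (norm_nonneg _)
      _ = ‖φ B‖ * (‖(m : ℂ_[p])‖ * max 1 ‖φ x‖) := by ring
      _ ≤ ‖φ B‖ * 1 := mul_le_mul_of_nonneg_left h2 (norm_nonneg _)
      _ = ‖φ B‖ := mul_one _
  have hinf : ∀ s : ℂ ≃+* ℂ, max 1 ‖s y‖ ≤ Real.exp (Real.log C₁ + 3 * h) * ‖s B‖ ^ 2 := by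
    intro s
    have h1 := harch (s x) (s y) (s B) (hB.map hx s) (hx.map s)
    have h2 : max 1 ‖s x‖ ≤ Real.exp h := max_le (Real.one_le_exp hh) (hbx.aut s)
    have h3 : max 1 ‖s x‖ ^ 3 ≤ Real.exp h ^ 3 := pow_le_pow_left₀ (by positivity) h2 3
    have h4 : Real.exp (Real.log C₁ + 3 * h) = C₁ * Real.exp h ^ 3 := by
      rw [Real.exp_add, Real.exp_log (by linarith), ← Real.exp_nat_mul]
      norm_num
    rw [h4]
    calc max 1 ‖s y‖ ≤ C₁ * ‖s B‖ ^ 2 * max 1 ‖s x‖ ^ 3 := h1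
      _ ≤ C₁ * ‖s B‖ ^ 2 * Real.exp h ^ 3 := mul_le_mul_of_nonneg_left h3 (by positivity)
      _ = C₁ * Real.exp h ^ 3 * ‖s B‖ ^ 2 := by ring
  have hb := PC.bd_of_loc K hy hBK hB.ne_zero hn0 two_pos hfin hinf
  refine hb.mono ?_
  have hlog : Real.log n = Real.log c₀ + 12 * Real.log (mdeg x y) + Real.log m := by
    rw [hn]
    push_cast
    rw [Real.log_mul (by positivity) (by positivity), Real.log_mul (by positivity) (by positivity),
      Real.log_pow]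
    push_cast
    ring
  rw [hlog]
  have e1 : Real.log C₁ + 3 * h + (2 : ℕ) * (Real.log c₀ + 12 * Real.log (mdeg x y) + Real.log m) ≤
      (Real.log C₁ + 2 * Real.log c₀ + 24) * (h + 1 + Real.log (mdeg x y)) := by
    push_cast
    have a1 : 0 ≤ Real.log C₁ * (h + Real.log (mdeg x y)) := by positivity
    have a2 : 0 ≤ Real.log c₀ * (h + Real.log (mdeg x y)) := by positivity
    linarith
  calc (Module.finrank ℚ K : ℝ) * (Real.log C₁ + 3 * h + (2 : ℕ) *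
        (Real.log c₀ + 12 * Real.log (mdeg x y) + Real.log m))
      ≤ Module.finrank ℚ K * ((Real.log C₁ + 2 * Real.log c₀ + 24) *
        (h + 1 + Real.log (mdeg x y))) := mul_le_mul_of_nonneg_left e1 (by linarith)
    _ = _ := by ring

/-- the isogeny estimate and the height estimate with the height of one of the two numbers only -/
theorem isog_one : ∃ C : ℕ, 1 ≤ C ∧ ∀ (K : IntermediateField ℚ ℂ) [FiniteDimensional ℚ K] (h : ℝ) (x y : ℂ),
    1 ≤ h → Bd K h x → y ∈ K → NCM x → (∃ N, 0 < N ∧ IsogDeg N x y) →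
      Bd K ((C * Module.finrank ℚ K * h) ^ C) y := by
  obtain ⟨C₁, hC₁, hht⟩ := bd_isog
  obtain ⟨c, hisog⟩ := isog_use
  obtain ⟨C₂, hC₂⟩ := exists_nat_ge C₁
  have hC₂1 : (1 : ℝ) ≤ C₂ := hC₁.trans hC₂
  have hC₂n : 1 ≤ C₂ := by exact_mod_cast hC₂1
  set A₀ : ℕ := 4 * C₂ with hA₀
  have hA₀1 : 1 ≤ A₀ := by omega
  set E : ℕ := 2 * (c + 1) * A₀ + 2 * (c + 1) + 1 with hE
  refine ⟨E, by omega, ?_⟩
  intro K _ h x y hh hbx hy hNx hiso
  have hD : (1 : ℝ) ≤ Module.finrank ℚ K := by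
    exact_mod_cast Module.finrank_pos (R := ℚ) (M := K)
  set D : ℝ := (Module.finrank ℚ K : ℝ) with hDdef
  have hy2 := hht K h x y hbx hy hNx hiso
  have hN1 : (1 : ℝ) ≤ mdeg x y := by exact_mod_cast mdeg_pos hiso
  set N : ℝ := (mdeg x y : ℝ) with hN
  have hlog : 0 ≤ Real.log N := Real.log_nonneg hN1
  have hA₀R : (A₀ : ℝ) = 4 * C₂ := by rw [hA₀]; push_cast; ring
  have hNy : NCM y := by
    obtain ⟨M, hM, hI⟩ := hiso
    exact NCM.of_isog hM hI hNx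
  set M : ℝ := A₀ * D * h * (1 + Real.log N) with hM
  have hDh : 1 ≤ D * h := by nlinarith
  have e1 : 1 ≤ C₂ * D * h := by nlinarith
  have hM4 : 4 * (C₂ * D * h) ≤ M := by
    rw [hM, hA₀R]
    nlinarith
  have hM2 : 2 ≤ M := by linarith
  have hDM : D ≤ M := by
    have : D ≤ C₂ * D * h := by nlinarith [mul_le_mul hC₂1 hh (by norm_num) (by linarith)]
    linarith
  have hhM : h ≤ M := by
    have : h ≤ C₂ * D * h := by nlinarith [mul_le_mul hC₂1 hD (by norm_num) (by linarith)]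
    linarith
  have hyM : C₁ * D * (h + 1 + Real.log N) ≤ M := by
    have h1 : h + 1 + Real.log N ≤ 2 * h * (1 + Real.log N) := by nlinarith
    calc C₁ * D * (h + 1 + Real.log N) ≤ C₂ * D * (2 * h * (1 + Real.log N)) := by gcongr
      _ ≤ M := by
        rw [hM, hA₀R]
        have : 0 ≤ C₂ * D * h * (1 + Real.log N) := by positivity
        nlinarith
  have hby : Bd K M y := hy2.mono hyM
  have h1 := hisog K M x y hM2 hDM (hbx.mono hhM) hby hNx hNy hiso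
  have h2 : N ≤ (A₀ * D * h * (1 + Real.log N)) ^ (c + 1) := by
    refine h1.trans ?_
    rw [← hM]
    exact pow_le_pow_right₀ (by linarith) (Nat.le_succ c)
  have hA : 1 ≤ A₀ * D * h := by
    rw [hA₀R]
    nlinarith
  have h3 := F.as_absorb hN1 hA (Nat.succ_pos c) h2
  refine hby.mono ?_
  have hlogN : 1 + Real.log N ≤ N := by
    have := Real.log_le_sub_one_of_pos (show (0 : ℝ) < N by linarith)
    linarith
  have hc1 : (1 : ℝ) ≤ 2 * ((c + 1 : ℕ) : ℝ) := by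
    have : (0 : ℝ) ≤ c := Nat.cast_nonneg c
    push_cast
    linarith
  set W : ℝ := 2 * ((c + 1 : ℕ) : ℝ) * (A₀ * D * h) with hW
  have hW1 : A₀ * D * h ≤ W := by
    rw [hW]
    nlinarith
  have hW2 : 1 ≤ W := hA.trans hW1
  have hWE : W ≤ E * D * h := by
    have h5 : (2 : ℝ) * ((c + 1 : ℕ) : ℝ) * A₀ ≤ E := by
      rw [hE]
      push_cast
      have : (0 : ℝ) ≤ c := Nat.cast_nonneg c
      linarith
    calc W = (2 * ((c + 1 : ℕ) : ℝ) * A₀) * (D * h) := by rw [hW]; ring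
      _ ≤ E * (D * h) := mul_le_mul_of_nonneg_right h5 (by linarith)
      _ = E * D * h := by ring
  calc M = A₀ * D * h * (1 + Real.log N) := hM
    _ ≤ W * N := mul_le_mul hW1 hlogN (by linarith) (by linarith)
    _ ≤ W * W ^ (2 * (c + 1)) := mul_le_mul_of_nonneg_left h3 (by linarith)
    _ = W ^ (2 * (c + 1) + 1) := by rw [pow_succ]; ring
    _ ≤ W ^ E := pow_le_pow_right₀ hW2 (by omega)
    _ ≤ (E * D * h) ^ E := pow_le_pow_left₀ (by linarith) hWE E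

end Pool.Agent.LGO.KC
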