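import Mathlib
import Pool.Agent.LGO.PW.Lin

/-!
# LGO/KC: the annuli lemma for families of integral vectors

As `ann` in `LGO/PW/Ann.lean`, with functions `f i` which need not be linearly independent, and integral vectors `Ψ` in a set
`F` such that one of the first `M` Taylor coefficients of `Ψ . f` is at least `c₀` in absolute value (`annF`).

`annC`: `f i = ∑ k, μ i k G k` with linearly independent functions `G k` and complex numbers `μ i k`; `F` is the set of the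
`Ψ` for which the vector `Ψ μ` has norm at least `c₁`.  (Used for relations whose coefficients are integral linear
combinations of fixed complex numbers.)
-/

namespace Pool.Agent.LGO.KC

open Metric

/-- coercion to rational vectors -/
private def cst {N : ℕ} (Ψ : Fin N → ℤ) : Fin N → ℚ := fun i => (Ψ i : ℚ)

/-- linear form with coefficients `a m` -/
private noncomputable def uu {N : ℕ} (a : ℕ → Fin N → ℂ) (Ψ : Fin N → ℤ) (m : ℕ) : ℂ :=
  ∑ i, (Ψ i : ℂ) * a m i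

private theorem ann_low {N : ℕ} (a : ℕ → Fin N → ℂ)
    (h : ∀ v : Fin N → ℂ, v ≠ 0 → ∃ m, ∑ i, v i * a m i ≠ 0) :
    ∃ (M : ℕ) (c₀ : ℝ), 0 < c₀ ∧ ∀ v : Fin N → ℂ, ∃ m ≤ M, c₀ * ‖v‖ ≤ ‖∑ i, v i * a m i‖ := by
  set S : Set (Fin N → ℂ) := Metric.sphere 0 1 with hS
  have hc : IsCompact S := isCompact_sphere _ _
  set g : ℕ → (Fin N → ℂ) → ℝ := fun M v => ∑ m ∈ Finset.range (M + 1), ‖∑ i, v i * a m i‖ with hg
  have hgc : ∀ M, Continuous (g M) := by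
    intro M
    rw [hg]
    fun_prop
  have hcov : S ⊆ ⋃ M, {v | 0 < g M v} := by
    intro v hv
    have hv1 : ‖v‖ = 1 := by simpa [hS] using hv
    have hv0 : v ≠ 0 := by
      rintro rfl
      simp at hv1
    obtain ⟨m, hm⟩ := h v hv0
    refine Set.mem_iUnion.2 ⟨m, ?_⟩
    have h1 : ‖∑ i, v i * a m i‖ ≤ g m v := by
      rw [hg]
      exact Finset.single_le_sum (f := fun m => ‖∑ i, v i * a m i‖) (fun _ _ => norm_nonneg _)
        (Finset.mem_range.2 (Nat.lt_succ_self m))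
    exact (norm_pos_iff.2 hm).trans_le h1
  have hmono : ∀ M M', M ≤ M' → ∀ v, g M v ≤ g M' v := by
    intro M M' hM v
    rw [hg]
    exact Finset.sum_le_sum_of_subset_of_nonneg
      (Finset.range_subset_range.2 (by omega)) (fun _ _ _ => norm_nonneg _)
  obtain ⟨M, hM⟩ := hc.elim_directed_cover (fun M => {v | 0 < g M v})
    (fun M => isOpen_lt continuous_const (hgc M)) hcov (by
      intro i j
      refine ⟨max i j, ?_, ?_⟩
      · intro v hv
        exact lt_of_lt_of_le hv (hmono _ _ (le_max_left _ _) v)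
      · intro v hv
        exact lt_of_lt_of_le hv (hmono _ _ (le_max_right _ _) v))
  have hmin : ∃ c₁ : ℝ, 0 < c₁ ∧ ∀ v ∈ S, c₁ ≤ g M v := by
    rcases S.eq_empty_or_nonempty with he | hne
    · exact ⟨1, one_pos, fun v hv => by rw [he] at hv; exact hv.elim⟩
    · obtain ⟨v₀, hv₀, hv₁⟩ := hc.exists_isMinOn hne (hgc M).continuousOn
      exact ⟨g M v₀, hM hv₀, fun v hv => hv₁ hv⟩
  obtain ⟨c₁, hc₁, hmin⟩ := hmin
  refine ⟨M, c₁ / (M + 1), by positivity, ?_⟩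
  intro v
  by_cases hv : v = 0
  · exact ⟨0, Nat.zero_le _, by simp [hv]⟩
  have hvn : 0 < ‖v‖ := norm_pos_iff.2 hv
  by_contra hcon
  push Not at hcon
  have hw : ((‖v‖⁻¹ : ℝ) : ℂ) • v ∈ S := by
    rw [hS, mem_sphere_zero_iff_norm, norm_smul, Complex.norm_real, norm_inv, norm_norm,
      inv_mul_cancel₀ hvn.ne']
  have h1 := hmin _ hw
  have h2 : g M (((‖v‖⁻¹ : ℝ) : ℂ) • v) < c₁ := by
    have h3 : ∀ m ∈ Finset.range (M + 1),
        ‖∑ i, (((‖v‖⁻¹ : ℝ) : ℂ) • v) i * a m i‖ < c₁ / (M + 1) := by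
      intro m hm
      have h4 : ∑ i, (((‖v‖⁻¹ : ℝ) : ℂ) • v) i * a m i =
          ((‖v‖⁻¹ : ℝ) : ℂ) * ∑ i, v i * a m i := by
        rw [Finset.mul_sum]
        refine Finset.sum_congr rfl fun i _ => ?_
        rw [Pi.smul_apply, smul_eq_mul]
        ring
      rw [h4, norm_mul, Complex.norm_real, norm_inv, norm_norm]
      have h5 := hcon m (by have := Finset.mem_range.1 hm; omega)
      rw [inv_mul_lt_iff₀ hvn, mul_comm]
      exact h5
    have h6 := Finset.sum_lt_sum_of_nonempty (s := Finset.range (M + 1)) ⟨0, by simp⟩ h3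
    rw [hg]
    refine h6.trans_le ?_
    rw [Finset.sum_const, Finset.card_range, nsmul_eq_mul]
    push_cast
    rw [mul_div_cancel₀]
    positivity
  linarith

/-- Cramer with the Gram matrix -/
private theorem ann_cramer {N d : ℕ} (Φ : Fin d → Fin N → ℤ) (Ψ : Fin N → ℤ) {H : ℝ} (hH : 1 ≤ H)
    (hΦ : ∀ j i, |(Φ j i : ℝ)| ≤ H) (hΨ : ∀ i, |(Ψ i : ℝ)| ≤ H)
    (hli : LinearIndependent ℚ (fun j => cst (Φ j)))
    (hmem : cst Ψ ∈ Submodule.span ℚ (Set.range (fun j => cst (Φ j)))) :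
    ∃ z : Fin d → ℝ, (∀ j, |z j| ≤ (d.factorial : ℝ) * (((N : ℝ) + 1) * H ^ 2) ^ d) ∧
      ∀ i, (Ψ i : ℝ) = ∑ j, z j * (Φ j i : ℝ) := by
  obtain ⟨z, hz⟩ := (Submodule.mem_span_range_iff_exists_fun ℚ).1 hmem
  let A : Matrix (Fin d) (Fin N) ℤ := Matrix.of Φ
  let G : Matrix (Fin d) (Fin d) ℤ := A * A.transpose
  let w : Fin d → ℤ := A.mulVec Ψ
  have hz1 : ∀ i, (Ψ i : ℚ) = ∑ j, z j * (Φ j i : ℚ) := by
    intro i
    have := congrFun hz i
    rw [Finset.sum_apply] at this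
    simp only [Pi.smul_apply, smul_eq_mul, cst] at this
    exact this.symm
  have hdet : G.det ≠ 0 := by
    intro h0
    have h1 : (G.map (Int.cast : ℤ → ℚ)).det = 0 := by
      have := (Int.castRingHom ℚ).map_det G
      rw [h0, map_zero] at this
      exact this.symm
    obtain ⟨v, hv0, hv⟩ := Matrix.exists_mulVec_eq_zero_iff.2 h1
    apply hv0
    have h2 : ∑ i, (∑ j, v j * (Φ j i : ℚ)) ^ 2 = 0 := by
      have h3 : dotProduct v ((G.map (Int.cast : ℤ → ℚ)).mulVec v) = 0 := by rw [hv, dotProduct_zero]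
      rw [← h3]
      simp only [dotProduct, Matrix.mulVec, Matrix.map_apply, G, A, Matrix.mul_apply,
        Matrix.transpose_apply, Matrix.of_apply]
      push_cast
      have h4 : ∀ i : Fin N, (∑ j, v j * (Φ j i : ℚ)) ^ 2 =
          ∑ j, ∑ l, v j * (((Φ j i : ℚ) * (Φ l i : ℚ)) * v l) := by
        intro i
        rw [sq, Finset.sum_mul_sum]
        refine Finset.sum_congr rfl fun j _ => Finset.sum_congr rfl fun l _ => ?_
        ring
      simp_rw [h4]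
      rw [Finset.sum_comm]
      refine Finset.sum_congr rfl fun j _ => ?_
      rw [Finset.sum_comm, Finset.mul_sum]
      refine Finset.sum_congr rfl fun l _ => ?_
      rw [Finset.sum_mul, Finset.mul_sum]
    have h5 : ∀ i, ∑ j, v j * (Φ j i : ℚ) = 0 := by
      intro i
      have := (Finset.sum_eq_zero_iff_of_nonneg (fun i _ => sq_nonneg _)).1 h2 i (Finset.mem_univ i)
      exact pow_eq_zero_iff (two_ne_zero) |>.1 this
    have h6 := Fintype.linearIndependent_iff.1 hli v (by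
      funext i
      rw [Finset.sum_apply]
      simpa [cst] using h5 i)
    funext j
    exact h6 j
  have hdet1 : (1 : ℝ) ≤ |((G.det : ℤ) : ℝ)| := by
    exact_mod_cast Int.one_le_abs hdet
  let GR : Matrix (Fin d) (Fin d) ℝ := G.map (Int.cast : ℤ → ℝ)
  let wR : Fin d → ℝ := fun j => (w j : ℝ)
  have hGdet : GR.det = ((G.det : ℤ) : ℝ) := ((Int.castRingHom ℝ).map_det G).symm
  have hzR : ∀ i, (Ψ i : ℝ) = ∑ j, (z j : ℝ) * (Φ j i : ℝ) := by
    intro i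
    have := congrArg (fun x : ℚ => (x : ℝ)) (hz1 i)
    push_cast at this
    exact this
  have hGz : GR.mulVec (fun j => (z j : ℝ)) = wR := by
    funext l
    simp only [GR, wR, w, G, A, Matrix.mulVec, dotProduct, Matrix.map_apply, Matrix.mul_apply,
      Matrix.transpose_apply, Matrix.of_apply]
    push_cast
    simp_rw [Finset.sum_mul]
    rw [Finset.sum_comm]
    refine Finset.sum_congr rfl fun i _ => ?_
    rw [hzR i, Finset.mul_sum]
    refine Finset.sum_congr rfl fun j _ => ?_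
    ring
  have hcr : ∀ j, GR.det * (z j : ℝ) = (GR.updateCol j wR).det := by
    intro j
    have h1 : GR.cramer wR = GR.det • (fun j => (z j : ℝ)) := by
      rw [← hGz, Matrix.cramer_eq_adjugate_mulVec, Matrix.mulVec_mulVec, Matrix.adjugate_mul,
        Matrix.smul_mulVec, Matrix.one_mulVec]
    have h2 := congrFun h1 j
    rw [Matrix.cramer_apply] at h2
    rw [h2]
    rfl
  have hG2 : ∀ j l, |(GR.updateCol l wR) j l| ≤ ((N : ℝ) + 1) * H ^ 2 := by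
    intro j l
    rw [Matrix.updateCol_self]
    simp only [wR, w, A, Matrix.mulVec, dotProduct, Matrix.of_apply]
    push_cast
    calc |∑ i, (Φ j i : ℝ) * (Ψ i : ℝ)| ≤ ∑ i, |(Φ j i : ℝ) * (Ψ i : ℝ)| :=
          Finset.abs_sum_le_sum_abs _ _
      _ ≤ ∑ _i : Fin N, H ^ 2 := by
          refine Finset.sum_le_sum fun i _ => ?_
          rw [abs_mul, sq]
          exact mul_le_mul (hΦ j i) (hΨ i) (abs_nonneg _) (by linarith)
      _ = (N : ℝ) * H ^ 2 := by simp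
      _ ≤ ((N : ℝ) + 1) * H ^ 2 := by nlinarith [sq_nonneg H]
  have hG1 : ∀ j l, |GR j l| ≤ ((N : ℝ) + 1) * H ^ 2 := by
    intro j l
    simp only [GR, G, A, Matrix.map_apply, Matrix.mul_apply, Matrix.transpose_apply, Matrix.of_apply]
    push_cast
    calc |∑ i, (Φ j i : ℝ) * (Φ l i : ℝ)| ≤ ∑ i, |(Φ j i : ℝ) * (Φ l i : ℝ)| :=
          Finset.abs_sum_le_sum_abs _ _
      _ ≤ ∑ _i : Fin N, H ^ 2 := by
          refine Finset.sum_le_sum fun i _ => ?_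
          rw [abs_mul, sq]
          exact mul_le_mul (hΦ j i) (hΦ l i) (abs_nonneg _) (by linarith)
      _ = (N : ℝ) * H ^ 2 := by simp
      _ ≤ ((N : ℝ) + 1) * H ^ 2 := by nlinarith [sq_nonneg H]
  refine ⟨fun j => (z j : ℝ), ?_, hzR⟩
  intro j
  have hb : |(GR.updateCol j wR).det| ≤ (d.factorial : ℝ) * (((N : ℝ) + 1) * H ^ 2) ^ d := by
    have h1 := Matrix.det_le (A := GR.updateCol j wR) (abv := AbsoluteValue.abs)
      (x := ((N : ℝ) + 1) * H ^ 2) (by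
        intro i l
        by_cases hl : l = j
        · subst hl
          exact hG2 i l
        · rw [Matrix.updateCol_ne hl]
          exact hG1 i l)
    rw [Fintype.card_fin, nsmul_eq_mul] at h1
    exact h1
  have h2 : |(z j : ℝ)| ≤ |GR.det * (z j : ℝ)| := by
    rw [abs_mul, hGdet]
    exact le_mul_of_one_le_left (abs_nonneg _) hdet1
  refine h2.trans ?_
  rw [hcr j]
  exact hb



private theorem ann_taylor {N : ℕ} {f : ℂ → Fin N → ℂ}
    (hf : ∀ i, DifferentiableOn ℂ (fun q => f q i) (ball 0 1)) {B : ℝ}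
    (hB : ∀ i, ∀ q ∈ ball (0:ℂ) 1, ‖f q i‖ ≤ B)
    (hind : ∀ c : Fin N → ℂ, c ≠ 0 → ∃ q ∈ ball (0:ℂ) 1, ∑ i, c i * f q i ≠ 0) :
    ∃ a : ℕ → Fin N → ℂ, (∀ m i, ‖a m i‖ ≤ max B 1) ∧
      (∀ q ∈ ball (0:ℂ) 1, ∀ i, HasSum (fun m => a m i * q ^ m) (f q i)) ∧
      (∀ v : Fin N → ℂ, v ≠ 0 → ∃ m, ∑ i, v i * a m i ≠ 0) := by
  set a : ℕ → Fin N → ℂ := fun m i => ((m.factorial : ℂ))⁻¹ * iteratedDeriv m (fun q => f q i) 0
    with ha
  have hs : ∀ q ∈ ball (0:ℂ) 1, ∀ i, HasSum (fun m => a m i * q ^ m) (f q i) := by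
    intro q hq i
    have h1 := Complex.hasSum_taylorSeries_on_ball (hf i) hq
    refine h1.congr_fun ?_ |> fun h => h
    intro m
    simp only [ha, sub_zero, smul_eq_mul]
    ring
  refine ⟨a, ?_, hs, ?_⟩
  · intro m i
    have hR : ∀ R : ℝ, 0 < R → R < 1 → ‖iteratedDeriv m (fun q => f q i) 0‖ ≤
        m.factorial * max B 1 / R ^ m := by
      intro R hR0 hR1
      refine Complex.norm_iteratedDeriv_le_of_forall_mem_sphere_norm_le m hR0 ?_ ?_
      · refine DifferentiableOn.diffContOnCl ?_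
        rw [closure_ball _ hR0.ne']
        exact (hf i).mono (closedBall_subset_ball hR1)
      · intro z hz
        refine (hB i z ?_).trans (le_max_left _ _)
        rw [mem_sphere_zero_iff_norm] at hz
        rw [mem_ball_zero_iff, hz]
        exact hR1
    have hlim : Filter.Tendsto (fun R : ℝ => (m.factorial : ℝ) * max B 1 / R ^ m)
        (nhdsWithin 1 (Set.Iio 1)) (nhds ((m.factorial : ℝ) * max B 1 / 1 ^ m)) := by
      refine Filter.Tendsto.mono_left ?_ nhdsWithin_le_nhds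
      refine Filter.Tendsto.div tendsto_const_nhds ?_ (by simp)
      exact (continuous_pow m).tendsto 1
    have h2 : ‖iteratedDeriv m (fun q => f q i) 0‖ ≤ (m.factorial : ℝ) * max B 1 / 1 ^ m := by
      refine ge_of_tendsto hlim ?_
      have h3 : Set.Ioo (0:ℝ) 1 ∈ nhdsWithin (1:ℝ) (Set.Iio 1) := Ioo_mem_nhdsLT one_pos
      filter_upwards [h3] with R hR'
      exact hR R hR'.1 hR'.2
    rw [one_pow, div_one] at h2
    simp only [ha]
    rw [norm_mul, norm_inv, Complex.norm_natCast, inv_mul_le_iff₀ (by positivity)]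
    exact h2
  · intro v hv
    by_contra hcon
    push Not at hcon
    obtain ⟨q, hq, hq0⟩ := hind v hv
    apply hq0
    have h1 : HasSum (fun m => ∑ i, v i * (a m i * q ^ m)) (∑ i, v i * f q i) :=
      hasSum_sum (fun i _ => (hs q hq i).mul_left (v i))
    have h2 : (fun m => ∑ i, v i * (a m i * q ^ m)) = fun _ => 0 := by
      funext m
      have : ∑ i, v i * (a m i * q ^ m) = (∑ i, v i * a m i) * q ^ m := by
        rw [Finset.sum_mul]
        refine Finset.sum_congr rfl fun i _ => ?_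
        ring
      rw [this, hcon m, zero_mul]
    rw [h2] at h1
    exact h1.unique hasSum_zero



private theorem ann_basis {N : ℕ} (X : Set (Fin N → ℤ)) :
    ∃ Φ : Fin (Module.finrank ℚ (Submodule.span ℚ (cst '' X))) → Fin N → ℤ, (∀ j, Φ j ∈ X) ∧
      LinearIndependent ℚ (fun j => cst (Φ j)) ∧
      Submodule.span ℚ (Set.range fun j => cst (Φ j)) = Submodule.span ℚ (cst '' X) := by
  obtain ⟨b, hbs, hspan, hli⟩ := exists_linearIndependent ℚ (cst '' X)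
  have hfin : b.Finite := hli.setFinite
  have : Fintype b := hfin.fintype
  have hcard : Module.finrank ℚ (Submodule.span ℚ (cst '' X)) = Fintype.card b := by
    rw [← hspan, finrank_span_set_eq_card hli, Set.toFinset_card]
  let e : Fin (Module.finrank ℚ (Submodule.span ℚ (cst '' X))) ≃ b :=
    (finCongr hcard).trans (Fintype.equivFin b).symm
  have hc : ∀ x : b, ∃ Ψ ∈ X, cst Ψ = (x : Fin N → ℚ) := fun x => hbs x.2
  choose g hg hg' using hc
  refine ⟨fun j => g (e j), fun j => hg _, ?_, ?_⟩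
  · have h1 : (fun j => cst (g (e j))) = (fun x : b => (x : Fin N → ℚ)) ∘ e := by
      funext j
      exact hg' (e j)
    rw [h1]
    exact hli.comp _ e.injective
  · refine Eq.trans ?_ hspan
    congr 1
    ext y
    constructor
    · rintro ⟨j, rfl⟩
      simp only [hg']
      exact (e j).2
    · intro hy
      refine ⟨e.symm ⟨y, hy⟩, ?_⟩
      simp [hg']


private theorem ann_two {u : ℕ → ℂ} {α : ℕ → ℝ} {M : ℕ} {L c₀ T : ℝ} (hL : 1 ≤ L) (hc : 0 < c₀)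
    (hT : 0 < T) (h1 : ∀ m ≤ M, α m ≤ L * ‖u m‖) (h2 : ∀ m ≤ M, ‖u m‖ ≤ L * α m)
    (h3 : ∀ m, ‖u m‖ ≤ T) (h4 : ∃ m ≤ M, c₀ ≤ α m) {q : ℂ} (hq0 : q ≠ 0) (hq : ‖q‖ ≤ 1 / 2)
    (hq1 : 8 * T * L * ‖q‖ ≤ c₀) (hs : HasSum (fun m => u m * q ^ m) 0) :
    ∃ m₁ ≤ M, ∃ m₂ ≤ M, m₁ < m₂ ∧ 0 < α m₁ ∧ 0 < α m₂ ∧
      α m₁ * ‖q‖ ^ m₁ ≤ (2 * ((M : ℝ) + 1) * L ^ 2) * (α m₂ * ‖q‖ ^ m₂) ∧
      α m₂ * ‖q‖ ^ m₂ ≤ (2 * ((M : ℝ) + 1) * L ^ 2) * (α m₁ * ‖q‖ ^ m₁) := by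
  have hqp : 0 < ‖q‖ := norm_pos_iff.2 hq0
  have hL0 : 0 < L := by linarith
  have hM0 : (0:ℝ) ≤ (M : ℝ) := Nat.cast_nonneg M
  set t : ℕ → ℝ := fun m => ‖u m‖ * ‖q‖ ^ m with ht
  have ht0 : ∀ m, 0 ≤ t m := fun m => by positivity
  obtain ⟨m₀, hm₀, hcm₀⟩ := h4
  obtain ⟨m₁, hm₁, hmax⟩ := Finset.exists_max_image (Finset.range (M + 1)) t ⟨0, by simp⟩
  have hm₁' : m₁ ≤ M := by have := Finset.mem_range.1 hm₁; omega
  have htm₀ : c₀ / L * ‖q‖ ^ M ≤ t m₀ := by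
    have h5 : c₀ / L ≤ ‖u m₀‖ := by
      rw [div_le_iff₀ hL0, mul_comm]
      exact hcm₀.trans (h1 m₀ hm₀)
    have h6 : ‖q‖ ^ M ≤ ‖q‖ ^ m₀ := pow_le_pow_of_le_one hqp.le (by linarith) hm₀
    exact mul_le_mul h5 h6 (by positivity) (norm_nonneg _)
  have htm₁ : c₀ / L * ‖q‖ ^ M ≤ t m₁ := htm₀.trans (hmax m₀ (Finset.mem_range.2 (by omega)))
  have htpos : 0 < t m₁ := lt_of_lt_of_le (by positivity) htm₁
  -- tail
  have htail : ‖∑' m, u (m + (M + 1)) * q ^ (m + (M + 1))‖ ≤ t m₁ / 4 := by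
    have hg : HasSum (fun m : ℕ => T * ‖q‖ ^ (M + 1) * ‖q‖ ^ m) (T * ‖q‖ ^ (M + 1) * (1 - ‖q‖)⁻¹) :=
      (hasSum_geometric_of_lt_one hqp.le (by linarith)).mul_left _
    have h5 := tsum_of_norm_bounded (f := fun m => u (m + (M + 1)) * q ^ (m + (M + 1))) hg (by
      intro m
      rw [norm_mul, norm_pow, pow_add]
      have := h3 (m + (M + 1))
      calc ‖u (m + (M + 1))‖ * (‖q‖ ^ m * ‖q‖ ^ (M + 1)) ≤ T * (‖q‖ ^ m * ‖q‖ ^ (M + 1)) :=
            mul_le_mul_of_nonneg_right this (by positivity)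
        _ = T * ‖q‖ ^ (M + 1) * ‖q‖ ^ m := by ring)
    refine h5.trans ?_
    have h6 : (1 - ‖q‖)⁻¹ ≤ 2 := by
      rw [inv_le_comm₀ (by linarith) (by norm_num)]
      linarith
    have h7 : T * ‖q‖ ^ (M + 1) * (1 - ‖q‖)⁻¹ ≤ T * ‖q‖ ^ (M + 1) * 2 :=
      mul_le_mul_of_nonneg_left h6 (by positivity)
    refine h7.trans ?_
    have h8 : T * ‖q‖ ≤ c₀ / L / 8 := by
      rw [div_div, le_div_iff₀ (by positivity)]
      linarith
    calc T * ‖q‖ ^ (M + 1) * 2 = (T * ‖q‖) * ‖q‖ ^ M * 2 := by ring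
      _ ≤ (c₀ / L / 8) * ‖q‖ ^ M * 2 := by gcongr
      _ = (c₀ / L * ‖q‖ ^ M) / 4 := by ring
      _ ≤ t m₁ / 4 := by linarith
  have hsplit : u m₁ * q ^ m₁ = -(∑ m ∈ (Finset.range (M + 1)).erase m₁, u m * q ^ m) -
      ∑' m, u (m + (M + 1)) * q ^ (m + (M + 1)) := by
    have h5 := hs.summable.sum_add_tsum_nat_add (M + 1)
    rw [hs.tsum_eq, ← Finset.add_sum_erase _ _ hm₁] at h5
    linear_combination h5
  have hbound : t m₁ ≤ ∑ m ∈ (Finset.range (M + 1)).erase m₁, t m + t m₁ / 4 := by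
    have h5 : t m₁ = ‖u m₁ * q ^ m₁‖ := by rw [ht, norm_mul, norm_pow]
    have h6 : ‖u m₁ * q ^ m₁‖ ≤ ∑ m ∈ (Finset.range (M + 1)).erase m₁, t m + t m₁ / 4 := by
      rw [hsplit]
      refine (norm_sub_le _ _).trans (add_le_add ?_ htail)
      rw [norm_neg]
      refine (norm_sum_le _ _).trans (le_of_eq ?_)
      refine Finset.sum_congr rfl fun m _ => ?_
      rw [ht, norm_mul, norm_pow]
    exact h5.le.trans h6
  have hex : ∃ m₂ ∈ (Finset.range (M + 1)).erase m₁, t m₁ ≤ 2 * ((M : ℝ) + 1) * t m₂ := by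
    by_contra hcon
    push Not at hcon
    have h5 : ∑ m ∈ (Finset.range (M + 1)).erase m₁, t m ≤
        ∑ _m ∈ (Finset.range (M + 1)).erase m₁, t m₁ / (2 * ((M : ℝ) + 1)) := by
      refine Finset.sum_le_sum fun m hm => ?_
      rw [le_div_iff₀ (by positivity), mul_comm]
      exact (hcon m hm).le
    rw [Finset.sum_const, Finset.card_erase_of_mem hm₁, Finset.card_range, nsmul_eq_mul] at h5
    have h6 : ((M + 1 - 1 : ℕ) : ℝ) * (t m₁ / (2 * ((M : ℝ) + 1))) ≤ t m₁ / 2 := by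
      rw [Nat.add_sub_cancel, ← mul_div_assoc, div_le_div_iff₀ (by positivity) (by norm_num)]
      nlinarith
    linarith
  obtain ⟨m₂, hm₂, hm₂t⟩ := hex
  have hne : m₂ ≠ m₁ := (Finset.mem_erase.1 hm₂).1
  have hm₂r := (Finset.mem_erase.1 hm₂).2
  have hm₂' : m₂ ≤ M := by have := Finset.mem_range.1 hm₂r; omega
  have htpos₂ : 0 < t m₂ := by
    by_contra h5
    push Not at h5
    have : 2 * ((M : ℝ) + 1) * t m₂ ≤ 0 := mul_nonpos_of_nonneg_of_nonpos (by positivity) h5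
    linarith
  have hαpos : ∀ m ≤ M, 0 < t m → 0 < α m := by
    intro m hm htm
    have h5 : 0 < ‖u m‖ := by
      rcases (norm_nonneg (u m)).lt_or_eq with h | h
      · exact h
      · exfalso
        rw [ht] at htm
        simp only [← h, zero_mul, lt_irrefl] at htm
    have h6 := h2 m hm
    by_contra h7
    push Not at h7
    have : L * α m ≤ 0 := mul_nonpos_of_nonneg_of_nonpos hL0.le h7
    linarith
  have hα₁ := hαpos m₁ hm₁' htpos
  have hα₂ := hαpos m₂ hm₂' htpos₂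
  have hA : α m₁ * ‖q‖ ^ m₁ ≤ (2 * ((M : ℝ) + 1) * L ^ 2) * (α m₂ * ‖q‖ ^ m₂) := by
    calc α m₁ * ‖q‖ ^ m₁ ≤ (L * ‖u m₁‖) * ‖q‖ ^ m₁ :=
          mul_le_mul_of_nonneg_right (h1 m₁ hm₁') (by positivity)
      _ = L * t m₁ := by rw [ht]; ring
      _ ≤ L * (2 * ((M : ℝ) + 1) * t m₂) := mul_le_mul_of_nonneg_left hm₂t hL0.le
      _ = L * (2 * ((M : ℝ) + 1)) * ‖q‖ ^ m₂ * ‖u m₂‖ := by rw [ht]; ring
      _ ≤ L * (2 * ((M : ℝ) + 1)) * ‖q‖ ^ m₂ * (L * α m₂) :=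
          mul_le_mul_of_nonneg_left (h2 m₂ hm₂') (by positivity)
      _ = (2 * ((M : ℝ) + 1) * L ^ 2) * (α m₂ * ‖q‖ ^ m₂) := by ring
  have hBd : α m₂ * ‖q‖ ^ m₂ ≤ (2 * ((M : ℝ) + 1) * L ^ 2) * (α m₁ * ‖q‖ ^ m₁) := by
    calc α m₂ * ‖q‖ ^ m₂ ≤ (L * ‖u m₂‖) * ‖q‖ ^ m₂ :=
          mul_le_mul_of_nonneg_right (h1 m₂ hm₂') (by positivity)
      _ = L * t m₂ := by rw [ht]; ring
      _ ≤ L * t m₁ := mul_le_mul_of_nonneg_left (hmax m₂ hm₂r) hL0.le
      _ = L * ‖q‖ ^ m₁ * ‖u m₁‖ := by rw [ht]; ring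
      _ ≤ L * ‖q‖ ^ m₁ * (L * α m₁) :=
          mul_le_mul_of_nonneg_left (h2 m₁ hm₁') (by positivity)
      _ = 1 * (L ^ 2 * (α m₁ * ‖q‖ ^ m₁)) := by ring
      _ ≤ (2 * ((M : ℝ) + 1)) * (L ^ 2 * (α m₁ * ‖q‖ ^ m₁)) :=
          mul_le_mul_of_nonneg_right (by linarith) (by positivity)
      _ = (2 * ((M : ℝ) + 1) * L ^ 2) * (α m₁ * ‖q‖ ^ m₁) := by ring
  rcases lt_or_gt_of_ne hne with h | h
  · exact ⟨m₂, hm₂', m₁, hm₁', h, hα₂, hα₁, hBd, hA⟩
  · exact ⟨m₁, hm₁', m₂, hm₂', h, hα₁, hα₂, hA, hBd⟩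

/-- from the two terms to the annulus -/
private theorem ann_eta {x y K s : ℝ} {m₁ m₂ : ℕ} (hx : 0 < x) (hy : 0 < y) (hK : 1 ≤ K)
    (hs : 0 < s) (hm : m₁ < m₂) (h1 : x * s ^ m₁ ≤ K * (y * s ^ m₂))
    (h2 : y * s ^ m₂ ≤ K * (x * s ^ m₁)) :
    (x / y) ^ (((m₂ - m₁ : ℕ) : ℝ)⁻¹) / K ≤ s ∧ s ≤ (x / y) ^ (((m₂ - m₁ : ℕ) : ℝ)⁻¹) * K := by
  obtain ⟨e, rfl⟩ := Nat.exists_eq_add_of_lt hm
  have he : m₁ + e + 1 - m₁ = e + 1 := by omega
  rw [he]
  set η : ℝ := (x / y) ^ (((e + 1 : ℕ) : ℝ)⁻¹) with hη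
  have hxy : 0 < x / y := by positivity
  have hη0 : 0 < η := Real.rpow_pos_of_pos hxy _
  have hηe : η ^ (e + 1) = x / y := by
    rw [hη, ← Real.rpow_natCast, ← Real.rpow_mul hxy.le, inv_mul_cancel₀ (by positivity),
      Real.rpow_one]
  have hp : 0 < s ^ m₁ := by positivity
  have h3 : x ≤ K * (y * s ^ (e + 1)) := by
    have : x * s ^ m₁ ≤ (K * (y * s ^ (e + 1))) * s ^ m₁ := by
      refine h1.trans (le_of_eq ?_)
      ring
    exact le_of_mul_le_mul_right this hp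
  have h4 : y * s ^ (e + 1) ≤ K * x := by
    have : (y * s ^ (e + 1)) * s ^ m₁ ≤ (K * x) * s ^ m₁ := by
      refine le_trans (le_of_eq ?_) (h2.trans (le_of_eq ?_)) <;> ring
    exact le_of_mul_le_mul_right this hp
  have hKe : K ≤ K ^ (e + 1) := le_self_pow₀ hK (by omega)
  have hK0 : 0 < K := by linarith
  constructor
  · refine (pow_le_pow_iff_left₀ (by positivity) hs.le (n := e + 1) (by omega)).1 ?_
    rw [div_pow, hηe, div_le_iff₀ (by positivity), div_le_iff₀ hy]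
    calc x ≤ K * (y * s ^ (e + 1)) := h3
      _ ≤ K ^ (e + 1) * (y * s ^ (e + 1)) := mul_le_mul_of_nonneg_right hKe (by positivity)
      _ = s ^ (e + 1) * K ^ (e + 1) * y := by ring
  · refine (pow_le_pow_iff_left₀ hs.le (by positivity) (n := e + 1) (by omega)).1 ?_
    rw [mul_pow, hηe]
    calc s ^ (e + 1) = (y * s ^ (e + 1)) / y := by field_simp
      _ ≤ (K * x) / y := by gcongr
      _ ≤ (K ^ (e + 1) * x) / y := by gcongr
      _ = x / y * K ^ (e + 1) := by ring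


private theorem uu_expand {N d : ℕ} (a : ℕ → Fin N → ℂ) (Φ : Fin d → Fin N → ℤ) (Ψ : Fin N → ℤ)
    (z : Fin d → ℝ) (hz : ∀ i, (Ψ i : ℝ) = ∑ j, z j * (Φ j i : ℝ)) (m : ℕ) :
    uu a Ψ m = ∑ j, (z j : ℂ) * uu a (Φ j) m := by
  unfold uu
  have h1 : ∀ i, (Ψ i : ℂ) = ∑ j, (z j : ℂ) * (Φ j i : ℂ) := by
    intro i
    have := congrArg (fun x : ℝ => (x : ℂ)) (hz i)
    push_cast at this
    exact this
  simp_rw [Finset.mul_sum]
  rw [Finset.sum_comm]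
  refine Finset.sum_congr rfl fun i _ => ?_
  rw [h1 i, Finset.sum_mul]
  refine Finset.sum_congr rfl fun j _ => ?_
  ring

private theorem uu_norm_le {N : ℕ} {a : ℕ → Fin N → ℂ} {B' : ℝ} (hB : 1 ≤ B')
    (haB : ∀ m i, ‖a m i‖ ≤ B') {Ψ : Fin N → ℤ} {H : ℝ} (hH : 1 ≤ H)
    (hΨ : ∀ i, |(Ψ i : ℝ)| ≤ H) (m : ℕ) : ‖uu a Ψ m‖ ≤ ((N : ℝ) + 1) * H * B' := by
  unfold uu
  refine (norm_sum_le _ _).trans ?_
  calc ∑ i, ‖(Ψ i : ℂ) * a m i‖ ≤ ∑ _i : Fin N, H * B' := by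
        refine Finset.sum_le_sum fun i _ => ?_
        rw [norm_mul, Complex.norm_intCast]
        exact mul_le_mul (hΨ i) (haB m i) (norm_nonneg _) (by linarith)
    _ = (N : ℝ) * (H * B') := by simp
    _ ≤ ((N : ℝ) + 1) * H * B' := by nlinarith [mul_nonneg (by linarith : (0:ℝ) ≤ H) (by linarith : (0:ℝ) ≤ B')]

/-- the solutions -/
private def Sol {N : ℕ} (F : Set (Fin N → ℤ)) (a : ℕ → Fin N → ℂ) (H : ℝ) (R : Submodule ℚ (Fin N → ℚ))
    (q : ℂ) : Prop :=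
  ∃ Ψ : Fin N → ℤ, Ψ ∈ F ∧ (∀ i, |(Ψ i : ℝ)| ≤ H) ∧ cst Ψ ∈ R ∧
    HasSum (fun m => uu a Ψ m * q ^ m) 0

/-- one expansion bound -/
private theorem ann_exp {N d : ℕ} (a : ℕ → Fin N → ℂ) (Φ : Fin d → Fin N → ℤ) (Ψ : Fin N → ℤ)
    {H : ℝ} (hH : 1 ≤ H) (hΦ : ∀ j i, |(Φ j i : ℝ)| ≤ H) (hΨ : ∀ i, |(Ψ i : ℝ)| ≤ H)
    (hli : LinearIndependent ℚ (fun j => cst (Φ j)))
    (hmem : cst Ψ ∈ Submodule.span ℚ (Set.range (fun j => cst (Φ j)))) (m : ℕ) :
    ‖uu a Ψ m‖ ≤ ((N.factorial : ℝ) * (((N : ℝ) + 1) * H ^ 2) ^ N) * ∑ j, ‖uu a (Φ j) m‖ := by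
  obtain ⟨z, hz1, hz2⟩ := ann_cramer Φ Ψ hH hΦ hΨ hli hmem
  have hd : d ≤ N := by
    have := hli.fintype_card_le_finrank
    simpa using this
  have hbase : 1 ≤ ((N : ℝ) + 1) * H ^ 2 := by
    have h1 : (1:ℝ) ≤ (N : ℝ) + 1 := by linarith [Nat.cast_nonneg (α := ℝ) N]
    have h2 : (1:ℝ) ≤ H ^ 2 := one_le_pow₀ hH
    nlinarith
  have hZ : (d.factorial : ℝ) * (((N : ℝ) + 1) * H ^ 2) ^ d ≤
      (N.factorial : ℝ) * (((N : ℝ) + 1) * H ^ 2) ^ N := by
    have h1 : (d.factorial : ℝ) ≤ (N.factorial : ℝ) := by exact_mod_cast Nat.factorial_le hd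
    have h2 : (((N : ℝ) + 1) * H ^ 2) ^ d ≤ (((N : ℝ) + 1) * H ^ 2) ^ N :=
      pow_le_pow_right₀ hbase hd
    exact mul_le_mul h1 h2 (by positivity) (by positivity)
  rw [uu_expand a Φ Ψ z hz2 m, Finset.mul_sum]
  refine (norm_sum_le _ _).trans (Finset.sum_le_sum fun j _ => ?_)
  rw [norm_mul, Complex.norm_real, Real.norm_eq_abs]
  exact mul_le_mul_of_nonneg_right ((hz1 j).trans hZ) (norm_nonneg _)

private theorem ann_step {N : ℕ} {a : ℕ → Fin N → ℂ} {B' : ℝ} (hB1 : 1 ≤ B')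
    (haB : ∀ m i, ‖a m i‖ ≤ B') {M : ℕ} {c₀ : ℝ} (hc₀ : 0 < c₀)
    {F : Set (Fin N → ℤ)} (hlow : ∀ Ψ ∈ F, ∃ m ≤ M, c₀ ≤ ‖uu a Ψ m‖) :
    ∃ C : ℕ, ∀ r : ℕ, ∃ P : ℕ, ∀ H : ℝ, 2 ≤ H → ∀ R : Submodule ℚ (Fin N → ℚ),
      Module.finrank ℚ R ≤ r → ∃ A : Finset ℝ, A.card ≤ P ∧ (∀ η ∈ A, 0 < η) ∧
        ∀ q : ℂ, q ≠ 0 → ‖q‖ ≤ 1 / 2 → Sol F a H R q →
          ∃ η ∈ A, η / H ^ C ≤ ‖q‖ ∧ ‖q‖ ≤ η * H ^ C := by
  classical
  -- constants
  set D : ℝ := 2 * ((N : ℝ) + 1) ^ 2 * ((N.factorial : ℝ) * ((N : ℝ) + 1) ^ N) with hD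
  have hN0 : (0:ℝ) ≤ (N : ℝ) := Nat.cast_nonneg N
  have hN1 : (1:ℝ) ≤ (N : ℝ) + 1 := by linarith
  have hD1 : 1 ≤ D := by
    have h1 : (1:ℝ) ≤ (N.factorial : ℝ) := by exact_mod_cast Nat.one_le_iff_ne_zero.2 (Nat.factorial_ne_zero N)
    have h2 : (1:ℝ) ≤ ((N : ℝ) + 1) ^ N := one_le_pow₀ hN1
    have h3 : (1:ℝ) ≤ ((N : ℝ) + 1) ^ 2 := one_le_pow₀ hN1
    have h4 : (1:ℝ) ≤ (N.factorial : ℝ) * ((N : ℝ) + 1) ^ N := one_le_mul_of_one_le_of_one_le h1 h2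
    have h5 : (1:ℝ) ≤ ((N : ℝ) + 1) ^ 2 * ((N.factorial : ℝ) * ((N : ℝ) + 1) ^ N) :=
      one_le_mul_of_one_le_of_one_le h3 h4
    rw [hD, mul_assoc]
    linarith
  obtain ⟨E₁, hE₁⟩ : ∃ E₁ : ℕ, 8 * (((N : ℝ) + 1) * B') * D / c₀ ≤ (2:ℝ) ^ E₁ := by
    obtain ⟨n, hn⟩ := pow_unbounded_of_one_lt (8 * (((N : ℝ) + 1) * B') * D / c₀) (one_lt_two)
    exact ⟨n, hn.le⟩
  obtain ⟨E₂, hE₂⟩ : ∃ E₂ : ℕ, 2 * ((M : ℝ) + 1) * D ^ 2 ≤ (2:ℝ) ^ E₂ := by
    obtain ⟨n, hn⟩ := pow_unbounded_of_one_lt (2 * ((M : ℝ) + 1) * D ^ 2) (one_lt_two)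
    exact ⟨n, hn.le⟩
  refine ⟨E₁ + E₂ + 4 * N + 1, ?_⟩
  set C : ℕ := E₁ + E₂ + 4 * N + 1 with hC
  intro r
  induction r with
  | zero =>
    refine ⟨0, ?_⟩
    intro H hH R hR
    refine ⟨∅, by simp, by simp, ?_⟩
    intro q hq0 hq2 hsol
    obtain ⟨Ψ, hΨ0, hΨH, hΨR, hΨs⟩ := hsol
    exfalso
    have hR0 : R = ⊥ := Submodule.finrank_eq_zero.1 (Nat.le_zero.1 hR)
    rw [hR0, Submodule.mem_bot] at hΨR
    have hz : ∀ i, Ψ i = 0 := by
      intro i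
      have := congrFun hΨR i
      simp only [cst, Pi.zero_apply] at this
      exact_mod_cast this
    obtain ⟨m, -, hm⟩ := hlow Ψ hΨ0
    have h0 : uu a Ψ m = 0 := by
      unfold uu
      refine Finset.sum_eq_zero fun i _ => ?_
      rw [hz i, Int.cast_zero, zero_mul]
    rw [h0, norm_zero] at hm
    linarith
  | succ r ih =>
    obtain ⟨P, hP⟩ := ih
    refine ⟨P + 1 + (M + 1) * (M + 1) + (M + 1) * P, ?_⟩
    intro H hH R hR
    have hH1 : (1:ℝ) ≤ H := by linarith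
    have hH0 : (0:ℝ) < H := by linarith
    set X : Set (Fin N → ℤ) := {Ψ | ((∀ i, |(Ψ i : ℝ)| ≤ H) ∧ cst Ψ ∈ R) ∧ Ψ ∈ F} with hX
    have hXR : Submodule.span ℚ (cst '' X) ≤ R := by
      rw [Submodule.span_le]
      rintro _ ⟨Ψ, hΨ, rfl⟩
      exact hΨ.1.2
    by_cases hcase : Module.finrank ℚ (Submodule.span ℚ (cst '' X)) ≤ r
    · obtain ⟨A, hA1, hA2, hA3⟩ := hP H hH _ hcase
      refine ⟨A, hA1.trans (by nlinarith [Nat.zero_le ((M+1)*P), Nat.zero_le ((M + 1) * (M + 1))]), hA2, ?_⟩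
      intro q hq0 hq2 hsol
      obtain ⟨Ψ, hΨ0, hΨH, hΨR, hΨs⟩ := hsol
      exact hA3 q hq0 hq2 ⟨Ψ, hΨ0, hΨH, Submodule.subset_span ⟨Ψ, ⟨⟨hΨH, hΨR⟩, hΨ0⟩, rfl⟩, hΨs⟩
    push Not at hcase
    -- basis
    obtain ⟨Φ, hΦX, hΦli, hΦsp⟩ := ann_basis X
    have hfin : Module.finrank ℚ (Submodule.span ℚ (cst '' X)) = Module.finrank ℚ R := by
      have := Submodule.finrank_mono hXR
      omega
    have hspR : Submodule.span ℚ (cst '' X) = R :=
      Submodule.eq_of_le_of_finrank_eq hXR hfin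
    set α : ℕ → ℝ := fun m => ∑ j, ‖uu a (Φ j) m‖ with hα
    have hα0 : ∀ m, 0 ≤ α m := fun m => Finset.sum_nonneg fun _ _ => norm_nonneg _
    set Z : ℝ := (N.factorial : ℝ) * (((N : ℝ) + 1) * H ^ 2) ^ N with hZ
    have hbase : 1 ≤ ((N : ℝ) + 1) * H ^ 2 := by
      have h2 : (1:ℝ) ≤ H ^ 2 := one_le_pow₀ hH1
      nlinarith
    have hZ1 : 1 ≤ Z := by
      have h1 : (1:ℝ) ≤ (N.factorial : ℝ) := by
        exact_mod_cast Nat.one_le_iff_ne_zero.2 (Nat.factorial_ne_zero N)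
      exact one_le_mul_of_one_le_of_one_le h1 (one_le_pow₀ hbase)
    set L : ℝ := 2 * ((N : ℝ) + 1) ^ 2 * Z with hL
    have hLD : L = D * H ^ (2 * N) := by
      rw [hL, hZ, hD, mul_pow, ← pow_mul]
      ring
    have hL1 : 1 ≤ L := by
      have h3 : (1:ℝ) ≤ ((N : ℝ) + 1) ^ 2 := one_le_pow₀ hN1
      have h5 : (1:ℝ) ≤ ((N : ℝ) + 1) ^ 2 * Z := one_le_mul_of_one_le_of_one_le h3 hZ1
      rw [hL, mul_assoc]
      linarith
    have hZL : Z ≤ L := by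
      have h3 : (1:ℝ) ≤ ((N : ℝ) + 1) ^ 2 := one_le_pow₀ hN1
      rw [hL]
      nlinarith
    -- exceptional sets
    let S : ℕ → Set (Fin N → ℤ) := fun m => {Ψ | Ψ ∈ X ∧ L * ‖uu a Ψ m‖ < α m}
    have hS : ∀ m, Module.finrank ℚ (Submodule.span ℚ (cst '' S m)) ≤ r := by
      intro m
      by_contra hcon
      push Not at hcon
      have hSX : Submodule.span ℚ (cst '' S m) ≤ R := by
        rw [Submodule.span_le]
        rintro _ ⟨Ψ, hΨ, rfl⟩
        exact hΨ.1.1.2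
      have hSR : Submodule.span ℚ (cst '' S m) = R := by
        refine Submodule.eq_of_le_of_finrank_eq hSX ?_
        have := Submodule.finrank_mono hSX
        omega
      obtain ⟨Θ, hΘX, hΘli, hΘsp⟩ := ann_basis (S m)
      have hne : (S m).Nonempty := by
        by_contra h
        rw [Set.not_nonempty_iff_eq_empty] at h
        rw [h, Set.image_empty, Submodule.span_empty, finrank_bot] at hcon
        omega
      have hαpos : 0 < α m := by
        obtain ⟨Ψ, hΨ⟩ := hne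
        exact lt_of_le_of_lt (by positivity) hΨ.2
      have hΘsum : ∑ k, ‖uu a (Θ k) m‖ ≤ ((N : ℝ) + 1) * (α m / L) := by
        have hcard : (Module.finrank ℚ (Submodule.span ℚ (cst '' S m)) : ℝ) ≤ (N : ℝ) + 1 := by
          have h1 := hΘli.fintype_card_le_finrank
          simp only [Fintype.card_fin, Module.finrank_fintype_fun_eq_card] at h1
          have h2 : (Module.finrank ℚ (Submodule.span ℚ (cst '' S m)) : ℝ) ≤ (N : ℝ) := by
            exact_mod_cast h1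
          linarith
        calc ∑ k, ‖uu a (Θ k) m‖ ≤ ∑ _k : Fin (Module.finrank ℚ (Submodule.span ℚ (cst '' S m))),
              α m / L := by
              refine Finset.sum_le_sum fun k _ => ?_
              rw [le_div_iff₀ (by linarith), mul_comm]
              exact (hΘX k).2.le
          _ = (Module.finrank ℚ (Submodule.span ℚ (cst '' S m)) : ℝ) * (α m / L) := by simp
          _ ≤ ((N : ℝ) + 1) * (α m / L) :=
              mul_le_mul_of_nonneg_right hcard (by positivity)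
      have hΦb : ∀ j, ‖uu a (Φ j) m‖ ≤ Z * (((N : ℝ) + 1) * (α m / L)) := by
        intro j
        have h1 := ann_exp a Θ (Φ j) hH1 (fun k i => (hΘX k).1.1.1 i) (fun i => (hΦX j).1.1 i) hΘli
          (by rw [hΘsp, hSR]; exact (hΦX j).1.2) m
        refine h1.trans ?_
        exact mul_le_mul_of_nonneg_left hΘsum (by linarith)
      have hαb : α m ≤ ((N : ℝ) + 1) * (Z * (((N : ℝ) + 1) * (α m / L))) := by
        have hcard : (Module.finrank ℚ (Submodule.span ℚ (cst '' X)) : ℝ) ≤ (N : ℝ) + 1 := by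
          have h1 := hΦli.fintype_card_le_finrank
          simp only [Fintype.card_fin, Module.finrank_fintype_fun_eq_card] at h1
          have h2 : (Module.finrank ℚ (Submodule.span ℚ (cst '' X)) : ℝ) ≤ (N : ℝ) := by
            exact_mod_cast h1
          linarith
        calc α m ≤ ∑ _j : Fin (Module.finrank ℚ (Submodule.span ℚ (cst '' X))),
              Z * (((N : ℝ) + 1) * (α m / L)) := Finset.sum_le_sum fun j _ => hΦb j
          _ = (Module.finrank ℚ (Submodule.span ℚ (cst '' X)) : ℝ) *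
              (Z * (((N : ℝ) + 1) * (α m / L))) := by simp
          _ ≤ ((N : ℝ) + 1) * (Z * (((N : ℝ) + 1) * (α m / L))) :=
              mul_le_mul_of_nonneg_right hcard (by positivity)
      have h6 : ((N : ℝ) + 1) * (Z * (((N : ℝ) + 1) * (α m / L))) = α m / 2 := by
        rw [hL]
        have : Z ≠ 0 := by linarith
        field_simp
      linarith
    choose A' hA'1 hA'2 hA'3 using fun m => hP H hH _ (hS m)
    let T : Finset ℝ := (Finset.range (M + 1) ×ˢ Finset.range (M + 1)).image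
      (fun p => if 0 < α p.1 ∧ 0 < α p.2 then
        (α p.1 / α p.2) ^ (((p.2 - p.1 : ℕ) : ℝ)⁻¹) else 1)
    refine ⟨{1} ∪ T ∪ (Finset.range (M + 1)).biUnion A', ?_, ?_, ?_⟩
    · have h1 : T.card ≤ (M + 1) * (M + 1) := by
        refine Finset.card_image_le.trans (le_of_eq ?_)
        simp
      have h2 : ((Finset.range (M + 1)).biUnion A').card ≤ (M + 1) * P := by
        have := Finset.card_biUnion_le_card_mul (Finset.range (M + 1)) A' P (fun m _ => hA'1 m)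
        simpa using this
      have h3 := Finset.card_union_le ({1} ∪ T) ((Finset.range (M + 1)).biUnion A')
      have h4 := Finset.card_union_le ({1} : Finset ℝ) T
      rw [Finset.card_singleton] at h4
      omega
    · intro η hη
      rcases Finset.mem_union.1 hη with hη | hη
      · rcases Finset.mem_union.1 hη with hη | hη
        · rw [Finset.mem_singleton.1 hη]
          exact one_pos
        · obtain ⟨p, _, rfl⟩ := Finset.mem_image.1 hη
          split_ifs with hp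
          · exact Real.rpow_pos_of_pos (div_pos hp.1 hp.2) _
          · exact one_pos
      · obtain ⟨m, _, hm⟩ := Finset.mem_biUnion.1 hη
        exact hA'2 m η hm
    intro q hq0 hq2 hsol
    have hqp : 0 < ‖q‖ := norm_pos_iff.2 hq0
    obtain ⟨Ψ, hΨ0, hΨH, hΨR, hΨs⟩ := hsol
    have hΨX : Ψ ∈ X := ⟨⟨hΨH, hΨR⟩, hΨ0⟩
    by_cases hexc : ∃ m ≤ M, Ψ ∈ S m
    · obtain ⟨m, hm, hmS⟩ := hexc
      obtain ⟨η, hη, h1, h2⟩ := hA'3 m q hq0 hq2
        ⟨Ψ, hΨ0, hΨH, Submodule.subset_span ⟨Ψ, hmS, rfl⟩, hΨs⟩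
      exact ⟨η, Finset.mem_union_right _ (Finset.mem_biUnion.2
        ⟨m, Finset.mem_range.2 (by omega), hη⟩), h1, h2⟩
    have hexc' : ∀ m ≤ M, α m ≤ L * ‖uu a Ψ m‖ := by
      intro m hm
      by_contra h
      push Not at h
      exact hexc ⟨m, hm, hΨX, h⟩
    have hub : ∀ m ≤ M, ‖uu a Ψ m‖ ≤ L * α m := by
      intro m _
      have h1 := ann_exp a Φ Ψ hH1 (fun j i => (hΦX j).1.1 i) hΨH hΦli
        (by rw [hΦsp, hspR]; exact hΨR) m
      exact h1.trans (mul_le_mul_of_nonneg_right hZL (hα0 m))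
    have hlow' : ∃ m ≤ M, c₀ ≤ α m := by
      have hpos : 0 < Module.finrank ℚ (Submodule.span ℚ (cst '' X)) := by omega
      let j₀ : Fin (Module.finrank ℚ (Submodule.span ℚ (cst '' X))) := ⟨0, hpos⟩
      obtain ⟨m, hm, hm2⟩ := hlow (Φ j₀) (hΦX j₀).2
      refine ⟨m, hm, hm2.trans ?_⟩
      exact Finset.single_le_sum (f := fun j => ‖uu a (Φ j) m‖) (fun _ _ => norm_nonneg _)
        (Finset.mem_univ j₀)
    have hHC1 : 1 ≤ H ^ C := one_le_pow₀ hH1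
    by_cases hbig : 8 * (((N : ℝ) + 1) * H * B') * L * ‖q‖ ≤ c₀
    · -- small q
      have hT0 : 0 < ((N : ℝ) + 1) * H * B' := by positivity
      obtain ⟨m₁, hm₁, m₂, hm₂, hlt, hα₁, hα₂, hI, hII⟩ := ann_two hL1 hc₀ hT0 hexc' hub
        (fun m => uu_norm_le hB1 haB hH1 hΨH m) hlow' hq0 hq2 hbig hΨs
      set K : ℝ := 2 * ((M : ℝ) + 1) * L ^ 2 with hK
      have hM0 : (0:ℝ) ≤ (M : ℝ) := Nat.cast_nonneg M
      have hK1 : 1 ≤ K := by
        have h1 : (1:ℝ) ≤ L ^ 2 := one_le_pow₀ hL1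
        rw [hK]
        nlinarith
      obtain ⟨h1, h2⟩ := ann_eta hα₁ hα₂ hK1 hqp hlt hI hII
      have hKC : K ≤ H ^ C := by
        have h3 : K = 2 * ((M : ℝ) + 1) * D ^ 2 * H ^ (4 * N) := by
          rw [hK, hLD, mul_pow, ← pow_mul]
          ring
        rw [h3]
        calc 2 * ((M : ℝ) + 1) * D ^ 2 * H ^ (4 * N) ≤ 2 ^ E₂ * H ^ (4 * N) :=
              mul_le_mul_of_nonneg_right hE₂ (by positivity)
          _ ≤ H ^ E₂ * H ^ (4 * N) :=
              mul_le_mul_of_nonneg_right (pow_le_pow_left₀ (by norm_num) hH _) (by positivity)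
          _ = H ^ (E₂ + 4 * N) := (pow_add _ _ _).symm
          _ ≤ H ^ C := pow_le_pow_right₀ hH1 (by omega)
      have hηpos : 0 < (α m₁ / α m₂) ^ (((m₂ - m₁ : ℕ) : ℝ)⁻¹) :=
        Real.rpow_pos_of_pos (div_pos hα₁ hα₂) _
      refine ⟨(α m₁ / α m₂) ^ (((m₂ - m₁ : ℕ) : ℝ)⁻¹), ?_, ?_, ?_⟩
      · refine Finset.mem_union_left _ (Finset.mem_union_right _ ?_)
        refine Finset.mem_image.2 ⟨(m₁, m₂), ?_, ?_⟩
        · rw [Finset.mem_product]
          exact ⟨Finset.mem_range.2 (by omega), Finset.mem_range.2 (by omega)⟩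
        · simp only
          rw [if_pos ⟨hα₁, hα₂⟩]
      · refine le_trans ?_ h1
        exact div_le_div_of_nonneg_left hηpos.le (by linarith) hKC
      · exact h2.trans (mul_le_mul_of_nonneg_left hKC hηpos.le)
    · push Not at hbig
      refine ⟨1, Finset.mem_union_left _ (Finset.mem_union_left _ (Finset.mem_singleton_self _)), ?_, ?_⟩
      · rw [div_le_iff₀ (by positivity)]
        have h3 : 8 * (((N : ℝ) + 1) * H * B') * L / c₀ ≤ H ^ C := by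
          have h4 : 8 * (((N : ℝ) + 1) * H * B') * L / c₀ =
              (8 * (((N : ℝ) + 1) * B') * D / c₀) * H ^ (2 * N + 1) := by
            rw [hLD, pow_succ]
            ring
          rw [h4]
          calc (8 * (((N : ℝ) + 1) * B') * D / c₀) * H ^ (2 * N + 1) ≤ 2 ^ E₁ * H ^ (2 * N + 1) :=
                mul_le_mul_of_nonneg_right hE₁ (by positivity)
            _ ≤ H ^ E₁ * H ^ (2 * N + 1) :=
                mul_le_mul_of_nonneg_right (pow_le_pow_left₀ (by norm_num) hH _) (by positivity)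
            _ = H ^ (E₁ + (2 * N + 1)) := (pow_add _ _ _).symm
            _ ≤ H ^ C := pow_le_pow_right₀ hH1 (by omega)
        rw [div_le_iff₀ hc₀] at h3
        have h5 : c₀ * 1 < c₀ * (‖q‖ * H ^ C) := by
          rw [mul_one]
          calc c₀ < 8 * (((N : ℝ) + 1) * H * B') * L * ‖q‖ := hbig
            _ ≤ (H ^ C * c₀) * ‖q‖ := mul_le_mul_of_nonneg_right h3 hqp.le
            _ = c₀ * (‖q‖ * H ^ C) := by ring
        exact (lt_of_mul_lt_mul_left h5 hc₀.le).le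
      · rw [one_mul]
        linarith

/-- the annuli lemma for a family of integral vectors -/
theorem annC {N n : ℕ} {G : ℂ → Fin n → ℂ} (μ : Fin N → Fin n → ℂ)
    (hG : ∀ k, DifferentiableOn ℂ (fun q => G q k) (ball 0 1))
    {B : ℝ} (hB : ∀ k, ∀ q ∈ ball (0 : ℂ) 1, ‖G q k‖ ≤ B)
    (hind : ∀ c : Fin n → ℂ, c ≠ 0 → ∃ q ∈ ball (0 : ℂ) 1, ∑ k, c k * G q k ≠ 0)
    {c₁ : ℝ} (hc₁ : 0 < c₁) :
    ∃ C P : ℕ, ∀ H : ℝ, 2 ≤ H → ∃ A : Finset ℝ, A.card ≤ P ∧ (∀ η ∈ A, 0 < η) ∧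
      ∀ q : ℂ, q ≠ 0 → ‖q‖ ≤ Real.exp (-4) →
        (∃ Ψ : Fin N → ℤ, (∃ k, c₁ ≤ ‖∑ i, (Ψ i : ℂ) * μ i k‖) ∧ (∀ i, |(Ψ i : ℝ)| ≤ H) ∧
          ∑ k, (∑ i, (Ψ i : ℂ) * μ i k) * G q k = 0) →
        ∃ η ∈ A, η / H ^ C ≤ ‖q‖ ∧ ‖q‖ ≤ η * H ^ C := by
  obtain ⟨b, hb1, hb2, hb3⟩ := ann_taylor hG hB hind
  obtain ⟨M, c₀, hc₀, hlow⟩ := ann_low b hb3
  set a : ℕ → Fin N → ℂ := fun m i => ∑ k, μ i k * b m k with ha
  set B' : ℝ := 1 + ∑ i, ∑ k, ‖μ i k‖ * max B 1 with hB'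
  have hmB : 0 ≤ max B 1 := zero_le_one.trans (le_max_right _ _)
  have hB1 : 1 ≤ B' := by
    have : 0 ≤ ∑ i, ∑ k, ‖μ i k‖ * max B 1 :=
      Finset.sum_nonneg fun i _ => Finset.sum_nonneg fun k _ => mul_nonneg (norm_nonneg _) hmB
    rw [hB']
    linarith
  have haB : ∀ m i, ‖a m i‖ ≤ B' := by
    intro m i
    have h1 : ‖a m i‖ ≤ ∑ k, ‖μ i k‖ * max B 1 := by
      rw [ha]
      refine (norm_sum_le _ _).trans (Finset.sum_le_sum fun k _ => ?_)
      rw [norm_mul]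
      exact mul_le_mul_of_nonneg_left (hb1 m k) (norm_nonneg _)
    have h2 : ∑ k, ‖μ i k‖ * max B 1 ≤ ∑ i, ∑ k, ‖μ i k‖ * max B 1 :=
      Finset.single_le_sum (f := fun i => ∑ k, ‖μ i k‖ * max B 1)
        (fun i _ => Finset.sum_nonneg fun k _ => mul_nonneg (norm_nonneg _) hmB) (Finset.mem_univ i)
    rw [hB']
    linarith
  have huu : ∀ (Ψ : Fin N → ℤ) (m : ℕ), uu a Ψ m = ∑ k, (∑ i, (Ψ i : ℂ) * μ i k) * b m k := by
    intro Ψ m
    unfold uu
    simp_rw [Finset.sum_mul]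
    rw [Finset.sum_comm]
    refine Finset.sum_congr rfl fun i _ => ?_
    rw [ha]
    simp only
    rw [Finset.mul_sum]
    refine Finset.sum_congr rfl fun k _ => ?_
    ring
  obtain ⟨C, hC⟩ := ann_step hB1 haB (M := M) (mul_pos hc₀ hc₁)
    (F := {Ψ | ∃ k, c₁ ≤ ‖∑ i, (Ψ i : ℂ) * μ i k‖}) (by
      rintro Ψ ⟨k, hk⟩
      obtain ⟨m, hm, h1⟩ := hlow (fun k => ∑ i, (Ψ i : ℂ) * μ i k)
      refine ⟨m, hm, ?_⟩
      have h2 : c₁ ≤ ‖(fun k => ∑ i, (Ψ i : ℂ) * μ i k)‖ :=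
        hk.trans (norm_le_pi_norm (fun k => ∑ i, (Ψ i : ℂ) * μ i k) k)
      rw [huu]
      exact (mul_le_mul_of_nonneg_left h2 hc₀.le).trans h1)
  obtain ⟨P, hP⟩ := hC N
  refine ⟨C, P, ?_⟩
  intro H hH
  obtain ⟨A, hA1, hA2, hA3⟩ := hP H hH ⊤ (by simp)
  refine ⟨A, hA1, hA2, ?_⟩
  rintro q hq0 hq ⟨Ψ, hΨ0, hΨH, hΨ⟩
  have he : Real.exp (-4) ≤ 1 / 2 := by
    have h1 : (2:ℝ) ≤ Real.exp 4 := by
      have := Real.add_one_le_exp (4:ℝ)
      linarith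
    rw [Real.exp_neg, one_div]
    exact inv_anti₀ (by norm_num) h1
  have hq2 : ‖q‖ ≤ 1 / 2 := hq.trans he
  have hqb : q ∈ ball (0:ℂ) 1 := by
    rw [mem_ball_zero_iff]
    linarith
  refine hA3 q hq0 hq2 ⟨Ψ, hΨ0, hΨH, Submodule.mem_top, ?_⟩
  have h1 : HasSum (fun m => ∑ k, (∑ i, (Ψ i : ℂ) * μ i k) * (b m k * q ^ m))
      (∑ k, (∑ i, (Ψ i : ℂ) * μ i k) * G q k) :=
    hasSum_sum (fun k _ => (hb2 q hqb k).mul_left _)
  rw [hΨ] at h1
  have h2 : (fun m => uu a Ψ m * q ^ m) =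
      fun m => ∑ k, (∑ i, (Ψ i : ℂ) * μ i k) * (b m k * q ^ m) := by
    funext m
    rw [huu, Finset.sum_mul]
    refine Finset.sum_congr rfl fun k _ => ?_
    ring
  rw [h2]
  exact h1

end Pool.Agent.LGO.KC
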