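import Mathlib
import Pool.Agent.LGO.PWG.CoverH
import Pool.Agent.LGO.KC.Ann

/-!
# LGO/KC: the points of a cusp chart lie in `O(log H)` unit discs, relations with fixed numbers

`κ`, `κ'` are fixed points of the upper half plane.  As `PWG/CoverG.lean`, `PWG/CoverH.lean`, for relations of the form
`z a = g κ` with an integral matrix `g`.  A coordinate `o` which is infinite at the cusp is eliminated by `e o z a = e a z o - Y a`
and `z o = g κ = (g₀₀ κ + g₀₁) / (g₁₀ κ + g₁₁)`; the coefficients of the resulting relation between the functions `Y a` are integral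
polynomials in `κ`, `κ'`, and one of them is bounded below, because `|g₁₀ κ + g₁₁| ≥ min 1 (Im κ)` (`den_low`).
The annuli lemma `annC` applies (`cover_annC`, `cov_famP`).
-/

namespace Pool.Agent.LGO.KC

open MvPolynomial Metric Pool.Agent.LGO.PWG

open Pool.Agent.LGO.PW (CD LH)

variable {mm : ℕ}

/-- points in few rectangles are close to few of them -/
private theorem Cov_net (T : Set ℂ) (A : Finset ℝ) {R : ℝ} (hR : 0 ≤ R)
    (hT : ∀ w ∈ T, |w.im| ≤ Real.pi ∧ ∃ r ∈ A, r - R ≤ w.re ∧ w.re ≤ r + R) :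
    ∃ S : Finset ℂ, (∀ w ∈ S, w ∈ T) ∧ (S.card : ℝ) ≤ A.card * (17 * (4 * R + 2)) ∧
      ∀ w ∈ T, ∃ w₀ ∈ S, ‖w - w₀‖ ≤ 1 := by
  set cell : ℂ → ℤ × ℤ := fun w => (⌊2 * w.re⌋, ⌊2 * w.im⌋) with hcell
  set K : Finset (ℤ × ℤ) :=
    A.biUnion (fun r => Finset.Icc ⌊2 * (r - R)⌋ ⌊2 * (r + R)⌋ ×ˢ Finset.Icc (-8 : ℤ) 8) with hK
  have hmaps : ∀ w ∈ T, cell w ∈ K := by
    intro w hw
    obtain ⟨him, r, hr, h1, h2⟩ := hT w hw
    have hpi : Real.pi < 4 := by linarith [Real.pi_lt_d2]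
    rw [abs_le] at him
    rw [hK, Finset.mem_biUnion]
    refine ⟨r, hr, ?_⟩
    rw [Finset.mem_product, Finset.mem_Icc, Finset.mem_Icc]
    refine ⟨⟨?_, ?_⟩, ?_, ?_⟩
    · exact Int.floor_le_floor (by linarith)
    · exact Int.floor_le_floor (by linarith)
    · change (-8 : ℤ) ≤ ⌊2 * w.im⌋
      rw [Int.le_floor]
      push_cast
      linarith
    · change ⌊2 * w.im⌋ ≤ (8 : ℤ)
      have : (⌊2 * w.im⌋ : ℝ) ≤ 8 := (Int.floor_le _).trans (by linarith)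
      exact_mod_cast this
  have hKcard : (K.card : ℝ) ≤ A.card * (17 * (4 * R + 2)) := by
    have h1 : (K.card : ℝ) ≤ ∑ r ∈ A,
        (((Finset.Icc ⌊2 * (r - R)⌋ ⌊2 * (r + R)⌋ ×ˢ Finset.Icc (-8 : ℤ) 8).card : ℕ) : ℝ) := by
      exact_mod_cast Finset.card_biUnion_le
    refine h1.trans ?_
    rw [← nsmul_eq_mul]
    apply Finset.sum_le_card_nsmul
    intro r _
    rw [Finset.card_product, Int.card_Icc, Int.card_Icc]
    have h2 : (((⌊2 * (r + R)⌋ + 1 - ⌊2 * (r - R)⌋).toNat : ℕ) : ℝ) ≤ 4 * R + 2 := by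
      have h3 : (0 : ℤ) ≤ ⌊2 * (r + R)⌋ + 1 - ⌊2 * (r - R)⌋ := by
        have : ⌊2 * (r - R)⌋ ≤ ⌊2 * (r + R)⌋ := Int.floor_le_floor (by linarith)
        omega
      have h4 : (((⌊2 * (r + R)⌋ + 1 - ⌊2 * (r - R)⌋).toNat : ℕ) : ℝ) =
          ((⌊2 * (r + R)⌋ + 1 - ⌊2 * (r - R)⌋ : ℤ) : ℝ) := by
        rw [← Int.cast_natCast, Int.toNat_of_nonneg h3]
      rw [h4]
      push_cast
      have h5 := Int.floor_le (2 * (r + R))
      have h6 := Int.lt_floor_add_one (2 * (r - R))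
      linarith
    have h7 : ((8 + 1 - (-8 : ℤ)).toNat : ℕ) = 17 := by decide
    rw [h7]
    push_cast
    linarith
  obtain ⟨T', hT'T, hbij⟩ := Set.exists_subset_bijOn T cell
  have hmT' : Set.MapsTo cell T' (K : Set (ℤ × ℤ)) := fun w hw => hmaps w (hT'T hw)
  have hfin : T'.Finite := Set.Finite.of_injOn hmT' hbij.injOn K.finite_toSet
  refine ⟨hfin.toFinset, ?_, ?_, ?_⟩
  · intro w hw
    exact hT'T (hfin.mem_toFinset.1 hw)
  · refine le_trans ?_ hKcard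
    have : hfin.toFinset.card ≤ K.card := by
      apply Finset.card_le_card_of_injOn cell
      · intro w hw
        exact hmT' (by simpa using hw)
      · intro x hx y hy hxy
        exact hbij.injOn (by simpa using hx) (by simpa using hy) hxy
    exact_mod_cast this
  · intro w hw
    obtain ⟨w₀, hw₀, heq⟩ := hbij.surjOn (Set.mem_image_of_mem cell hw)
    refine ⟨w₀, hfin.mem_toFinset.2 hw₀, ?_⟩
    have h1 : ⌊2 * w₀.re⌋ = ⌊2 * w.re⌋ := congrArg Prod.fst heq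
    have h2 : ⌊2 * w₀.im⌋ = ⌊2 * w.im⌋ := congrArg Prod.snd heq
    have h3 := Int.abs_sub_lt_one_of_floor_eq_floor h1
    have h4 := Int.abs_sub_lt_one_of_floor_eq_floor h2
    rw [abs_lt] at h3 h4
    have h5 : |(w - w₀).re| ≤ 1 / 2 := by
      rw [Complex.sub_re, abs_le]
      constructor <;> linarith
    have h6 : |(w - w₀).im| ≤ 1 / 2 := by
      rw [Complex.sub_im, abs_le]
      constructor <;> linarith
    have h7 := Complex.norm_le_abs_re_add_abs_im (w - w₀)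
    linarith

/-- from the annuli lemma to the covering -/
theorem cover_annC {N n : ℕ} {G : ℂ → Fin n → ℂ} (μ : Fin N → Fin n → ℂ)
    (hG : ∀ k, DifferentiableOn ℂ (fun q => G q k) (ball 0 1))
    {B : ℝ} (hB : ∀ k, ∀ q ∈ ball (0 : ℂ) 1, ‖G q k‖ ≤ B)
    (hind : ∀ c : Fin n → ℂ, c ≠ 0 → ∃ q ∈ ball (0 : ℂ) 1, ∑ k, c k * G q k ≠ 0)
    {c₁ : ℝ} (hc₁ : 0 < c₁) {Pt : ℝ → ℂ → Prop} (K : ℕ)
    (hPt : ∀ H : ℝ, 2 ≤ H → ∀ w ∈ CD, Pt H w → ∃ Ψ : Fin N → ℤ,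
      (∃ k, c₁ ≤ ‖∑ i, (Ψ i : ℂ) * μ i k‖) ∧ (∀ i, |(Ψ i : ℝ)| ≤ H ^ K) ∧
      ∑ k, (∑ i, (Ψ i : ℂ) * μ i k) * G (Complex.exp w) k = 0) : Cov Pt := by
  obtain ⟨C, P, hA⟩ := annC μ hG hB hind hc₁
  refine ⟨⌈(P : ℝ) * (17 * (4 * (C * (K + 1 : ℕ)) + 2))⌉₊, ?_⟩
  intro H hH
  have hlogH : 0 ≤ Real.log H := Real.log_nonneg (by linarith)
  have hH0 : 0 < H := by linarith
  have hH2 : 2 ≤ H ^ (K + 1) := hH.trans (le_self_pow₀ (by linarith) (Nat.succ_ne_zero K))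
  obtain ⟨A, hAc, hApos, hAq⟩ := hA (H ^ (K + 1)) hH2
  set T : Set ℂ := {w | w ∈ CD ∧ ‖w‖ ≤ H ∧ Pt H w} with hT
  set R : ℝ := C * ((K + 1 : ℕ) * Real.log H) with hR
  have hR0 : 0 ≤ R := by positivity
  obtain ⟨S, hS1, hS2, hS3⟩ := Cov_net T (A.image Real.log) hR0 (by
    rintro w ⟨hw, hwH, hPtw⟩
    refine ⟨hw.2, ?_⟩
    have hnorm : ‖Complex.exp w‖ = Real.exp w.re := Complex.norm_exp w
    obtain ⟨Φ, hΦ0, hΦ1, hΦ2⟩ := hPt H hH w hw hPtw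
    obtain ⟨η, hη, h1, h2⟩ := hAq (Complex.exp w) (Complex.exp_ne_zero w)
      (by rw [hnorm]; exact Real.exp_le_exp.2 hw.1)
      ⟨Φ, hΦ0, fun i => (hΦ1 i).trans (pow_le_pow_right₀ (by linarith) (Nat.le_succ K)), hΦ2⟩
    have hη0 := hApos η hη
    have hpow : 0 < (H ^ (K + 1)) ^ C := pow_pos (pow_pos hH0 _) C
    refine ⟨Real.log η, Finset.mem_image_of_mem _ hη, ?_, ?_⟩
    · have h3 := Real.log_le_log (by positivity) h1
      rw [hnorm, Real.log_exp, Real.log_div hη0.ne' hpow.ne', Real.log_pow, Real.log_pow] at h3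
      exact h3
    · have h3 := Real.log_le_log (norm_pos_iff.2 (Complex.exp_ne_zero w)) h2
      rw [hnorm, Real.log_exp, Real.log_mul hη0.ne' hpow.ne', Real.log_pow, Real.log_pow] at h3
      exact h3)
  refine ⟨S, fun w hw => ⟨(hS1 w hw).1, (hS1 w hw).2.1⟩, ?_, ?_⟩
  · refine hS2.trans ?_
    have h1 : ((A.image Real.log).card : ℝ) ≤ P := by
      exact_mod_cast Finset.card_image_le.trans hAc
    have hC : (0 : ℝ) ≤ C * (K + 1 : ℕ) := by positivity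
    have h2 : 17 * (4 * R + 2) ≤ 17 * (4 * (C * (K + 1 : ℕ)) + 2) * (1 + Real.log H) := by
      rw [hR]
      nlinarith [mul_nonneg hC hlogH]
    have h5 : 0 ≤ 17 * (4 * R + 2) := by positivity
    have h6 : (P : ℝ) * (17 * (4 * (C * (K + 1 : ℕ)) + 2)) ≤
        ((⌈(P : ℝ) * (17 * (4 * (C * (K + 1 : ℕ)) + 2))⌉₊ : ℕ) : ℝ) := Nat.le_ceil _
    have hP : (0 : ℝ) ≤ P := Nat.cast_nonneg _
    calc ((A.image Real.log).card : ℝ) * (17 * (4 * R + 2)) ≤ P * (17 * (4 * R + 2)) :=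
          mul_le_mul_of_nonneg_right h1 h5
      _ ≤ P * (17 * (4 * (C * (K + 1 : ℕ)) + 2) * (1 + Real.log H)) := mul_le_mul_of_nonneg_left h2 hP
      _ = P * (17 * (4 * (C * (K + 1 : ℕ)) + 2)) * (1 + Real.log H) := by ring
      _ ≤ _ := mul_le_mul_of_nonneg_right h6 (by linarith)
  · intro w hw hwH hPtw
    exact hS3 w ⟨hw, hwH, hPtw⟩

/-- coefficients which are integral polynomials in fixed numbers `θ` -/
theorem cover_annP {n r : ℕ} {G : ℂ → Fin n → ℂ} (θ : Fin r → ℂ)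
    (hG : ∀ k, DifferentiableOn ℂ (fun q => G q k) (ball 0 1))
    {B : ℝ} (hB : ∀ k, ∀ q ∈ ball (0 : ℂ) 1, ‖G q k‖ ≤ B)
    (hind : ∀ c : Fin n → ℂ, c ≠ 0 → ∃ q ∈ ball (0 : ℂ) 1, ∑ k, c k * G q k ≠ 0)
    {c₁ : ℝ} (hc₁ : 0 < c₁) {Pt : ℝ → ℂ → Prop} (K D : ℕ)
    (hPt : ∀ H : ℝ, 2 ≤ H → ∀ w ∈ CD, Pt H w → ∃ p : Fin n → MvPolynomial (Fin r) ℤ,
      (∀ k, hgt (p k) ≤ H ^ K ∧ (p k).totalDegree ≤ D) ∧ (∃ k, c₁ ≤ ‖aeval θ (p k)‖) ∧
      ∑ k, aeval θ (p k) * G (Complex.exp w) k = 0) : Cov Pt := by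
  classical
  set S : Finset (Fin r →₀ ℕ) := (Finsupp.finite_of_degree_le (σ := Fin r) D).toFinset with hSdef
  have hS : ∀ k : Fin r →₀ ℕ, k ∈ S ↔ k.degree ≤ D := by
    intro k
    rw [hSdef, Set.Finite.mem_toFinset, Set.mem_ofPred_eq]
  let E : (Fin n × S) ≃ Fin (Fintype.card (Fin n × S)) := Fintype.equivFin _
  let pw : (Fin r →₀ ℕ) → ℂ := fun m => ∏ j, θ j ^ m j
  have hsum : ∀ (p : Fin n → MvPolynomial (Fin r) ℤ), (∀ k, (p k).totalDegree ≤ D) → ∀ k,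
      ∑ i, (((p (E.symm i).1).coeff (E.symm i).2 : ℤ) : ℂ) *
        (if (E.symm i).1 = k then pw (E.symm i).2 else 0) = aeval θ (p k) := by
    intro p hp k
    rw [Equiv.sum_comp E.symm (fun x : Fin n × S => (((p x.1).coeff x.2 : ℤ) : ℂ) *
        (if x.1 = k then pw x.2 else 0)), Fintype.sum_prod_type, Finset.sum_eq_single k]
    · simp only [if_true]
      have hsub : (p k).support ⊆ S := by
        intro m hm
        rw [hS, Finsupp.degree_eq_sum]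
        have := le_totalDegree hm
        rw [Finsupp.sum_fintype _ _ (fun _ => rfl)] at this
        exact this.trans (hp k)
      rw [aeval_def, eval₂_eq', Finset.sum_coe_sort S (fun m => (((p k).coeff m : ℤ) : ℂ) * pw m)]
      symm
      have h5 : ∑ m ∈ (p k).support, (algebraMap ℤ ℂ) ((p k).coeff m) * ∏ j, θ j ^ (m j) =
          ∑ m ∈ S, (algebraMap ℤ ℂ) ((p k).coeff m) * ∏ j, θ j ^ (m j) := by
        refine Finset.sum_subset hsub fun m _ hm => ?_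
        rw [notMem_support_iff.1 hm, map_zero, zero_mul]
      rw [h5]
      refine Finset.sum_congr rfl fun m _ => ?_
      simp [pw]
    · intro k' _ hk'
      refine Finset.sum_eq_zero fun m _ => ?_
      rw [if_neg hk', mul_zero]
    · intro hk
      exact absurd (Finset.mem_univ k) hk
  refine cover_annC (fun i k => if (E.symm i).1 = k then pw (E.symm i).2 else 0) hG hB hind hc₁ K ?_
  intro H hH w hw hP
  obtain ⟨p, hp1, ⟨k, hk⟩, hp3⟩ := hPt H hH w hw hP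
  have h1 := hsum p fun k => (hp1 k).2
  refine ⟨fun i => (p (E.symm i).1).coeff (E.symm i).2, ⟨k, ?_⟩, ?_, ?_⟩
  · rw [h1 k]
    exact hk
  · exact fun i => (coeff_le_hgt _ _).trans (hp1 _).1
  · refine Eq.trans (Finset.sum_congr rfl fun k _ => ?_) hp3
    rw [h1 k]

/-- families of relations -/
theorem cov_famP {n r : ℕ} {G : ℂ → Fin n → ℂ} (θ : Fin r → ℂ)
    (hG : ∀ k, DifferentiableOn ℂ (fun q => G q k) (ball 0 1))
    {B : ℝ} (hB : ∀ k, ∀ q ∈ ball (0 : ℂ) 1, ‖G q k‖ ≤ B)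
    (hind : ∀ c : Fin n → ℂ, c ≠ 0 → ∃ q ∈ ball (0 : ℂ) 1, ∑ k, c k * G q k ≠ 0)
    {ι : Type*} (Hf : ι → ℝ) (hH : ∀ x, 2 ≤ Hf x) (E : ℕ) (p : Fin n → ι → MvPolynomial (Fin r) ℤ)
    (hp : ∀ k, UB (fun x => ((E + 1 : ℕ) : ℝ) * Hf x) (p k)) {c₁ : ℝ} (hc₁ : 0 < c₁)
    (hlow : ∀ x, ∃ k, c₁ ≤ ‖aeval θ (p k x)‖) {Pt : ℝ → ℂ → Prop}
    (hPt : ∀ H : ℝ, 2 ≤ H → ∀ w ∈ CD, Pt H w → ∃ x : ι, Hf x = H ∧
      ∑ k, aeval θ (p k x) * G (Complex.exp w) k = 0) : Cov Pt := by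
  have hM : ∀ x, (2 : ℝ) ≤ ((E + 1 : ℕ) : ℝ) * Hf x := by
    intro x
    have h1 : (1 : ℝ) ≤ ((E + 1 : ℕ) : ℝ) := by exact_mod_cast Nat.le_add_left 1 E
    have := hH x
    nlinarith
  choose K D hKD using hp
  refine cover_annP θ hG hB hind hc₁ ((E + 2) * ∑ k, K k) (∑ k, D k) ?_
  intro H hH2 w hw hP
  obtain ⟨x, hx, h1⟩ := hPt H hH2 w hw hP
  refine ⟨fun k => p k x, fun k => ⟨?_, ?_⟩, hlow x, h1⟩
  · refine (hKD k x).1.trans ?_
    have h0 : K k ≤ ∑ k, K k := Finset.single_le_sum (f := K) (fun _ _ => Nat.zero_le _)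
      (Finset.mem_univ k)
    refine (pow_le_pow_right₀ (by linarith [hM x]) h0).trans ?_
    show (((E + 1 : ℕ) : ℝ) * Hf x) ^ (∑ k, K k) ≤ H ^ ((E + 2) * ∑ k, K k)
    rw [hx, pow_mul]
    have hH0 : 0 ≤ H := by linarith
    refine pow_le_pow_left₀ (by positivity) ?_ _
    have h3 : ((E + 1 : ℕ) : ℝ) ≤ 2 ^ (E + 1) := by exact_mod_cast Nat.lt_two_pow_self.le
    have h4 : (2 : ℝ) ^ (E + 1) ≤ H ^ (E + 1) := pow_le_pow_left₀ (by norm_num) hH2 _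
    calc ((E + 1 : ℕ) : ℝ) * H ≤ H ^ (E + 1) * H := mul_le_mul_of_nonneg_right (h3.trans h4) hH0
      _ = H ^ (E + 2) := by rw [← pow_succ]
  · exact (hKD k x).2.trans (Finset.single_le_sum (f := D) (fun _ _ => Nat.zero_le _)
      (Finset.mem_univ k))

/-- denominators are bounded below -/
theorem den_low {κ : ℂ} (hκ : 0 < κ.im) : ∃ c : ℝ, 0 < c ∧ c ≤ 1 ∧ ∀ g : Matrix (Fin 2) (Fin 2) ℤ,
    g.det ≠ 0 → c ≤ ‖(g 1 0 : ℂ) * κ + (g 1 1 : ℂ)‖ := by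
  refine ⟨min 1 κ.im, lt_min one_pos hκ, min_le_left _ _, fun g hg => ?_⟩
  by_cases h : g 1 0 = 0
  · have h1 : g 1 1 ≠ 0 := by
      intro h1
      apply hg
      rw [Matrix.det_fin_two, h, h1]
      ring
    rw [h, Int.cast_zero, zero_mul, zero_add, Complex.norm_intCast]
    have h2 : (1 : ℝ) ≤ |(g 1 1 : ℝ)| := by exact_mod_cast Int.one_le_abs h1
    exact (min_le_left _ _).trans h2
  · have h2 : (1 : ℝ) ≤ |(g 1 0 : ℝ)| := by exact_mod_cast Int.one_le_abs h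
    have h3 : |((g 1 0 : ℂ) * κ + (g 1 1 : ℂ)).im| ≤ ‖(g 1 0 : ℂ) * κ + (g 1 1 : ℂ)‖ :=
      Complex.abs_im_le_norm _
    have h4 : ((g 1 0 : ℂ) * κ + (g 1 1 : ℂ)).im = (g 1 0 : ℝ) * κ.im := by simp
    rw [h4, abs_mul, abs_of_pos hκ] at h3
    refine (min_le_right _ _).trans (le_trans ?_ h3)
    nlinarith

private theorem Cov_exp {w : ℂ} (hw : w ∈ LH) : Complex.exp w ∈ ball (0 : ℂ) 1 := by
  rw [mem_ball_zero_iff, Complex.norm_exp, Real.exp_lt_one_iff]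
  exact hw

private theorem Cov_e {e : Fin mm → ℕ} (a : Fin mm) {H : ℝ} (hH : 2 ≤ H) :
    |(((e a : ℕ) : ℤ) : ℝ)| ≤ ((∑ b, e b + 1 : ℕ) : ℝ) * H := by
  have h1 : e a ≤ ∑ b, e b + 1 :=
    (Finset.single_le_sum (f := fun b => e b) (fun _ _ => Nat.zero_le _) (Finset.mem_univ a)).trans
      (Nat.le_succ _)
  have h2 : (e a : ℝ) ≤ ((∑ b, e b + 1 : ℕ) : ℝ) := by exact_mod_cast h1
  rw [Int.cast_natCast, Nat.abs_cast]
  have h3 : (0 : ℝ) ≤ ((∑ b, e b + 1 : ℕ) : ℝ) := Nat.cast_nonneg _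
  nlinarith

private theorem Cov_H (E : ℕ) {H : ℝ} (hH : 2 ≤ H) : H ≤ ((E + 1 : ℕ) : ℝ) * H := by
  have h1 : (1 : ℝ) ≤ ((E + 1 : ℕ) : ℝ) := by exact_mod_cast Nat.le_add_left 1 E
  nlinarith

/-- a finite coordinate related to `κ` -/
theorem cov_fin {e : Fin mm → ℕ} {ψ : Fin mm → ℂ → ℂ} (h : Cusp e ψ) {a : Fin mm} (ha : e a = 0)
    {κ : ℂ} (hκ : 0 < κ.im) : Cov (fun H w => IsoH H κ (cz e ψ a w)) := by
  obtain ⟨B, hC⟩ := h.bd
  obtain ⟨c₁, hc₁, -, hlow⟩ := den_low hκ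
  have hcz : ∀ w, cz e ψ a w = ψ a (Complex.exp w) := by
    intro w
    simp [cz, ha]
  refine cov_famP (G := fun q => ![ψ a q, 1]) ![κ] ?_ (B := max B 1) ?_ ?_
    (ι := {x : ℝ × Matrix (Fin 2) (Fin 2) ℤ // 2 ≤ x.1 ∧ x.2.det ≠ 0 ∧ ∀ i j, |(x.2 i j : ℝ)| ≤ x.1})
    (fun x => x.1.1) (fun x => x.2.1) 0
    (fun k x => ![C (x.1.2 1 0) * X 0 + C (x.1.2 1 1), -(C (x.1.2 0 0) * X 0 + C (x.1.2 0 1))] k)
    ?_ hc₁ ?_ ?_
  · intro k
    fin_cases k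
    · exact h.an a
    · exact differentiableOn_const (c := (1 : ℂ))
  · intro k q hq
    fin_cases k
    · exact (hC a q hq).trans (le_max_left _ _)
    · change ‖(1 : ℂ)‖ ≤ _
      rw [norm_one]
      exact le_max_right _ _
  · intro c hc
    set P : MvPolynomial (Fin mm) ℂ := C (c 0) * X a + C (c 1) with hP
    have hev : ∀ x : Fin mm → ℂ, eval x P = c 0 * x a + c 1 := by
      intro x
      simp [hP]
    have hP0 : P ≠ 0 := by
      intro hz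
      apply hc
      have hval : ∀ u : ℂ, c 0 * u + c 1 = 0 := by
        intro u
        have := hev (fun _ => u)
        rw [hz, map_zero] at this
        exact this.symm
      have e0 := hval 0
      have e1 := hval 1
      funext i
      fin_cases i
      · change c 0 = 0
        linear_combination e1 - e0
      · change c 1 = 0
        linear_combination e0
    obtain ⟨w, hw, hne⟩ := h.ind P hP0
    refine ⟨Complex.exp w, Cov_exp hw, fun hs => hne ?_⟩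
    rw [hev, hcz]
    simp only [Fin.sum_univ_two, Matrix.cons_val_zero, Matrix.cons_val_one, mul_one] at hs
    exact hs
  · intro k
    have hM : ∀ x : {x : ℝ × Matrix (Fin 2) (Fin 2) ℤ // 2 ≤ x.1 ∧ x.2.det ≠ 0 ∧
        ∀ i j, |(x.2 i j : ℝ)| ≤ x.1}, 2 ≤ ((0 + 1 : ℕ) : ℝ) * x.1.1 := fun x =>
      x.2.1.trans (Cov_H 0 x.2.1)
    have hg (i l) : UB (fun x : {x : ℝ × Matrix (Fin 2) (Fin 2) ℤ // 2 ≤ x.1 ∧ x.2.det ≠ 0 ∧
        ∀ i j, |(x.2 i j : ℝ)| ≤ x.1} => ((0 + 1 : ℕ) : ℝ) * x.1.1)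
        (fun x => (C (x.1.2 i l) : MvPolynomial (Fin 1) ℤ)) :=
      UB.int fun x => (x.2.2.2 i l).trans (Cov_H 0 x.2.1)
    fin_cases k
    · exact ((hg 1 0).mul (UB.var 0)).add hM (hg 1 1)
    · exact (((hg 0 0).mul (UB.var 0)).add hM (hg 0 1)).neg
  · intro x
    refine ⟨0, (hlow x.1.2 x.2.2.1).trans (le_of_eq ?_)⟩
    simp only [Matrix.cons_val_zero, map_add, map_mul, aeval_C, aeval_X]
    simp only [eq_intCast]
  · rintro H hH w hw ⟨g, hg, hgH, hm⟩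
    refine ⟨⟨(H, g), hH, hg, hgH⟩, rfl, ?_⟩
    unfold Maps at hm
    rw [hcz] at hm
    simp only [Fin.sum_univ_two, Matrix.cons_val_zero, Matrix.cons_val_one, map_neg, map_add, map_mul,
      aeval_C, aeval_X]
    simp only [eq_intCast]
    linear_combination hm

end Pool.Agent.LGO.KC
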