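import Mathlib
import Pool.Agent.LGO.KC.Cov

/-!
# LGO/KC: the three types of special points with fixed numbers, at a cusp

`o` is infinite at the cusp, `z o = A / B`, `A = g₀₀ κ + g₀₁`, `B = g₁₀ κ + g₁₁`, and `e o z a = e a z o - Y a`.

* `cov_cc`: `z a = A' / B'` with `κ'`: `Y a B B' + (e o A' B - e a A B') = 0`.
* `cov_qc`: `z a` quadratic: `q₀ (e a A - Y B) ^ 2 + q₁ e o B (e a A - Y B) + q₂ (e o B) ^ 2 = 0`.
* `cov_abc`: `z b = h (z a)`: `U b (h₁₀ U a + h₁₁ e o B) = e o B (h₀₀ U a + h₀₁ e o B)`, `U a = e a A - Y a B`, `U b = e b A - Y b B`.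
-/

namespace Pool.Agent.LGO.KC

open MvPolynomial Metric Pool.Agent.LGO.PWG

open Pool.Agent.LGO.PW (CD LH)

variable {mm r : ℕ}

/-- denominator of `g κ` -/
noncomputable def pB (g : Matrix (Fin 2) (Fin 2) ℤ) (j : Fin r) : MvPolynomial (Fin r) ℤ :=
  C (g 1 0) * X j + C (g 1 1)

/-- numerator of `g κ` -/
noncomputable def pA (g : Matrix (Fin 2) (Fin 2) ℤ) (j : Fin r) : MvPolynomial (Fin r) ℤ :=
  C (g 0 0) * X j + C (g 0 1)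

theorem pB_ev (g : Matrix (Fin 2) (Fin 2) ℤ) (j : Fin r) (θ : Fin r → ℂ) :
    aeval θ (pB g j) = (g 1 0 : ℂ) * θ j + (g 1 1 : ℂ) := by
  simp only [pB, map_add, map_mul, aeval_C, aeval_X]
  simp only [eq_intCast]

theorem pA_ev (g : Matrix (Fin 2) (Fin 2) ℤ) (j : Fin r) (θ : Fin r → ℂ) :
    aeval θ (pA g j) = (g 0 0 : ℂ) * θ j + (g 0 1 : ℂ) := by
  simp only [pA, map_add, map_mul, aeval_C, aeval_X]
  simp only [eq_intCast]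

theorem pC_ev (n : ℤ) (θ : Fin r → ℂ) : aeval θ (C n : MvPolynomial (Fin r) ℤ) = (n : ℂ) := by
  rw [aeval_C, eq_intCast]

section UB

variable {ι : Type*} {M : ι → ℝ}

theorem pB_UB (hM : ∀ x, 2 ≤ M x) {g : ι → Matrix (Fin 2) (Fin 2) ℤ}
    (hg : ∀ x i j, |(g x i j : ℝ)| ≤ M x) (j : Fin r) : UB M (fun x => pB (g x) j) :=
  ((UB.int fun x => hg x 1 0).mul (UB.var j)).add hM (UB.int fun x => hg x 1 1)

theorem pA_UB (hM : ∀ x, 2 ≤ M x) {g : ι → Matrix (Fin 2) (Fin 2) ℤ}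
    (hg : ∀ x i j, |(g x i j : ℝ)| ≤ M x) (j : Fin r) : UB M (fun x => pA (g x) j) :=
  ((UB.int fun x => hg x 0 0).mul (UB.var j)).add hM (UB.int fun x => hg x 0 1)

end UB

private theorem CovK_e {e : Fin mm → ℕ} (a : Fin mm) {H : ℝ} (hH : 2 ≤ H) :
    |(((e a : ℕ) : ℤ) : ℝ)| ≤ ((∑ b, e b + 1 : ℕ) : ℝ) * H := by
  have h1 : e a ≤ ∑ b, e b + 1 :=
    (Finset.single_le_sum (f := fun b => e b) (fun _ _ => Nat.zero_le _) (Finset.mem_univ a)).trans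
      (Nat.le_succ _)
  have h2 : (e a : ℝ) ≤ ((∑ b, e b + 1 : ℕ) : ℝ) := by exact_mod_cast h1
  rw [Int.cast_natCast, Nat.abs_cast]
  have h3 : (0 : ℝ) ≤ ((∑ b, e b + 1 : ℕ) : ℝ) := Nat.cast_nonneg _
  nlinarith

private theorem CovK_H (E : ℕ) {H : ℝ} (hH : 2 ≤ H) : H ≤ ((E + 1 : ℕ) : ℝ) * H := by
  have h1 : (1 : ℝ) ≤ ((E + 1 : ℕ) : ℝ) := by exact_mod_cast Nat.le_add_left 1 E
  nlinarith

/-- two integral matrices with entries at most `H` -/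
private def CovK_MM : Type :=
  {x : ℝ × Matrix (Fin 2) (Fin 2) ℤ × Matrix (Fin 2) (Fin 2) ℤ // 2 ≤ x.1 ∧ x.2.1.det ≠ 0 ∧
    x.2.2.det ≠ 0 ∧ (∀ i j, |(x.2.1 i j : ℝ)| ≤ x.1) ∧ (∀ i j, |(x.2.2 i j : ℝ)| ≤ x.1)}

/-- one integral matrix and one quadratic polynomial with entries at most `H` -/
private def CovK_MQ : Type :=
  {x : ℝ × Matrix (Fin 2) (Fin 2) ℤ × (Fin 3 → ℤ) // 2 ≤ x.1 ∧ x.2.1.det ≠ 0 ∧
    x.2.2 0 ≠ 0 ∧ (∀ i j, |(x.2.1 i j : ℝ)| ≤ x.1) ∧ (∀ i, |(x.2.2 i : ℝ)| ≤ x.1)}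

private theorem CovK_det {g : Matrix (Fin 2) (Fin 2) ℤ} (hg : g.det ≠ 0) (h : g 1 0 = 0) :
    g 1 1 ≠ 0 := by
  intro h1
  apply hg
  rw [Matrix.det_fin_two, h, h1]
  ring

/-- `o` is related to `κ`, `a` to `κ'` -/
theorem cov_cc {e : Fin mm → ℕ} {ψ : Fin mm → ℂ → ℂ} (h : Cusp e ψ) {o a : Fin mm} (ho : 0 < e o)
    (hao : a ≠ o) {κ κ' : ℂ} (hκ : 0 < κ.im) (hκ' : 0 < κ'.im) :
    Cov (fun H w => IsoH H κ (cz e ψ o w) ∧ IsoH H κ' (cz e ψ a w)) := by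
  obtain ⟨B, hB⟩ := h.Yf_bd o
  obtain ⟨c₁, hc₁, -, hlow⟩ := den_low hκ
  obtain ⟨c₂, hc₂, -, hlow'⟩ := den_low hκ'
  have hM : ∀ x : CovK_MM, 2 ≤ ((∑ b, e b + 1 : ℕ) : ℝ) * x.1.1 := fun x =>
    x.2.1.trans (CovK_H _ x.2.1)
  have hg (x : CovK_MM) (i j) : |(x.1.2.1 i j : ℝ)| ≤ ((∑ b, e b + 1 : ℕ) : ℝ) * x.1.1 :=
    (x.2.2.2.2.1 i j).trans (CovK_H _ x.2.1)
  have hh (x : CovK_MM) (i j) : |(x.1.2.2 i j : ℝ)| ≤ ((∑ b, e b + 1 : ℕ) : ℝ) * x.1.1 :=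
    (x.2.2.2.2.2 i j).trans (CovK_H _ x.2.1)
  refine cov_famP (G := fun q => ![Yf e ψ o a q, 1]) ![κ, κ'] ?_ (B := max B 1) ?_ ?_
    (ι := CovK_MM) (fun x => x.1.1) (fun x => x.2.1) (∑ b, e b)
    (fun k x => ![pB x.1.2.1 0 * pB x.1.2.2 1, C (e o : ℤ) * pA x.1.2.2 1 * pB x.1.2.1 0 -
      C (e a : ℤ) * pA x.1.2.1 0 * pB x.1.2.2 1] k)
    ?_ (mul_pos hc₁ hc₂) ?_ ?_
  · intro k
    fin_cases k
    · exact h.Yf_diff o a
    · exact differentiableOn_const (c := (1 : ℂ))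
  · intro k q hq
    fin_cases k
    · exact (hB a q hq).trans (le_max_left _ _)
    · change ‖(1 : ℂ)‖ ≤ _
      rw [norm_one]
      exact le_max_right _ _
  · intro c hc
    set P : MvPolynomial (Fin 1) ℂ := C (c 0) * X 0 + C (c 1) with hP
    have hev : ∀ x : Fin 1 → ℂ, eval x P = c 0 * x 0 + c 1 := by
      intro x
      simp [hP]
    have hP0 : P ≠ 0 := by
      intro hz
      apply hc
      have hval : ∀ u : ℂ, c 0 * u + c 1 = 0 := by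
        intro u
        have := hev (fun _ => u)
        rw [hz, map_zero] at this
        exact this.symm
      have e0 := hval 0
      have e1 := hval 1
      funext i
      fin_cases i
      · change c 0 = 0
        linear_combination e1 - e0
      · change c 1 = 0
        linear_combination e0
    obtain ⟨q, hq, hne⟩ := h.ind_Y ho ![a] (fun x y _ => Subsingleton.elim x y)
      (by intro j; fin_cases j; exact hao) P hP0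
    refine ⟨q, hq, fun hs => hne ?_⟩
    rw [hev]
    simp only [Fin.sum_univ_two, Matrix.cons_val_zero, Matrix.cons_val_one, mul_one] at hs
    exact hs
  · intro k
    have u1 : UB (fun x : CovK_MM => ((∑ b, e b + 1 : ℕ) : ℝ) * x.1.1)
        (fun _ => (C (e o : ℤ) : MvPolynomial (Fin 2) ℤ)) := UB.int fun x => CovK_e o x.2.1
    have u2 : UB (fun x : CovK_MM => ((∑ b, e b + 1 : ℕ) : ℝ) * x.1.1)
        (fun _ => (C (e a : ℤ) : MvPolynomial (Fin 2) ℤ)) := UB.int fun x => CovK_e a x.2.1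
    fin_cases k
    · exact (pB_UB hM hg 0).mul (pB_UB hM hh 1)
    · exact ((u1.mul (pA_UB hM hh 1)).mul (pB_UB hM hg 0)).sub hM
        ((u2.mul (pA_UB hM hg 0)).mul (pB_UB hM hh 1))
  · intro x
    refine ⟨0, ?_⟩
    change _ ≤ ‖aeval ![κ, κ'] (pB x.1.2.1 0 * pB x.1.2.2 1)‖
    rw [map_mul, pB_ev, pB_ev, norm_mul]
    exact mul_le_mul (hlow _ x.2.2.1) (hlow' _ x.2.2.2.1) hc₂.le (norm_nonneg _)
  · rintro H hH w hw ⟨⟨g, hg, hgH, hm⟩, ⟨g', hg', hgH', hm'⟩⟩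
    refine ⟨⟨(H, g, g'), hH, hg, hg', hgH, hgH'⟩, rfl, ?_⟩
    unfold Maps at hm hm'
    have h1 := cz_Yf e ψ o a w
    simp only [Fin.sum_univ_two, Matrix.cons_val_zero, Matrix.cons_val_one, map_sub, map_mul, pB_ev,
      pA_ev, pC_ev, Int.cast_natCast, mul_one]
    linear_combination ((g 1 0 : ℂ) * κ + (g 1 1 : ℂ)) * ((g' 1 0 : ℂ) * κ' + (g' 1 1 : ℂ)) * h1 -
      (e o : ℂ) * ((g 1 0 : ℂ) * κ + (g 1 1 : ℂ)) * hm' +
      (e a : ℂ) * ((g' 1 0 : ℂ) * κ' + (g' 1 1 : ℂ)) * hm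

private theorem CovK_quad {x : ℂ} (hx : 0 < x.im) {q : Fin 3 → ℤ} (hq : q ≠ 0)
    (h : (q 0 : ℂ) * x ^ 2 + (q 1 : ℂ) * x + (q 2 : ℂ) = 0) : q 0 ≠ 0 := by
  intro h0
  apply hq
  rw [h0, Int.cast_zero, zero_mul, zero_add] at h
  have h1 : (q 1 : ℝ) * x.im = 0 := by
    have h2 := congrArg Complex.im h
    simpa using h2
  have h3 : (q 1 : ℝ) = 0 := by
    rcases mul_eq_zero.mp h1 with h4 | h4
    · exact h4
    · exact absurd h4 hx.ne'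
  have h5 : q 1 = 0 := by exact_mod_cast h3
  have h6 : q 2 = 0 := by
    rw [h5, Int.cast_zero, zero_mul, zero_add] at h
    exact_mod_cast h
  funext k
  fin_cases k
  · exact h0
  · exact h5
  · exact h6

private theorem CovK_one {n : ℤ} (hn : n ≠ 0) : (1 : ℝ) ≤ ‖(n : ℂ)‖ := by
  rw [Complex.norm_intCast]
  exact_mod_cast Int.one_le_abs hn

/-- `a` is quadratic, `o` is related to `κ` -/
theorem cov_qc {e : Fin mm → ℕ} {ψ : Fin mm → ℂ → ℂ} (h : Cusp e ψ) {o a : Fin mm} (ho : 0 < e o)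
    (hao : a ≠ o) {κ : ℂ} (hκ : 0 < κ.im) :
    Cov (fun H w => QuadH H (cz e ψ a w) ∧ IsoH H κ (cz e ψ o w)) := by
  obtain ⟨B, hB⟩ := h.Yf_bd o
  obtain ⟨c₁, hc₁, -, hlow⟩ := den_low hκ
  have hM : ∀ x : CovK_MQ, 2 ≤ ((∑ b, e b + 1 : ℕ) : ℝ) * x.1.1 := fun x =>
    x.2.1.trans (CovK_H _ x.2.1)
  have hg (x : CovK_MQ) (i j) : |(x.1.2.1 i j : ℝ)| ≤ ((∑ b, e b + 1 : ℕ) : ℝ) * x.1.1 :=
    (x.2.2.2.2.1 i j).trans (CovK_H _ x.2.1)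
  have hh (x : CovK_MQ) (i) : |(x.1.2.2 i : ℝ)| ≤ ((∑ b, e b + 1 : ℕ) : ℝ) * x.1.1 :=
    (x.2.2.2.2.2 i).trans (CovK_H _ x.2.1)
  refine cov_famP (G := fun q => ![Yf e ψ o a q ^ 2, Yf e ψ o a q, 1]) ![κ] ?_
    (B := max B 1 ^ 2) ?_ ?_
    (ι := CovK_MQ) (fun x => x.1.1) (fun x => x.2.1) (∑ b, e b)
    (fun k x => ![C (x.1.2.2 0) * (pB x.1.2.1 0 * pB x.1.2.1 0),
      -(C (x.1.2.2 0) * (C (e a : ℤ) * (pA x.1.2.1 0 * pB x.1.2.1 0)) +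
        C (x.1.2.2 0) * (C (e a : ℤ) * (pA x.1.2.1 0 * pB x.1.2.1 0)) +
        C (x.1.2.2 1) * (C (e o : ℤ) * (pB x.1.2.1 0 * pB x.1.2.1 0))),
      C (x.1.2.2 0) * ((C (e a : ℤ) * pA x.1.2.1 0) * (C (e a : ℤ) * pA x.1.2.1 0)) +
        C (x.1.2.2 1) * ((C (e o : ℤ) * pB x.1.2.1 0) * (C (e a : ℤ) * pA x.1.2.1 0)) +
        C (x.1.2.2 2) * ((C (e o : ℤ) * pB x.1.2.1 0) * (C (e o : ℤ) * pB x.1.2.1 0))] k)
    ?_ (mul_pos hc₁ hc₁) ?_ ?_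
  · intro k
    fin_cases k
    · exact (h.Yf_diff o a).pow 2
    · exact h.Yf_diff o a
    · exact differentiableOn_const (c := (1 : ℂ))
  · have hB1 : (1 : ℝ) ≤ max B 1 := le_max_right _ _
    intro k q hq
    have hY : ‖Yf e ψ o a q‖ ≤ max B 1 := (hB a q hq).trans (le_max_left _ _)
    fin_cases k
    · change ‖Yf e ψ o a q ^ 2‖ ≤ _
      rw [norm_pow]
      exact pow_le_pow_left₀ (norm_nonneg _) hY 2
    · change ‖Yf e ψ o a q‖ ≤ _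
      nlinarith
    · change ‖(1 : ℂ)‖ ≤ _
      rw [norm_one]
      nlinarith
  · intro c hc
    set P : MvPolynomial (Fin 1) ℂ := C (c 0) * X 0 ^ 2 + C (c 1) * X 0 + C (c 2) with hP
    have hev : ∀ x : Fin 1 → ℂ, eval x P = c 0 * x 0 ^ 2 + c 1 * x 0 + c 2 := by
      intro x
      simp [hP]
    have hP0 : P ≠ 0 := by
      intro hz
      apply hc
      have hval : ∀ u : ℂ, c 0 * u ^ 2 + c 1 * u + c 2 = 0 := by
        intro u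
        have := hev (fun _ => u)
        rw [hz, map_zero] at this
        exact this.symm
      have e0 := hval 0
      have e1 := hval 1
      have e2 := hval (-1)
      funext i
      fin_cases i
      · change c 0 = 0
        linear_combination (e1 + e2) / 2 - e0
      · change c 1 = 0
        linear_combination (e1 - e2) / 2
      · change c 2 = 0
        linear_combination e0
    obtain ⟨q, hq, hne⟩ := h.ind_Y ho ![a] (fun x y _ => Subsingleton.elim x y)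
      (by intro j; fin_cases j; exact hao) P hP0
    refine ⟨q, hq, fun hs => hne ?_⟩
    rw [hev]
    simp only [Fin.sum_univ_three, Matrix.cons_val_zero, Matrix.cons_val_one, Matrix.cons_val,
      mul_one] at hs
    exact hs
  · intro k
    have u1 : UB (fun x : CovK_MQ => ((∑ b, e b + 1 : ℕ) : ℝ) * x.1.1)
        (fun _ => (C (e o : ℤ) : MvPolynomial (Fin 1) ℤ)) := UB.int fun x => CovK_e o x.2.1
    have u2 : UB (fun x : CovK_MQ => ((∑ b, e b + 1 : ℕ) : ℝ) * x.1.1)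
        (fun _ => (C (e a : ℤ) : MvPolynomial (Fin 1) ℤ)) := UB.int fun x => CovK_e a x.2.1
    have uq (i) : UB (fun x : CovK_MQ => ((∑ b, e b + 1 : ℕ) : ℝ) * x.1.1)
        (fun x => (C (x.1.2.2 i) : MvPolynomial (Fin 1) ℤ)) := UB.int fun x => hh x i
    have uA := pA_UB hM hg (0 : Fin 1)
    have uB := pB_UB hM hg (0 : Fin 1)
    fin_cases k
    · exact (uq 0).mul (uB.mul uB)
    · exact ((((uq 0).mul (u2.mul (uA.mul uB))).add hM ((uq 0).mul (u2.mul (uA.mul uB)))).add hM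
        ((uq 1).mul (u1.mul (uB.mul uB)))).neg
    · exact (((uq 0).mul ((u2.mul uA).mul (u2.mul uA))).add hM
        ((uq 1).mul ((u1.mul uB).mul (u2.mul uA)))).add hM
        ((uq 2).mul ((u1.mul uB).mul (u1.mul uB)))
  · intro x
    refine ⟨0, ?_⟩
    change _ ≤ ‖aeval ![κ] (C (x.1.2.2 0) * (pB x.1.2.1 0 * pB x.1.2.1 0))‖
    rw [map_mul, map_mul, pB_ev, pC_ev, norm_mul, norm_mul]
    have h1 := CovK_one x.2.2.2.1
    have h2 := hlow _ x.2.2.1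
    have h3 : c₁ * c₁ ≤ ‖(x.1.2.1 1 0 : ℂ) * κ + (x.1.2.1 1 1 : ℂ)‖ *
        ‖(x.1.2.1 1 0 : ℂ) * κ + (x.1.2.1 1 1 : ℂ)‖ := mul_le_mul h2 h2 hc₁.le (norm_nonneg _)
    have h4 : 0 ≤ c₁ * c₁ := by positivity
    change _ ≤ ‖(x.1.2.2 0 : ℂ)‖ * (‖(x.1.2.1 1 0 : ℂ) * κ + (x.1.2.1 1 1 : ℂ)‖ *
        ‖(x.1.2.1 1 0 : ℂ) * κ + (x.1.2.1 1 1 : ℂ)‖)
    nlinarith
  · rintro H hH w hw ⟨⟨him, q, hq, hqH, hqr⟩, ⟨g, hg, hgH, hm⟩⟩
    refine ⟨⟨(H, g, q), hH, hg, CovK_quad him hq hqr, hgH, hqH⟩, rfl, ?_⟩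
    unfold Maps at hm
    have h1 := cz_Yf e ψ o a w
    simp only [Fin.sum_univ_three, Matrix.cons_val_zero, Matrix.cons_val_one, Matrix.cons_val,
      map_add, map_neg, map_mul, pB_ev, pA_ev, pC_ev, Int.cast_natCast, mul_one]
    linear_combination ((e o : ℂ) * ((g 1 0 : ℂ) * κ + (g 1 1 : ℂ))) ^ 2 * hqr -
      ((q 0 : ℂ) * (((e a : ℂ) * ((g 0 0 : ℂ) * κ + (g 0 1 : ℂ)) - ((g 1 0 : ℂ) * κ + (g 1 1 : ℂ)) * Yf e ψ o a (Complex.exp w)) +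
        (e o : ℂ) * ((g 1 0 : ℂ) * κ + (g 1 1 : ℂ)) * cz e ψ a w) + (q 1 : ℂ) * ((e o : ℂ) * ((g 1 0 : ℂ) * κ + (g 1 1 : ℂ)))) *
      ((e a : ℂ) * hm + ((g 1 0 : ℂ) * κ + (g 1 1 : ℂ)) * h1)

/-- `b` is related to `a`, `o` to `κ` -/
theorem cov_abc {e : Fin mm → ℕ} {ψ : Fin mm → ℂ → ℂ} (h : Cusp e ψ) {o a b : Fin mm} (ho : 0 < e o)
    (hao : a ≠ o) (hbo : b ≠ o) (hab : a ≠ b) {κ : ℂ} (hκ : 0 < κ.im) :
    Cov (fun H w => IsoH H (cz e ψ a w) (cz e ψ b w) ∧ IsoH H κ (cz e ψ o w)) := by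
  obtain ⟨B, hB⟩ := h.Yf_bd o
  obtain ⟨c₁, hc₁, -, hlow⟩ := den_low hκ
  have hi : Function.Injective ![a, b] := by
    intro x y hxy
    fin_cases x <;> fin_cases y <;> simp_all [eq_comm]
  have hM : ∀ x : CovK_MM, 2 ≤ ((∑ b, e b + 1 : ℕ) : ℝ) * x.1.1 := fun x =>
    x.2.1.trans (CovK_H _ x.2.1)
  have hg (x : CovK_MM) (i j) : |(x.1.2.1 i j : ℝ)| ≤ ((∑ b, e b + 1 : ℕ) : ℝ) * x.1.1 :=
    (x.2.2.2.2.1 i j).trans (CovK_H _ x.2.1)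
  have hh (x : CovK_MM) (i j) : |(x.1.2.2 i j : ℝ)| ≤ ((∑ b, e b + 1 : ℕ) : ℝ) * x.1.1 :=
    (x.2.2.2.2.2 i j).trans (CovK_H _ x.2.1)
  refine cov_famP (G := fun q => ![Yf e ψ o a q * Yf e ψ o b q, Yf e ψ o b q, Yf e ψ o a q, 1]) ![κ] ?_
    (B := max B 1 ^ 2) ?_ ?_
    (ι := CovK_MM) (fun x => x.1.1) (fun x => x.2.1) (∑ b, e b)
    (fun k x => ![C (x.1.2.2 1 0) * (pB x.1.2.1 0 * pB x.1.2.1 0),
      -(pB x.1.2.1 0 * (C (x.1.2.2 1 0) * (C (e a : ℤ) * pA x.1.2.1 0) +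
        C (x.1.2.2 1 1) * (C (e o : ℤ) * pB x.1.2.1 0))),
      C (x.1.2.2 0 0) * (C (e o : ℤ) * (pB x.1.2.1 0 * pB x.1.2.1 0)) -
        C (x.1.2.2 1 0) * (C (e b : ℤ) * (pA x.1.2.1 0 * pB x.1.2.1 0)),
      (C (e b : ℤ) * pA x.1.2.1 0) * (C (x.1.2.2 1 0) * (C (e a : ℤ) * pA x.1.2.1 0) +
        C (x.1.2.2 1 1) * (C (e o : ℤ) * pB x.1.2.1 0)) -
      (C (e o : ℤ) * pB x.1.2.1 0) * (C (x.1.2.2 0 0) * (C (e a : ℤ) * pA x.1.2.1 0) +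
        C (x.1.2.2 0 1) * (C (e o : ℤ) * pB x.1.2.1 0))] k)
    ?_ (mul_pos hc₁ hc₁) ?_ ?_
  · intro k
    fin_cases k
    · exact (h.Yf_diff o a).mul (h.Yf_diff o b)
    · exact h.Yf_diff o b
    · exact h.Yf_diff o a
    · exact differentiableOn_const (c := (1 : ℂ))
  · have hB1 : (1 : ℝ) ≤ max B 1 := le_max_right _ _
    intro k q hq
    have hYa : ‖Yf e ψ o a q‖ ≤ max B 1 := (hB a q hq).trans (le_max_left _ _)
    have hYb : ‖Yf e ψ o b q‖ ≤ max B 1 := (hB b q hq).trans (le_max_left _ _)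
    fin_cases k
    · change ‖Yf e ψ o a q * Yf e ψ o b q‖ ≤ _
      rw [norm_mul, pow_two]
      exact mul_le_mul hYa hYb (norm_nonneg _) (by linarith)
    · change ‖Yf e ψ o b q‖ ≤ _
      nlinarith
    · change ‖Yf e ψ o a q‖ ≤ _
      nlinarith
    · change ‖(1 : ℂ)‖ ≤ _
      rw [norm_one]
      nlinarith
  · intro c hc
    set P : MvPolynomial (Fin 2) ℂ := C (c 0) * X 0 * X 1 + C (c 1) * X 1 + C (c 2) * X 0 + C (c 3) with hP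
    have hev : ∀ x : Fin 2 → ℂ, eval x P = c 0 * (x 0 * x 1) + c 1 * x 1 + c 2 * x 0 + c 3 := by
      intro x
      simp only [hP, map_add, map_mul, eval_C, eval_X]
      ring
    have hP0 : P ≠ 0 := by
      intro hz
      apply hc
      have hval : ∀ x : Fin 2 → ℂ, c 0 * (x 0 * x 1) + c 1 * x 1 + c 2 * x 0 + c 3 = 0 := by
        intro x
        have := hev x
        rw [hz, map_zero] at this
        exact this.symm
      have e0 := hval ![0, 0]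
      have e1 := hval ![1, 0]
      have e2 := hval ![0, 1]
      have e3 := hval ![1, 1]
      simp only [Matrix.cons_val_zero, Matrix.cons_val_one] at e0 e1 e2 e3
      funext i
      fin_cases i
      · change c 0 = 0
        linear_combination e3 - e1 - e2 + e0
      · change c 1 = 0
        linear_combination e2 - e0
      · change c 2 = 0
        linear_combination e1 - e0
      · change c 3 = 0
        linear_combination e0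
    obtain ⟨q, hq, hne⟩ := h.ind_Y ho ![a, b] hi
      (by intro j; fin_cases j; exacts [hao, hbo]) P hP0
    refine ⟨q, hq, fun hs => hne ?_⟩
    rw [hev]
    simp only [Fin.sum_univ_four, Matrix.cons_val_zero, Matrix.cons_val_one, Matrix.cons_val,
      mul_one] at hs
    exact hs
  · intro k
    have u1 : UB (fun x : CovK_MM => ((∑ b, e b + 1 : ℕ) : ℝ) * x.1.1)
        (fun _ => (C (e o : ℤ) : MvPolynomial (Fin 1) ℤ)) := UB.int fun x => CovK_e o x.2.1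
    have u2 : UB (fun x : CovK_MM => ((∑ b, e b + 1 : ℕ) : ℝ) * x.1.1)
        (fun _ => (C (e a : ℤ) : MvPolynomial (Fin 1) ℤ)) := UB.int fun x => CovK_e a x.2.1
    have u3 : UB (fun x : CovK_MM => ((∑ b, e b + 1 : ℕ) : ℝ) * x.1.1)
        (fun _ => (C (e b : ℤ) : MvPolynomial (Fin 1) ℤ)) := UB.int fun x => CovK_e b x.2.1
    have uh (i j) : UB (fun x : CovK_MM => ((∑ b, e b + 1 : ℕ) : ℝ) * x.1.1)
        (fun x => (C (x.1.2.2 i j) : MvPolynomial (Fin 1) ℤ)) := UB.int fun x => hh x i j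
    have uA := pA_UB hM hg (0 : Fin 1)
    have uB := pB_UB hM hg (0 : Fin 1)
    fin_cases k
    · exact (uh 1 0).mul (uB.mul uB)
    · exact (uB.mul (((uh 1 0).mul (u2.mul uA)).add hM ((uh 1 1).mul (u1.mul uB)))).neg
    · exact ((uh 0 0).mul (u1.mul (uB.mul uB))).sub hM ((uh 1 0).mul (u3.mul (uA.mul uB)))
    · exact ((u3.mul uA).mul (((uh 1 0).mul (u2.mul uA)).add hM ((uh 1 1).mul (u1.mul uB)))).sub hM
        ((u1.mul uB).mul (((uh 0 0).mul (u2.mul uA)).add hM ((uh 0 1).mul (u1.mul uB))))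
  · intro x
    have h2 := hlow _ x.2.2.1
    have h3 : c₁ * c₁ ≤ ‖(x.1.2.1 1 0 : ℂ) * κ + (x.1.2.1 1 1 : ℂ)‖ *
        ‖(x.1.2.1 1 0 : ℂ) * κ + (x.1.2.1 1 1 : ℂ)‖ := mul_le_mul h2 h2 hc₁.le (norm_nonneg _)
    have h4 : 0 ≤ c₁ * c₁ := by positivity
    by_cases h10 : x.1.2.2 1 0 = 0
    · refine ⟨1, ?_⟩
      have h11 := CovK_det x.2.2.2.1 h10
      change _ ≤ ‖aeval ![κ] (-(pB x.1.2.1 0 * (C (x.1.2.2 1 0) * (C (e a : ℤ) * pA x.1.2.1 0) +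
        C (x.1.2.2 1 1) * (C (e o : ℤ) * pB x.1.2.1 0))))‖
      rw [h10, map_neg, map_mul, map_add, map_mul, map_mul, map_mul, pB_ev, pC_ev, pC_ev, pC_ev, map_mul,
        Int.cast_zero, zero_mul, zero_add, pC_ev, pB_ev, norm_neg, norm_mul, norm_mul, norm_mul]
      have h5 := CovK_one h11
      have h6 : (1 : ℝ) ≤ ‖(((e o : ℕ) : ℤ) : ℂ)‖ := CovK_one (by exact_mod_cast ho.ne')
      change c₁ * c₁ ≤ ‖(x.1.2.1 1 0 : ℂ) * κ + (x.1.2.1 1 1 : ℂ)‖ * (‖(x.1.2.2 1 1 : ℂ)‖ *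
        (‖(((e o : ℕ) : ℤ) : ℂ)‖ * ‖(x.1.2.1 1 0 : ℂ) * κ + (x.1.2.1 1 1 : ℂ)‖))
      set b := ‖(x.1.2.1 1 0 : ℂ) * κ + (x.1.2.1 1 1 : ℂ)‖
      have h7 : 1 * 1 ≤ ‖(x.1.2.2 1 1 : ℂ)‖ * ‖(((e o : ℕ) : ℤ) : ℂ)‖ :=
        mul_le_mul h5 h6 zero_le_one (norm_nonneg _)
      have h8 : 0 ≤ b * b := h4.trans h3
      calc c₁ * c₁ ≤ b * b := h3
        _ ≤ (‖(x.1.2.2 1 1 : ℂ)‖ * ‖(((e o : ℕ) : ℤ) : ℂ)‖) * (b * b) := by nlinarith
        _ = _ := by ring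
    · refine ⟨0, ?_⟩
      change _ ≤ ‖aeval ![κ] (C (x.1.2.2 1 0) * (pB x.1.2.1 0 * pB x.1.2.1 0))‖
      rw [map_mul, map_mul, pB_ev, pC_ev, norm_mul, norm_mul]
      have h1 := CovK_one h10
      change _ ≤ ‖(x.1.2.2 1 0 : ℂ)‖ * (‖(x.1.2.1 1 0 : ℂ) * κ + (x.1.2.1 1 1 : ℂ)‖ *
        ‖(x.1.2.1 1 0 : ℂ) * κ + (x.1.2.1 1 1 : ℂ)‖)
      nlinarith
  · rintro H hH w hw ⟨⟨f, hf, hfH, hn⟩, ⟨g, hg, hgH, hm⟩⟩
    refine ⟨⟨(H, g, f), hH, hg, hf, hgH, hfH⟩, rfl, ?_⟩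
    unfold Maps at hm hn
    have h1 := cz_Yf e ψ o a w
    have h2 := cz_Yf e ψ o b w
    simp only [Fin.sum_univ_four, Matrix.cons_val_zero, Matrix.cons_val_one, Matrix.cons_val,
      map_add, map_sub, map_neg, map_mul, pB_ev, pA_ev, pC_ev, Int.cast_natCast, mul_one]
    have h3 : (e o : ℂ) * ((g 1 0 : ℂ) * κ + (g 1 1 : ℂ)) * cz e ψ b w * ((f 1 0 : ℂ) * ((e o : ℂ) * ((g 1 0 : ℂ) * κ + (g 1 1 : ℂ)) * cz e ψ a w) +
        (f 1 1 : ℂ) * ((e o : ℂ) * ((g 1 0 : ℂ) * κ + (g 1 1 : ℂ)))) = (e o : ℂ) * ((g 1 0 : ℂ) * κ + (g 1 1 : ℂ)) * ((f 0 0 : ℂ) * ((e o : ℂ) * ((g 1 0 : ℂ) * κ + (g 1 1 : ℂ)) * cz e ψ a w) +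
        (f 0 1 : ℂ) * ((e o : ℂ) * ((g 1 0 : ℂ) * κ + (g 1 1 : ℂ)))) := by
      linear_combination ((e o : ℂ) * ((g 1 0 : ℂ) * κ + (g 1 1 : ℂ))) ^ 2 * hn
    linear_combination h3 - ((f 1 0 : ℂ) * ((e a : ℂ) * ((g 0 0 : ℂ) * κ + (g 0 1 : ℂ)) - ((g 1 0 : ℂ) * κ + (g 1 1 : ℂ)) * Yf e ψ o a (Complex.exp w)) +
        (f 1 1 : ℂ) * ((e o : ℂ) * ((g 1 0 : ℂ) * κ + (g 1 1 : ℂ)))) * ((e b : ℂ) * hm + ((g 1 0 : ℂ) * κ + (g 1 1 : ℂ)) * h2) -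
      ((e o : ℂ) * ((g 1 0 : ℂ) * κ + (g 1 1 : ℂ)) * cz e ψ b w * (f 1 0 : ℂ) - (e o : ℂ) * ((g 1 0 : ℂ) * κ + (g 1 1 : ℂ)) * (f 0 0 : ℂ)) *
        ((e a : ℂ) * hm + ((g 1 0 : ℂ) * κ + (g 1 1 : ℂ)) * h1)

/-- a pair, and `2` related to `κ` -/
theorem coverK5 {e : Fin 3 → ℕ} {ψ : Fin 3 → ℂ → ℂ} (h : Cusp e ψ) {κ : ℂ} (hκ : 0 < κ.im) :
    Cov (fun H w => IsoH H (cz e ψ 0 w) (cz e ψ 1 w) ∧ IsoH H κ (cz e ψ 2 w)) := by
  by_cases h2 : e 2 = 0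
  · exact (cov_fin h h2 hκ).mono fun H w hw => hw.2
  · exact cov_abc h (Nat.pos_of_ne_zero h2) (by decide) (by decide) (by decide) hκ

/-- `0` is related to `κ`, `1` to `κ'` -/
theorem coverK6 {e : Fin 2 → ℕ} {ψ : Fin 2 → ℂ → ℂ} (h : Cusp e ψ) {κ κ' : ℂ} (hκ : 0 < κ.im)
    (hκ' : 0 < κ'.im) : Cov (fun H w => IsoH H κ (cz e ψ 0 w) ∧ IsoH H κ' (cz e ψ 1 w)) := by
  by_cases h0 : e 0 = 0
  · exact (cov_fin h h0 hκ).mono fun H w hw => hw.1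
  · exact cov_cc h (Nat.pos_of_ne_zero h0) (by decide) hκ hκ'

/-- `0` is quadratic, `1` is related to `κ` -/
theorem coverK7 {e : Fin 2 → ℕ} {ψ : Fin 2 → ℂ → ℂ} (h : Cusp e ψ) {κ : ℂ} (hκ : 0 < κ.im) :
    Cov (fun H w => QuadH H (cz e ψ 0 w) ∧ IsoH H κ (cz e ψ 1 w)) := by
  by_cases h1 : e 1 = 0
  · exact (cov_fin h h1 hκ).mono fun H w hw => hw.2
  · exact cov_qc h (Nat.pos_of_ne_zero h1) (by decide) hκ

end Pool.Agent.LGO.KC
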