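import Mathlib
import Pool.Agent.LGO.PWG.Mp

/-!
# LGO/KC: the polynomial of an integral matrix, with a source

A source `σ` is a coordinate (`Sum.inl b`) or a fixed number (`Sum.inr κ`, not quadratic, in the upper half plane).
`mps σ a g = X a (g₁₀ σ + g₁₁) - (g₀₀ σ + g₀₁)`; as `LGO/PWG/Mp.lean`.
-/

namespace Pool.Agent.LGO.KC

open MvPolynomial Metric Pool.Agent.LGO.PW Pool.Agent.LGO.PWG

variable {mm : ℕ}

/-- the polynomial of a source -/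
noncomputable def sp : Fin mm ⊕ ℂ → MvPolynomial (Fin mm) ℂ := Sum.elim X (fun κ => C κ)

/-- the value of a source at a point -/
def sv (x : Fin mm → ℂ) : Fin mm ⊕ ℂ → ℂ := Sum.elim x id

/-- the source can be used with the coordinate `a` -/
def Ok (a : Fin mm) (σ : Fin mm ⊕ ℂ) : Prop :=
  (∀ b, σ = Sum.inl b → b ≠ a) ∧ ∀ κ, σ = Sum.inr κ → 0 < κ.im ∧ NonCM κ

theorem Ok.inl {a b : Fin mm} (h : b ≠ a) : Ok a (Sum.inl b) :=
  ⟨fun b' hb => by rw [← Sum.inl_injective hb]; exact h, fun κ hκ => by cases hκ⟩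

theorem Ok.inr (a : Fin mm) {κ : ℂ} (h : 0 < κ.im) (h1 : NonCM κ) : Ok a (Sum.inr κ) :=
  ⟨fun b hb => (by cases hb), fun κ1 hκ => (by rw [← Sum.inr_injective hκ]; exact ⟨h, h1⟩)⟩

theorem eval_sp (σ : Fin mm ⊕ ℂ) (x : Fin mm → ℂ) : eval x (sp σ) = sv x σ := by
  cases σ
  · simp [sp, sv]
  · simp [sp, sv]

theorem sp_deg (σ : Fin mm ⊕ ℂ) : (sp σ).totalDegree ≤ 1 := by
  cases σ
  · simp [sp]
  · simp [sp]

/-- the polynomial of the relation `Maps g σ (z a)` -/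
noncomputable def mps (σ : Fin mm ⊕ ℂ) (a : Fin mm) (g : Matrix (Fin 2) (Fin 2) ℤ) :
    MvPolynomial (Fin mm) ℂ :=
  X a * (C (g 1 0 : ℂ) * sp σ + C (g 1 1 : ℂ)) - (C (g 0 0 : ℂ) * sp σ + C (g 0 1 : ℂ))

theorem mps_eval (σ : Fin mm ⊕ ℂ) (a : Fin mm) (g : Matrix (Fin 2) (Fin 2) ℤ) (x : Fin mm → ℂ) :
    eval x (mps σ a g) =
      x a * ((g 1 0 : ℂ) * sv x σ + (g 1 1 : ℂ)) - ((g 0 0 : ℂ) * sv x σ + (g 0 1 : ℂ)) := by
  simp only [mps, map_sub, map_mul, map_add, eval_X, eval_C, eval_sp]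

theorem mps_eval_eq_zero {σ : Fin mm ⊕ ℂ} {a : Fin mm} {g : Matrix (Fin 2) (Fin 2) ℤ} {x : Fin mm → ℂ} :
    eval x (mps σ a g) = 0 ↔ Maps g (sv x σ) (x a) := by
  rw [mps_eval, sub_eq_zero]
  rfl

private lemma MpS_lin_deg (σ : Fin mm ⊕ ℂ) (u v : ℂ) :
    (C u * sp σ + C v : MvPolynomial (Fin mm) ℂ).totalDegree ≤ 1 := by
  refine (totalDegree_add _ _).trans (max_le ?_ ?_)
  · refine (totalDegree_mul _ _).trans ?_
    rw [totalDegree_C, zero_add]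
    exact sp_deg σ
  · rw [totalDegree_C]
    exact Nat.zero_le _

theorem mps_deg (σ : Fin mm ⊕ ℂ) (a : Fin mm) (g : Matrix (Fin 2) (Fin 2) ℤ) :
    (mps σ a g).totalDegree ≤ 2 := by
  unfold mps
  refine (totalDegree_sub _ _).trans (max_le ?_ ?_)
  · refine (totalDegree_mul _ _).trans ?_
    rw [totalDegree_X]
    have := MpS_lin_deg σ (g 1 0 : ℂ) (g 1 1 : ℂ)
    omega
  · exact (MpS_lin_deg _ _ _).trans (by norm_num)

/-- an integral linear form at a number of positive imaginary part -/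
theorem lin_zero {κ : ℂ} (hκ : 0 < κ.im) {u v : ℤ} (h : (u : ℂ) * κ + (v : ℂ) = 0) : u = 0 ∧ v = 0 := by
  have h1 : (u : ℝ) * κ.im = 0 := by
    have h2 := congrArg Complex.im h
    simpa using h2
  have h3 : (u : ℝ) = 0 := (mul_eq_zero.mp h1).resolve_right hκ.ne'
  have h4 : u = 0 := by exact_mod_cast h3
  rw [h4, Int.cast_zero, zero_mul, zero_add] at h
  exact ⟨h4, by exact_mod_cast h⟩

theorem mps_ne_zero {σ : Fin mm ⊕ ℂ} {a : Fin mm} (ha : Ok a σ) {g : Matrix (Fin 2) (Fin 2) ℤ}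
    (hg : g ≠ 0) : mps σ a g ≠ 0 := by
  rcases σ with b | κ
  · exact mpp_ne_zero (b := b) (a := a) (Ne.symm (ha.1 b rfl)) hg
  · intro h
    have hκ := (ha.2 κ rfl).1
    have h1 : ∀ t : ℂ, t * ((g 1 0 : ℂ) * κ + (g 1 1 : ℂ)) - ((g 0 0 : ℂ) * κ + (g 0 1 : ℂ)) = 0 := by
      intro t
      have h2 := mps_eval (Sum.inr κ) a g (fun _ => t)
      rw [h, map_zero] at h2
      exact h2.symm
    have e1 := h1 0
    have e2 := h1 1
    obtain ⟨f1, f2⟩ := lin_zero hκ (u := g 0 0) (v := g 0 1) (by linear_combination -e1)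
    obtain ⟨f3, f4⟩ := lin_zero hκ (u := g 1 0) (v := g 1 1) (by linear_combination e2 - e1)
    apply hg
    ext i j
    fin_cases i <;> fin_cases j <;> simp [f1, f2, f3, f4]

theorem mps_lin (σ : Fin mm ⊕ ℂ) (a : Fin mm) (x y : ℤ) (g g' : Matrix (Fin 2) (Fin 2) ℤ) :
    mps σ a (x • g + y • g') = C (x : ℂ) * mps σ a g + C (y : ℂ) * mps σ a g' := by
  unfold mps
  simp only [Matrix.add_apply, Matrix.smul_apply, smul_eq_mul, Int.cast_add, Int.cast_mul, map_add,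
    map_mul]
  ring

private lemma MpS_van {d : ℕ} (c : Fin (d + 1) → ℂ) {S : Set ℂ} (hS : S.Infinite)
    (h : ∀ r ∈ S, ∑ i, c i * r ^ (i : ℕ) = 0) : ∀ i, c i = 0 := by
  have h0 : (∑ i, Polynomial.C (c i) * Polynomial.X ^ (i : ℕ) : Polynomial ℂ) = 0 := by
    refine Polynomial.eq_zero_of_infinite_isRoot _ (hS.mono fun r hr => ?_)
    simp only [Set.mem_ofPred_eq, Polynomial.IsRoot.def, Polynomial.eval_finsetSum,
      Polynomial.eval_mul, Polynomial.eval_C, Polynomial.eval_pow, Polynomial.eval_X]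
    exact h r hr
  intro i
  have h1 := congrArg (fun p => Polynomial.coeff p (i : ℕ)) h0
  simp only [Polynomial.finsetSum_coeff, Polynomial.coeff_C_mul, Polynomial.coeff_X_pow,
    Polynomial.coeff_zero] at h1
  rw [Finset.sum_eq_single i] at h1
  · simpa using h1
  · intro j _ hj
    rw [if_neg (fun hh => hj (Fin.ext hh.symm)), mul_zero]
  · intro hh
    exact absurd (Finset.mem_univ i) hh

/-- determinant of the coefficients -/
private noncomputable def MpS_det (A B : Matrix (Fin 2) (Fin 2) ℤ) (z : ℂ) : ℂ :=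
  ((A 1 0 : ℂ) * z + (A 1 1 : ℂ)) * ((B 0 0 : ℂ) * z + (B 0 1 : ℂ)) -
    ((B 1 0 : ℂ) * z + (B 1 1 : ℂ)) * ((A 0 0 : ℂ) * z + (A 0 1 : ℂ))

private lemma MpS_det_poly {A B : Matrix (Fin 2) (Fin 2) ℤ} (hA : A.det ≠ 0)
    (h : ∀ x y : ℤ, x • A + y • B = 0 → x = 0 ∧ y = 0) :
    ∃ p : Polynomial ℂ, p ≠ 0 ∧ ∀ z, p.eval z = MpS_det A B z := by
  refine ⟨(Polynomial.C (A 1 0 : ℂ) * Polynomial.X + Polynomial.C (A 1 1 : ℂ)) *
    (Polynomial.C (B 0 0 : ℂ) * Polynomial.X + Polynomial.C (B 0 1 : ℂ)) -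
    (Polynomial.C (B 1 0 : ℂ) * Polynomial.X + Polynomial.C (B 1 1 : ℂ)) *
    (Polynomial.C (A 0 0 : ℂ) * Polynomial.X + Polynomial.C (A 0 1 : ℂ)), ?_, ?_⟩
  swap
  · intro z
    simp [MpS_det]
  intro h0
  have h1 : ∀ z, MpS_det A B z = 0 := by
    intro z
    have := congrArg (Polynomial.eval z) h0
    simpa [MpS_det] using this
  have e0 := h1 0
  have e1 := h1 1
  have e2 := h1 (-1)
  unfold MpS_det at e0 e1 e2
  have i0 : (A 1 1 * B 0 1 - B 1 1 * A 0 1 : ℂ) = 0 := by linear_combination e0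
  have i1 : (A 1 0 * B 0 0 - B 1 0 * A 0 0 : ℂ) = 0 := by
    linear_combination (e1 + e2) / 2 - e0
  have i2 : (A 1 0 * B 0 1 + A 1 1 * B 0 0 - B 1 0 * A 0 1 - B 1 1 * A 0 0 : ℂ) = 0 := by
    linear_combination (e1 - e2) / 2
  have j0 : A 1 1 * B 0 1 - B 1 1 * A 0 1 = 0 := by exact_mod_cast i0
  have j1 : A 1 0 * B 0 0 - B 1 0 * A 0 0 = 0 := by exact_mod_cast i1
  have j2 : A 1 0 * B 0 1 + A 1 1 * B 0 0 - B 1 0 * A 0 1 - B 1 1 * A 0 0 = 0 := by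
    exact_mod_cast i2
  rw [Matrix.det_fin_two] at hA
  have k0 : A 1 0 * B 0 1 - A 0 1 * B 1 0 = 0 := by
    have : (A 0 0 * A 1 1 - A 0 1 * A 1 0) * (A 1 0 * B 0 1 - A 0 1 * B 1 0) = 0 := by
      linear_combination A 0 0 * A 1 0 * j0 + A 0 1 * A 1 1 * j1 - A 0 1 * A 1 0 * j2
    rcases mul_eq_zero.1 this with h2 | h2
    · exact absurd h2 hA
    · exact h2
  have k1 : A 1 1 * B 0 0 - A 0 0 * B 1 1 = 0 := by linear_combination j2 - k0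
  have h3 := h (-(B 0 0 * A 1 1 - A 1 0 * B 0 1)) (A 0 0 * A 1 1 - A 0 1 * A 1 0) (by
    ext i j
    simp only [Matrix.add_apply, Matrix.smul_apply, smul_eq_mul, Matrix.zero_apply]
    fin_cases i <;> fin_cases j <;> simp only [Fin.zero_eta, Fin.mk_one, Fin.isValue]
    · linear_combination A 0 0 * k0 - A 0 1 * j1
    · linear_combination A 0 0 * j0 - A 0 1 * k1
    · linear_combination A 1 0 * k0 - A 1 1 * j1
    · linear_combination A 1 0 * j0 - A 1 1 * k1)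
  exact hA h3.2

private lemma MpS_sol {A B : Matrix (Fin 2) (Fin 2) ℤ} {z : ℂ} (hz : MpS_det A B z ≠ 0) :
    ∃ S : Set ℂ, S.Infinite ∧ ∀ r ∈ S, ∃ t : ℂ,
      t * ((B 1 0 : ℂ) * z + (B 1 1 : ℂ)) - ((B 0 0 : ℂ) * z + (B 0 1 : ℂ)) =
        r * (t * ((A 1 0 : ℂ) * z + (A 1 1 : ℂ)) - ((A 0 0 : ℂ) * z + (A 0 1 : ℂ))) ∧
      t * ((A 1 0 : ℂ) * z + (A 1 1 : ℂ)) - ((A 0 0 : ℂ) * z + (A 0 1 : ℂ)) ≠ 0 := by
  unfold MpS_det at hz
  generalize ((A 1 0 : ℂ) * z + (A 1 1 : ℂ)) = m at *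
  generalize ((A 0 0 : ℂ) * z + (A 0 1 : ℂ)) = k at *
  generalize ((B 1 0 : ℂ) * z + (B 1 1 : ℂ)) = m' at *
  generalize ((B 0 0 : ℂ) * z + (B 0 1 : ℂ)) = k' at *
  refine ⟨{m' / m}ᶜ, (Set.finite_singleton _).infinite_compl, fun r hr => ?_⟩
  have hr' : m' - r * m ≠ 0 := by
    intro h0
    by_cases hm : m = 0
    · apply hz
      rw [hm] at h0 ⊢
      have : m' = 0 := by linear_combination h0
      rw [this]
      ring
    · apply hr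
      rw [Set.mem_singleton_iff, eq_div_iff hm]
      linear_combination -h0
  refine ⟨(k' - r * k) / (m' - r * m), ?_, ?_⟩
  · field_simp
    ring
  · have : (k' - r * k) / (m' - r * m) * m - k = (m * k' - m' * k) / (m' - r * m) := by
      field_simp
      ring
    rw [this]
    exact div_ne_zero hz hr'

private lemma MpS_det_ne {A B : Matrix (Fin 2) (Fin 2) ℤ} (hA : A.det ≠ 0)
    (h : ∀ x y : ℤ, x • A + y • B = 0 → x = 0 ∧ y = 0) {κ : ℂ} (hκ : NonCM κ) : MpS_det A B κ ≠ 0 := by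
  obtain ⟨p, hp, hp'⟩ := MpS_det_poly hA h
  intro h0
  obtain ⟨e0, e1, e2⟩ := hκ (A 1 0 * B 0 0 - B 1 0 * A 0 0)
    (A 1 0 * B 0 1 + A 1 1 * B 0 0 - B 1 0 * A 0 1 - B 1 1 * A 0 0)
    (A 1 1 * B 0 1 - B 1 1 * A 0 1) (by
      unfold MpS_det at h0
      push_cast
      linear_combination h0)
  apply hp
  refine Polynomial.funext fun z => ?_
  rw [hp' z, Polynomial.eval_zero]
  have f0 : (A 1 0 * B 0 0 - B 1 0 * A 0 0 : ℂ) = 0 := by exact_mod_cast e0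
  have f1 : (A 1 0 * B 0 1 + A 1 1 * B 0 0 - B 1 0 * A 0 1 - B 1 1 * A 0 0 : ℂ) = 0 := by
    exact_mod_cast e1
  have f2 : (A 1 1 * B 0 1 - B 1 1 * A 0 1 : ℂ) = 0 := by exact_mod_cast e2
  unfold MpS_det
  linear_combination z ^ 2 * f0 + z * f1 + f2

theorem mps_indep {σ₁ σ₂ : Fin mm ⊕ ℂ} {a₁ a₂ : Fin mm} (n3 : a₁ ≠ a₂) (n1 : Ok a₁ σ₁) (n5 : Ok a₂ σ₁)
    (n4 : Ok a₁ σ₂) (n2 : Ok a₂ σ₂) {A₁ A₂ B₁ B₂ : Matrix (Fin 2) (Fin 2) ℤ} (hA₁ : A₁.det ≠ 0)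
    (hB₁ : B₁.det ≠ 0)
    (hA : ∀ x y : ℤ, x • A₁ + y • A₂ = 0 → x = 0 ∧ y = 0)
    (hB : ∀ x y : ℤ, x • B₁ + y • B₂ = 0 → x = 0 ∧ y = 0) {d : ℕ}
    (g : Fin (d + 1) → Fin (d + 1) → ℂ) (hg : g ≠ 0) :
    ∑ i, ∑ j, C (g i j) * (mps σ₁ a₁ A₂ ^ (i : ℕ) * mps σ₁ a₁ A₁ ^ (d - i) * mps σ₂ a₂ B₂ ^ (j : ℕ) *
      mps σ₂ a₂ B₁ ^ (d - j)) ≠ 0 := by
  intro h0
  obtain ⟨pA, hpA, hpA'⟩ := MpS_det_poly hA₁ hA
  obtain ⟨pB, hpB, hpB'⟩ := MpS_det_poly hB₁ hB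
  obtain ⟨z, hz⟩ : ∃ z, (pA * pB).eval z ≠ 0 := by
    by_contra hcon
    push Not at hcon
    exact mul_ne_zero hpA hpB (Polynomial.funext fun z => by rw [hcon z, Polynomial.eval_zero])
  rw [Polynomial.eval_mul, hpA', hpB'] at hz
  have hv : ∀ σ : Fin mm ⊕ ℂ, Ok a₁ σ → Ok a₂ σ → ∀ t t' : ℂ,
      sv (fun i => if i = a₁ then t else if i = a₂ then t' else z) σ = sv (fun _ => z) σ := by
    intro σ h1 h2 t t'
    rcases σ with b | κ
    · show (if b = a₁ then t else if b = a₂ then t' else z) = z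
      rw [if_neg (h1.1 b rfl), if_neg (h2.1 b rfl)]
    · rfl
  have hzA : MpS_det A₁ A₂ (sv (fun _ => z) σ₁) ≠ 0 := by
    rcases σ₁ with b | κ
    · exact left_ne_zero_of_mul hz
    · exact MpS_det_ne hA₁ hA (n1.2 κ rfl).2
  have hzB : MpS_det B₁ B₂ (sv (fun _ => z) σ₂) ≠ 0 := by
    rcases σ₂ with b | κ
    · exact right_ne_zero_of_mul hz
    · exact MpS_det_ne hB₁ hB (n2.2 κ rfl).2
  set v₁ := sv (fun _ => z) σ₁ with hv₁
  set v₂ := sv (fun _ => z) σ₂ with hv₂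
  obtain ⟨S, hS, hS'⟩ := MpS_sol hzA
  obtain ⟨S', hT, hT'⟩ := MpS_sol hzB
  apply hg
  have key : ∀ r ∈ S, ∀ r' ∈ S', ∑ i, (∑ j, g i j * r' ^ (j : ℕ)) * r ^ (i : ℕ) = 0 := by
    intro r hr r' hr'
    obtain ⟨t, ht, ht0⟩ := hS' r hr
    obtain ⟨t', ht', ht0'⟩ := hT' r' hr'
    have h1 := congrArg (eval (fun i => if i = a₁ then t else if i = a₂ then t' else z)) h0
    simp only [map_sum, map_mul, map_pow, eval_C, mps_eval, map_zero, if_true, if_neg n3.symm,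
      hv σ₁ n1 n5 t t', hv σ₂ n4 n2 t t'] at h1
    rw [← hv₁, ← hv₂, ht, ht'] at h1
    generalize (t * ((A₁ 1 0 : ℂ) * v₁ + (A₁ 1 1 : ℂ)) - ((A₁ 0 0 : ℂ) * v₁ + (A₁ 0 1 : ℂ))) = α
      at h1 ht0
    generalize (t' * ((B₁ 1 0 : ℂ) * v₂ + (B₁ 1 1 : ℂ)) - ((B₁ 0 0 : ℂ) * v₂ + (B₁ 0 1 : ℂ))) = β
      at h1 ht0'
    have h2 : α ^ d * β ^ d * ∑ i, (∑ j, g i j * r' ^ (j : ℕ)) * r ^ (i : ℕ) = 0 := by
      rw [← h1, Finset.mul_sum]
      refine Finset.sum_congr rfl fun i _ => ?_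
      rw [Finset.sum_mul, Finset.mul_sum]
      refine Finset.sum_congr rfl fun j _ => ?_
      have hi : α ^ d = α ^ (i : ℕ) * α ^ (d - i) := by
        rw [← pow_add, Nat.add_sub_cancel' (Nat.lt_succ_iff.1 i.2)]
      have hj : β ^ d = β ^ (j : ℕ) * β ^ (d - j) := by
        rw [← pow_add, Nat.add_sub_cancel' (Nat.lt_succ_iff.1 j.2)]
      rw [hi, hj, mul_pow, mul_pow]
      ring
    rcases mul_eq_zero.1 h2 with h3 | h3
    · exact absurd h3 (mul_ne_zero (pow_ne_zero _ ht0) (pow_ne_zero _ ht0'))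
    · exact h3
  funext i j
  refine MpS_van (fun j => g i j) hT (fun r' hr' => ?_) j
  exact MpS_van (fun i => ∑ j, g i j * r' ^ (j : ℕ)) hS (fun r hr => key r hr r' hr') i

end Pool.Agent.LGO.KC
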