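import Mathlib
import Pool.Agent.LGO.PWG.Typ
import Pool.Agent.LGO.PWG.GrowA
import Pool.Agent.LGO.PWG.GrowQ
import Pool.Agent.LGO.KC.MpS

/-!
# LGO/KC: growth of the ranks, relations with fixed numbers

As `PWG/Grow.lean` and `PWG/Typ.lean`: `grow_poly` with `y = (z 0)`, `D = 2 b` for `PtK5` (a pair, and `z 2` related to `κ`), `p = 0` for `PtK6`
(`z 0` related to `κ`, `z 1` to `κ'`), `y = (z 0)`, `D = 1` for `PtK7` (`z 0` quadratic, `z 1` related to `κ`).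
-/

namespace Pool.Agent.LGO.KC

open MvPolynomial Pool.Agent.LGO.PWG

/-- a pair, and `2` related to `κ` -/
def PtK5 (κ : ℂ) (z : Fin 3 → ℂ → ℂ) (H : ℝ) (s : ℂ) : Prop := IsoH H (z 0 s) (z 1 s) ∧ IsoH H κ (z 2 s)

/-- `0` related to `κ`, `1` to `κ'` -/
def PtK6 (κ κ' : ℂ) (z : Fin 2 → ℂ → ℂ) (H : ℝ) (s : ℂ) : Prop := IsoH H κ (z 0 s) ∧ IsoH H κ' (z 1 s)

/-- `0` quadratic, `1` related to `κ` -/
def PtK7 (κ : ℂ) (z : Fin 2 → ℂ → ℂ) (H : ℝ) (s : ℂ) : Prop := QuadH H (z 0 s) ∧ IsoH H κ (z 1 s)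

/-- a pair, and `2` related to `κ`, with the eight integers -/
structure RelK5 (κ : ℂ) (z : Fin 3 → ℂ → ℂ) (v : ℂ → Fin 8 → ℤ) (s : ℂ) : Prop where
  d1 : (v s 2 : ℂ) * z 0 s + (v s 3 : ℂ) ≠ 0
  d2 : (v s 6 : ℂ) * κ + (v s 7 : ℂ) ≠ 0
  r1 : z 1 s * ((v s 2 : ℂ) * z 0 s + (v s 3 : ℂ)) = (v s 0 : ℂ) * z 0 s + (v s 1 : ℂ)
  r2 : z 2 s * ((v s 6 : ℂ) * κ + (v s 7 : ℂ)) = (v s 4 : ℂ) * κ + (v s 5 : ℂ)

/-- `0` related to `κ`, `1` to `κ'`, with the eight integers -/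
structure RelK6 (κ κ' : ℂ) (z : Fin 2 → ℂ → ℂ) (v : ℂ → Fin 8 → ℤ) (s : ℂ) : Prop where
  d1 : (v s 2 : ℂ) * κ + (v s 3 : ℂ) ≠ 0
  d2 : (v s 6 : ℂ) * κ' + (v s 7 : ℂ) ≠ 0
  r1 : z 0 s * ((v s 2 : ℂ) * κ + (v s 3 : ℂ)) = (v s 0 : ℂ) * κ + (v s 1 : ℂ)
  r2 : z 1 s * ((v s 6 : ℂ) * κ' + (v s 7 : ℂ)) = (v s 4 : ℂ) * κ' + (v s 5 : ℂ)

/-- `0` quadratic, `1` related to `κ`, with the eight integers (the last one is not used) -/
structure RelK7 (κ : ℂ) (z : Fin 2 → ℂ → ℂ) (v : ℂ → Fin 8 → ℤ) (s : ℂ) : Prop where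
  d1 : (v s 2 : ℂ) * κ + (v s 3 : ℂ) ≠ 0
  d2 : (v s 4 : ℂ) ≠ 0
  r1 : z 1 s * ((v s 2 : ℂ) * κ + (v s 3 : ℂ)) = (v s 0 : ℂ) * κ + (v s 1 : ℂ)
  r2 : (v s 4 : ℂ) * z 0 s ^ 2 + (v s 5 : ℂ) * z 0 s + (v s 6 : ℂ) = 0

private theorem GrowK_den {g : Matrix (Fin 2) (Fin 2) ℤ} (hg : g.det ≠ 0) {τ τ' : ℂ} (h : Maps g τ τ') :
    (g 1 0 : ℂ) * τ + (g 1 1 : ℂ) ≠ 0 := by
  intro h0
  unfold Maps at h
  rw [h0, mul_zero] at h
  have h1 : (g 0 0 : ℂ) * (g 1 1 : ℂ) - (g 0 1 : ℂ) * (g 1 0 : ℂ) = 0 := by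
    linear_combination (g 0 0 : ℂ) * h0 + (g 1 0 : ℂ) * h
  rw [Matrix.det_fin_two] at hg
  apply hg
  exact_mod_cast h1

private theorem GrowK_ne {x : ℂ} (hx : 0 < x.im) {q : Fin 3 → ℤ} (hq : q ≠ 0)
    (h : (q 0 : ℂ) * x ^ 2 + (q 1 : ℂ) * x + (q 2 : ℂ) = 0) : (q 0 : ℂ) ≠ 0 := by
  intro h0
  apply hq
  rw [h0, zero_mul, zero_add] at h
  obtain ⟨h5, h6⟩ := lin_zero hx h
  have h7 : q 0 = 0 := by exact_mod_cast h0
  funext k
  fin_cases k
  · exact h7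
  · exact h5
  · exact h6

theorem exists_relK5 {H : ℝ} (hH : 0 ≤ H) (κ : ℂ) (z : Fin 3 → ℂ → ℂ) : ∃ v : ℂ → Fin 8 → ℤ,
    (∀ s k, |(v s k : ℝ)| ≤ H) ∧ ∀ s, PtK5 κ z H s → RelK5 κ z v s := by
  have key : ∀ s, ∃ w : Fin 8 → ℤ, (∀ k, |(w k : ℝ)| ≤ H) ∧ (PtK5 κ z H s →
      ((w 2 : ℂ) * z 0 s + (w 3 : ℂ) ≠ 0 ∧ (w 6 : ℂ) * κ + (w 7 : ℂ) ≠ 0 ∧
        z 1 s * ((w 2 : ℂ) * z 0 s + (w 3 : ℂ)) = (w 0 : ℂ) * z 0 s + (w 1 : ℂ) ∧
        z 2 s * ((w 6 : ℂ) * κ + (w 7 : ℂ)) = (w 4 : ℂ) * κ + (w 5 : ℂ))) := by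
    intro s
    by_cases hs : PtK5 κ z H s
    · obtain ⟨⟨g, hg, hgH, hgM⟩, ⟨g', hg', hgH', hgM'⟩⟩ := hs
      refine ⟨![g 0 0, g 0 1, g 1 0, g 1 1, g' 0 0, g' 0 1, g' 1 0, g' 1 1], ?_,
        fun _ => ⟨?_, ?_, ?_, ?_⟩⟩
      · intro k
        fin_cases k
        · exact hgH 0 0
        · exact hgH 0 1
        · exact hgH 1 0
        · exact hgH 1 1
        · exact hgH' 0 0
        · exact hgH' 0 1
        · exact hgH' 1 0
        · exact hgH' 1 1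
      · exact GrowK_den hg hgM
      · exact GrowK_den hg' hgM'
      · exact hgM
      · exact hgM'
    · exact ⟨0, fun k => by simpa using hH, fun h => absurd h hs⟩
  choose v hv using key
  refine ⟨v, fun s => (hv s).1, fun s hs => ?_⟩
  obtain ⟨h1, h2, h3, h4⟩ := (hv s).2 hs
  exact ⟨h1, h2, h3, h4⟩

theorem exists_relK6 {H : ℝ} (hH : 0 ≤ H) (κ κ' : ℂ) (z : Fin 2 → ℂ → ℂ) : ∃ v : ℂ → Fin 8 → ℤ,
    (∀ s k, |(v s k : ℝ)| ≤ H) ∧ ∀ s, PtK6 κ κ' z H s → RelK6 κ κ' z v s := by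
  have key : ∀ s, ∃ w : Fin 8 → ℤ, (∀ k, |(w k : ℝ)| ≤ H) ∧ (PtK6 κ κ' z H s →
      ((w 2 : ℂ) * κ + (w 3 : ℂ) ≠ 0 ∧ (w 6 : ℂ) * κ' + (w 7 : ℂ) ≠ 0 ∧
        z 0 s * ((w 2 : ℂ) * κ + (w 3 : ℂ)) = (w 0 : ℂ) * κ + (w 1 : ℂ) ∧
        z 1 s * ((w 6 : ℂ) * κ' + (w 7 : ℂ)) = (w 4 : ℂ) * κ' + (w 5 : ℂ))) := by
    intro s
    by_cases hs : PtK6 κ κ' z H s
    · obtain ⟨⟨g, hg, hgH, hgM⟩, ⟨g', hg', hgH', hgM'⟩⟩ := hs
      refine ⟨![g 0 0, g 0 1, g 1 0, g 1 1, g' 0 0, g' 0 1, g' 1 0, g' 1 1], ?_,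
        fun _ => ⟨?_, ?_, ?_, ?_⟩⟩
      · intro k
        fin_cases k
        · exact hgH 0 0
        · exact hgH 0 1
        · exact hgH 1 0
        · exact hgH 1 1
        · exact hgH' 0 0
        · exact hgH' 0 1
        · exact hgH' 1 0
        · exact hgH' 1 1
      · exact GrowK_den hg hgM
      · exact GrowK_den hg' hgM'
      · exact hgM
      · exact hgM'
    · exact ⟨0, fun k => by simpa using hH, fun h => absurd h hs⟩
  choose v hv using key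
  refine ⟨v, fun s => (hv s).1, fun s hs => ?_⟩
  obtain ⟨h1, h2, h3, h4⟩ := (hv s).2 hs
  exact ⟨h1, h2, h3, h4⟩

theorem exists_relK7 {H : ℝ} (hH : 0 ≤ H) (κ : ℂ) (z : Fin 2 → ℂ → ℂ) : ∃ v : ℂ → Fin 8 → ℤ,
    (∀ s k, |(v s k : ℝ)| ≤ H) ∧ ∀ s, PtK7 κ z H s → RelK7 κ z v s := by
  have key : ∀ s, ∃ w : Fin 8 → ℤ, (∀ k, |(w k : ℝ)| ≤ H) ∧ (PtK7 κ z H s →
      ((w 2 : ℂ) * κ + (w 3 : ℂ) ≠ 0 ∧ (w 4 : ℂ) ≠ 0 ∧
        z 1 s * ((w 2 : ℂ) * κ + (w 3 : ℂ)) = (w 0 : ℂ) * κ + (w 1 : ℂ) ∧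
        (w 4 : ℂ) * z 0 s ^ 2 + (w 5 : ℂ) * z 0 s + (w 6 : ℂ) = 0)) := by
    intro s
    by_cases hs : PtK7 κ z H s
    · obtain ⟨⟨hx, q, hq, hqH, hqM⟩, ⟨g, hg, hgH, hgM⟩⟩ := hs
      refine ⟨![g 0 0, g 0 1, g 1 0, g 1 1, q 0, q 1, q 2, 0], ?_, fun _ => ⟨?_, ?_, ?_, ?_⟩⟩
      · intro k
        fin_cases k
        · exact hgH 0 0
        · exact hgH 0 1
        · exact hgH 1 0
        · exact hgH 1 1
        · exact hqH 0
        · exact hqH 1
        · exact hqH 2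
        · simpa using hH
      · exact GrowK_den hg hgM
      · exact GrowK_ne hx hq hqM
      · exact hgM
      · exact hqM
    · exact ⟨0, fun k => by simpa using hH, fun h => absurd h hs⟩
  choose v hv using key
  refine ⟨v, fun s => (hv s).1, fun s hs => ?_⟩
  obtain ⟨h1, h2, h3, h4⟩ := (hv s).2 hs
  exact ⟨h1, h2, h3, h4⟩

private theorem GrowK_lin {σ : Type} [DecidableEq σ] (κ : ℂ) (i j k : σ) :
    (C κ * X i + X j : MvPolynomial σ ℂ).degreeOf k ≤ if k = i ∨ k = j then 1 else 0 := by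
  refine (degreeOf_add_le k _ _).trans (max_le ?_ ?_)
  · refine (degreeOf_mul_le k _ _).trans ?_
    rw [degreeOf_C, zero_add, degreeOf_X]
    split_ifs <;> simp_all
  · rw [degreeOf_X]
    split_ifs <;> simp_all

/-- the power of `g κ` -/
theorem const_pow {σ : Type} [DecidableEq σ] (κ : ℂ) {i₀ i₁ i₂ i₃ : σ} (h02 : i₀ ≠ i₂) (h03 : i₀ ≠ i₃)
    (h12 : i₁ ≠ i₂) (h13 : i₁ ≠ i₃) {n k : ℕ} (hk : k ≤ n) :
    ∃ F : MvPolynomial σ ℂ, (∀ i, F.degreeOf i ≤ n) ∧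
      (∀ i, i ≠ i₀ → i ≠ i₁ → i ≠ i₂ → i ≠ i₃ → F.degreeOf i = 0) ∧
      ∀ (x : σ → ℂ) (w : ℂ), w * (x i₂ * κ + x i₃) = x i₀ * κ + x i₁ →
        (x i₂ * κ + x i₃) ^ n * w ^ k = eval x F := by
  have hk' : n - k + k = n := Nat.sub_add_cancel hk
  have key : ∀ i, ((C κ * X i₂ + X i₃) ^ (n - k) * (C κ * X i₀ + X i₁) ^ k :
      MvPolynomial σ ℂ).degreeOf i ≤ (n - k) * (if i = i₂ ∨ i = i₃ then 1 else 0) +
        k * (if i = i₀ ∨ i = i₁ then 1 else 0) := by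
    intro i
    refine (degreeOf_mul_le i _ _).trans (Nat.add_le_add ?_ ?_)
    · exact (degreeOf_pow_le i _ _).trans (Nat.mul_le_mul_left _ (GrowK_lin κ _ _ _))
    · exact (degreeOf_pow_le i _ _).trans (Nat.mul_le_mul_left _ (GrowK_lin κ _ _ _))
  refine ⟨(C κ * X i₂ + X i₃) ^ (n - k) * (C κ * X i₀ + X i₁) ^ k, fun i => ?_,
    fun i j0 j1 j2 j3 => ?_, fun x w hx => ?_⟩
  · refine (key i).trans ?_
    split_ifs <;> omega
  · have h := key i
    rw [if_neg (by tauto), if_neg (by tauto)] at h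
    simpa using h
  · simp only [map_add, map_mul, map_pow, eval_X, eval_C]
    have e1 : κ * x i₀ + x i₁ = w * (x i₂ * κ + x i₃) := by rw [hx]; ring
    have e2 : κ * x i₂ + x i₃ = x i₂ * κ + x i₃ := by ring
    rw [e1, e2]
    calc (x i₂ * κ + x i₃) ^ n * w ^ k = (x i₂ * κ + x i₃) ^ (n - k + k) * w ^ k := by rw [hk']
      _ = _ := by rw [pow_add, mul_pow]; ring

private theorem GrowK_dX {p : ℕ} (i : Fin p) (n : ℕ) (j : Fin p ⊕ Fin 8) :
    (X (Sum.inl i) ^ n : MvPolynomial (Fin p ⊕ Fin 8) ℂ).degreeOf j ≤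
      if j = Sum.inl i then n else 0 := by
  refine (degreeOf_pow_le _ _ _).trans ?_
  rw [degreeOf_X]
  split_ifs <;> simp

theorem grwK5 (κ : ℂ) (z : Fin 3 → ℂ → ℂ) (v : ℂ → Fin 8 → ℤ) : Grw z v (RelK5 κ z v) := by
  intro S hS b ρ t hli
  have h := grow_poly (y := ![z 0]) (D := ![2 * b])
    (Om := fun s => ((v s 2 : ℂ) * z 0 s + (v s 3 : ℂ)) ^ b * ((v s 6 : ℂ) * κ + (v s 7 : ℂ)) ^ b)
    (fun s hs => mul_ne_zero (pow_ne_zero _ (hS s hs).d1) (pow_ne_zero _ (hS s hs).d2)) ?_ t hli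
  · rw [Fin.prod_univ_one] at h
    simp only [Matrix.cons_val_zero] at h
    have h1 : (b + 1) * (ρ * (b + 1) ^ 2) ≤ (b + 1) * (4 * PWC.rk v S (2 * b)) := by
      calc (b + 1) * (ρ * (b + 1) ^ 2) = ρ * (b + 1) ^ 3 := by ring
        _ ≤ (2 * b + 1) * PWC.rk v S (2 * b) := h
        _ ≤ (4 * (b + 1)) * PWC.rk v S (2 * b) := Nat.mul_le_mul_right _ (by omega)
        _ = (b + 1) * (4 * PWC.rk v S (2 * b)) := by ring
    exact Nat.le_of_mul_le_mul_left h1 (Nat.succ_pos b)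
  · intro γ
    have hγ : ∀ i, (γ i : ℕ) ≤ b := fun i => Nat.lt_succ_iff.1 (γ i).isLt
    obtain ⟨F₁, a1, a2, a3, a4⟩ := mob_pow (σ := Fin 1 ⊕ Fin 8) (y := Sum.inl 0) (i₀ := Sum.inr 0)
      (i₁ := Sum.inr 1) (i₂ := Sum.inr 2) (i₃ := Sum.inr 3) (by decide) (by decide) (by decide)
      (by decide) (by decide) (by decide) (by decide) (by decide) (by decide) (by decide)
      (n := b) (k := γ 1) (hγ 1)
    obtain ⟨F₂, b2, b3, b4⟩ := const_pow (σ := Fin 1 ⊕ Fin 8) κ (i₀ := Sum.inr 4)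
      (i₁ := Sum.inr 5) (i₂ := Sum.inr 6) (i₃ := Sum.inr 7) (by decide) (by decide) (by decide)
      (by decide) (n := b) (k := γ 2) (hγ 2)
    have hdeg : ∀ j, (X (Sum.inl 0) ^ (γ 0 : ℕ) * F₁ * F₂ :
        MvPolynomial (Fin 1 ⊕ Fin 8) ℂ).degreeOf j ≤ (if j = Sum.inl 0 then (γ 0 : ℕ) else 0) +
        F₁.degreeOf j + F₂.degreeOf j := by
      intro j
      refine (degreeOf_mul_le _ _ _).trans (Nat.add_le_add_right ?_ _)
      refine (degreeOf_mul_le _ _ _).trans (Nat.add_le_add_right (GrowK_dX _ _ _) _)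
    refine ⟨X (Sum.inl 0) ^ (γ 0 : ℕ) * F₁ * F₂, ?_, ?_, ?_⟩
    · intro i
      refine (hdeg _).trans ?_
      have e0 := hγ 0
      fin_cases i
      have c1 := b3 (Sum.inl 0) (by decide) (by decide) (by decide) (by decide)
      simp
      omega
    · intro k
      refine (hdeg _).trans ?_
      rw [if_neg (by simp)]
      have d1 := a2 (Sum.inr k) (by simp)
      have d2 := b2 (Sum.inr k)
      fin_cases k
      · have c1 := b3 (Sum.inr 0) (by decide) (by decide) (by decide) (by decide)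
        simp at d1 d2 ⊢
        omega
      · have c1 := b3 (Sum.inr 1) (by decide) (by decide) (by decide) (by decide)
        simp at d1 d2 ⊢
        omega
      · have c1 := b3 (Sum.inr 2) (by decide) (by decide) (by decide) (by decide)
        simp at d1 d2 ⊢
        omega
      · have c1 := b3 (Sum.inr 3) (by decide) (by decide) (by decide) (by decide)
        simp at d1 d2 ⊢
        omega
      · have c1 := a3 (Sum.inr 4) (by decide) (by decide) (by decide) (by decide) (by decide)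
        simp at d1 d2 ⊢
        omega
      · have c1 := a3 (Sum.inr 5) (by decide) (by decide) (by decide) (by decide) (by decide)
        simp at d1 d2 ⊢
        omega
      · have c1 := a3 (Sum.inr 6) (by decide) (by decide) (by decide) (by decide) (by decide)
        simp at d1 d2 ⊢
        omega
      · have c1 := a3 (Sum.inr 7) (by decide) (by decide) (by decide) (by decide) (by decide)
        simp at d1 d2 ⊢
        omega
    · intro s hs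
      have f1 := a4 (Sum.elim (fun i => (![z 0] : Fin 1 → ℂ → ℂ) i s) fun k => (v s k : ℂ)) (z 1 s)
        (hS s hs).r1
      have f2 := b4 (Sum.elim (fun i => (![z 0] : Fin 1 → ℂ → ℂ) i s) fun k => (v s k : ℂ)) (z 2 s)
        (hS s hs).r2
      rw [map_mul, map_mul, map_pow, eval_X, ← f1, ← f2, Fin.prod_univ_three]
      simp only [Sum.elim_inl, Sum.elim_inr, Matrix.cons_val_zero]
      ring

theorem grwK6 (κ κ' : ℂ) (z : Fin 2 → ℂ → ℂ) (v : ℂ → Fin 8 → ℤ) : Grw z v (RelK6 κ κ' z v) := by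
  intro S hS b ρ t hli
  have h := grow_poly (y := (Fin.elim0 : Fin 0 → ℂ → ℂ)) (D := Fin.elim0)
    (Om := fun s => ((v s 2 : ℂ) * κ + (v s 3 : ℂ)) ^ b * ((v s 6 : ℂ) * κ' + (v s 7 : ℂ)) ^ b)
    (fun s hs => mul_ne_zero (pow_ne_zero _ (hS s hs).d1) (pow_ne_zero _ (hS s hs).d2)) ?_ t hli
  · rw [Fin.prod_univ_zero, one_mul] at h
    omega
  · intro γ
    have hγ : ∀ i, (γ i : ℕ) ≤ b := fun i => Nat.lt_succ_iff.1 (γ i).isLt
    obtain ⟨F₁, a2, a3, a4⟩ := const_pow (σ := Fin 0 ⊕ Fin 8) κ (i₀ := Sum.inr 0)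
      (i₁ := Sum.inr 1) (i₂ := Sum.inr 2) (i₃ := Sum.inr 3) (by decide) (by decide) (by decide)
      (by decide) (n := b) (k := γ 0) (hγ 0)
    obtain ⟨F₂, b2, b3, b4⟩ := const_pow (σ := Fin 0 ⊕ Fin 8) κ' (i₀ := Sum.inr 4)
      (i₁ := Sum.inr 5) (i₂ := Sum.inr 6) (i₃ := Sum.inr 7) (by decide) (by decide) (by decide)
      (by decide) (n := b) (k := γ 1) (hγ 1)
    refine ⟨F₁ * F₂, ?_, ?_, ?_⟩
    · exact fun i => i.elim0
    · intro k
      refine (degreeOf_mul_le _ _ _).trans ?_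
      have d1 := a2 (Sum.inr k)
      have d2 := b2 (Sum.inr k)
      fin_cases k
      · have c1 := b3 (Sum.inr 0) (by decide) (by decide) (by decide) (by decide)
        simp at d1 d2 ⊢
        omega
      · have c1 := b3 (Sum.inr 1) (by decide) (by decide) (by decide) (by decide)
        simp at d1 d2 ⊢
        omega
      · have c1 := b3 (Sum.inr 2) (by decide) (by decide) (by decide) (by decide)
        simp at d1 d2 ⊢
        omega
      · have c1 := b3 (Sum.inr 3) (by decide) (by decide) (by decide) (by decide)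
        simp at d1 d2 ⊢
        omega
      · have c1 := a3 (Sum.inr 4) (by decide) (by decide) (by decide) (by decide)
        simp at d1 d2 ⊢
        omega
      · have c1 := a3 (Sum.inr 5) (by decide) (by decide) (by decide) (by decide)
        simp at d1 d2 ⊢
        omega
      · have c1 := a3 (Sum.inr 6) (by decide) (by decide) (by decide) (by decide)
        simp at d1 d2 ⊢
        omega
      · have c1 := a3 (Sum.inr 7) (by decide) (by decide) (by decide) (by decide)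
        simp at d1 d2 ⊢
        omega
    · intro s hs
      have f1 := a4 (Sum.elim (fun i => (Fin.elim0 : Fin 0 → ℂ → ℂ) i s) fun k => (v s k : ℂ)) (z 0 s)
        (hS s hs).r1
      have f2 := b4 (Sum.elim (fun i => (Fin.elim0 : Fin 0 → ℂ → ℂ) i s) fun k => (v s k : ℂ)) (z 1 s)
        (hS s hs).r2
      rw [map_mul, ← f1, ← f2, Fin.prod_univ_two]
      simp only [Sum.elim_inr]
      ring

theorem grwK7 (κ : ℂ) (z : Fin 2 → ℂ → ℂ) (v : ℂ → Fin 8 → ℤ) : Grw z v (RelK7 κ z v) := by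
  intro S hS b ρ t hli
  have h := grow_poly (y := ![z 0]) (D := ![1])
    (Om := fun s => ((v s 2 : ℂ) * κ + (v s 3 : ℂ)) ^ b * (v s 4 : ℂ) ^ b)
    (fun s hs => mul_ne_zero (pow_ne_zero _ (hS s hs).d1) (pow_ne_zero _ (hS s hs).d2)) ?_ t hli
  · rw [Fin.prod_univ_one] at h
    simp only [Matrix.cons_val_zero] at h
    omega
  · intro γ
    have hγ : ∀ i, (γ i : ℕ) ≤ b := fun i => Nat.lt_succ_iff.1 (γ i).isLt
    obtain ⟨F₁, a2, a3, a4⟩ := const_pow (σ := Fin 1 ⊕ Fin 8) κ (i₀ := Sum.inr 0)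
      (i₁ := Sum.inr 1) (i₂ := Sum.inr 2) (i₃ := Sum.inr 3) (by decide) (by decide) (by decide)
      (by decide) (n := b) (k := γ 1) (hγ 1)
    obtain ⟨F₂, b1, b2, b3, b4⟩ := quad_pow (σ := Fin 1 ⊕ Fin 8) (y := Sum.inl 0) (i₀ := Sum.inr 4)
      (i₁ := Sum.inr 5) (i₂ := Sum.inr 6) (by decide) (by decide) (by decide)
      (by decide) (by decide) (by decide) (n := b) (k := γ 0) (hγ 0)
    refine ⟨F₁ * F₂, ?_, ?_, ?_⟩
    · intro i
      refine (degreeOf_mul_le _ _ _).trans ?_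
      fin_cases i
      have c1 := a3 (Sum.inl 0) (by decide) (by decide) (by decide) (by decide)
      simp
      omega
    · intro k
      refine (degreeOf_mul_le _ _ _).trans ?_
      have d1 := a2 (Sum.inr k)
      have d2 := b2 (Sum.inr k) (by simp)
      fin_cases k
      · have c1 := b3 (Sum.inr 0) (by decide) (by decide) (by decide) (by decide)
        simp at d1 d2 ⊢
        omega
      · have c1 := b3 (Sum.inr 1) (by decide) (by decide) (by decide) (by decide)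
        simp at d1 d2 ⊢
        omega
      · have c1 := b3 (Sum.inr 2) (by decide) (by decide) (by decide) (by decide)
        simp at d1 d2 ⊢
        omega
      · have c1 := b3 (Sum.inr 3) (by decide) (by decide) (by decide) (by decide)
        simp at d1 d2 ⊢
        omega
      · have c1 := a3 (Sum.inr 4) (by decide) (by decide) (by decide) (by decide)
        simp at d1 d2 ⊢
        omega
      · have c1 := a3 (Sum.inr 5) (by decide) (by decide) (by decide) (by decide)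
        simp at d1 d2 ⊢
        omega
      · have c1 := a3 (Sum.inr 6) (by decide) (by decide) (by decide) (by decide)
        simp at d1 d2 ⊢
        omega
      · have c1 := a3 (Sum.inr 7) (by decide) (by decide) (by decide) (by decide)
        simp at d1 d2 ⊢
        omega
    · intro s hs
      have f1 := a4 (Sum.elim (fun i => (![z 0] : Fin 1 → ℂ → ℂ) i s) fun k => (v s k : ℂ)) (z 1 s)
        (hS s hs).r1
      have f2 := b4 (Sum.elim (fun i => (![z 0] : Fin 1 → ℂ → ℂ) i s) fun k => (v s k : ℂ))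
        (hS s hs).r2
      rw [map_mul, ← f1, ← f2, Fin.prod_univ_two]
      simp only [Sum.elim_inl, Sum.elim_inr, Matrix.cons_val_zero]
      ring

end Pool.Agent.LGO.KC
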