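import Mathlib
import Pool.Agent.LGO.PWG.Size

/-!
# LGO/KC: sizes, isogenies from a fixed curve

As `Fam.isoH_of_isog` (`PWG/Size.lean`); the first curve has the fixed period `τ₀`.
-/

namespace Pool.Agent.LGO.KC

variable {mm : ℕ}

open MvPolynomial Metric Pool.Agent.LGO.PWG

/-- the entries of the matrix -/
private theorem SizeK_entries {c T H : ℝ} (hc : 0 < c) (hT1 : 1 ≤ T) (hH : 1 ≤ H) (hcT : 1 ≤ c * T)
    {τ τ' : ℂ} {g : Matrix (Fin 2) (Fin 2) ℤ} {N : ℕ} (hdet : g.det = N)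
    (hm : Maps g τ τ') (h1 : c ≤ τ.im) (h2 : c ≤ τ'.im) (h3 : ‖τ‖ ≤ T) (h4 : ‖τ'‖ ≤ T)
    (h5 : (N : ℝ) * τ.im ≤ c * (H * T)) : ∀ i j, |(g i j : ℝ)| ≤ 4 * H * T ^ 4 := by
  have hd : (N : ℝ) = (g 0 0 : ℝ) * g 1 1 - (g 0 1 : ℝ) * g 1 0 := by
    have h6 : ((g.det : ℤ) : ℝ) = (N : ℝ) := by rw [hdet]; push_cast; rfl
    rw [← h6, Matrix.det_fin_two]
    push_cast
    ring
  unfold Maps at hm
  obtain ⟨q, hq⟩ : ∃ q : ℂ, q = (g 1 0 : ℂ) * τ + (g 1 1 : ℂ) := ⟨_, rfl⟩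
  obtain ⟨r, hr⟩ : ∃ r : ℂ, r = (g 0 0 : ℂ) * τ + (g 0 1 : ℂ) := ⟨_, rfl⟩
  rw [← hq, ← hr] at hm
  have hqre : q.re = g 1 0 * τ.re + g 1 1 := by
    rw [hq]; simp
  have hqim : q.im = g 1 0 * τ.im := by
    rw [hq]; simp
  have hrre : r.re = g 0 0 * τ.re + g 0 1 := by
    rw [hr]; simp
  have hrim : r.im = g 0 0 * τ.im := by
    rw [hr]; simp
  have hre := congrArg Complex.re hm
  have him := congrArg Complex.im hm
  rw [Complex.mul_re] at hre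
  rw [Complex.mul_im] at him
  -- the norm of q
  have hkey : (q.re ^ 2 + q.im ^ 2) * τ'.im = N * τ.im := by
    have e1 : (q.re ^ 2 + q.im ^ 2) * τ'.im = r.im * q.re - r.re * q.im := by
      rw [← hre, ← him]
      ring
    rw [e1, hrim, hqre, hrre, hqim, hd]
    ring
  have hqn : ‖q‖ ^ 2 = q.re ^ 2 + q.im ^ 2 := by
    rw [Complex.sq_norm, Complex.normSq_apply]
    ring
  have hT0 : 0 ≤ T := by linarith
  have hHT : 1 ≤ H * T := one_le_mul_of_one_le_of_one_le hH hT1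
  have hq2 : ‖q‖ ^ 2 ≤ H * T := by
    have e1 : c * ‖q‖ ^ 2 ≤ c * (H * T) := by
      calc c * ‖q‖ ^ 2 ≤ τ'.im * ‖q‖ ^ 2 := mul_le_mul_of_nonneg_right h2 (by positivity)
        _ = N * τ.im := by rw [hqn, ← hkey]; ring
        _ ≤ c * (H * T) := h5
    exact le_of_mul_le_mul_left e1 hc
  have hq1 : ‖q‖ ≤ 2 * (H * T) := by
    nlinarith [sq_nonneg (‖q‖ - 1), norm_nonneg q]
  have hr1 : ‖r‖ ≤ T * ‖q‖ := by
    rw [← hm, norm_mul]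
    exact mul_le_mul_of_nonneg_right h4 (norm_nonneg _)
  -- the entries of a row
  have hrow : ∀ (u v : ℝ) (y : ℂ), y.re = u * τ.re + v → y.im = u * τ.im →
      |u| ≤ T * ‖y‖ ∧ |v| ≤ 2 * T ^ 2 * ‖y‖ := by
    intro u v y hy1 hy2
    have e1 : |u| * c ≤ ‖y‖ := by
      calc |u| * c ≤ |u| * τ.im := mul_le_mul_of_nonneg_left h1 (abs_nonneg _)
        _ = |y.im| := by rw [hy2, abs_mul, abs_of_nonneg (hc.le.trans h1)]
        _ ≤ ‖y‖ := Complex.abs_im_le_norm y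
    have e2 : |u| ≤ T * ‖y‖ := by
      calc |u| = |u| * 1 := (mul_one _).symm
        _ ≤ |u| * (c * T) := mul_le_mul_of_nonneg_left hcT (abs_nonneg _)
        _ = T * (|u| * c) := by ring
        _ ≤ T * ‖y‖ := mul_le_mul_of_nonneg_left e1 hT0
    refine ⟨e2, ?_⟩
    have e3 : v = y.re - u * τ.re := by rw [hy1]; ring
    have e4 : |v| ≤ ‖y‖ + |u| * T := by
      rw [e3]
      refine (abs_sub _ _).trans ?_
      rw [abs_mul]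
      have e5 := Complex.abs_re_le_norm y
      have e6 : |τ.re| ≤ T := (Complex.abs_re_le_norm τ).trans h3
      have e7 := mul_le_mul_of_nonneg_left e6 (abs_nonneg u)
      linarith
    have e8 : |u| * T ≤ T * ‖y‖ * T := mul_le_mul_of_nonneg_right e2 hT0
    have e9 : ‖y‖ ≤ T ^ 2 * ‖y‖ := le_mul_of_one_le_left (norm_nonneg _) (one_le_pow₀ hT1)
    calc |v| ≤ ‖y‖ + |u| * T := e4
      _ ≤ T ^ 2 * ‖y‖ + T * ‖y‖ * T := add_le_add e9 e8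
      _ = 2 * T ^ 2 * ‖y‖ := by ring
  obtain ⟨f1, f2⟩ := hrow _ _ q hqre hqim
  obtain ⟨f3, f4⟩ := hrow _ _ r hrre hrim
  have hq0 := norm_nonneg q
  have hT2 : T ≤ T ^ 2 := by nlinarith
  have hT3 : T ^ 2 ≤ T ^ 3 := by
    rw [pow_succ T 2]
    exact le_mul_of_one_le_right (by positivity) hT1
  -- everything is at most `2 T ^ 3 ‖q‖`
  have hfin : 2 * T ^ 3 * ‖q‖ ≤ 4 * H * T ^ 4 := by
    calc 2 * T ^ 3 * ‖q‖ ≤ 2 * T ^ 3 * (2 * (H * T)) :=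
          mul_le_mul_of_nonneg_left hq1 (by positivity)
      _ = 4 * H * T ^ 4 := by ring
  have hT3' : 0 ≤ T ^ 3 := by positivity
  have g1 : |(g 1 0 : ℝ)| ≤ 2 * T ^ 3 * ‖q‖ := by
    refine f1.trans (mul_le_mul_of_nonneg_right ?_ hq0)
    linarith
  have g2 : |(g 1 1 : ℝ)| ≤ 2 * T ^ 3 * ‖q‖ := by
    refine f2.trans (mul_le_mul_of_nonneg_right ?_ hq0)
    linarith
  have g3 : |(g 0 0 : ℝ)| ≤ 2 * T ^ 3 * ‖q‖ := by
    calc |(g 0 0 : ℝ)| ≤ T * ‖r‖ := f3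
      _ ≤ T * (T * ‖q‖) := mul_le_mul_of_nonneg_left hr1 hT0
      _ = T ^ 2 * ‖q‖ := by ring
      _ ≤ 2 * T ^ 3 * ‖q‖ := mul_le_mul_of_nonneg_right (by linarith) hq0
  have g4 : |(g 0 1 : ℝ)| ≤ 2 * T ^ 3 * ‖q‖ := by
    calc |(g 0 1 : ℝ)| ≤ 2 * T ^ 2 * ‖r‖ := f4
      _ ≤ 2 * T ^ 2 * (T * ‖q‖) := mul_le_mul_of_nonneg_left hr1 (by positivity)
      _ = 2 * T ^ 3 * ‖q‖ := by ring
  intro i j
  fin_cases i <;> fin_cases j
  · exact g3.trans hfin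
  · exact g4.trans hfin
  · exact g1.trans hfin
  · exact g2.trans hfin

/-- an isogeny from a fixed curve -/
theorem isoH_of_isogC {Ω Cn : Set ℂ} {z : Fin mm → ℂ → ℂ} {ρ : ℂ → ℝ} (hF : Fam Ω Cn z ρ)
    (τ₀ : UpperHalfPlane) :
    ∃ C : ℕ, 0 < C ∧ ∀ H : ℝ, 2 ≤ H → ∀ s ∈ Ω, ‖s‖ ≤ H → ∀ x, Lift z s x → ∀ a,
      (∃ N : ℕ, 0 < N ∧ (N : ℝ) ≤ H ∧ IsogDeg N (Pool.Agent.Hhelper14.ZP.jInv τ₀) (x a)) →
        IsoH (H ^ C) (τ₀ : ℂ) (z a s) := by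
  obtain ⟨c, hc, him, him₀⟩ : ∃ c : ℝ, 0 < c ∧ (∀ a, ∀ s ∈ Ω, c ≤ (z a s).im) ∧ c ≤ (τ₀ : ℂ).im := by
    obtain ⟨c, hc, him⟩ := hF.im
    exact ⟨min c (τ₀ : ℂ).im, lt_min hc τ₀.im_pos, fun a s hs => (min_le_left _ _).trans (him a s hs),
      min_le_right _ _⟩
  obtain ⟨C₁, hC₁, hsz, hsz₀⟩ : ∃ C₁ : ℝ, 0 ≤ C₁ ∧ (∀ a, ∀ s ∈ Ω, ‖z a s‖ ≤ C₁ * (1 + ‖s‖)) ∧
      ‖(τ₀ : ℂ)‖ ≤ C₁ := by
    obtain ⟨C₁, hC₁⟩ := hF.size
    refine ⟨|C₁| + ‖(τ₀ : ℂ)‖, by positivity, fun a s hs => (hC₁ a s hs).trans ?_, ?_⟩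
    · refine mul_le_mul_of_nonneg_right ?_ (by positivity)
      have := le_abs_self C₁
      have := norm_nonneg (τ₀ : ℂ)
      linarith
    · have := abs_nonneg C₁
      linarith
  -- the constant
  obtain ⟨κ, hκ⟩ : ∃ κ : ℝ, κ = 1 + 2 * C₁ + 1 / c + 2 * C₁ / c := ⟨_, rfl⟩
  have hκ1 : 1 ≤ κ := by
    rw [hκ]
    have : 0 ≤ 2 * C₁ + 1 / c + 2 * C₁ / c := by positivity
    linarith
  have hκ2 : 2 * C₁ ≤ κ := by
    rw [hκ]
    have : 0 ≤ 1 / c + 2 * C₁ / c := by positivity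
    linarith
  have hκ3 : 1 ≤ c * κ := by
    have e1 : c * (1 / c) = 1 := by field_simp
    have e2 : 1 / c ≤ κ := by
      rw [hκ]
      have : 0 ≤ 2 * C₁ + 2 * C₁ / c := by positivity
      linarith
    calc (1 : ℝ) = c * (1 / c) := e1.symm
      _ ≤ c * κ := mul_le_mul_of_nonneg_left e2 hc.le
  have hκ4 : 2 * C₁ ≤ c * κ := by
    have e1 : c * (2 * C₁ / c) = 2 * C₁ := by field_simp
    have e2 : 2 * C₁ / c ≤ κ := by
      rw [hκ]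
      have : 0 ≤ 2 * C₁ + 1 / c := by positivity
      linarith
    calc 2 * C₁ = c * (2 * C₁ / c) := e1.symm
      _ ≤ c * κ := mul_le_mul_of_nonneg_left e2 hc.le
  obtain ⟨m, hm⟩ := pow_unbounded_of_one_lt (4 * κ ^ 4) (by norm_num : (1 : ℝ) < 2)
  refine ⟨m + 5, by omega, fun H hH s hs hsH x hx a hiso => ?_⟩
  obtain ⟨N, hN, hNH, hI⟩ := hiso
  obtain ⟨τ', hτ', hxτ'⟩ := hx a
  rw [hxτ', Gal.isogDeg_iff_maps hN] at hI
  obtain ⟨g, hdet, hmap⟩ := hI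
  rw [hτ'] at hmap
  have hz : ‖z a s‖ ≤ 2 * C₁ * H := by
    refine (hsz a s hs).trans ?_
    have e2 : C₁ * (1 + ‖s‖) ≤ C₁ * (2 * H) := mul_le_mul_of_nonneg_left (by linarith) hC₁
    linarith
  have hz₀ : ‖(τ₀ : ℂ)‖ ≤ 2 * C₁ * H := by nlinarith
  have hH1 : 1 ≤ H := by linarith
  have hent := SizeK_entries (c := c) (T := κ * H) (H := H) hc
    (one_le_mul_of_one_le_of_one_le hκ1 hH1) hH1 (by nlinarith) hdet hmap him₀
    (him a s hs) (hz₀.trans (mul_le_mul_of_nonneg_right hκ2 (by linarith)))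
    (hz.trans (mul_le_mul_of_nonneg_right hκ2 (by linarith))) (by
      have e1 : (τ₀ : ℂ).im ≤ 2 * C₁ * H :=
        ((le_abs_self _).trans (Complex.abs_im_le_norm _)).trans hz₀
      have e2 : (N : ℝ) * (τ₀ : ℂ).im ≤ H * (2 * C₁ * H) :=
        mul_le_mul hNH e1 (hc.le.trans him₀) (by linarith)
      have e3 : 2 * C₁ * (H * H) ≤ c * κ * (H * H) :=
        mul_le_mul_of_nonneg_right hκ4 (by positivity)
      linarith)
  refine ⟨g, ?_, fun i j => (hent i j).trans ?_, hmap⟩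
  · rw [hdet]
    exact_mod_cast hN.ne'
  · have h2m : (2 : ℝ) ^ m ≤ H ^ m := pow_le_pow_left₀ (by norm_num) hH m
    calc 4 * H * (κ * H) ^ 4 = 4 * κ ^ 4 * H ^ 5 := by ring
      _ ≤ H ^ m * H ^ 5 := mul_le_mul_of_nonneg_right (hm.le.trans h2m) (by positivity)
      _ = H ^ (m + 5) := (pow_add _ _ _).symm

end Pool.Agent.LGO.KC
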