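import Mathlib
import Pool.Agent.LGO.PWG.CountG
import Pool.Agent.LGO.KC.CovK
import Pool.Agent.LGO.KC.TinyS
import Pool.Agent.LGO.KC.Grow
import Pool.Agent.LGO.KC.Size

/-!
# LGO/KC: the three types of special points with fixed numbers can be counted

`Cs` is a finite set of invariants without complex multiplication.

* `Q5 Cs H x` (`m = 3`): `x 0`, `x 1` are isogenous, and `x 2` is isogenous to an element of `Cs`.
* `Q6 Cs H x` (`m = 2`): `x 0` and `x 1` are isogenous to elements of `Cs`.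
* `Q7 Cs H x` (`m = 2`): `x 0` is a singular modulus, `x 1` is isogenous to an element of `Cs`.
-/

namespace Pool.Agent.LGO.KC

open MvPolynomial Metric Pool.Agent.LGO.PWG

open Pool.Agent.LGO.PW (CD LH)

variable {mm : ℕ}

/-- `CbleG` with monotone conditions -/
structure CbM (Q : ℝ → (Fin mm → ℂ) → Prop) : Prop where
  mono : ∀ (H H' : ℝ), H ≤ H' → ∀ x, Q H x → Q H' x
  comp : ∀ z, Comp z → ∃ Pt : ℝ → ℂ → Prop, (∀ H H' s, H ≤ H' → Pt H s → Pt H' s) ∧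
    DC (closedBall 0 1) Pt ∧ Tr (ball 0 4) z Q Pt
  cusp : ∀ e ψ, Cusp e ψ → ∃ Pt : ℝ → ℂ → Prop, (∀ H H' s, H ≤ H' → Pt H s → Pt H' s) ∧
    DC CD Pt ∧ Cov Pt ∧ Tr LH (cz e ψ) Q Pt

theorem CbM.cble {Q : ℝ → (Fin mm → ℂ) → Prop} (h : CbM Q) : CbleG Q where
  mono := h.mono
  comp z hz := by
    obtain ⟨Pt, _, h1, h2⟩ := h.comp z hz
    exact ⟨Pt, h1, h2⟩
  cusp e ψ hc := by
    obtain ⟨Pt, _, h1, h2, h3⟩ := h.cusp e ψ hc
    exact ⟨Pt, h1, h2, h3⟩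

theorem dc_or {Cn : Set ℂ} {P P' : ℝ → ℂ → Prop} (h : DC Cn P) (h' : DC Cn P') :
    DC Cn (fun H s => P H s ∨ P' H s) := by
  classical
  intro d hd
  obtain ⟨H₁, h1⟩ := h (d / 2) (by positivity)
  obtain ⟨H₂, h2⟩ := h' (d / 2) (by positivity)
  obtain ⟨H₃, h3⟩ : ∃ H₃ : ℝ, ∀ H : ℝ, H₃ ≤ H → 2 ≤ H ^ (d / 2) :=
    Filter.eventually_atTop.1 ((tendsto_rpow_atTop (by positivity)).eventually_ge_atTop 2)
  refine ⟨max 1 (max H₁ (max H₂ H₃)), fun H hH w hw hwH S hS => ?_⟩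
  have a0 : 1 ≤ H := (le_max_left _ _).trans hH
  have a1 : H₁ ≤ H := (le_max_left _ _).trans ((le_max_right _ _).trans hH)
  have a2 : H₂ ≤ H := (le_max_left _ _).trans ((le_max_right _ _).trans ((le_max_right _ _).trans hH))
  have a3 : H₃ ≤ H := (le_max_right _ _).trans ((le_max_right _ _).trans ((le_max_right _ _).trans hH))
  have e1 := h1 H a1 w hw hwH (S.filter fun s => P H s) fun s hs =>
    ⟨(hS s (Finset.mem_filter.1 hs).1).1, (Finset.mem_filter.1 hs).2⟩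
  have e2 := h2 H a2 w hw hwH (S.filter fun s => P' H s) fun s hs =>
    ⟨(hS s (Finset.mem_filter.1 hs).1).1, (Finset.mem_filter.1 hs).2⟩
  have e3 := h3 H a3
  have hsub : S ⊆ (S.filter fun s => P H s) ∪ (S.filter fun s => P' H s) := by
    intro s hs
    rcases (hS s hs).2 with h4 | h4
    · exact Finset.mem_union_left _ (Finset.mem_filter.2 ⟨hs, h4⟩)
    · exact Finset.mem_union_right _ (Finset.mem_filter.2 ⟨hs, h4⟩)
  have e4 : (S.card : ℝ) ≤ ((S.filter fun s => P H s).card : ℝ) + ((S.filter fun s => P' H s).card : ℝ) := by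
    exact_mod_cast (Finset.card_le_card hsub).trans (Finset.card_union_le _ _)
  have hH0 : 0 < H := by linarith
  calc (S.card : ℝ) ≤ H ^ (d / 2) + H ^ (d / 2) := by linarith
    _ ≤ H ^ (d / 2) * H ^ (d / 2) := by nlinarith
    _ = H ^ d := by
        rw [← Real.rpow_add hH0]
        congr 1
        ring

theorem cov_or {P P' : ℝ → ℂ → Prop} (h : Cov P) (h' : Cov P') : Cov (fun H s => P H s ∨ P' H s) := by
  classical
  obtain ⟨C, h1⟩ := h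
  obtain ⟨C', h2⟩ := h'
  refine ⟨C + C', fun H hH => ?_⟩
  obtain ⟨S, a1, a2, a3⟩ := h1 H hH
  obtain ⟨S', b1, b2, b3⟩ := h2 H hH
  refine ⟨S ∪ S', fun w hw => ?_, ?_, fun w hw hwH hP => ?_⟩
  · rcases Finset.mem_union.1 hw with hw | hw
    · exact a1 w hw
    · exact b1 w hw
  · have e : ((S ∪ S').card : ℝ) ≤ (S.card : ℝ) + (S'.card : ℝ) := by
      exact_mod_cast Finset.card_union_le S S'
    push_cast
    linarith
  · rcases hP with hP | hP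
    · obtain ⟨w₀, hw₀, h3⟩ := a3 w hw hwH hP
      exact ⟨w₀, Finset.mem_union_left _ hw₀, h3⟩
    · obtain ⟨w₀, hw₀, h3⟩ := b3 w hw hwH hP
      exact ⟨w₀, Finset.mem_union_right _ hw₀, h3⟩

private theorem TypesK_pow {H : ℝ} (hH : 2 ≤ H) {C C' : ℕ} : H ^ C ≤ H ^ (C + C') ∧
    H ^ C' ≤ H ^ (C + C') :=
  ⟨pow_le_pow_right₀ (by linarith) (Nat.le_add_right _ _),
    pow_le_pow_right₀ (by linarith) (Nat.le_add_left _ _)⟩

theorem tr_or {Ω : Set ℂ} {z : Fin mm → ℂ → ℂ} {Q Q' : ℝ → (Fin mm → ℂ) → Prop} {P P' : ℝ → ℂ → Prop}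
    (hP : ∀ H H' s, H ≤ H' → P H s → P H' s) (hP' : ∀ H H' s, H ≤ H' → P' H s → P' H' s)
    (h : Tr Ω z Q P) (h' : Tr Ω z Q' P') :
    Tr Ω z (fun H x => Q H x ∨ Q' H x) (fun H s => P H s ∨ P' H s) := by
  obtain ⟨C, hC, h1⟩ := h
  obtain ⟨C', hC', h2⟩ := h'
  refine ⟨C + C', by omega, fun H hH s hs hsH x hx hq => ?_⟩
  rcases hq with hq | hq
  · exact Or.inl (hP _ _ _ (TypesK_pow hH).1 (h1 H hH s hs hsH x hx hq))
  · exact Or.inr (hP' _ _ _ (TypesK_pow hH).2 (h2 H hH s hs hsH x hx hq))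

theorem CbM.or {Q Q' : ℝ → (Fin mm → ℂ) → Prop} (h : CbM Q) (h' : CbM Q') :
    CbM (fun H x => Q H x ∨ Q' H x) where
  mono := by
    intro H H' hH x hx
    rcases hx with hx | hx
    · exact Or.inl (h.mono H H' hH x hx)
    · exact Or.inr (h'.mono H H' hH x hx)
  comp := by
    intro z hz
    obtain ⟨P, m1, d1, t1⟩ := h.comp z hz
    obtain ⟨P', m2, d2, t2⟩ := h'.comp z hz
    refine ⟨fun H s => P H s ∨ P' H s, ?_, dc_or d1 d2, tr_or m1 m2 t1 t2⟩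
    intro H H' s hH hs
    rcases hs with hs | hs
    · exact Or.inl (m1 H H' s hH hs)
    · exact Or.inr (m2 H H' s hH hs)
  cusp := by
    intro e ψ hc
    obtain ⟨P, m1, d1, c1, t1⟩ := h.cusp e ψ hc
    obtain ⟨P', m2, d2, c2, t2⟩ := h'.cusp e ψ hc
    refine ⟨fun H s => P H s ∨ P' H s, ?_, dc_or d1 d2, cov_or c1 c2, tr_or m1 m2 t1 t2⟩
    intro H H' s hH hs
    rcases hs with hs | hs
    · exact Or.inl (m1 H H' s hH hs)
    · exact Or.inr (m2 H H' s hH hs)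

private theorem TypesK_dc0 (Cn : Set ℂ) : DC Cn (fun _ _ => False) := by
  intro d _
  refine ⟨0, fun H hH w _ _ S hS => ?_⟩
  have hS0 : S = ∅ := by
    rw [Finset.eq_empty_iff_forall_notMem]
    exact fun s hs => (hS s hs).2
  rw [hS0, Finset.card_empty, Nat.cast_zero]
  exact Real.rpow_nonneg hH d

theorem cbM_false : CbM (mm := mm) (fun _ _ => False) where
  mono := fun _ _ _ _ h => h
  comp := fun z _ => ⟨fun _ _ => False, fun _ _ _ _ h => h, TypesK_dc0 _, 1, one_pos,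
    fun _ _ _ _ _ _ _ h => h⟩
  cusp := fun e ψ _ => ⟨fun _ _ => False, fun _ _ _ _ h => h, TypesK_dc0 _,
    ⟨0, fun H _ => ⟨∅, by simp, by simp, fun _ _ _ h => h.elim⟩⟩, 1, one_pos,
    fun _ _ _ _ _ _ _ h => h⟩

theorem CbM.congr {Q Q' : ℝ → (Fin mm → ℂ) → Prop} (h : CbM Q) (hQ : ∀ H x, Q H x ↔ Q' H x) : CbM Q' := by
  have e : Q = Q' := by
    funext H x
    exact propext (hQ H x)
  rw [← e]
  exact h

theorem cbM_union {ι : Type*} (s : Finset ι) {Q : ι → ℝ → (Fin mm → ℂ) → Prop} (h : ∀ i ∈ s, CbM (Q i)) :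
    CbM (fun H x => ∃ i ∈ s, Q i H x) := by
  classical
  induction s using Finset.induction_on with
  | empty => exact cbM_false.congr (by simp)
  | insert a s _ ih =>
    refine ((h a (Finset.mem_insert_self a s)).or
      (ih fun i hi => h i (Finset.mem_insert_of_mem hi))).congr ?_
    intro H x
    simp only [Finset.exists_mem_insert]

private theorem TypesK_grw {m : ℕ} {z : Fin m → ℂ → ℂ} {v : ℂ → Fin 8 → ℤ} {P Q : ℂ → Prop}
    (h : Grw z v P) (hPQ : ∀ s, Q s → P s) : Grw z v Q :=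
  fun S hS => h S fun s hs => hPQ s (hS s hs)

private theorem TypesK_of {mm : ℕ} {Q : ℝ → (Fin mm → ℂ) → Prop} {Pt : (Fin mm → ℂ → ℂ) → ℝ → ℂ → Prop}
    (hmono : ∀ (H H' : ℝ), H ≤ H' → ∀ x, Q H x → Q H' x)
    (hPt : ∀ z (H H' : ℝ) s, H ≤ H' → Pt z H s → Pt z H' s)
    (htiny : ∀ {Ω Cn : Set ℂ} {z : Fin mm → ℂ → ℂ} {ρ : ℂ → ℝ}, Fam Ω Cn z ρ → Tiny Cn (Pt z))
    (hv : ∀ (z : Fin mm → ℂ → ℂ) (H : ℝ), 2 ≤ H → ∃ v : ℂ → Fin 8 → ℤ,
      (∀ s, Pt z H s → ∀ k, |(v s k : ℝ)| ≤ H) ∧ Grw z v (Pt z H))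
    (hcov : ∀ {e : Fin mm → ℕ} {ψ : Fin mm → ℂ → ℂ}, Cusp e ψ → Cov (Pt (cz e ψ)))
    (htr : ∀ {Ω Cn : Set ℂ} {z : Fin mm → ℂ → ℂ} {ρ : ℂ → ℝ}, Fam Ω Cn z ρ → Tr Ω z Q (Pt z)) :
    CbM Q where
  mono := hmono
  comp := fun z hz => ⟨Pt z, hPt z, disc_count hz.fam (htiny hz.fam) (hv z), htr hz.fam⟩
  cusp := fun e ψ h => ⟨Pt (cz e ψ), hPt _, disc_count h.fam (htiny h.fam) (hv (cz e ψ)),
    hcov h, htr h.fam⟩

/-- the numbers isogenous to an element of `Cs` -/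
def IsoC (Cs : Finset ℂ) (H : ℝ) (y : ℂ) : Prop := ∃ c ∈ Cs, IsoLe H c y

/-- a pair, and a coordinate isogenous to a fixed number -/
def Q5 (Cs : Finset ℂ) (H : ℝ) (x : Fin 3 → ℂ) : Prop := IsoLe H (x 0) (x 1) ∧ IsoC Cs H (x 2)

/-- two coordinates isogenous to fixed numbers -/
def Q6 (Cs : Finset ℂ) (H : ℝ) (x : Fin 2 → ℂ) : Prop := IsoC Cs H (x 0) ∧ IsoC Cs H (x 1)

/-- a singular modulus, and a coordinate isogenous to a fixed number -/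
def Q7 (Cs : Finset ℂ) (H : ℝ) (x : Fin 2 → ℂ) : Prop := QJ H (x 0) ∧ IsoC Cs H (x 1)

private theorem TypesK_5 {τ : UpperHalfPlane} (hn : NonCM (τ : ℂ)) :
    CbM (fun H (x : Fin 3 → ℂ) => IsoLe H (x 0) (x 1) ∧
      IsoLe H (Pool.Agent.Hhelper14.ZP.jInv τ) (x 2)) := by
  refine TypesK_of (Pt := fun z => PtK5 (τ : ℂ) z) ?_ ?_ (fun h => tinyK5 h τ.im_pos hn) ?_
    (fun h => coverK5 h τ.im_pos) ?_
  · exact fun H H' hH x h => ⟨h.1.mono hH, h.2.mono hH⟩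
  · exact fun z H H' s hH h => ⟨h.1.mono hH, h.2.mono hH⟩
  · intro z H hH
    obtain ⟨v, h1, h2⟩ := exists_relK5 (by linarith : 0 ≤ H) (τ : ℂ) z
    exact ⟨v, fun s _ k => h1 s k, TypesK_grw (grwK5 (τ : ℂ) z v) h2⟩
  · intro Ω Cn z ρ hF
    obtain ⟨C, hC, h⟩ := hF.isoH_of_isog
    obtain ⟨C', hC', h'⟩ := isoH_of_isogC hF τ
    refine ⟨C + C', by omega, fun H hH s hs hsH x hx hq => ⟨?_, ?_⟩⟩
    · exact (h H hH s hs hsH x hx 0 1 hq.1).mono (TypesK_pow hH).1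
    · exact (h' H hH s hs hsH x hx 2 hq.2).mono (TypesK_pow hH).2

private theorem TypesK_6 {τ τ' : UpperHalfPlane} (hn : NonCM (τ : ℂ)) (hn' : NonCM (τ' : ℂ)) :
    CbM (fun H (x : Fin 2 → ℂ) => IsoLe H (Pool.Agent.Hhelper14.ZP.jInv τ) (x 0) ∧
      IsoLe H (Pool.Agent.Hhelper14.ZP.jInv τ') (x 1)) := by
  refine TypesK_of (Pt := fun z => PtK6 (τ : ℂ) (τ' : ℂ) z) ?_ ?_
    (fun h => tinyK6 h τ.im_pos hn τ'.im_pos hn') ?_ (fun h => coverK6 h τ.im_pos τ'.im_pos) ?_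
  · exact fun H H' hH x h => ⟨h.1.mono hH, h.2.mono hH⟩
  · exact fun z H H' s hH h => ⟨h.1.mono hH, h.2.mono hH⟩
  · intro z H hH
    obtain ⟨v, h1, h2⟩ := exists_relK6 (by linarith : 0 ≤ H) (τ : ℂ) (τ' : ℂ) z
    exact ⟨v, fun s _ k => h1 s k, TypesK_grw (grwK6 (τ : ℂ) (τ' : ℂ) z v) h2⟩
  · intro Ω Cn z ρ hF
    obtain ⟨C, hC, h⟩ := isoH_of_isogC hF τ
    obtain ⟨C', hC', h'⟩ := isoH_of_isogC hF τ'
    refine ⟨C + C', by omega, fun H hH s hs hsH x hx hq => ⟨?_, ?_⟩⟩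
    · exact (h H hH s hs hsH x hx 0 hq.1).mono (TypesK_pow hH).1
    · exact (h' H hH s hs hsH x hx 1 hq.2).mono (TypesK_pow hH).2

private theorem TypesK_7 (τ : UpperHalfPlane) :
    CbM (fun H (x : Fin 2 → ℂ) => QJ H (x 0) ∧
      IsoLe H (Pool.Agent.Hhelper14.ZP.jInv τ) (x 1)) := by
  refine TypesK_of (Pt := fun z => PtK7 (τ : ℂ) z) ?_ ?_ (fun h => tinyK7 h) ?_
    (fun h => coverK7 h τ.im_pos) ?_
  · exact fun H H' hH x h => ⟨h.1.mono hH, h.2.mono hH⟩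
  · exact fun z H H' s hH h => ⟨h.1.mono hH, h.2.mono hH⟩
  · intro z H hH
    obtain ⟨v, h1, h2⟩ := exists_relK7 (by linarith : 0 ≤ H) (τ : ℂ) z
    exact ⟨v, fun s _ k => h1 s k, TypesK_grw (grwK7 (τ : ℂ) z v) h2⟩
  · intro Ω Cn z ρ hF
    obtain ⟨C, hC, h⟩ := hF.quadH_of
    obtain ⟨C', hC', h'⟩ := isoH_of_isogC hF τ
    refine ⟨C + C', by omega, fun H hH s hs hsH x hx hq => ⟨?_, ?_⟩⟩
    · exact (h H hH s hs hsH x hx 0 hq.1).mono (TypesK_pow hH).1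
    · exact (h' H hH s hs hsH x hx 1 hq.2).mono (TypesK_pow hH).2

/-- the element is the invariant of a point without complex multiplication -/
def NCj (c : ℂ) : Prop := ∃ τ : UpperHalfPlane, c = Pool.Agent.Hhelper14.ZP.jInv τ ∧ NonCM (τ : ℂ)

theorem cbleQ5 {Cs : Finset ℂ} (h : ∀ c ∈ Cs, NCj c) : CbleG (Q5 Cs) := by
  refine ((cbM_union Cs (Q := fun c H (x : Fin 3 → ℂ) => IsoLe H (x 0) (x 1) ∧ IsoLe H c (x 2))
    ?_).congr ?_).cble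
  · intro c hc
    obtain ⟨τ, rfl, hn⟩ := h c hc
    exact TypesK_5 hn
  · intro H x
    constructor
    · rintro ⟨c, hc, h1, h2⟩
      exact ⟨h1, c, hc, h2⟩
    · rintro ⟨h1, c, hc, h2⟩
      exact ⟨c, hc, h1, h2⟩

theorem cbleQ6 {Cs : Finset ℂ} (h : ∀ c ∈ Cs, NCj c) : CbleG (Q6 Cs) := by
  refine ((cbM_union (Cs ×ˢ Cs) (Q := fun c H (x : Fin 2 → ℂ) => IsoLe H c.1 (x 0) ∧ IsoLe H c.2 (x 1))
    ?_).congr ?_).cble
  · rintro ⟨c, c'⟩ hc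
    obtain ⟨hc, hc'⟩ := Finset.mem_product.1 hc
    obtain ⟨τ, h1, hn⟩ := h c hc
    obtain ⟨τ', h2, hn'⟩ := h c' hc'
    subst h1 h2
    exact TypesK_6 hn hn'
  · intro H x
    constructor
    · rintro ⟨⟨c, c'⟩, hc, h1, h2⟩
      obtain ⟨hc, hc'⟩ := Finset.mem_product.1 hc
      exact ⟨⟨c, hc, h1⟩, c', hc', h2⟩
    · rintro ⟨⟨c, hc, h1⟩, c', hc', h2⟩
      exact ⟨(c, c'), Finset.mem_product.2 ⟨hc, hc'⟩, h1, h2⟩

theorem cbleQ7 {Cs : Finset ℂ} (h : ∀ c ∈ Cs, NCj c) : CbleG (Q7 Cs) := by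
  refine ((cbM_union Cs (Q := fun c H (x : Fin 2 → ℂ) => QJ H (x 0) ∧ IsoLe H c (x 1))
    ?_).congr ?_).cble
  · intro c hc
    obtain ⟨τ, rfl, _⟩ := h c hc
    exact TypesK_7 τ
  · intro H x
    constructor
    · rintro ⟨c, hc, h1, h2⟩
      exact ⟨h1, c, hc, h2⟩
    · rintro ⟨h1, c, hc, h2⟩
      exact ⟨c, hc, h1, h2⟩

end Pool.Agent.LGO.KC
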