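import Mathlib
import Pool.Agent.LGO.ZV.Main
import Pool.Agent.LGO.KC.Types
import Pool.Agent.LGO.KC.Ht
import Pool.Agent.LGO.F.TFix

/-!
# LGO/KC: finiteness of the points with coordinates isogenous to fixed numbers

`c`, `c'` are fixed algebraic numbers without complex multiplication, `V` an irreducible curve over `Qb` with nonconstant
coordinates (`ZV.Crv`).

* `t5_v`: `x (i 0)`, `x (i 1)` isogenous, `x (i 2)` isogenous to `c`.
* `t6_v`: `x (i 0)` isogenous to `c`, `x (i 1)` isogenous to `c'`.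
* `t7_v`: `x (i 0)` is a singular modulus, `x (i 1)` is isogenous to `c`.

The heights are known from the height of `c` (`isog_one`, `hts_v`), counting: `cbleQ5`, `cbleQ6`, `cbleQ7`.
-/

namespace Pool.Agent.LGO.KC

open UpperHalfPlane Pool.Agent.Hhelper14.ZP Pool.Agent.Hhelper14.ZPL Pool.Agent.LGO
  Pool.Agent.LGO.U Pool.Agent.LGO.ZF Pool.Agent.LGO.ZG Pool.Agent.LGO.ZV Pool.Agent.LGO.PWG

variable {n mm : ℕ} {V : Set (Fin n → ℂ)}

open Classical in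
/-- the conjugates of `c` without complex multiplication -/
noncomputable def cj (c : ℂ) : Finset ℂ :=
  (((minpoly ℚ c).map (algebraMap ℚ ℂ)).roots.toFinset).filter NCM

theorem mem_cj {c : ℂ} (hc : IsAlgebraic ℚ c) (hn : NCM c) (s : ℂ ≃+* ℂ) : s c ∈ cj c := by
  classical
  rw [cj, Finset.mem_filter, Multiset.mem_toFinset,
    Polynomial.mem_roots (Polynomial.map_ne_zero (minpoly.ne_zero hc.isIntegral)), Polynomial.IsRoot.def,
    Polynomial.eval_map]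
  refine ⟨?_, hn.map s⟩
  have h1 : Polynomial.eval₂ (algebraMap ℚ ℂ) (s c) (minpoly ℚ c) =
      (s : ℂ →+* ℂ) (Polynomial.eval₂ (algebraMap ℚ ℂ) c (minpoly ℚ c)) := by
    rw [Polynomial.hom_eval₂]
    congr 1
    exact Subsingleton.elim _ _
  have h2 := minpoly.aeval ℚ c
  rw [Polynomial.aeval_def] at h2
  rw [h1, h2, map_zero]

theorem cj_ncj {c c' : ℂ} (h : c' ∈ cj c) : NCj c' := by
  classical
  rw [cj, Finset.mem_filter] at h
  obtain ⟨τ, rfl⟩ := j_surj c'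
  exact ⟨τ, rfl, (ncm_jInv τ).1 h.2⟩

/-- adjoining a fixed number -/
theorem fld_c {c : ℂ} (hc : IsAlgebraic ℚ c) : ∃ (d : ℕ) (B : ℝ), 1 ≤ d ∧ 1 ≤ B ∧
    ∀ (K : IntermediateField ℚ ℂ) [FiniteDimensional ℚ K], ∃ K₁ : IntermediateField ℚ ℂ, K ≤ K₁ ∧
      FiniteDimensional ℚ K₁ ∧ Module.finrank ℚ K₁ ≤ d * Module.finrank ℚ K ∧ Bd K₁ B c := by
  obtain ⟨B, hB0, hB⟩ := bd_of_alg hc
  have hF : FiniteDimensional ℚ (IntermediateField.adjoin ℚ ({c} : Set ℂ)) :=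
    IntermediateField.adjoin.finiteDimensional hc.isIntegral
  refine ⟨Module.finrank ℚ (IntermediateField.adjoin ℚ ({c} : Set ℂ)), B + 1, Module.finrank_pos,
    by linarith, fun K _ => ⟨K ⊔ IntermediateField.adjoin ℚ ({c} : Set ℂ), le_sup_left,
      inferInstance, ?_, ?_⟩⟩
  · rw [mul_comm]
    exact IntermediateField.finrank_sup_le _ _
  · refine (hB _ ?_).mono (by linarith)
    have h1 : IntermediateField.adjoin ℚ ({c} : Set ℂ) ≤ K ⊔ IntermediateField.adjoin ℚ ({c} : Set ℂ) :=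
      le_sup_right
    exact h1 (IntermediateField.mem_adjoin_simple_self ℚ c)

/-- the heights if one coordinate is isogenous to a fixed number -/
theorem hb_c (h : ZV.Crv V) {c : ℂ} (hc : IsAlgebraic ℚ c) (hn : NCM c) (i : Fin mm → Fin n) (a : Fin mm) :
    ∃ (C : ℕ) (E : Set (Fin n → ℂ)), E.Finite ∧ ∀ x ∈ V, x ∉ E → HeckeRel c (x (i a)) → HB i C x := by
  obtain ⟨C₁, E, hE, h1⟩ := hts_v h.irr h.kcl h.dim (i a) (h.nc (i a))
  obtain ⟨C₂, hC₂, h2⟩ := isog_one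
  obtain ⟨d, B, hd, hB, hfld⟩ := fld_c hc
  obtain ⟨m, hm⟩ := exists_nat_ge B
  obtain ⟨C₃, hC₃, h3⟩ := pw_absorb ((C₁ : ℝ) * d) (C₂ * d * m) C₂
  refine ⟨C₁ * d + C₃, E, hE, ?_⟩
  intro x hx hxE hrel K _ hK
  obtain ⟨K₁, hle, hfd, hrk, hbd⟩ := hfld K
  have h4 := h2 K₁ B c (x (i a)) hB hbd (hle (hK a)) hn (heckeRel_iff.mp hrel)
  obtain ⟨K', h5, h6, h7, h8⟩ := h1 x hx hxE K₁ _ h4
  have hD1 : 1 ≤ Module.finrank ℚ K := Module.finrank_pos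
  have hD1' : (1 : ℝ) ≤ Module.finrank ℚ K := by exact_mod_cast hD1
  have hrk' : (Module.finrank ℚ K₁ : ℝ) ≤ d * Module.finrank ℚ K := by exact_mod_cast hrk
  have hC₁0 : (0 : ℝ) ≤ C₁ := Nat.cast_nonneg _
  have hC₂0 : (0 : ℝ) ≤ C₂ := Nat.cast_nonneg _
  have hC₃0 : (0 : ℝ) ≤ C₃ := Nat.cast_nonneg _
  have hK₁0 : (0 : ℝ) ≤ Module.finrank ℚ K₁ := Nat.cast_nonneg _
  refine ⟨K', hle.trans h5, h6, ?_, fun k => (h8 k).mono ?_⟩
  · calc (Module.finrank ℚ K' : ℝ) ≤ C₁ * Module.finrank ℚ K₁ := h7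
      _ ≤ C₁ * (d * Module.finrank ℚ K) := mul_le_mul_of_nonneg_left hrk' hC₁0
      _ ≤ ((C₁ * d + C₃ : ℕ) : ℝ) * Module.finrank ℚ K := by
          push_cast
          nlinarith
  · have e1 : (C₂ : ℝ) * Module.finrank ℚ K₁ * B ≤ ((C₂ * d * m : ℕ) : ℝ) * Module.finrank ℚ K := by
      push_cast
      calc (C₂ : ℝ) * Module.finrank ℚ K₁ * B ≤ C₂ * (d * Module.finrank ℚ K) * m :=
            mul_le_mul (mul_le_mul_of_nonneg_left hrk' hC₂0) hm (by linarith) (by positivity)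
        _ = _ := by ring
    have e2 : ((C₂ : ℝ) * Module.finrank ℚ K₁ * B) ^ C₂ ≤
        (((C₂ * d * m : ℕ) : ℝ) * Module.finrank ℚ K) ^ C₂ :=
      pow_le_pow_left₀ (by positivity) e1 _
    have e3 : (C₁ : ℝ) * Module.finrank ℚ K₁ ≤ (C₁ : ℝ) * d * Module.finrank ℚ K := by
      calc (C₁ : ℝ) * Module.finrank ℚ K₁ ≤ C₁ * (d * Module.finrank ℚ K) :=
            mul_le_mul_of_nonneg_left hrk' hC₁0
        _ = _ := by ring
    calc (C₁ : ℝ) * Module.finrank ℚ K₁ * (1 + ((C₂ : ℝ) * Module.finrank ℚ K₁ * B) ^ C₂)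
        ≤ (C₁ : ℝ) * d * Module.finrank ℚ K *
          (1 + (((C₂ * d * m : ℕ) : ℝ) * Module.finrank ℚ K) ^ C₂) :=
          mul_le_mul e3 (by linarith) (by positivity) (by positivity)
      _ ≤ ((C₃ : ℝ) * Module.finrank ℚ K) ^ C₃ := h3 _ hD1
      _ ≤ _ := pw_mono (Nat.le_add_left _ _) hD1

/-- the condition on the conjugates -/
theorem iso_c {c : ℂ} (hc : IsAlgebraic ℚ c) (hn : NCM c) : ∃ C : ℕ, ∀ (K : IntermediateField ℚ ℂ)
    [FiniteDimensional ℚ K] (M : ℝ) (y : ℂ), 2 ≤ M → (Module.finrank ℚ K : ℝ) ≤ M → Bd K M y →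
    HeckeRel c y → ∀ s : ℂ ≃+* ℂ, IsoC (cj c) (M ^ C) (s y) := by
  obtain ⟨C, hC⟩ := iso_q
  obtain ⟨d, B, hd, hB, hfld⟩ := fld_c hc
  obtain ⟨e, he⟩ := pow_unbounded_of_one_lt ((d : ℝ) + B) (by norm_num : (1 : ℝ) < 2)
  refine ⟨(e + 1) * C, ?_⟩
  intro K _ M y hM hK hy hr s
  obtain ⟨K₁, hle, hfd, hrk, hbd⟩ := hfld K
  have hrk' : (Module.finrank ℚ K₁ : ℝ) ≤ d * Module.finrank ℚ K := by exact_mod_cast hrk
  have hM1 : 1 ≤ M := by linarith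
  have h2e : (2 : ℝ) ^ e ≤ M ^ e := pow_le_pow_left₀ (by norm_num) hM e
  have hee : M ^ e ≤ M ^ (e + 1) := pow_le_pow_right₀ hM1 (Nat.le_succ e)
  have hMe : M ≤ M ^ (e + 1) := le_self_pow₀ hM1 (Nat.succ_ne_zero e)
  have hd0 : (1 : ℝ) ≤ d := by exact_mod_cast hd
  have hny : NCM y := by
    obtain ⟨N, hN, hI⟩ := heckeRel_iff.mp hr
    exact NCM.of_isog hN hI hn
  refine ⟨s c, mem_cj hc hn s, ?_⟩
  rw [pow_mul]
  refine hC K₁ (M ^ (e + 1)) c y (hM.trans hMe) ?_ (hbd.mono (by linarith)) ((hy.le hle).mono hMe)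
    hn hny hr s
  calc (Module.finrank ℚ K₁ : ℝ) ≤ d * Module.finrank ℚ K := hrk'
    _ ≤ M ^ e * M := mul_le_mul (by linarith) hK (Nat.cast_nonneg _) (by positivity)
    _ = M ^ (e + 1) := (pow_succ _ _).symm

theorem alg_rel {c y : ℂ} (hc : IsAlgebraic ℚ c) (hr : HeckeRel c y) : IsAlgebraic ℚ y :=
  F.isAlgebraic_of_isog hc (heckeRel_iff.mp hr)

/-- all coordinates are algebraic if one of them is -/
theorem alg_off (h : ZV.Crv V) (a : Fin n) : ∃ E : Set (Fin n → ℂ), E.Finite ∧ ∀ x ∈ V, x ∉ E →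
    IsAlgebraic ℚ (x a) → ∀ k, IsAlgebraic ℚ (x k) := by
  obtain ⟨C₁, E, hE, h1⟩ := hts_v h.irr h.kcl h.dim a (h.nc a)
  refine ⟨E, hE, fun x hx hxE hal k => ?_⟩
  obtain ⟨B, -, hB⟩ := bd_of_alg hal
  have hF : FiniteDimensional ℚ (IntermediateField.adjoin ℚ ({x a} : Set ℂ)) :=
    IntermediateField.adjoin.finiteDimensional hal.isIntegral
  obtain ⟨K', -, hK', -, h4⟩ := h1 x hx hxE _ B (hB _ (IntermediateField.mem_adjoin_simple_self ℚ (x a)))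
  have h5 : IsAlgebraic ℚ (⟨x k, (h4 k).mem⟩ : K') := Algebra.IsAlgebraic.isAlgebraic _
  exact (isAlgebraic_algebraMap_iff (algebraMap K' ℂ).injective).2 h5

/-- finiteness from the heights, outside a finite set -/
theorem fin_w (h : ZV.Crv V) (hm : 0 < mm) (i : Fin mm → Fin n) {Q : ℝ → (Fin mm → ℂ) → Prop}
    (hmono : ∀ (H H' : ℝ), H ≤ H' → ∀ x, Q H x → Q H' x)
    (hF : FinAbs Q {y : Fin mm → ℂ | ∃ x ∈ V, y = fun a => x (i a)})
    {T : Set (Fin n → ℂ)} (hTV : T ⊆ V) {E : Set (Fin n → ℂ)} (hE : E.Finite) (C : ℕ)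
    (hHB : ∀ x ∈ T, x ∉ E → HB i C x) (hal : ∀ x ∈ T, x ∉ E → ∀ a, IsAlgebraic ℚ (x (i a)))
    (C₂ : ℕ) (hQ : ∀ x ∈ T, x ∉ E → ∀ (K : IntermediateField ℚ ℂ) [FiniteDimensional ℚ K] (M : ℝ),
      2 ≤ M → (Module.finrank ℚ K : ℝ) ≤ M → (∀ k, Bd K M (x k)) → ∀ s : ℂ ≃+* ℂ,
        Q (M ^ C₂) (fun a => s (x (i a)))) : T.Finite := by
  have h1 := fin_v h hm i hmono hF (T := T \ E) (fun x hx => hTV hx.1) hE C
    (fun x hx hxE => hHB x hx.1 hxE) (fun x hx => hal x hx.1 hx.2) C₂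
    (fun x hx hxE => hQ x hx.1 hxE)
  refine (h1.union hE).subset fun x hx => ?_
  by_cases hxE : x ∈ E
  · exact Or.inr hxE
  · exact Or.inl ⟨hx, hxE⟩

theorem IsoC.mono {Cs Cs' : Finset ℂ} (hC : Cs ⊆ Cs') {H H' : ℝ} (hH : H ≤ H') {y : ℂ} (h : IsoC Cs H y) :
    IsoC Cs' H' y := by
  obtain ⟨c, hc, h1⟩ := h
  exact ⟨c, hC hc, h1.mono hH⟩

private theorem FinK_pow {M : ℝ} (hM : 2 ≤ M) {a b : ℕ} (h : a ≤ b) : M ^ a ≤ M ^ b :=
  pow_le_pow_right₀ (by linarith) h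

/-- the atlas -/
theorem atl_v (h : ZV.Crv V) (hm : 0 < mm) (i : Fin mm → Fin n) (hi : Function.Injective i) :
    HasAtlas {y : Fin mm → ℂ | ∃ x ∈ V, y = fun a => x (i a)} :=
  hasAtlas_v h.irr h.dim hm i (fun a => h.nc (i a)) fun a b hab => h.nomod _ _ (hi.ne hab)

/-- an isogenous pair, and a coordinate isogenous to `c` -/
theorem t5_v (h : ZV.Crv V) {c : ℂ} (hc : IsAlgebraic ℚ c) (hn : NCM c) (i : Fin 3 → Fin n)
    (hi : Function.Injective i) :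
    {x ∈ V | NCM (x (i 0)) ∧ NCM (x (i 1)) ∧ HeckeRel (x (i 0)) (x (i 1)) ∧
      HeckeRel c (x (i 2))}.Finite := by
  obtain ⟨C₂, hC₂⟩ := iso_q
  obtain ⟨C₃, hC₃⟩ := iso_c hc hn
  obtain ⟨C, E, hE, h1⟩ := hb_c h hc hn i 2
  obtain ⟨E', hE', h2⟩ := alg_off h (i 2)
  refine fin_w (Q := Q5 (cj c)) h (by omega) i (fun H H' hH x hx => ⟨hx.1.mono hH, hx.2.mono subset_rfl hH⟩)
    (fin_of_atlas (cbleQ5 fun c' hc' => cj_ncj hc') (atl_v h (by omega) i hi)) (fun x hx => hx.1)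
    (hE.union hE') C (fun x hx hxE => h1 x hx.1 (fun h => hxE (Or.inl h)) hx.2.2.2.2)
    (fun x hx hxE a => h2 x hx.1 (fun h => hxE (Or.inr h)) (alg_rel hc hx.2.2.2.2) (i a)) (C₂ + C₃) ?_
  intro x hx hxE K _ M hM hK hb s
  exact ⟨(hC₂ K M _ _ hM hK (hb _) (hb _) hx.2.1 hx.2.2.1 hx.2.2.2.1 s).mono (FinK_pow hM (by omega)),
    (hC₃ K M _ hM hK (hb _) hx.2.2.2.2 s).mono subset_rfl (FinK_pow hM (by omega))⟩

/-- two coordinates isogenous to `c` and `c'` -/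
theorem t6_v (h : ZV.Crv V) {c c' : ℂ} (hc : IsAlgebraic ℚ c) (hn : NCM c) (hc' : IsAlgebraic ℚ c')
    (hn' : NCM c') (i : Fin 2 → Fin n) (hi : Function.Injective i) :
    {x ∈ V | HeckeRel c (x (i 0)) ∧ HeckeRel c' (x (i 1))}.Finite := by
  classical
  obtain ⟨C₂, hC₂⟩ := iso_c hc hn
  obtain ⟨C₃, hC₃⟩ := iso_c hc' hn'
  obtain ⟨C, E, hE, h1⟩ := hb_c h hc hn i 0
  obtain ⟨E', hE', h2⟩ := alg_off h (i 0)
  refine fin_w (Q := Q6 (cj c ∪ cj c')) h (by omega) i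
    (fun H H' hH x hx => ⟨hx.1.mono subset_rfl hH, hx.2.mono subset_rfl hH⟩)
    (fin_of_atlas (cbleQ6 fun c'' hc'' => ?_) (atl_v h (by omega) i hi)) (fun x hx => hx.1)
    (hE.union hE') C (fun x hx hxE => h1 x hx.1 (fun h => hxE (Or.inl h)) hx.2.1)
    (fun x hx hxE a => h2 x hx.1 (fun h => hxE (Or.inr h)) (alg_rel hc hx.2.1) (i a)) (C₂ + C₃) ?_
  · rcases Finset.mem_union.1 hc'' with h3 | h3
    · exact cj_ncj h3
    · exact cj_ncj h3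
  · intro x hx hxE K _ M hM hK hb s
    exact ⟨(hC₂ K M _ hM hK (hb _) hx.2.1 s).mono Finset.subset_union_left (FinK_pow hM (by omega)),
      (hC₃ K M _ hM hK (hb _) hx.2.2 s).mono Finset.subset_union_right (FinK_pow hM (by omega))⟩

/-- a singular modulus, and a coordinate isogenous to `c` -/
theorem t7_v (h : ZV.Crv V) {c : ℂ} (hc : IsAlgebraic ℚ c) (hn : NCM c) (i : Fin 2 → Fin n)
    (hi : Function.Injective i) :
    {x ∈ V | IsCMVal (x (i 0)) ∧ HeckeRel c (x (i 1))}.Finite := by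
  obtain ⟨C₂, hC₂⟩ := cm_q
  obtain ⟨C₃, hC₃⟩ := iso_c hc hn
  obtain ⟨C, E, hE, h1⟩ := hb_c h hc hn i 1
  obtain ⟨E', hE', h2⟩ := alg_off h (i 1)
  refine fin_w (Q := Q7 (cj c)) (E := (E ∪ E') ∪ ({x ∈ V | x (i 0) = 0} ∪ {x ∈ V | x (i 0) = 1728})) h
    (by omega) i (fun H H' hH x hx => ⟨hx.1.mono hH, hx.2.mono subset_rfl hH⟩)
    (fin_of_atlas (cbleQ7 fun c' hc' => cj_ncj hc') (atl_v h (by omega) i hi)) (fun x hx => hx.1)
    ((hE.union hE').union ((h.fib (i 0) 0).union (h.fib (i 0) 1728))) C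
    (fun x hx hxE => h1 x hx.1 (fun h => hxE (Or.inl (Or.inl h))) hx.2.2)
    (fun x hx hxE a => h2 x hx.1 (fun h => hxE (Or.inl (Or.inr h))) (alg_rel hc hx.2.2) (i a))
    (C₂ + C₃) ?_
  intro x hx hxE K _ M hM hK hb s
  refine ⟨(hC₂ K M _ hM hK (hb _) ?_ ?_ hx.2.1 s).mono (FinK_pow hM (by omega)),
    (hC₃ K M _ hM hK (hb _) hx.2.2 s).mono subset_rfl (FinK_pow hM (by omega))⟩
  · exact fun h0 => hxE (Or.inr (Or.inl ⟨hx.1, h0⟩))
  · exact fun h0 => hxE (Or.inr (Or.inr ⟨hx.1, h0⟩))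

end Pool.Agent.LGO.KC
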