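import Mathlib
import Pool.Agent.Hhelper14.ZPL.Proj
import Pool.Agent.Hhelper14.ZPL.KClosed
import Pool.Agent.Hhelper14.ZPL.Topo
import Pool.Agent.LGO.ZV.Types

/-!
# LGO/KC: omitting the constant coordinates

`W` an irreducible curve over `Qb`, the coordinates `k` outside of the range of `σ` are constant on `W` (`ConstOff`).  The
projection `proj σ W` is an irreducible curve over `Qb`, and the projection is injective on `W`.
-/

namespace Pool.Agent.LGO.KC

open UpperHalfPlane MvPolynomial Pool.Agent.Hhelper14.ZP Pool.Agent.Hhelper14.ZPL Pool.Agent.LGO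
  Pool.Agent.LGO.ZV

variable {n m : ℕ} {W : Set (Fin n → ℂ)} {σ : Fin m → Fin n} {c : Fin n → ℂ}

/-- the coordinates outside of the range of `σ` are constant -/
def ConstOff (W : Set (Fin n → ℂ)) (σ : Fin m → Fin n) (c : Fin n → ℂ) : Prop :=
  ∀ x ∈ W, ∀ k, k ∉ Set.range σ → x k = c k

theorem ConstOff.intOver (h : ConstOff W σ c) : IntOver σ W := by
  intro k
  by_cases hk : k ∈ Set.range σ
  · obtain ⟨a, rfl⟩ := hk
    exact intElem_coord σ W a
  · refine intElem_congr (C (c k)) ?_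
    intro x hx
    rw [eval_X, eval_C, h x hx k hk]

theorem ConstOff.inj (h : ConstOff W σ c) : Set.InjOn (fun x : Fin n → ℂ => x ∘ σ) W := by
  intro x hx y hy hxy
  funext k
  by_cases hk : k ∈ Set.range σ
  · obtain ⟨a, rfl⟩ := hk
    exact congrFun hxy a
  · rw [h x hx k hk, h y hy k hk]

theorem qb_point (hW : KClosed W) (hne : W.Nonempty) : ∃ z : Fin n → Qb, (fun i => (z i : ℂ)) ∈ W := by
  obtain ⟨z, hz, -⟩ := exists_Qb_point hW (p := 1) (by
    intro h1
    obtain ⟨x, hx⟩ := hne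
    have h2 := mem_vanishingIdeal_iff.mp h1 x hx
    rw [map_one] at h2
    exact one_ne_zero h2)
  exact ⟨z, hz⟩

/-- the constants are algebraic -/
theorem ConstOff.alg (h : ConstOff W σ c) (hW : KClosed W) (hne : W.Nonempty) {k : Fin n}
    (hk : k ∉ Set.range σ) : IsAlgebraic ℚ (c k) := by
  obtain ⟨z, hz⟩ := qb_point hW hne
  rw [← h _ hz k hk]
  exact mem_algebraicClosure_iff.mp (z k).2

theorem ConstOff.kclosed (h : ConstOff W σ c) (hσ : Function.Injective σ) (hW : KClosed W)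
    (hne : W.Nonempty) : KClosed (proj σ W) := by
  classical
  obtain ⟨z, hz⟩ := qb_point hW hne
  set f : Fin n → MvPolynomial (Fin m) Qb := fun k =>
    if hk : ∃ a, σ a = k then X hk.choose else C (z k) with hf
  have hf1 : ∀ a, f (σ a) = X a := by
    intro a
    have hk : ∃ b, σ b = σ a := ⟨a, rfl⟩
    rw [hf]
    simp only [dif_pos hk]
    rw [hσ hk.choose_spec]
  have hf2 : ∀ k, k ∉ Set.range σ → f k = C (z k) := by
    intro k hk
    rw [hf]
    exact dif_neg fun h => hk h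
  have he : ∀ x ∈ W, (fun k => (aeval (x ∘ σ) (f k) : ℂ)) = x := by
    intro x hx
    funext k
    by_cases hk : k ∈ Set.range σ
    · obtain ⟨a, rfl⟩ := hk
      rw [hf1, aeval_X]
      rfl
    · rw [hf2 k hk, aeval_C, h x hx k hk, ← h _ hz k hk]
      rfl
  rw [kclosed_iff]
  intro y hy
  have hey : (fun k => (aeval y (f k) : ℂ)) ∈ W := by
    refine kclosed_iff.mp hW _ fun p hp => ?_
    rw [← aeval_bind₁]
    refine hy _ ?_
    rw [mem_vanishingIdeal_iff]
    rintro _ ⟨x, hx, rfl⟩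
    have h1 : (aeval (x ∘ σ) (bind₁ f p) : ℂ) = aeval (fun k => (aeval (x ∘ σ) (f k) : ℂ)) p :=
      aeval_bind₁ _ _ _
    rw [he x hx] at h1
    exact h1.trans (mem_vanishingIdeal_iff.mp hp x hx)
  refine ⟨_, hey, ?_⟩
  funext a
  show (aeval y (f (σ a)) : ℂ) = y a
  rw [hf1, aeval_X]

/-- the curve without the constant coordinates -/
theorem ConstOff.crv (h : ConstOff W σ c) (hσ : Function.Injective σ)
    (hW : Pool.Agent.Hhelper14.ZPL.IsIrredClosed W) (hWk : KClosed W)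
    (hdim : Pool.Agent.Hhelper14.ZPL.dim W = 1) (hnc : ∀ (a : Fin m) (c' : ℂ), ∃ x ∈ W, x (σ a) ≠ c')
    (hmod : ∀ a b : Fin m, a ≠ b → ∀ g : GL (Fin 2) ℚ, 0 < g.det.val →
      ∃ x ∈ W, ¬ ∃ τ : ℍ, x (σ a) = jInv τ ∧ x (σ b) = jInv (gact g τ)) : ZV.Crv (proj σ W) where
  irr := h.intOver.irredClosed hW
  kcl := h.kclosed hσ hWk (irred_nonempty hW)
  dim := h.intOver.dim_eq.trans hdim
  nc := by
    intro a c'
    obtain ⟨x, hx, hne⟩ := hnc a c'
    exact ⟨x ∘ σ, ⟨x, hx, rfl⟩, hne⟩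
  nomod := by
    intro a b hab g hg
    obtain ⟨x, hx, hne⟩ := hmod a b hab g hg
    exact ⟨x ∘ σ, ⟨x, hx, rfl⟩, hne⟩

/-- the map `σ` of the nonconstant coordinates -/
theorem exists_sigma (W : Set (Fin n → ℂ)) (hne : W.Nonempty) :
    ∃ (m : ℕ) (σ : Fin m → Fin n) (c : Fin n → ℂ), Function.Injective σ ∧ ConstOff W σ c ∧
      ∀ (a : Fin m) (c' : ℂ), ∃ x ∈ W, x (σ a) ≠ c' := by
  classical
  obtain ⟨x₀, hx₀⟩ := hne
  set I := {k : Fin n // ∀ c' : ℂ, ∃ x ∈ W, x k ≠ c'} with hI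
  refine ⟨Fintype.card I, fun a => ((Fintype.equivFin I).symm a).1, x₀, ?_, ?_, ?_⟩
  · intro a b hab
    exact (Fintype.equivFin I).symm.injective (Subtype.ext hab)
  · intro x hx k hk
    have h1 : ¬ ∀ c' : ℂ, ∃ x ∈ W, x k ≠ c' := by
      intro h1
      apply hk
      exact ⟨Fintype.equivFin I ⟨k, h1⟩, by simp⟩
    push Not at h1
    obtain ⟨c', hc'⟩ := h1
    rw [hc' x hx, hc' x₀ hx₀]
  · intro a c'
    exact ((Fintype.equivFin I).symm a).2 c'

end Pool.Agent.LGO.KC
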