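import Mathlib
import Pool.Agent.LGO.KC.Fin
import Pool.Agent.LGO.KC.Proj
import Pool.Agent.LGO.ZG.Triv

/-!
# LGO/KC: curves with constant coordinates (MP_d83ecd_ag)

`main_c`: `W` an irreducible curve over `Qb` in `Y(1)ⁿ`, coordinates allowed to be constant, `V = proj σ W` the curve of the
nonconstant coordinates.  If the points of types `T1` and `T2` of `V` are finitely many, then `FinAtypical W`.

If a constant coordinate is a singular modulus, or two of them are isogenous, or two nonconstant coordinates are related by a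
fixed modular correspondence, then `W` lies in a special subvariety.  Otherwise the points of `W` on special subvarieties of
codimension at least two are of the types `T1`, .., `T4` of `V`, or of one of the types of `t5_v`, `t6_v`, `t7_v`.
-/

namespace Pool.Agent.LGO.KC

open UpperHalfPlane Pool.Agent.Hhelper14.ZP Pool.Agent.Hhelper14.ZPL Pool.Agent.LGO
  Pool.Agent.LGO.ZF Pool.Agent.LGO.ZG Pool.Agent.LGO.ZV Pool.Agent.LGO.PWG Pool.Agent.ZPE

variable {n m mm : ℕ} {W : Set (Fin n → ℂ)} {σ : Fin m → Fin n} {c : Fin n → ℂ}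

/-- finiteness on `W` from finiteness on the projection -/
theorem ConstOff.tr (h : ConstOff W σ c) {S : Set (Fin m → ℂ)} (hS : S.Finite) {T : Set (Fin n → ℂ)}
    (hT : ∀ x ∈ T, x ∈ W ∧ x ∘ σ ∈ S) : T.Finite :=
  Set.Finite.of_injOn (f := fun x : Fin n → ℂ => x ∘ σ) (fun x hx => (hT x hx).2)
    (h.inj.mono fun x hx => (hT x hx).1) hS

theorem lift_idx {i : Fin mm → Fin n} (hi : Function.Injective i) (h : ∀ a, i a ∈ Set.range σ) :
    ∃ j : Fin mm → Fin m, Function.Injective j ∧ ∀ a, σ (j a) = i a := by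
  choose j hj using h
  refine ⟨j, fun a b hab => hi ?_, hj⟩
  rw [← hj a, ← hj b, hab]

private theorem MainK_inj2 {i j : Fin n} (hij : i ≠ j) : Function.Injective ![i, j] := by
  intro a b hab
  fin_cases a <;> fin_cases b <;> simp_all [eq_comm]

private theorem MainK_inj3 {i j k : Fin n} (hij : i ≠ j) (hik : i ≠ k) (hjk : j ≠ k) :
    Function.Injective ![i, j, k] := by
  have hij' := hij.symm
  have hik' := hik.symm
  have hjk' := hjk.symm
  intro a b hab
  fin_cases a <;> fin_cases b <;> simp_all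

/-- the constants have no complex multiplication and are not isogenous -/
structure Gen (W : Set (Fin n → ℂ)) (σ : Fin m → Fin n) (c : Fin n → ℂ) : Prop where
  off : ConstOff W σ c
  crv : ZV.Crv (proj σ W)
  alg : ∀ k, k ∉ Set.range σ → IsAlgebraic ℚ (c k)
  ncm : ∀ k, k ∉ Set.range σ → NCM (c k)
  rel : ∀ k l, k ≠ l → k ∉ Set.range σ → l ∉ Set.range σ → ¬ HeckeRel (c k) (c l)

theorem Gen.p5 (h : Gen W σ c) {k l l' l'' : Fin n} (hk : k ∉ Set.range σ) (hl : l ∈ Set.range σ)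
    (hl' : l' ∈ Set.range σ) (hl'' : l'' ∈ Set.range σ) (h1 : l ≠ l') (h2 : l ≠ l'') (h3 : l' ≠ l'') :
    {x ∈ W | NCM (x l) ∧ NCM (x l') ∧ HeckeRel (x l) (x l') ∧ HeckeRel (x k) (x l'')}.Finite := by
  obtain ⟨j, hj, hje⟩ := lift_idx (σ := σ) (MainK_inj3 h1 h2 h3) (by
    intro a
    fin_cases a
    · exact hl
    · exact hl'
    · exact hl'')
  have e0 : σ (j 0) = l := hje 0
  have e1 : σ (j 1) = l' := hje 1
  have e2 : σ (j 2) = l'' := hje 2
  refine h.off.tr (t5_v h.crv (h.alg k hk) (h.ncm k hk) j hj) ?_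
  rintro x ⟨hx, a1, a2, a3, a4⟩
  refine ⟨hx, ⟨x, hx, rfl⟩, ?_⟩
  simp only [Function.comp_apply, e0, e1, e2, ← h.off x hx k hk]
  exact ⟨a1, a2, a3, a4⟩

theorem Gen.p6 (h : Gen W σ c) {k k' l l' : Fin n} (hk : k ∉ Set.range σ) (hk' : k' ∉ Set.range σ)
    (hl : l ∈ Set.range σ) (hl' : l' ∈ Set.range σ) (h1 : l ≠ l') :
    {x ∈ W | HeckeRel (x k) (x l) ∧ HeckeRel (x k') (x l')}.Finite := by
  obtain ⟨j, hj, hje⟩ := lift_idx (σ := σ) (MainK_inj2 h1) (by
    intro a
    fin_cases a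
    · exact hl
    · exact hl')
  have e0 : σ (j 0) = l := hje 0
  have e1 : σ (j 1) = l' := hje 1
  refine h.off.tr (t6_v h.crv (h.alg k hk) (h.ncm k hk) (h.alg k' hk') (h.ncm k' hk') j hj) ?_
  rintro x ⟨hx, a1, a2⟩
  refine ⟨hx, ⟨x, hx, rfl⟩, ?_⟩
  simp only [Function.comp_apply, e0, e1, ← h.off x hx k hk, ← h.off x hx k' hk']
  exact ⟨a1, a2⟩

theorem Gen.p7 (h : Gen W σ c) {k l l' : Fin n} (hk : k ∉ Set.range σ)
    (hl : l ∈ Set.range σ) (hl' : l' ∈ Set.range σ) (h1 : l ≠ l') :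
    {x ∈ W | IsCMVal (x l) ∧ HeckeRel (x k) (x l')}.Finite := by
  obtain ⟨j, hj, hje⟩ := lift_idx (σ := σ) (MainK_inj2 h1) (by
    intro a
    fin_cases a
    · exact hl
    · exact hl')
  have e0 : σ (j 0) = l := hje 0
  have e1 : σ (j 1) = l' := hje 1
  refine h.off.tr (t7_v h.crv (h.alg k hk) (h.ncm k hk) j hj) ?_
  rintro x ⟨hx, a1, a2⟩
  refine ⟨hx, ⟨x, hx, rfl⟩, ?_⟩
  simp only [Function.comp_apply, e0, e1, ← h.off x hx k hk]
  exact ⟨a1, a2⟩

/-- a singular modulus is not a constant coordinate -/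
theorem Gen.cm (h : Gen W σ c) {k : Fin n} {x : Fin n → ℂ} (hx : x ∈ W) (hc : IsCMVal (x k)) :
    k ∈ Set.range σ := by
  by_contra hk
  have h1 := h.ncm k hk
  rw [← h.off x hx k hk, ncm_iff] at h1
  exact h1 hc

/-- a pair of isogenous coordinates -/
theorem Gen.split (h : Gen W σ c) {k l : Fin n} (hkl : k ≠ l) :
    (k ∈ Set.range σ ∧ l ∈ Set.range σ) ∨
    (∃ k' l', k' ∉ Set.range σ ∧ l' ∈ Set.range σ ∧ (l' = k ∨ l' = l) ∧
      ∀ x : Fin n → ℂ, HeckeRel (x k) (x l) → HeckeRel (x k') (x l')) ∨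
    ∀ x ∈ W, ¬ HeckeRel (x k) (x l) := by
  by_cases h1 : k ∈ Set.range σ
  · by_cases h2 : l ∈ Set.range σ
    · exact Or.inl ⟨h1, h2⟩
    · exact Or.inr (Or.inl ⟨l, k, h2, h1, Or.inl rfl, fun x hx => HeckeRel.symm' hx⟩)
  · by_cases h2 : l ∈ Set.range σ
    · exact Or.inr (Or.inl ⟨k, l, h1, h2, Or.inr rfl, fun x hx => hx⟩)
    · refine Or.inr (Or.inr fun x hx hr => ?_)
      rw [h.off x hx k h1, h.off x hx l h2] at hr
      exact h.rel k l hkl h1 h2 hr

/-- **type 1** -/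
theorem Gen.t1 (h : Gen W σ c) (hT : T1 (proj σ W)) : T1 W := by
  intro i hi
  have n01 : i 0 ≠ i 1 := hi.ne (by decide)
  have n02 : i 0 ≠ i 2 := hi.ne (by decide)
  have n12 : i 1 ≠ i 2 := hi.ne (by decide)
  by_cases h0 : i 0 ∈ Set.range σ
  · by_cases h1 : i 1 ∈ Set.range σ
    · by_cases h2 : i 2 ∈ Set.range σ
      · obtain ⟨j, hj, hje⟩ := lift_idx (σ := σ) hi (by
          intro a
          fin_cases a
          · exact h0
          · exact h1
          · exact h2)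
        refine h.off.tr (hT j hj) ?_
        rintro x ⟨hx, a1, a2, a3⟩
        refine ⟨hx, ⟨x, hx, rfl⟩, ?_⟩
        simp only [Function.comp_apply, hje]
        exact ⟨a1, a2, a3⟩
      · refine (h.p6 h2 h2 h0 h1 n01).subset ?_
        rintro x ⟨hx, a1, a2, a3⟩
        exact ⟨hx, HeckeRel.symm' a3, HeckeRel.trans' (HeckeRel.symm' a3) a2⟩
    · by_cases h2 : i 2 ∈ Set.range σ
      · refine (h.p6 h1 h1 h0 h2 n02).subset ?_
        rintro x ⟨hx, a1, a2, a3⟩
        exact ⟨hx, HeckeRel.symm' a2, HeckeRel.trans' (HeckeRel.symm' a2) a3⟩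
      · refine (Set.finite_empty).subset ?_
        rintro x ⟨hx, a1, a2, a3⟩
        have h4 := HeckeRel.trans' (HeckeRel.symm' a2) a3
        rw [h.off x hx _ h1, h.off x hx _ h2] at h4
        exact absurd h4 (h.rel _ _ n12 h1 h2)
  · by_cases h1 : i 1 ∈ Set.range σ
    · by_cases h2 : i 2 ∈ Set.range σ
      · refine (h.p6 h0 h0 h1 h2 n12).subset ?_
        rintro x ⟨hx, a1, a2, a3⟩
        exact ⟨hx, a2, a3⟩
      · refine (Set.finite_empty).subset ?_
        rintro x ⟨hx, a1, a2, a3⟩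
        rw [h.off x hx _ h0, h.off x hx _ h2] at a3
        exact absurd a3 (h.rel _ _ n02 h0 h2)
    · refine (Set.finite_empty).subset ?_
      rintro x ⟨hx, a1, a2, a3⟩
      rw [h.off x hx _ h0, h.off x hx _ h1] at a2
      exact absurd a2 (h.rel _ _ n01 h0 h1)

/-- **type 2** -/
theorem Gen.t2 (h : Gen W σ c) (hT : T2 (proj σ W)) : T2 W := by
  intro i hi
  have n01 : i 0 ≠ i 1 := hi.ne (by decide)
  have n02 : i 0 ≠ i 2 := hi.ne (by decide)
  have n03 : i 0 ≠ i 3 := hi.ne (by decide)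
  have n12 : i 1 ≠ i 2 := hi.ne (by decide)
  have n13 : i 1 ≠ i 3 := hi.ne (by decide)
  have n23 : i 2 ≠ i 3 := hi.ne (by decide)
  rcases h.split n01 with ⟨h0, h1⟩ | ⟨k, l, hk, hl, hkl, hr⟩ | hr
  · rcases h.split n23 with ⟨h2, h3⟩ | ⟨k', l', hk', hl', hkl', hr'⟩ | hr'
    · obtain ⟨j, hj, hje⟩ := lift_idx (σ := σ) hi (by
        intro a
        fin_cases a
        · exact h0
        · exact h1
        · exact h2
        · exact h3)
      refine h.off.tr (hT j hj) ?_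
      rintro x ⟨hx, a1, a2, a3⟩
      refine ⟨hx, ⟨x, hx, rfl⟩, ?_⟩
      simp only [Function.comp_apply, hje]
      exact ⟨a1, a2, a3⟩
    · have e0 : i 0 ≠ l' := by rcases hkl' with rfl | rfl <;> assumption
      have e1 : i 1 ≠ l' := by rcases hkl' with rfl | rfl <;> assumption
      refine (h.p5 hk' h0 h1 hl' n01 e0 e1).subset ?_
      rintro x ⟨hx, a1, a2, a3⟩
      exact ⟨hx, a1 0, a1 1, a2, hr' x a3⟩
    · refine (Set.finite_empty).subset ?_
      rintro x ⟨hx, a1, a2, a3⟩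
      exact absurd a3 (hr' x hx)
  · rcases h.split n23 with ⟨h2, h3⟩ | ⟨k', l', hk', hl', hkl', hr'⟩ | hr'
    · have e0 : i 2 ≠ l := by rcases hkl with rfl | rfl <;> exact Ne.symm (by assumption)
      have e1 : i 3 ≠ l := by rcases hkl with rfl | rfl <;> exact Ne.symm (by assumption)
      refine (h.p5 hk h2 h3 hl n23 e0 e1).subset ?_
      rintro x ⟨hx, a1, a2, a3⟩
      exact ⟨hx, a1 2, a1 3, a3, hr x a2⟩
    · have e0 : l ≠ l' := by
        rcases hkl with rfl | rfl <;> rcases hkl' with rfl | rfl <;> assumption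
      refine (h.p6 hk hk' hl hl' e0).subset ?_
      rintro x ⟨hx, a1, a2, a3⟩
      exact ⟨hx, hr x a2, hr' x a3⟩
    · refine (Set.finite_empty).subset ?_
      rintro x ⟨hx, a1, a2, a3⟩
      exact absurd a3 (hr' x hx)
  · refine (Set.finite_empty).subset ?_
    rintro x ⟨hx, a1, a2, a3⟩
    exact absurd a2 (hr x hx)

/-- **type 3** -/
theorem Gen.t3 (h : Gen W σ c) (hT : T3 (proj σ W)) : T3 W := by
  intro i hi
  have n01 : i 0 ≠ i 1 := hi.ne (by decide)
  have n02 : i 0 ≠ i 2 := hi.ne (by decide)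
  have n12 : i 1 ≠ i 2 := hi.ne (by decide)
  by_cases h2 : i 2 ∈ Set.range σ
  · rcases h.split n01 with ⟨h0, h1⟩ | ⟨k, l, hk, hl, hkl, hr⟩ | hr
    · obtain ⟨j, hj, hje⟩ := lift_idx (σ := σ) hi (by
        intro a
        fin_cases a
        · exact h0
        · exact h1
        · exact h2)
      refine h.off.tr (hT j hj) ?_
      rintro x ⟨hx, a1, a2, a3, a4⟩
      refine ⟨hx, ⟨x, hx, rfl⟩, ?_⟩
      simp only [Function.comp_apply, hje]
      exact ⟨a1, a2, a3, a4⟩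
    · have e0 : i 2 ≠ l := by rcases hkl with rfl | rfl <;> exact Ne.symm (by assumption)
      refine (h.p7 hk h2 hl e0).subset ?_
      rintro x ⟨hx, a1, a2, a3, a4⟩
      exact ⟨hx, a4, hr x a3⟩
    · refine (Set.finite_empty).subset ?_
      rintro x ⟨hx, a1, a2, a3, a4⟩
      exact absurd a3 (hr x hx)
  · refine (Set.finite_empty).subset ?_
    rintro x ⟨hx, a1, a2, a3, a4⟩
    exact absurd (h.cm hx a4) h2

/-- **type 4** -/
theorem Gen.t4 (h : Gen W σ c) (hT : T4 (proj σ W)) : T4 W := by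
  intro i hi
  by_cases h0 : i 0 ∈ Set.range σ
  · by_cases h1 : i 1 ∈ Set.range σ
    · obtain ⟨j, hj, hje⟩ := lift_idx (σ := σ) hi (by
        intro a
        fin_cases a
        · exact h0
        · exact h1)
      refine h.off.tr (hT j hj) ?_
      rintro x ⟨hx, a1, a2⟩
      refine ⟨hx, ⟨x, hx, rfl⟩, ?_⟩
      simp only [Function.comp_apply, hje]
      exact ⟨a1, a2⟩
    · refine (Set.finite_empty).subset ?_
      rintro x ⟨hx, a1, a2⟩
      exact absurd (h.cm hx a2) h1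
  · refine (Set.finite_empty).subset ?_
    rintro x ⟨hx, a1, a2⟩
    exact absurd (h.cm hx a1) h0

/-- **the Zilber-Pink statement with constant coordinates, from the types 1 and 2 of the nonconstant coordinates** -/
theorem main_c (hW : Pool.Agent.Hhelper14.ZPL.IsIrredClosed W) (hWk : KClosed W)
    (hdim : Pool.Agent.Hhelper14.ZPL.dim W = 1) (hσ : Function.Injective σ) (hc : ConstOff W σ c)
    (hnc : ∀ (a : Fin m) (c' : ℂ), ∃ x ∈ W, x (σ a) ≠ c')
    (hC : CMAll) (halg : ∀ x : ℂ, IsCMVal x → IsAlgebraic ℚ x)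
    (h1 : ZV.Crv (proj σ W) → T1 (proj σ W)) (h2 : ZV.Crv (proj σ W) → T2 (proj σ W)) : FinAtypical W := by
  by_cases hcm : ∃ k, k ∉ Set.range σ ∧ IsCMVal (c k)
  · obtain ⟨k, hk, τ, hτ, hck⟩ := hcm
    refine fin_of_sub (special_const k hτ) ?_ fun x hx => ?_
    · intro hu
      have h3 : (fun _ => jInv τ + 1) ∈ {x : Fin n → ℂ | x k = jInv τ} := by
        rw [hu]
        exact Set.mem_univ _
      have h4 : jInv τ + 1 = jInv τ := h3
      simp at h4
    · show x k = jInv τ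
      rw [hc x hx k hk, hck]
  by_cases hrel : ∃ k l, k ≠ l ∧ k ∉ Set.range σ ∧ l ∉ Set.range σ ∧ HeckeRel (c k) (c l)
  · obtain ⟨k, l, hkl, hk, hl, τ, g, hg, h3, h4⟩ := hrel
    refine fin_of_mod hkl g hg fun x hx => ⟨τ, ?_, ?_⟩
    · rw [hc x hx k hk, h3]
    · rw [hc x hx l hl, h4]
  by_cases hmod : ∀ a b : Fin m, a ≠ b → ∀ g : GL (Fin 2) ℚ, 0 < g.det.val →
      ∃ x ∈ W, ¬ ∃ τ : ℍ, x (σ a) = jInv τ ∧ x (σ b) = jInv (gact g τ)
  · have hcrv := hc.crv hσ hW hWk hdim hnc hmod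
    push Not at hcm hrel
    have hG : Gen W σ c := ⟨hc, hcrv, fun k hk => hc.alg hWk (irred_nonempty hW) hk,
      fun k hk => ncm_iff.mpr (hcm k hk), fun k l hkl hk hl => hrel k l hkl hk hl⟩
    exact crit hW hdim (atyp_finite (hG.t1 (h1 hcrv)) (hG.t2 (h2 hcrv)) (hG.t3 (T3_v hcrv hC))
      (hG.t4 (T4_v hcrv hC halg)))
  · push Not at hmod
    obtain ⟨a, b, hab, g, hg, hx⟩ := hmod
    exact fin_of_mod (hσ.ne hab) g hg hx

end Pool.Agent.LGO.KC
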