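import Mathlib
import Pool.Agent.LGO.KC.Main
import Pool.Agent.LGO.ZH.Final
import Pool.Agent.LGO.ZG.Cpx

/-!
# LGO/KC: every rational curve over `Qb` (MP_d83ecd_ag)

`main_rc`: the Zilber-Pink statement for the closure of the image of `t ↦ (A_i(t) / B_i(t))_i`, for all `A_i, B_i ∈ Qb[X]`,
`B_i ≠ 0` (coordinates allowed to be constant).  `main_cpx`: the same for polynomials over `ℂ` with algebraic coefficients.
-/

namespace Pool.Agent.LGO.KC

open Polynomial UpperHalfPlane Pool.Agent.Hhelper14.ZP Pool.Agent.Hhelper14.ZPL Pool.Agent.LGO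
  Pool.Agent.LGO.ZF Pool.Agent.LGO.ZG Pool.Agent.LGO.ZV Pool.Agent.LGO.PWG Pool.Agent.ZPE

variable {n m : ℕ}

/-- a point -/
theorem fin_point {W : Set (Fin n → ℂ)} {c : Fin n → ℂ} (hW : W = {c}) : FinAtypical W := by
  by_cases h : ∃ T : Set (Fin n → ℂ), Pool.Agent.Hhelper14.ZPL.IsSpecial T ∧ T ≠ Set.univ ∧ c ∈ T
  · obtain ⟨T, hT, hne, hc⟩ := h
    refine fin_of_sub hT hne ?_
    rw [hW]
    exact Set.singleton_subset_iff.mpr hc
  · refine ⟨∅, Set.finite_empty, fun T hT => absurd hT (Set.notMem_empty T), ?_⟩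
    intro Z hZ C hC hd
    exfalso
    have hne : C.Nonempty := irred_nonempty hC.1
    obtain ⟨x, hx⟩ := hne
    have hxW : x ∈ W ∩ Z := hC.2.1 hx
    have hxc : x = c := by
      have := hxW.1
      rw [hW] at this
      exact this
    have hCW : C = W := by
      refine Set.Subset.antisymm (fun y hy => (hC.2.1 hy).1) ?_
      rw [hW, Set.singleton_subset_iff, ← hxc]
      exact hx
    have hZu : Z = Set.univ := by
      by_contra hZu
      exact h ⟨Z, hZ, hZu, hxc ▸ hxW.2⟩
    rw [hZu, hCW] at hd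
    have h1 : Pool.Agent.Hhelper14.ZP.dim (Set.univ : Set (Fin n → ℂ)) = n := by
      have h2 : Pool.Agent.Hhelper14.ZPL.dim (Set.univ : Set (Fin n → ℂ)) = Fintype.card (Fin n) :=
        dim_univ
      rw [Fintype.card_fin] at h2
      exact h2
    rw [h1, add_comm] at hd
    exact lt_irrefl _ hd

/-- the curve does not depend on the common factors -/
theorem curve_sub {A B A' B' : Fin n → Polynomial Qb} (hB : ∀ i, B i ≠ 0) (hB' : ∀ i, B' i ≠ 0)
    (h : ∀ i, A i * B' i = A' i * B i) : curve A B ⊆ curve A' B' := by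
  intro x hx
  rw [curve, MvPolynomial.mem_zeroLocus_iff] at hx ⊢
  intro p hp
  apply hx
  rw [MvPolynomial.mem_vanishingIdeal_iff]
  rcases zero_or (A := A) hB p with h1 | h1
  · exfalso
    have h2 := (h1.union ((finite_poles hB).union (finite_poles hB'))).infinite_compl
    obtain ⟨t, ht⟩ := h2.nonempty
    rw [Set.mem_compl_iff, Set.mem_union, Set.mem_union, not_or, not_or] at ht
    obtain ⟨ht1, ht2, ht3⟩ := ht
    have ht2' : ∀ i, (aeval t (B i) : ℂ) ≠ 0 := fun i hi => ht2 ⟨i, hi⟩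
    have ht3' : ∀ i, (aeval t (B' i) : ℂ) ≠ 0 := fun i hi => ht3 ⟨i, hi⟩
    apply ht1
    refine ⟨ht2', ?_⟩
    rw [MvPolynomial.mem_vanishingIdeal_iff] at hp
    have h3 := hp (fun i => (aeval t (A i) / aeval t (B i) : ℂ)) ⟨t, fun i => ⟨ht3' i, by
      show (aeval t (A i) / aeval t (B i) : ℂ) = aeval t (A' i) / aeval t (B' i)
      rw [div_eq_div_iff (ht2' i) (ht3' i), ← map_mul, h i, map_mul]⟩⟩
    rwa [MvPolynomial.aeval_eq_eval] at h3
  · intro y hy
    rw [MvPolynomial.aeval_eq_eval]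
    exact h1 y hy

theorem curve_congr {A B A' B' : Fin n → Polynomial Qb} (hB : ∀ i, B i ≠ 0) (hB' : ∀ i, B' i ≠ 0)
    (h : ∀ i, A i * B' i = A' i * B i) : curve A B = curve A' B' :=
  Set.Subset.antisymm (curve_sub hB hB' h) (curve_sub hB' hB fun i => (h i).symm)

theorem reduce (P Q : Polynomial Qb) (hQ : Q ≠ 0) : ∃ P' Q' : Polynomial Qb, Q' ≠ 0 ∧ IsCoprime P' Q' ∧
    P * Q' = P' * Q := by
  classical
  have hg : EuclideanDomain.gcd P Q ≠ 0 := fun h => hQ (EuclideanDomain.gcd_eq_zero_iff.mp h).2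
  obtain ⟨P', hP'⟩ := EuclideanDomain.gcd_dvd_left P Q
  obtain ⟨Q', hQ'⟩ := EuclideanDomain.gcd_dvd_right P Q
  refine ⟨P', Q', ?_, ?_, ?_⟩
  · rintro rfl
    rw [mul_zero] at hQ'
    exact hQ hQ'
  · have h1 := EuclideanDomain.gcd_eq_gcd_ab P Q
    refine ⟨EuclideanDomain.gcdA P Q, EuclideanDomain.gcdB P Q, ?_⟩
    have h2 : EuclideanDomain.gcd P Q * (EuclideanDomain.gcdA P Q * P' + EuclideanDomain.gcdB P Q * Q') =
        EuclideanDomain.gcd P Q * 1 := by
      calc EuclideanDomain.gcd P Q * (EuclideanDomain.gcdA P Q * P' + EuclideanDomain.gcdB P Q * Q')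
          = (EuclideanDomain.gcd P Q * P') * EuclideanDomain.gcdA P Q +
            (EuclideanDomain.gcd P Q * Q') * EuclideanDomain.gcdB P Q := by ring
        _ = P * EuclideanDomain.gcdA P Q + Q * EuclideanDomain.gcdB P Q := by rw [← hP', ← hQ']
        _ = EuclideanDomain.gcd P Q * 1 := by rw [mul_one]; exact h1.symm
    exact mul_left_cancel₀ hg h2
  · calc P * Q' = (EuclideanDomain.gcd P Q * P') * Q' := by rw [← hP']
      _ = P' * (EuclideanDomain.gcd P Q * Q') := by ring
      _ = P' * Q := by rw [← hQ']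

variable {A B : Fin n → Polynomial Qb} {σ : Fin m → Fin n} {c : Fin n → ℂ}

/-- the projection of a rational curve -/
theorem proj_curve (hB : ∀ i, B i ≠ 0) (h : ConstOff (curve A B) σ c) :
    proj σ (curve A B) = curve (fun a => A (σ a)) (fun a => B (σ a)) := by
  apply Set.Subset.antisymm
  · rintro _ ⟨x, hx, rfl⟩
    rw [curve, MvPolynomial.mem_zeroLocus_iff]
    intro p hp
    rw [curve, MvPolynomial.mem_zeroLocus_iff] at hx
    have h1 := hx (MvPolynomial.rename σ p) (by
      rw [MvPolynomial.mem_vanishingIdeal_iff] at hp ⊢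
      rintro y ⟨t, ht⟩
      rw [MvPolynomial.aeval_rename]
      exact hp (y ∘ σ) ⟨t, fun a => ht (σ a)⟩)
    rw [MvPolynomial.aeval_rename] at h1
    exact h1
  · have hcl := (h.intOver.irredClosed (curve_irred (A := A) hB)).2
    intro x hx
    have hcl' : MvPolynomial.zeroLocus ℂ (MvPolynomial.vanishingIdeal ℂ (proj σ (curve A B))) =
      proj σ (curve A B) := hcl
    rw [← hcl', MvPolynomial.mem_zeroLocus_iff]
    intro p hp
    rw [curve, MvPolynomial.mem_zeroLocus_iff] at hx
    apply hx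
    rw [MvPolynomial.mem_vanishingIdeal_iff]
    rcases zero_or (A := fun a => A (σ a)) (B := fun a => B (σ a)) (fun a => hB (σ a)) p with h1 | h1
    · exfalso
      have h2 := (h1.union (finite_poles hB)).infinite_compl
      obtain ⟨t, ht⟩ := h2.nonempty
      rw [Set.mem_compl_iff, Set.mem_union, not_or] at ht
      obtain ⟨ht1, ht2⟩ := ht
      have ht2' : ∀ i, (aeval t (B i) : ℂ) ≠ 0 := fun i hi => ht2 ⟨i, hi⟩
      apply ht1
      refine ⟨fun a => ht2' (σ a), ?_⟩
      rw [MvPolynomial.mem_vanishingIdeal_iff] at hp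
      have h3 := hp (fun a => (aeval t (A (σ a)) / aeval t (B (σ a)) : ℂ))
        ⟨fun i => (aeval t (A i) / aeval t (B i) : ℂ), img_subset ⟨t, fun i => ⟨ht2' i, rfl⟩⟩, rfl⟩
      rwa [MvPolynomial.aeval_eq_eval] at h3
    · intro y hy
      rw [MvPolynomial.aeval_eq_eval]
      exact h1 y hy

/-- a constant rational function -/
theorem const_of_deg {i : Fin n} (h : max (A i).natDegree (B i).natDegree = 0) :
    ∃ c' : ℂ, ∀ x ∈ curve A B, x i = c' := by
  have hA : (A i).natDegree = 0 := by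
    have := le_max_left (A i).natDegree (B i).natDegree
    omega
  have hB : (B i).natDegree = 0 := by
    have := le_max_right (A i).natDegree (B i).natDegree
    omega
  obtain ⟨a, ha⟩ := Polynomial.natDegree_eq_zero.mp hA
  obtain ⟨b, hb⟩ := Polynomial.natDegree_eq_zero.mp hB
  refine ⟨(a : ℂ) / b, fun x hx => ?_⟩
  rw [curve, MvPolynomial.mem_zeroLocus_iff] at hx
  have h1 := hx (MvPolynomial.X i - MvPolynomial.C ((a : ℂ) / b)) (by
    rw [MvPolynomial.mem_vanishingIdeal_iff]
    rintro y ⟨t, ht⟩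
    rw [map_sub, MvPolynomial.aeval_X, MvPolynomial.aeval_C, (ht i).2, ← ha, ← hb, aeval_C, aeval_C,
      sub_eq_zero]
    rfl)
  rw [map_sub, MvPolynomial.aeval_X, MvPolynomial.aeval_C, sub_eq_zero] at h1
  exact h1

theorem rat_T1 (h : Rat0 A B) (hm : NoMod (curve A B)) : T1 (curve A B) := by
  intro i hi
  have hn : 0 < n := (i 0).pos
  exact ZH.t1_all (h.par hn hm) h pairAll ZH.pairS i hi
    (ZH.nomd_of h hm (hi.ne (by decide : (0 : Fin 3) ≠ 1))) ((AXG.allFin h hm).f1 i hi)

theorem rat_T2 (h : Rat0 A B) (hm : NoMod (curve A B)) : T2 (curve A B) := by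
  intro i hi
  have hn : 0 < n := (i 0).pos
  exact ZH.t2_all (h.par hn hm) h pairAll ZH.pairS i hi
    (ZH.nomd_of h hm (hi.ne (by decide : (0 : Fin 4) ≠ 1))) ((AXG.allFin h hm).f2 i hi)

/-- **every rational curve**, in lowest terms -/
theorem main_rc' (hB : ∀ i, B i ≠ 0) (hcop : ∀ i, IsCoprime (A i) (B i)) : FinAtypical (curve A B) := by
  have hirr := curve_irred (A := A) hB
  obtain ⟨m, σ, c, hσ, hc, hnc⟩ := exists_sigma (curve A B) (irred_nonempty hirr)
  rcases Nat.eq_zero_or_pos m with hm | hm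
  · subst hm
    have hx : ∀ x ∈ curve A B, x = c := by
      intro x hx
      funext k
      exact hc x hx k fun ⟨a, _⟩ => a.elim0
    obtain ⟨x₀, hx₀⟩ := irred_nonempty hirr
    refine fin_point (c := c) (Set.Subset.antisymm (fun x h => hx x h) ?_)
    rw [Set.singleton_subset_iff, ← hx x₀ hx₀]
    exact hx₀
  · have hR : Rat0 (fun a => A (σ a)) (fun a => B (σ a)) := by
      refine ⟨fun a => hB (σ a), fun a => hcop (σ a), fun a => ?_⟩
      by_contra h0
      obtain ⟨c', hc'⟩ := const_of_deg (A := A) (B := B) (i := σ a) (by omega)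
      obtain ⟨x, hx, hne⟩ := hnc a c'
      exact hne (hc' x hx)
    have hp := proj_curve hB hc
    have hdim : Pool.Agent.Hhelper14.ZPL.dim (curve A B) = 1 := by
      rw [← hc.intOver.dim_eq, hp]
      exact rat_dim hR hm
    refine main_c hirr (curve_kclosed hB) hdim hσ hc hnc cmAll (fun _ hx => cm_alg hx) ?_ ?_
    · rw [hp]
      exact fun hcrv => rat_T1 hR hcrv.nomod
    · rw [hp]
      exact fun hcrv => rat_T2 hR hcrv.nomod

/-- **every rational curve** -/
theorem main_rc (hB : ∀ i, B i ≠ 0) : FinAtypical (curve A B) := by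
  choose A' B' h1 h2 h3 using fun i => reduce (A i) (B i) (hB i)
  rw [curve_congr hB h1 h3]
  exact main_rc' h1 h2

private theorem Rat_lift {P : ℂ[X]} (h : ∀ k, IsAlgebraic ℚ (P.coeff k)) :
    ∃ P' : Polynomial Qb, P'.map (algebraMap Qb ℂ) = P := by
  have h1 : P ∈ Polynomial.lifts (algebraMap Qb ℂ) := by
    rw [Polynomial.lifts_iff_coeff_lifts]
    intro k
    exact ⟨⟨P.coeff k, (mem_algebraicClosure_iff).mpr (h k)⟩, rfl⟩
  exact (Polynomial.mem_lifts P).mp h1

/-- **every rational curve**, polynomials over `ℂ` with algebraic coefficients -/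
theorem main_cpx {A B : Fin n → ℂ[X]} (hA : AlgCoeffs A) (hB : AlgCoeffs B) (hB0 : ∀ i, B i ≠ 0) :
    FinAtypical (ratCurve A B) := by
  choose A' hA' using fun i => Rat_lift (hA i)
  choose B' hB' using fun i => Rat_lift (hB i)
  have hne : ∀ i, B' i ≠ 0 := fun i h0 => hB0 i (by rw [← hB' i, h0, Polynomial.map_zero])
  have himg : ratPoints A B = img A' B' := by
    ext x
    constructor
    · rintro ⟨t, ht⟩
      refine ⟨t, fun i => ?_⟩
      have h := ht i
      rw [← hA' i, ← hB' i, eval_map_algebraMap, eval_map_algebraMap] at h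
      exact h
    · rintro ⟨t, ht⟩
      refine ⟨t, fun i => ?_⟩
      have h := ht i
      rw [← hA' i, ← hB' i, eval_map_algebraMap, eval_map_algebraMap]
      exact h
  have hV : ratCurve A B = curve A' B' := by rw [ratCurve, curve, himg]
  rw [hV]
  exact main_rc hne

end Pool.Agent.LGO.KC
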