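import Mathlib
import Pool.Agent.LGO.PWG.Types
import Pool.Agent.LGO.H.BdC
import Pool.Agent.Hhelper14.ZP2.Emb

/-!
# LGO/KC: points of a curve with a coordinate isogenous to a constant: definitions

`V` a curve over `ℚbar` (any genus), `c`, `c'` algebraic numbers which are not singular moduli.  We prove the
finiteness of

* type A: `x a ~ c`, `x b ~ c'` (`a ≠ b`),
* type B: `x a ~ c`, `x b ~ x d` (`a, b, d` different),
* type C: `x a ~ c`, `x b` a singular modulus (`a ≠ b`),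

where `~` means isogenous.  With the results for the curves with nonconstant coordinates (`LGO/ZG`, `LGO/ZV`) this
gives the case of the curves with constant coordinates.

* `PD`: a pair of functions `x`, `y` with values in the upper half plane and the polynomial `P g` (in the functions `z a`
  of the chart) of the relation `Maps g (x s) (y s)`.  Two kinds: `x = z b`, `y = z a`, `P = mpp b a`; and `x` the constant `τ`,
  `y = z a`, `P = cpp τ a`.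
* `PInd`: the independence which is needed for two pairs in a tiny disc (`PWG.mpp_indep` is the case of `mpp`).
* `Cnt W Q`: few points of `W` with `Q H` and coordinates at most `H ^ A` (for every `A`).
* `SH K B y`: the (total, over `K`) logarithmic height of `y ∈ K` is at most `B`.
-/

namespace Pool.Agent.LGO.PWG

open MvPolynomial Metric Pool.Agent.LGO.PW

variable {mm : ℕ}

/-- the data of a pair of functions -/
structure PD (Ω Cn : Set ℂ) (z : Fin mm → ℂ → ℂ) (x y : ℂ → ℂ)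
    (P : Matrix (Fin 2) (Fin 2) ℤ → MvPolynomial (Fin mm) ℂ) : Prop where
  im : ∃ c : ℝ, 0 < c ∧ ∀ s ∈ Ω, c ≤ (x s).im ∧ c ≤ (y s).im
  size : ∃ C : ℝ, ∀ s ∈ Ω, ‖x s‖ ≤ C * (1 + ‖s‖) ∧ ‖y s‖ ≤ C * (1 + ‖s‖)
  lip : ∃ C : ℕ, 0 < C ∧ ∀ w ∈ Cn, ∀ s ∈ closedBall w 1, ∀ t ∈ closedBall w 1,
    ‖x s - x t‖ ≤ C * (1 + ‖w‖) * ‖s - t‖ ∧ ‖y s - y t‖ ≤ C * (1 + ‖w‖) * ‖s - t‖
  deg : ∀ g, (P g).totalDegree ≤ 2
  lin : ∀ (p q : ℤ) (g h : Matrix (Fin 2) (Fin 2) ℤ),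
    P (p • g + q • h) = C (p : ℂ) * P g + C (q : ℂ) * P h
  ne : ∀ g : Matrix (Fin 2) (Fin 2) ℤ, g ≠ 0 → P g ≠ 0
  ev : ∀ (g : Matrix (Fin 2) (Fin 2) ℤ) (s : ℂ), eval (fun a => z a s) (P g) =
    y s * ((g 1 0 : ℂ) * x s + (g 1 1 : ℂ)) - ((g 0 0 : ℂ) * x s + (g 0 1 : ℂ))

/-- the independence of two pairs -/
def PInd (P₁ P₂ : Matrix (Fin 2) (Fin 2) ℤ → MvPolynomial (Fin mm) ℂ) : Prop :=
  ∀ A₁ A₂ B₁ B₂ : Matrix (Fin 2) (Fin 2) ℤ, A₁.det ≠ 0 → B₁.det ≠ 0 →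
    (∀ x y : ℤ, x • A₁ + y • A₂ = 0 → x = 0 ∧ y = 0) →
    (∀ x y : ℤ, x • B₁ + y • B₂ = 0 → x = 0 ∧ y = 0) → ∀ (d : ℕ) (g : Fin (d + 1) → Fin (d + 1) → ℂ),
    g ≠ 0 → ∑ i, ∑ j, C (g i j) * (P₁ A₂ ^ (i : ℕ) * P₁ A₁ ^ (d - i) * P₂ B₂ ^ (j : ℕ) *
      P₂ B₁ ^ (d - j)) ≠ 0

/-- the polynomial of the relation `Maps g τ (z a)`, `τ` a constant -/
noncomputable def cpp (τ : ℂ) (a : Fin mm) (g : Matrix (Fin 2) (Fin 2) ℤ) : MvPolynomial (Fin mm) ℂ :=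
  X a * C ((g 1 0 : ℂ) * τ + (g 1 1 : ℂ)) - C ((g 0 0 : ℂ) * τ + (g 0 1 : ℂ))

/-- two coordinates isogenous to constants -/
def PtA (τ τ' : ℂ) (z : Fin 2 → ℂ → ℂ) (H : ℝ) (s : ℂ) : Prop := IsoH H τ (z 0 s) ∧ IsoH H τ' (z 1 s)

/-- a coordinate isogenous to a constant, and a pair -/
def PtB (τ : ℂ) (z : Fin 3 → ℂ → ℂ) (H : ℝ) (s : ℂ) : Prop := IsoH H τ (z 0 s) ∧ IsoH H (z 1 s) (z 2 s)

/-- a coordinate isogenous to a constant, and a quadratic point -/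
def PtC (τ : ℂ) (z : Fin 2 → ℂ → ℂ) (H : ℝ) (s : ℂ) : Prop := IsoH H τ (z 0 s) ∧ QuadH H (z 1 s)

/-- the condition on the point, type A -/
def QA (c c' : ℂ) (H : ℝ) (x : Fin 2 → ℂ) : Prop := IsoLe H c (x 0) ∧ IsoLe H c' (x 1)

/-- the condition on the point, type B -/
def QB (c : ℂ) (H : ℝ) (x : Fin 3 → ℂ) : Prop := IsoLe H c (x 0) ∧ IsoLe H (x 1) (x 2)

/-- the condition on the point, type C -/
def QC (c : ℂ) (H : ℝ) (x : Fin 2 → ℂ) : Prop := IsoLe H c (x 0) ∧ QJ H (x 1)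

/-- few points of `W` with `Q H` and coordinates at most `H ^ A` -/
def Cnt (W : Set (Fin mm → ℂ)) (Q : ℝ → (Fin mm → ℂ) → Prop) : Prop :=
  ∀ (A : ℕ) (δ : ℝ), 0 < δ → ∃ C : ℝ, 0 < C ∧ ∀ H : ℝ, 2 ≤ H → ∀ S : Finset (Fin mm → ℂ),
    (∀ x ∈ S, x ∈ W ∧ (∀ a, ‖x a‖ ≤ H ^ A) ∧ Q H x) → (S.card : ℝ) ≤ C * H ^ δ

/-- the condition `Q` can be counted in charts; in a cusp chart only in unit discs -/
structure CbleK (Q : ℝ → (Fin mm → ℂ) → Prop) : Prop where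
  mono : ∀ (H H' : ℝ), H ≤ H' → ∀ x, Q H x → Q H' x
  comp : ∀ z, Comp z → ∃ Pt : ℝ → ℂ → Prop, DC (closedBall 0 1) Pt ∧ Tr (ball 0 4) z Q Pt
  cusp : ∀ e ψ, Cusp e ψ → ∃ Pt : ℝ → ℂ → Prop, DC CD Pt ∧ Tr LH (cz e ψ) Q Pt

end Pool.Agent.LGO.PWG

namespace Pool.Agent.LGO.KC

/-- the logarithmic height of `y ∈ K`, multiplied with the degree of `K`, is at most `B` -/
structure SH (K : IntermediateField ℚ ℂ) [FiniteDimensional ℚ K] (B : ℝ) (y : ℂ) : Prop where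
  mem : y ∈ K
  ex : ∃ a : ℕ, 0 < a ∧ (∀ (p : ℕ) [Fact p.Prime] (φ : ℂ →+* ℂ_[p]),
      ‖(a : ℂ_[p])‖ * ∏ σ : K →ₐ[ℚ] ℂ, max 1 ‖φ (σ ⟨y, mem⟩)‖ = 1) ∧
    (a : ℝ) * ∏ σ : K →ₐ[ℚ] ℂ, max 1 ‖σ ⟨y, mem⟩‖ ≤ Real.exp B

end Pool.Agent.LGO.KC
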