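import Mathlib
import Pool.Agent.LGO.KC.Defs
import Pool.Agent.LGO.PC.BdLoc

/-!
# LGO/KC: heights (`SH`)

`SH K B y` (`KC/Defs.lean`): the logarithmic height of `y`, times `[K : ℚ]`, is at most `B`.

PROOFS.
`exists_den_eq`: as `PC.exists_den` (`PC/BdLoc.lean`: `BdLoc_char`, `BdLoc_prim`, `BdLoc_coeff`): `a` is the leading
coefficient of the primitive integral polynomial `P = a ∏ (X - σ w)`.  `≥`: `exists_den` (a coefficient of `P` is a unit at `p`).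
`≤`: all coefficients of `P` are integers, and the largest coefficient of `∏ (X - α_i)` has the norm `∏ max 1 ‖α_i‖` (induction:
let `M = max_k ‖q_k‖` for `Q = ∑ q_k X ^ k`; then some coefficient of `(X - α) Q` has norm `max 1 ‖α‖ * M`: if `‖α‖ ≤ 1` take the largest
`k` with `‖q_k‖ = M`, the coefficient `q_k - α q_(k+1)` of `X ^ (k+1)`; if `‖α‖ > 1` the smallest such `k`, the coefficient
`q_(k-1) - α q_k` of `X ^ k`; `IsUltrametricDist`).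
`sh_of`: `r = ∏_σ σ β ∈ ℚ` (the norm), `a_x`, `a_y` the integers of `SH` and `exists_den_eq`; multiply `hfin` over the embeddings (each embedding
is the restriction of an automorphism of `ℂ`, see the proof of `PC.bd_of_loc`): `‖n ^ D r a_x ^ k‖ ≤ ‖a_y‖` for all `p`, so `n ^ D r a_x ^ k / a_y` is a nonzero
integer (`integral_of_norm_le`, as in `bd_of_loc`), `a_y ≤ n ^ D |r| a_x ^ k`; multiply `hinf`: `∏_σ max 1 ‖σ y‖ |r| ≤ exp (D M) (∏_σ max 1 ‖σ x‖) ^ k`.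
`SH.bd`: `a y` is integral (`integral_of_norm_le`: `‖a‖ ‖φ y‖ ≤ ‖a‖ ∏_σ max 1 ‖φ (σ y)‖ ≤ 1`, the inclusion is one of the `σ`; `y` is algebraic).
`sh_alg`: `sh_of` with `x = 0`, `β = 1`: `m c` integral gives `‖m‖ max 1 ‖φ c‖ ≤ 1`; the conjugates `s c` are bounded (roots of the minimal
polynomial, or `Bd.aut` for `ℚ(c)`).
-/

namespace Pool.Agent.LGO.KC

open Polynomial Pool.Agent.Hhelper14.ZP Pool.Agent.LGO Pool.Agent.LGO.PA Pool.Agent.LGO.PC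

variable {K : IntermediateField ℚ ℂ} [FiniteDimensional ℚ K]

/-- the Gauss norm of a linear factor -/
theorem SH_gaussLin {p : ℕ} [Fact p.Prime] (a : ℂ_[p]) :
    (X - C a : ℂ_[p][X]).gaussNorm (NormedField.toAbsoluteValue ℂ_[p]) 1 = max 1 ‖a‖ := by
  apply le_antisymm
  · obtain ⟨i, hi⟩ := exists_eq_gaussNorm (NormedField.toAbsoluteValue ℂ_[p]) 1 (X - C a : ℂ_[p][X])
    rw [hi, one_pow, mul_one]
    change ‖(X - C a : ℂ_[p][X]).coeff i‖ ≤ _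
    rcases i with _ | _ | i
    · simp
    · simp
    · simp [coeff_X]
  · refine max_le ?_ ?_
    · have h := le_gaussNorm (NormedField.toAbsoluteValue ℂ_[p]) (p := (X - C a : ℂ_[p][X]))
        zero_le_one 1
      rw [one_pow, mul_one] at h
      change ‖(X - C a : ℂ_[p][X]).coeff 1‖ ≤ _ at h
      simpa [coeff_C] using h
    · have h := le_gaussNorm (NormedField.toAbsoluteValue ℂ_[p]) (p := (X - C a : ℂ_[p][X]))
        zero_le_one 0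
      rw [one_pow, mul_one] at h
      change ‖(X - C a : ℂ_[p][X]).coeff 0‖ ≤ _ at h
      simpa using h

theorem SH_gaussProd {p : ℕ} [Fact p.Prime] {ι : Type*} (s : Finset ι) (a : ι → ℂ_[p]) :
    (∏ i ∈ s, (X - C (a i)) : ℂ_[p][X]).gaussNorm (NormedField.toAbsoluteValue ℂ_[p]) 1 =
      ∏ i ∈ s, max 1 ‖a i‖ := by
  classical
  have hna : IsNonarchimedean (NormedField.toAbsoluteValue ℂ_[p]) := fun x y =>
    IsUltrametricDist.norm_add_le_max x y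
  induction s using Finset.induction_on with
  | empty =>
    rw [Finset.prod_empty, Finset.prod_empty, ← C_1, gaussNorm_C]
    exact map_one (NormedField.toAbsoluteValue ℂ_[p])
  | insert i s hi ih =>
    rw [Finset.prod_insert hi, Finset.prod_insert hi, gaussNorm_mul hna one_pos, ih, SH_gaussLin]

/-- Gauss lemma: the largest coefficient of a product of linear factors -/
theorem SH_coeff {p : ℕ} [Fact p.Prime] {ι : Type*} (s : Finset ι) (a : ι → ℂ_[p]) :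
    ∃ k, ‖(∏ i ∈ s, (X - C (a i))).coeff k‖ = ∏ i ∈ s, max 1 ‖a i‖ := by
  obtain ⟨i, hi⟩ := exists_eq_gaussNorm (NormedField.toAbsoluteValue ℂ_[p]) 1
    (∏ i ∈ s, (X - C (a i)) : ℂ_[p][X])
  rw [SH_gaussProd, one_pow, mul_one] at hi
  exact ⟨i, hi.symm⟩

/-- **the denominator of a number** -/
theorem exists_den_eq (K : IntermediateField ℚ ℂ) [FiniteDimensional ℚ K] (w : K) :
    ∃ a : ℕ, 0 < a ∧ ∀ (p : ℕ) [Fact p.Prime] (φ : ℂ →+* ℂ_[p]),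
      ‖(a : ℂ_[p])‖ * ∏ σ : K →ₐ[ℚ] ℂ, max 1 ‖φ (σ w)‖ = 1 := by
  obtain ⟨χ, hmon, hroot, hprod⟩ := BdLoc_char K w
  obtain ⟨P, hP, hPχ⟩ := BdLoc_prim hmon
  have hP0 : P ≠ 0 := hP.ne_zero
  have hl0 : P.leadingCoeff ≠ 0 := leadingCoeff_ne_zero.2 hP0
  refine ⟨P.leadingCoeff.natAbs, Int.natAbs_pos.2 hl0, ?_⟩
  intro p _ φ
  have hp := Fact.out (p := p.Prime)
  have h5 : ‖((P.leadingCoeff.natAbs : ℕ) : ℂ_[p])‖ = ‖(P.leadingCoeff : ℂ_[p])‖ := by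
    rcases Int.natAbs_eq P.leadingCoeff with h | h
    · conv_rhs => rw [h]
      simp
    · conv_rhs => rw [h]
      simp
  have h3 : ∀ k, ‖((P.coeff k : ℤ) : ℂ_[p])‖ = ‖(P.leadingCoeff : ℂ_[p])‖ *
      ‖(∏ σ : K →ₐ[ℚ] ℂ, (X - C (φ (σ w)))).coeff k‖ := by
    intro k
    have h2 : ((P.coeff k : ℤ) : ℚ) = ((P.leadingCoeff : ℤ) : ℚ) * χ.coeff k := by
      have h3 := congrArg (fun q : ℚ[X] => q.coeff k) hPχ
      simp only [coeff_map, coeff_C_mul] at h3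
      simpa using h3
    have h3 : ((P.coeff k : ℤ) : ℂ_[p]) = (P.leadingCoeff : ℂ_[p]) * φ ((χ.coeff k : ℚ) : ℂ) := by
      have h4 := congrArg (fun q : ℚ => (q : ℂ_[p])) h2
      simp only [Rat.cast_intCast, Rat.cast_mul] at h4
      rw [h4, map_ratCast]
    have h5 : φ ((χ.coeff k : ℚ) : ℂ) = (∏ σ : K →ₐ[ℚ] ℂ, (X - C (φ (σ w)))).coeff k := by
      have h6 := congrArg (fun q : ℂ[X] => (q.map φ).coeff k) hprod
      simp only [coeff_map, Polynomial.map_prod, Polynomial.map_sub, map_X, map_C] at h6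
      rw [← h6]
      rfl
    rw [h3, norm_mul, h5]
  rw [h5]
  apply le_antisymm
  · obtain ⟨k, hk⟩ := SH_coeff (Finset.univ : Finset (K →ₐ[ℚ] ℂ)) (fun σ => φ (σ w))
    rw [← hk, ← h3 k]
    exact norm_intCast_le _
  · -- a coefficient prime to `p`
    obtain ⟨k, hk⟩ : ∃ k, ¬ (p : ℤ) ∣ P.coeff k := by
      by_contra hcon
      push Not at hcon
      have h1 : C (p : ℤ) ∣ P := by
        rw [C_dvd_iff_dvd_coeff]
        exact hcon
      have h2 := hP (p : ℤ) h1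
      rw [Int.isUnit_iff] at h2
      rcases h2 with h2 | h2
      · have : p = 1 := by exact_mod_cast h2
        exact hp.one_lt.ne' this
      · have : (0 : ℤ) ≤ (p : ℤ) := Int.natCast_nonneg p
        omega
    have h1 : ‖((P.coeff k : ℤ) : ℂ_[p])‖ = 1 := by
      refine le_antisymm (norm_intCast_le _) (not_lt.1 fun h => hk ?_)
      rw [norm_intCast_eq, Padic.norm_intCast_lt_one_iff] at h
      exact h
    have h6 := h3 k
    rw [h1] at h6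
    calc (1 : ℝ) = ‖(P.leadingCoeff : ℂ_[p])‖ *
          ‖(∏ σ : K →ₐ[ℚ] ℂ, (X - C (φ (σ w)))).coeff k‖ := h6
      _ ≤ _ := mul_le_mul_of_nonneg_left (BdLoc_coeff _ _ _) (norm_nonneg _)

theorem SH_one_le (w : K) : (1 : ℝ) ≤ ∏ σ : K →ₐ[ℚ] ℂ, max 1 ‖σ w‖ := by
  have h4 : ∏ σ : K →ₐ[ℚ] ℂ, (1 : ℝ) ≤ ∏ σ : K →ₐ[ℚ] ℂ, max 1 ‖σ w‖ :=
    Finset.prod_le_prod (fun _ _ => zero_le_one) fun _ _ => le_max_left _ _
  simpa using h4

theorem SH_fac_le {f : (K →ₐ[ℚ] ℂ) → ℝ} (hf : ∀ σ, 1 ≤ f σ) (σ : K →ₐ[ℚ] ℂ) :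
    f σ ≤ ∏ σ : K →ₐ[ℚ] ℂ, f σ := by
  classical
  rw [← Finset.mul_prod_erase Finset.univ _ (Finset.mem_univ σ)]
  have h3 : (1 : ℝ) ≤ ∏ τ ∈ Finset.univ.erase σ, f τ := by
    have h4 : ∏ τ ∈ Finset.univ.erase σ, (1 : ℝ) ≤ ∏ τ ∈ Finset.univ.erase σ, f τ :=
      Finset.prod_le_prod (fun _ _ => zero_le_one) fun _ _ => hf _
    simpa using h4
  exact le_mul_of_one_le_right (zero_le_one.trans (hf σ)) h3

theorem SH.mono {B B' : ℝ} {y : ℂ} (h : SH K B y) (hB : B ≤ B') : SH K B' y := by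
  obtain ⟨a, ha, h1, h2⟩ := h.ex
  exact ⟨h.mem, a, ha, h1, h2.trans (Real.exp_le_exp.2 hB)⟩

theorem SH.prod_le {B : ℝ} {y : ℂ} (h : SH K B y) :
    ∏ σ : K →ₐ[ℚ] ℂ, max 1 ‖σ ⟨y, h.mem⟩‖ ≤ Real.exp B := by
  obtain ⟨a, ha, h1, h2⟩ := h.ex
  refine le_trans ?_ h2
  have ha1 : (1 : ℝ) ≤ a := by exact_mod_cast ha
  exact le_mul_of_one_le_left (zero_le_one.trans (SH_one_le _)) ha1

theorem SH.nonneg {B : ℝ} {y : ℂ} (h : SH K B y) : 0 ≤ B := by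
  have h1 := (SH_one_le (K := K) ⟨y, h.mem⟩).trans h.prod_le
  rw [← Real.exp_zero] at h1
  exact Real.exp_le_exp.1 h1

theorem SH.bd {B : ℝ} {y : ℂ} (h : SH K B y) : Bd K B y := by
  obtain ⟨a, ha, h1, h2⟩ := h.ex
  have ha1 : (1 : ℝ) ≤ a := by exact_mod_cast ha
  refine ⟨h.mem, ⟨a, ha, ?_, ?_⟩, ?_⟩
  · exact (le_mul_of_one_le_right (by positivity) (SH_one_le (K := K) ⟨y, h.mem⟩)).trans h2
  · have halg : IsAlgebraic ℚ y := by
      have h3 : IsAlgebraic ℚ (⟨y, h.mem⟩ : K) := Algebra.IsAlgebraic.isAlgebraic _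
      exact h3.algebraMap (A := ℂ)
    refine integral_of_norm_le ?_ ?_
    · have h4 : IsAlgebraic ℚ ((a : ℕ) : ℂ) := by
        have h5 := isAlgebraic_algebraMap (R := ℚ) (A := ℂ) (a : ℚ)
        simpa using h5
      exact h4.mul halg
    · intro p _ φ
      rw [map_mul, map_natCast, norm_mul, ← h1 p φ]
      refine mul_le_mul_of_nonneg_left ?_ (norm_nonneg _)
      have h5 := SH_fac_le (K := K) (f := fun σ => max 1 ‖φ (σ ⟨y, h.mem⟩)‖)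
        (fun _ => le_max_left _ _) K.val
      refine le_trans ?_ h5
      exact le_max_right _ _
  · intro σ
    have h5 := SH_fac_le (K := K) (f := fun σ => max 1 ‖σ ⟨y, h.mem⟩‖)
      (fun _ => le_max_left _ _) (RingHom.toRatAlgHom σ)
    exact (le_max_right _ _).trans (h5.trans h.prod_le)

theorem SH.zero : SH K 0 0 := by
  refine ⟨K.zero_mem, 1, one_pos, ?_, ?_⟩
  · intro p _ φ
    have h : ∀ σ : K →ₐ[ℚ] ℂ, max 1 ‖φ (σ ⟨0, K.zero_mem⟩)‖ = 1 := by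
      intro σ
      have h1 : (⟨0, K.zero_mem⟩ : K) = 0 := rfl
      rw [h1, map_zero, map_zero, norm_zero]
      simp
    rw [Finset.prod_congr rfl fun σ _ => h σ]
    simp
  · have h : ∀ σ : K →ₐ[ℚ] ℂ, max 1 ‖σ ⟨0, K.zero_mem⟩‖ = (1 : ℝ) := by
      intro σ
      have h1 : (⟨0, K.zero_mem⟩ : K) = 0 := rfl
      rw [h1, map_zero, norm_zero]
      simp
    rw [Finset.prod_congr rfl fun σ _ => h σ]
    simp

/-- **heights from local inequalities** -/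
theorem sh_of {x y β : ℂ} {B : ℝ} (hx : SH K B x) (hy : y ∈ K) (hβ : β ∈ K) (hβ0 : β ≠ 0) {n : ℕ}
    (hn : 0 < n) {M : ℝ} {k : ℕ}
    (hfin : ∀ (p : ℕ) [Fact p.Prime] (φ : ℂ →+* ℂ_[p]),
      ‖(n : ℂ_[p])‖ * (max 1 ‖φ y‖ * ‖φ β‖) ≤ (max 1 ‖φ x‖) ^ k)
    (hinf : ∀ s : ℂ ≃+* ℂ, max 1 ‖s y‖ * ‖s β‖ ≤ Real.exp M * (max 1 ‖s x‖) ^ k) :
    SH K (Module.finrank ℚ K * (M + Real.log n) + k * B) y := by
  classical
  obtain ⟨ax, hax, hx1, hx2⟩ := hx.ex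
  set v : K := ⟨x, hx.mem⟩ with hv
  set w : K := ⟨y, hy⟩ with hw
  set b : K := ⟨β, hβ⟩ with hb
  obtain ⟨a, ha, hloc⟩ := exists_den_eq K w
  set D := Module.finrank ℚ K with hD
  have hcard : Fintype.card (K →ₐ[ℚ] ℂ) = D := AlgHom.card ℚ K ℂ
  have hb0 : b ≠ 0 := by
    intro e
    apply hβ0
    have := congrArg (fun z : K => (z : ℂ)) e
    simpa [hb] using this
  -- the norm of `β`
  set r : ℚ := Algebra.norm ℚ b with hr
  have hr0 : r ≠ 0 := by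
    rw [hr, Ne, Algebra.norm_eq_zero_iff]
    exact hb0
  have hprod : (r : ℂ) = ∏ σ : K →ₐ[ℚ] ℂ, σ b := Algebra.norm_eq_prod_embeddings ℚ ℂ b
  -- automorphisms of `ℂ`
  have haut : ∀ σ : K →ₐ[ℚ] ℂ, ∃ s : ℂ ≃+* ℂ, s y = σ w ∧ s β = σ b ∧ s x = σ v := by
    intro σ
    obtain ⟨s, hs⟩ := exists_aut K (σ : K →+* ℂ)
    exact ⟨s, hs w, hs b, hs v⟩
  have ha0 : (a : ℚ) ≠ 0 := by exact_mod_cast ha.ne'
  have hax0 : (ax : ℚ) ≠ 0 := by exact_mod_cast hax.ne'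
  have hn0 : (n : ℚ) ≠ 0 := by exact_mod_cast hn.ne'
  -- the finite places
  have h1 : ∀ (p : ℕ) [Fact p.Prime] (φ : ℂ →+* ℂ_[p]),
      ‖(n : ℂ_[p])‖ ^ D * ‖(r : ℂ_[p])‖ * ‖(ax : ℂ_[p])‖ ^ k ≤ ‖(a : ℂ_[p])‖ := by
    intro p _ φ
    have h2 : ‖(n : ℂ_[p])‖ ^ D * ((∏ σ : K →ₐ[ℚ] ℂ, max 1 ‖φ (σ w)‖) * ‖(r : ℂ_[p])‖) ≤
        (∏ σ : K →ₐ[ℚ] ℂ, max 1 ‖φ (σ v)‖) ^ k := by
      have h3 : (r : ℂ_[p]) = ∏ σ : K →ₐ[ℚ] ℂ, φ (σ b) := by
        rw [← map_prod, ← hprod, map_ratCast]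
      rw [h3, norm_prod, ← hcard, ← Finset.card_univ, ← Finset.prod_const,
        ← Finset.prod_mul_distrib, ← Finset.prod_mul_distrib, ← Finset.prod_pow]
      refine Finset.prod_le_prod (fun σ _ => by positivity) fun σ _ => ?_
      obtain ⟨s, hs1, hs2, hs3⟩ := haut σ
      have h4 := hfin p (φ.comp (s : ℂ →+* ℂ))
      have e1 : (φ.comp (s : ℂ →+* ℂ)) y = φ (σ w) := by rw [← hs1]; rfl
      have e2 : (φ.comp (s : ℂ →+* ℂ)) β = φ (σ b) := by rw [← hs2]; rfl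
      have e3 : (φ.comp (s : ℂ →+* ℂ)) x = φ (σ v) := by rw [← hs3]; rfl
      rwa [e1, e2, e3] at h4
    have h3 := hloc p φ
    have h4 := hx1 p φ
    calc ‖(n : ℂ_[p])‖ ^ D * ‖(r : ℂ_[p])‖ * ‖(ax : ℂ_[p])‖ ^ k
        = ‖(n : ℂ_[p])‖ ^ D * ‖(r : ℂ_[p])‖ * ‖(ax : ℂ_[p])‖ ^ k *
          (‖(a : ℂ_[p])‖ * ∏ σ : K →ₐ[ℚ] ℂ, max 1 ‖φ (σ w)‖) := by rw [h3, mul_one]
      _ = (‖(n : ℂ_[p])‖ ^ D * ((∏ σ : K →ₐ[ℚ] ℂ, max 1 ‖φ (σ w)‖) * ‖(r : ℂ_[p])‖)) *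
          (‖(ax : ℂ_[p])‖ ^ k * ‖(a : ℂ_[p])‖) := by ring
      _ ≤ (∏ σ : K →ₐ[ℚ] ℂ, max 1 ‖φ (σ v)‖) ^ k * (‖(ax : ℂ_[p])‖ ^ k * ‖(a : ℂ_[p])‖) :=
          mul_le_mul_of_nonneg_right h2 (by positivity)
      _ = (‖(ax : ℂ_[p])‖ * ∏ σ : K →ₐ[ℚ] ℂ, max 1 ‖φ (σ v)‖) ^ k * ‖(a : ℂ_[p])‖ := by
          rw [mul_pow]; ring
      _ = ‖(a : ℂ_[p])‖ := by rw [h4, one_pow, one_mul]
  -- an integer
  obtain ⟨z, hz⟩ : ∃ z : ℤ, (z : ℚ) = (n : ℚ) ^ D * r * (ax : ℚ) ^ k / a := by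
    have h2 : IsIntegral ℤ (((n : ℚ) ^ D * r * (ax : ℚ) ^ k / a : ℚ) : ℂ) := by
      refine integral_of_norm_le (isAlgebraic_algebraMap ((n : ℚ) ^ D * r * (ax : ℚ) ^ k / a)) ?_
      intro p _ φ
      rw [map_ratCast]
      push_cast
      rw [norm_div, norm_mul, norm_mul, norm_pow, norm_pow]
      have hpos : 0 < ‖(a : ℂ_[p])‖ := by
        refine norm_pos_iff.2 ?_
        exact_mod_cast ha.ne'
      rw [div_le_one hpos]
      exact h1 p φ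
    have h3 : IsIntegral ℤ ((n : ℚ) ^ D * r * (ax : ℚ) ^ k / a) := by
      have h4 : IsIntegral ℤ ((algebraMap ℚ ℂ) ((n : ℚ) ^ D * r * (ax : ℚ) ^ k / a)) := h2
      exact (isIntegral_algebraMap_iff (algebraMap ℚ ℂ).injective).1 h4
    obtain ⟨z, hz⟩ := IsIntegrallyClosed.isIntegral_iff.1 h3
    exact ⟨z, by rw [← hz]; simp⟩
  have hz0 : z ≠ 0 := by
    intro e
    rw [e, Int.cast_zero] at hz
    exact (div_ne_zero (mul_ne_zero (mul_ne_zero (pow_ne_zero _ hn0) hr0)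
      (pow_ne_zero _ hax0)) ha0) hz.symm
  have har : (a : ℝ) ≤ (n : ℝ) ^ D * |(r : ℝ)| * (ax : ℝ) ^ k := by
    have h2 : (1 : ℝ) ≤ |(z : ℝ)| := by exact_mod_cast Int.one_le_abs hz0
    have h3 : (z : ℝ) * a = (n : ℝ) ^ D * r * (ax : ℝ) ^ k := by
      have h4 : (z : ℚ) * a = (n : ℚ) ^ D * r * (ax : ℚ) ^ k := by
        rw [hz]
        field_simp
      exact_mod_cast h4
    have h5 : |(z : ℝ)| * a = (n : ℝ) ^ D * |(r : ℝ)| * (ax : ℝ) ^ k := by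
      have h6 := congrArg abs h3
      have h7 : |(n : ℝ) ^ D| = (n : ℝ) ^ D := abs_of_nonneg (pow_nonneg (Nat.cast_nonneg n) D)
      have h8 : |(ax : ℝ) ^ k| = (ax : ℝ) ^ k := abs_of_nonneg (pow_nonneg (Nat.cast_nonneg ax) k)
      rw [abs_mul, abs_mul, abs_mul, Nat.abs_cast, h7, h8] at h6
      exact h6
    rw [← h5]
    exact le_mul_of_one_le_left (Nat.cast_nonneg _) h2
  -- the infinite places
  have hPi : (∏ σ : K →ₐ[ℚ] ℂ, max 1 ‖σ w‖) * |(r : ℝ)| ≤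
      Real.exp M ^ D * (∏ σ : K →ₐ[ℚ] ℂ, max 1 ‖σ v‖) ^ k := by
    have h2 : |(r : ℝ)| = ∏ σ : K →ₐ[ℚ] ℂ, ‖σ b‖ := by
      rw [← norm_prod, ← hprod]
      have h3 : (r : ℂ) = ((r : ℝ) : ℂ) := by push_cast; rfl
      rw [h3, Complex.norm_real, Real.norm_eq_abs]
    rw [h2, ← Finset.prod_pow, ← hcard, ← Finset.card_univ, ← Finset.prod_const,
      ← Finset.prod_mul_distrib, ← Finset.prod_mul_distrib]
    refine Finset.prod_le_prod (fun σ _ => by positivity) fun σ _ => ?_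
    obtain ⟨s, hs1, hs2, hs3⟩ := haut σ
    have h4 := hinf s
    rwa [hs1, hs2, hs3] at h4
  have hn1 : (1 : ℝ) ≤ n := by exact_mod_cast hn
  have hfinal : (a : ℝ) * ∏ σ : K →ₐ[ℚ] ℂ, max 1 ‖σ w‖ ≤
      Real.exp (D * (M + Real.log n) + k * B) := by
    have e1 : Real.exp (D * (M + Real.log n) + k * B) =
        Real.exp M ^ D * (n : ℝ) ^ D * Real.exp B ^ k := by
      rw [Real.exp_add, mul_add, Real.exp_add, Real.exp_nat_mul, Real.exp_nat_mul,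
        Real.exp_nat_mul, Real.exp_log (by linarith)]
    rw [e1]
    have hw0 : (0 : ℝ) ≤ ∏ σ : K →ₐ[ℚ] ℂ, max 1 ‖σ w‖ := zero_le_one.trans (SH_one_le w)
    calc (a : ℝ) * ∏ σ : K →ₐ[ℚ] ℂ, max 1 ‖σ w‖
        ≤ ((n : ℝ) ^ D * |(r : ℝ)| * (ax : ℝ) ^ k) * ∏ σ : K →ₐ[ℚ] ℂ, max 1 ‖σ w‖ :=
          mul_le_mul_of_nonneg_right har hw0
      _ = ((n : ℝ) ^ D * (ax : ℝ) ^ k) * ((∏ σ : K →ₐ[ℚ] ℂ, max 1 ‖σ w‖) * |(r : ℝ)|) := by ring
      _ ≤ ((n : ℝ) ^ D * (ax : ℝ) ^ k) *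
          (Real.exp M ^ D * (∏ σ : K →ₐ[ℚ] ℂ, max 1 ‖σ v‖) ^ k) :=
          mul_le_mul_of_nonneg_left hPi (by positivity)
      _ = Real.exp M ^ D * (n : ℝ) ^ D *
          ((ax : ℝ) * ∏ σ : K →ₐ[ℚ] ℂ, max 1 ‖σ v‖) ^ k := by rw [mul_pow]; ring
      _ ≤ Real.exp M ^ D * (n : ℝ) ^ D * Real.exp B ^ k := by
          refine mul_le_mul_of_nonneg_left (pow_le_pow_left₀ ?_ hx2 k) (by positivity)
          exact mul_nonneg (Nat.cast_nonneg _) (zero_le_one.trans (SH_one_le v))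
  exact ⟨hy, a, ha, hloc, hfinal⟩

/-- the height of a fixed number -/
theorem sh_alg {c : ℂ} (hc : IsAlgebraic ℚ c) : ∃ C : ℕ, ∀ (K : IntermediateField ℚ ℂ)
    [FiniteDimensional ℚ K], c ∈ K → SH K (C * Module.finrank ℚ K) c := by
  classical
  -- the denominator
  obtain ⟨m, hm0, hm⟩ : ∃ m : ℕ, 0 < m ∧ IsIntegral ℤ ((m : ℂ) * c) := by
    have hcz : IsAlgebraic ℤ c := (IsFractionRing.isAlgebraic_iff ℤ ℚ ℂ).2 hc
    obtain ⟨q, hq0, hq⟩ := hcz.exists_integral_multiple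
    refine ⟨q.natAbs, Int.natAbs_pos.2 hq0, ?_⟩
    have h3 : q • c = (q : ℂ) * c := by simp
    rw [h3] at hq
    rcases Int.natAbs_eq q with h | h
    · have h4 : ((q.natAbs : ℕ) : ℂ) = (q : ℂ) := by
        conv_rhs => rw [h]
        simp
      rw [h4]
      exact hq
    · have h4 : ((q.natAbs : ℕ) : ℂ) = -(q : ℂ) := by
        conv_rhs => rw [h]
        simp
      rw [h4, neg_mul]
      exact hq.neg
  -- the conjugates
  obtain ⟨R, hR⟩ : ∃ R : ℝ, ∀ s : ℂ ≃+* ℂ, ‖s c‖ ≤ R := by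
    have hfin : ((minpoly ℚ c).rootSet ℂ).Finite := rootSet_finite _ _
    obtain ⟨R, hR⟩ := (hfin.image (fun z => ‖z‖)).bddAbove
    refine ⟨R, fun s => hR ⟨s c, ?_, rfl⟩⟩
    rw [mem_rootSet]
    refine ⟨minpoly.ne_zero hc.isIntegral, ?_⟩
    have h1 := congrArg (RingHom.toRatAlgHom (s : ℂ →+* ℂ)) (minpoly.aeval ℚ c)
    rw [map_zero, ← aeval_algHom_apply] at h1
    exact h1
  obtain ⟨C, hC⟩ := exists_nat_ge (Real.log (max 1 R) + Real.log m)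
  refine ⟨C, fun K _ hcK => ?_⟩
  have h1 := sh_of (K := K) (x := 0) (y := c) (β := 1) (B := 0) SH.zero hcK K.one_mem one_ne_zero
    (n := m) hm0 (M := Real.log (max 1 R)) (k := 0) ?_ ?_
  · refine h1.mono ?_
    have h2 : (0 : ℝ) ≤ Module.finrank ℚ K := Nat.cast_nonneg _
    push_cast
    nlinarith
  · intro p _ φ
    rw [map_one, norm_one, mul_one, pow_zero]
    have h2 := norm_le_one_of_integral φ hm
    rw [map_mul, map_natCast, norm_mul] at h2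
    rcases le_total ‖φ c‖ 1 with h | h
    · rw [max_eq_left h, mul_one]
      exact norm_natCast_le _
    · rw [max_eq_right h]
      exact h2
  · intro s
    rw [map_one, norm_one, mul_one, pow_zero, mul_one,
      Real.exp_log (lt_of_lt_of_le one_pos (le_max_left _ _))]
    exact max_le_max le_rfl (hR s)

end Pool.Agent.LGO.KC
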