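import Mathlib
import Pool.Agent.LGO.KC.SH

/-!
# LGO/KC: few conjugates of a point of small height are large

PROOF.  For `x ∈ S` choose `s` and `a` with `x = s ∘ y`, `R < ‖x a‖`.  For a fixed `a` the points `x` with this `a` map injectively to the embeddings
`σ = s restricted to K` (`x` is determined by `σ`, since all `y b ∈ K`), and `log (max 1 ‖σ (y a)‖) ≥ log R`.  All `log (max 1 ‖σ (y a)‖)` are
nonnegative and their sum is at most `B` (`SH.prod_le`).  So there are at most `B / log R` points for every `a`.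
-/

namespace Pool.Agent.LGO.KC

private theorem Bad_one {B R : ℝ} (hR : 1 < R) {K : IntermediateField ℚ ℂ} [FiniteDimensional ℚ K] {y : ℂ}
    (h : SH K B y) (T : Finset (K →ₐ[ℚ] ℂ)) (hT : ∀ σ ∈ T, R < ‖σ ⟨y, h.mem⟩‖) :
    (T.card : ℝ) * Real.log R ≤ B := by
  classical
  have h1 : R ^ T.card ≤ ∏ σ : K →ₐ[ℚ] ℂ, max 1 ‖σ ⟨y, h.mem⟩‖ := by
    calc R ^ T.card = ∏ _σ ∈ T, R := by rw [Finset.prod_const]
      _ ≤ ∏ σ ∈ T, max 1 ‖σ ⟨y, h.mem⟩‖ :=
          Finset.prod_le_prod (fun _ _ => by linarith) fun σ hσ => (hT σ hσ).le.trans (le_max_right _ _)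
      _ ≤ ∏ σ : K →ₐ[ℚ] ℂ, max 1 ‖σ ⟨y, h.mem⟩‖ := by
          rw [← Finset.prod_sdiff (Finset.subset_univ T)]
          refine le_mul_of_one_le_left (Finset.prod_nonneg fun _ _ => zero_le_one.trans (le_max_left _ _)) ?_
          have h5 : ∏ _σ ∈ Finset.univ \ T, (1 : ℝ) ≤
              ∏ σ ∈ Finset.univ \ T, max 1 ‖σ ⟨y, h.mem⟩‖ :=
            Finset.prod_le_prod (fun _ _ => zero_le_one) fun _ _ => le_max_left _ _
          rwa [Finset.prod_const_one] at h5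
  have h2 := Real.log_le_log (by positivity) (h1.trans h.prod_le)
  rwa [Real.log_pow, Real.log_exp] at h2

theorem bad_card {mm : ℕ} {y : Fin mm → ℂ} {B R : ℝ} (hR : 1 < R) {K : IntermediateField ℚ ℂ}
    [FiniteDimensional ℚ K] (hSH : ∀ a, SH K B (y a)) (S : Finset (Fin mm → ℂ))
    (hS : ∀ x ∈ S, (∃ s : ℂ ≃+* ℂ, x = fun a => s (y a)) ∧ ∃ a, R < ‖x a‖) :
    (S.card : ℝ) * Real.log R ≤ mm * B := by
  classical
  have hsub : S ⊆ Finset.univ.biUnion fun a : Fin mm =>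
      (Finset.univ.filter fun σ : K →ₐ[ℚ] ℂ => R < ‖σ ⟨y a, (hSH a).mem⟩‖).image
        fun σ b => σ ⟨y b, (hSH b).mem⟩ := by
    intro x hx
    obtain ⟨⟨s, hs⟩, a, ha⟩ := hS x hx
    rw [Finset.mem_biUnion]
    refine ⟨a, Finset.mem_univ a, Finset.mem_image.2
      ⟨RingHom.toRatAlgHom ((s : ℂ →+* ℂ).comp (algebraMap K ℂ)), ?_, ?_⟩⟩
    · rw [Finset.mem_filter]
      refine ⟨Finset.mem_univ _, ?_⟩
      rw [hs] at ha
      exact ha
    · rw [hs]
      rfl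
  have hlog : 0 ≤ Real.log R := Real.log_nonneg hR.le
  have h1 : S.card ≤ ∑ a : Fin mm,
      (Finset.univ.filter fun σ : K →ₐ[ℚ] ℂ => R < ‖σ ⟨y a, (hSH a).mem⟩‖).card :=
    (Finset.card_le_card hsub).trans (Finset.card_biUnion_le.trans
      (Finset.sum_le_sum fun a _ => Finset.card_image_le))
  have h2 : (S.card : ℝ) ≤ ∑ a : Fin mm,
      ((Finset.univ.filter fun σ : K →ₐ[ℚ] ℂ => R < ‖σ ⟨y a, (hSH a).mem⟩‖).card : ℝ) := by
    exact_mod_cast h1
  calc (S.card : ℝ) * Real.log R ≤ (∑ a : Fin mm,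
        ((Finset.univ.filter fun σ : K →ₐ[ℚ] ℂ => R < ‖σ ⟨y a, (hSH a).mem⟩‖).card : ℝ)) *
          Real.log R := mul_le_mul_of_nonneg_right h2 hlog
    _ = ∑ a : Fin mm,
        ((Finset.univ.filter fun σ : K →ₐ[ℚ] ℂ => R < ‖σ ⟨y a, (hSH a).mem⟩‖).card : ℝ) *
          Real.log R := by rw [Finset.sum_mul]
    _ ≤ ∑ _a : Fin mm, B := Finset.sum_le_sum fun a _ =>
        Bad_one hR (hSH a) _ fun σ hσ => (Finset.mem_filter.1 hσ).2
    _ = mm * B := by rw [Finset.sum_const, Finset.card_univ, Fintype.card_fin, nsmul_eq_mul]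

end Pool.Agent.LGO.KC
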