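import Mathlib
import Pool.Agent.LGO.KC.Defs

/-!
# LGO/KC: counting for the points with coordinates at most `H ^ A`

PROOF of `countK`.  As `PWG.countG` (`PWG/CountG.lean`).  Compact charts: `count_comp`.  Cusp charts (`count_cuspK`, as `count_cusp` in `PWG/Count.lean`): `sizeK`, the
linear form of `Cusp.size_of` (`PWG/Size.lean`, whose proof gives `‖w‖ ≤ X + L` if all `‖x a‖ ≤ exp X`, `X ≥ 2`; copy the private `Size_im`): `‖w‖ ≤ C log H`
for `H ≥ 2` if all `‖x a‖ ≤ H ^ A` (take `X = max 2 (A log H)`).  So the parameters `w ∈ CD` lie in `O(log H)` unit discs with centres in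
`CD` (choose centres among the parameters: the cells `(⌊2 Re w⌋, ⌊2 Im w⌋)`, see `Cover_net`/`CoverG_net`; or a maximal `1`-separated subset), each of which has
at most `H' ^ δ'` of them by `DC` for `H' = H ^ C₁` (`Tr`; `‖w‖ ≤ H'` and `2 ≤ H'`).
-/

namespace Pool.Agent.LGO.PWG

open MvPolynomial Metric Pool.Agent.LGO.PW

variable {mm : ℕ}

/-- the parameter in a cusp chart of a point with coordinates at most `exp X` -/
theorem Cusp.sizeK {e : Fin mm → ℕ} {ψ : Fin mm → ℂ → ℂ} (h : Cusp e ψ) :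
    ∃ L : ℝ, 0 ≤ L ∧ ∀ X : ℝ, 0 ≤ X → ∀ w ∈ CD, ∀ x, Lift (cz e ψ) w x →
      (∀ a, ‖x a‖ ≤ Real.exp X) → ‖w‖ ≤ X + L := by
  sorry

theorem countK {Q : ℝ → (Fin mm → ℂ) → Prop} (hQ : CbleK Q) {W : Set (Fin mm → ℂ)}
    (hW : HasAtlas W) : Cnt W Q := by
  sorry

end Pool.Agent.LGO.PWG
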