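import Mathlib
import Pool.Agent.LGO.KC.Main
import Pool.Agent.LGO.ZV.Flag
import Pool.Agent.LGO.ZV.RatY3

/-!
# LGO/KC: curves with at most three nonconstant coordinates (MP_d83ecd_ag)

`few_two`: at most two nonconstant coordinates, no condition.  `few_three`: at most three nonconstant coordinates
`σ 0, σ 1, σ 2`, with the conditions of `ZV/Flag.lean` and `ZV/RatY3.lean` for these.
-/

namespace Pool.Agent.LGO.KC

open Polynomial UpperHalfPlane Filter Topology Pool.Agent.Hhelper14.ZP Pool.Agent.Hhelper14.ZPL Pool.Agent.LGO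
  Pool.Agent.LGO.U Pool.Agent.LGO.ZF Pool.Agent.LGO.ZG Pool.Agent.LGO.ZV Pool.Agent.LGO.PWG Pool.Agent.ZPE

variable {n m : ℕ} {W : Set (Fin n → ℂ)}

/-- the conditions of `ratTwo_y3` give a pair theorem -/
theorem ratTwo_pair {V : Set (Fin 3 → ℂ)} (h : ZV.Crv V) (hr : RatTwo V id) :
    ∃ a b : Fin 3, PairHt V a b := by
  obtain ⟨a, b, Aa, Ba, Ab, Bb, E, hE, ⟨hAa, hBa, hca, hBa0⟩, ⟨hAb, hBb, hcb, hBb0⟩, hs, hx⟩ := hr
  obtain ⟨Aa, rfl⟩ := hAa.lift
  obtain ⟨Ba, rfl⟩ := hBa.lift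
  obtain ⟨Ab, rfl⟩ := hAb.lift
  obtain ⟨Bb, rfl⟩ := hBb.lift
  rw [isCoprime_map] at hca hcb
  have hBa1 : Ba ≠ 0 := by
    rintro rfl
    exact hBa0 (Polynomial.map_zero _)
  have hBb1 : Bb ≠ 0 := by
    rintro rfl
    exact hBb0 (Polynomial.map_zero _)
  have hpar : ParOn V ![a, b] ![Aa, Ab] ![Ba, Bb] := by
    refine ⟨E, hE, fun x hxV hxE => ?_⟩
    obtain ⟨t, ⟨h1, h2⟩, h3, h4⟩ := hx x hxV hxE
    refine ⟨t, fun k => ?_⟩
    fin_cases k
    · change (aeval t Ba : ℂ) ≠ 0 ∧ (aeval t Aa : ℂ) = x a * aeval t Ba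
      rw [aeval_map_Qb, aeval_map_Qb]
      exact ⟨h1, h2.symm⟩
    · change (aeval t Bb : ℂ) ≠ 0 ∧ (aeval t Ab : ℂ) = x b * aeval t Bb
      rw [aeval_map_Qb, aeval_map_Qb]
      exact ⟨h3, h4.symm⟩
  have hB : ∀ k, ![Ba, Bb] k ≠ 0 := by
    intro k
    fin_cases k
    · exact hBa1
    · exact hBb1
  have hcop : ∀ k, IsCoprime (![Aa, Ab] k) (![Ba, Bb] k) := by
    intro k
    fin_cases k
    · exact hca
    · exact hcb
  have hsim : ¬ Sim ![Aa, Ab] ![Ba, Bb] 0 1 := by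
    rintro ⟨h1, h2, h3⟩
    apply hs
    have key : ∀ P P' : Polynomial Qb, P ≠ 0 → (∀ z : Qb, P.eval z = 0 → P'.eval z = 0) →
        ∀ z : ℂ, (P.map (algebraMap Qb ℂ)).eval z = 0 → (P'.map (algebraMap Qb ℂ)).eval z = 0 := by
      intro P P' hP0 hP z hz
      have hz1 : IsAlgebraic Qb z := by
        refine ⟨P, hP0, ?_⟩
        rw [aeval_map_Qb]
        exact hz
      have hz2 : IsAlgebraic ℚ z := by
        have : Algebra.IsAlgebraic ℚ Qb := algebraicClosure.isAlgebraic ℚ ℂ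
        exact IsAlgebraic.restrictScalars ℚ hz1
      set w : Qb := ⟨z, (mem_algebraicClosure_iff).mpr hz2⟩ with hw
      have hwz : algebraMap Qb ℂ w = z := rfl
      have e : ∀ R : Polynomial Qb, (R.map (algebraMap Qb ℂ)).eval z = algebraMap Qb ℂ (R.eval w) := by
        intro R
        rw [← hwz, eval_map, eval₂_at_apply]
      rw [e] at hz ⊢
      rw [map_eq_zero] at hz
      rw [hP w hz, map_zero]
    refine ⟨fun z => ⟨key _ _ hBa1 (fun z hz => (h2 z).mp hz) z, key _ _ hBb1 (fun z hz => (h2 z).mpr hz) z⟩, ?_, ?_⟩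
    · rw [natDegree_map_Qb, natDegree_map_Qb, natDegree_map_Qb, natDegree_map_Qb]
      exact h3
    · rw [natDegree_map_Qb, natDegree_map_Qb, natDegree_map_Qb, natDegree_map_Qb]
      exact h1
  rcases pairHt_rat h hpar hB hcop hsim with h1 | h1
  · exact ⟨_, _, h1⟩
  · exact ⟨_, _, h1⟩

/-- type 1 from the isogenous triples, in three dimensions -/
theorem t1_three {V : Set (Fin 3 → ℂ)}
    (h1 : {x ∈ V | (∀ τ : ℍ, jInv τ = x 0 → ¬ IsCM τ) ∧ HeckeRel (x 0) (x 1) ∧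
      HeckeRel (x 0) (x 2)}.Finite) : T1 V := by
  intro i hi
  refine h1.subset ?_
  rintro x ⟨hx, h3, h4, h5⟩
  have hsur : Function.Surjective i := Finite.injective_iff_surjective.mp hi
  have hall : ∀ a, HeckeRel (x (i 0)) (x (i a)) := by
    intro a
    fin_cases a
    · exact HeckeRel.refl' _
    · exact h4
    · exact h5
  have hall' : ∀ a b, HeckeRel (x a) (x b) := by
    intro a b
    obtain ⟨a', rfl⟩ := hsur a
    obtain ⟨b', rfl⟩ := hsur b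
    exact HeckeRel.trans' (HeckeRel.symm' (hall a')) (hall b')
  refine ⟨hx, ?_, hall' 0 1, hall' 0 2⟩
  obtain ⟨a', ha'⟩ := hsur 0
  have := h3 a'
  rw [ha', ncm_iff] at this
  intro τ hτ hcm
  exact this ⟨τ, hcm, hτ.symm⟩

/-- type 1 from a pair theorem for one pair -/
theorem t1_pair {V : Set (Fin 3 → ℂ)} (h : ZV.Crv V) {a b : Fin 3} (hP : PairHt V a b) : T1 V := by
  intro i hi
  have hsur : Function.Surjective i := Finite.injective_iff_surjective.mp hi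
  obtain ⟨a', rfl⟩ := hsur a
  obtain ⟨b', rfl⟩ := hsur b
  have key : ∃ (C : ℕ) (E : Set (Fin 3 → ℂ)), E.Finite ∧ ∀ x ∈ V, x ∉ E → (∀ a, NCM (x (i a))) →
      HeckeRel (x (i 0)) (x (i 1)) → HeckeRel (x (i 0)) (x (i 2)) → HB i C x := by
    rcases three h hP with h3 | h3 | h3
    · obtain ⟨C, E, hE, h4⟩ := hb_of_pair h i h3
      exact ⟨C, E, hE, fun x hx hxE hn h01 _ => h4 x hx hxE (hn _) (hn _) h01⟩
    · obtain ⟨C, E, hE, h4⟩ := hb_of_pair h i h3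
      exact ⟨C, E, hE, fun x hx hxE hn _ h02 => h4 x hx hxE (hn _) (hn _) h02⟩
    · obtain ⟨C, E, hE, h4⟩ := hb_of_pair h i h3
      exact ⟨C, E, hE, fun x hx hxE hn h01 h02 => h4 x hx hxE (hn _) (hn _)
        (HeckeRel.trans' (HeckeRel.symm' h01) h02)⟩
  obtain ⟨C, E, hE, h5⟩ := key
  exact t1_v h i hi C hE h5 ((allFin_v h).f1 i hi)

/-- no injective map from a larger `Fin` -/
theorem t2_small {V : Set (Fin m → ℂ)} (hm : m < 4) : T2 V := by
  intro i hi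
  exfalso
  have h3 := Fintype.card_le_of_injective i hi
  simp at h3
  omega

/-- **at most two nonconstant coordinates** -/
theorem few_two (hW : Pool.Agent.Hhelper14.ZPL.IsIrredClosed W) (hWk : KClosed W)
    (hdim : Pool.Agent.Hhelper14.ZPL.dim W = 1) (i j : Fin n)
    (hc : ∀ k, k ≠ i → k ≠ j → ∃ c : ℂ, ∀ x ∈ W, x k = c) : FinAtypical W := by
  obtain ⟨m, σ, c, hσ, hoff, hnc⟩ := exists_sigma W (irred_nonempty hW)
  have hr : ∀ a, σ a = i ∨ σ a = j := by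
    intro a
    by_contra h
    push Not at h
    obtain ⟨c', hc'⟩ := hc (σ a) h.1 h.2
    obtain ⟨x, hx, hne⟩ := hnc a c'
    exact hne (hc' x hx)
  have hm : m ≤ 2 := by
    have h1 : Function.Injective (fun a : Fin m => (⟨σ a, by
        rcases hr a with h | h <;> simp [h]⟩ : ({i, j} : Finset (Fin n)))) := by
      intro a b hab
      exact hσ (congrArg Subtype.val hab)
    have h2 := Fintype.card_le_of_injective _ h1
    rw [Fintype.card_fin, Fintype.card_coe] at h2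
    exact h2.trans Finset.card_le_two
  refine main_c hW hWk hdim hσ hoff hnc ZG.cmAll (fun _ => ZG.cm_alg) (fun _ i' hi' => ?_) fun _ => t2_small (by omega)
  exfalso
  have h3 := Fintype.card_le_of_injective i' hi'
  simp at h3
  omega

theorem RatTwo.pr {V : Set (Fin n → ℂ)} {σ : Fin 3 → Fin n} (h : RatTwo V σ) : RatTwo (proj σ V) id := by
  obtain ⟨a, b, A, B, A', B', E, hE, h1, h2, h3, h4⟩ := h
  refine ⟨a, b, A, B, A', B', (fun x : Fin n → ℂ => x ∘ σ) '' E, hE.image _, h1, h2, h3, ?_⟩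
  rintro _ ⟨x, hx, rfl⟩ hxE
  exact h4 x hx fun hx' => hxE ⟨x, hx', rfl⟩

theorem RatThree.pr {V : Set (Fin n → ℂ)} {σ : Fin 3 → Fin n} (h : RatThree V σ) :
    RatThree (proj σ V) id := by
  obtain ⟨A, B, E, hE, h1, h2⟩ := h
  refine ⟨A, B, (fun x : Fin n → ℂ => x ∘ σ) '' E, hE.image _, h1, ?_⟩
  rintro _ ⟨x, hx, rfl⟩ hxE
  exact h2 x hx fun hx' => hxE ⟨x, hx', rfl⟩

theorem TwoInf.pr {V : Set (Fin n → ℂ)} {σ : Fin 3 → Fin n} {k : Fin 3} (h : TwoInf V σ k) :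
    TwoInf (proj σ V) id k := by
  obtain ⟨P, γ, h1, h2, h3⟩ := h
  exact ⟨fun m => P m ∘ σ, γ, fun m => ⟨P m, h1 m, rfl⟩, h2, h3⟩

theorem TwoInfRes.pr {V : Set (Fin n → ℂ)} {σ : Fin 3 → Fin n} (h : TwoInfRes V σ) :
    TwoInfRes (proj σ V) id := by
  obtain ⟨P, e, γ, k, l, h1, h2⟩ := h
  exact ⟨fun m => P m ∘ σ, e, γ, k, l, fun m => ⟨P m, h1 m, rfl⟩, h2⟩

theorem OneInfRes.pr {V : Set (Fin n → ℂ)} {σ : Fin 3 → Fin n} (h : OneInfRes V σ) :
    OneInfRes (proj σ V) id := by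
  obtain ⟨P, e, β, γ, h1, h2⟩ := h
  exact ⟨fun m => P m ∘ σ, e, β, γ, fun m => ⟨P m, h1 m, rfl⟩, h2⟩

/-- the conditions on three coordinates -/
def Cond3 (V : Set (Fin n → ℂ)) (σ : Fin 3 → Fin n) : Prop :=
  RatTwo V σ ∨
    ((∃ Q : MvPolynomial (Fin 3) ℂ, MvPolynomial.constantCoeff Q ≠ 0 ∧
        ∀ x ∈ V, (∀ a, x (σ a) ≠ 0) → MvPolynomial.eval (fun a => (x (σ a))⁻¹) Q = 0) ∧
      ((∃ k₁ k₂ : Fin 3, k₁ ≠ k₂ ∧ TwoInf V σ k₁ ∧ TwoInf V σ k₂) ∨ TwoInfRes V σ ∨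
        OneInfRes V σ ∨ RatThree V σ))

/-- type 1 in three dimensions from the conditions -/
theorem t1_cond {V : Set (Fin 3 → ℂ)} (hV : ZV.Crv V) (h : Cond3 V id) : T1 V := by
  rcases h with h | ⟨⟨Q, hQ0, hQ⟩, h⟩
  · obtain ⟨a, b, hab⟩ := ratTwo_pair hV h
    exact t1_pair hV hab
  · have h' : (∃ k₁ k₂ : Fin 3, k₁ ≠ k₂ ∧ TwoInf V id k₁ ∧ TwoInf V id k₂) ∨ TwoInfRes V id ∨
        OneInfRes V id ∨ U.Rat V id := by
      rcases h with h | h | h | h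
      · exact Or.inl h
      · exact Or.inr (Or.inl h)
      · exact Or.inr (Or.inr (Or.inl h))
      · exact Or.inr (Or.inr (Or.inr h.rat))
    exact t1_three (fin_flag hV.irr hV.kcl hV.dim id hV.nc hV.nomod hQ0 hQ h')

/-- **at most three nonconstant coordinates** -/
theorem few_three (hW : Pool.Agent.Hhelper14.ZPL.IsIrredClosed W) (hWk : KClosed W)
    (hdim : Pool.Agent.Hhelper14.ZPL.dim W = 1) {σ : Fin 3 → Fin n} (hσ : Function.Injective σ)
    (hc : ∀ k, k ∉ Set.range σ → ∃ c : ℂ, ∀ x ∈ W, x k = c) (h : Cond3 W σ) : FinAtypical W := by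
  by_cases hnc : ∀ (a : Fin 3) (c : ℂ), ∃ x ∈ W, x (σ a) ≠ c
  · choose! c hc using hc
    refine main_c (c := c) hW hWk hdim hσ (fun x hx k hk => hc k hk x hx) hnc ZG.cmAll
      (fun _ => ZG.cm_alg) (fun hcrv => t1_cond hcrv ?_) fun _ => t2_small (by omega)
    rcases h with h | ⟨⟨Q, hQ0, hQ⟩, h⟩
    · exact Or.inl (RatTwo.pr h)
    · refine Or.inr ⟨⟨Q, hQ0, ?_⟩, ?_⟩
      · rintro _ ⟨x, hx, rfl⟩ h0
        exact hQ x hx h0
      · rcases h with ⟨k₁, k₂, h1, h2, h3⟩ | h | h | h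
        · exact Or.inl ⟨k₁, k₂, h1, TwoInf.pr h2, TwoInf.pr h3⟩
        · exact Or.inr (Or.inl (TwoInfRes.pr h))
        · exact Or.inr (Or.inr (Or.inl (OneInfRes.pr h)))
        · exact Or.inr (Or.inr (Or.inr (RatThree.pr h)))
  · push Not at hnc
    obtain ⟨a, c, hac⟩ := hnc
    obtain ⟨a₁, a₂, h12⟩ : ∃ a₁ a₂ : Fin 3, ∀ b, b ≠ a → b = a₁ ∨ b = a₂ := by
      fin_cases a
      · exact ⟨1, 2, by decide⟩
      · exact ⟨0, 2, by decide⟩
      · exact ⟨0, 1, by decide⟩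
    refine few_two hW hWk hdim (σ a₁) (σ a₂) fun k h1 h2 => ?_
    by_cases hk : k ∈ Set.range σ
    · obtain ⟨b, rfl⟩ := hk
      by_cases hb : b = a
      · exact ⟨c, fun x hx => by rw [hb]; exact hac x hx⟩
      · rcases h12 b hb with rfl | rfl
        · exact absurd rfl h1
        · exact absurd rfl h2
    · exact hc k hk

end Pool.Agent.LGO.KC
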