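import Mathlib
import Pool.Agent.LGO.KC.Defs
import Pool.Agent.LGO.PWG.Fin

/-!
# LGO/KC: large Galois orbits, most conjugates small, and counting imply finiteness

As `PWG.fin_abs` / `PWG.fin_absG` (`PWG/Fin.lean`, `PWG/CountG.lean`), but only the conjugates over `k₀` satisfy `Q`, and the coordinates are at most
`H ^ A` (`Cnt`) for half of the conjugates only.

PROOF.  `m = [k₀ : ℚ]`, `y ∈ T`, `D` its degree, `H_y = (C D) ^ C + 2`.  `PWG.conj_many` for the set `{x | ∃ s fixing k₀, x = s ∘ y}` (stable under composition,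
contained in `W` and all its points satisfy `Q H_y`): a finset `S` with `D ≤ m card S`.  With `A = 2 m C + 1`: by `hbad` the subset of the `x ∈ S` with
`∃ a, H_y ^ A < ‖x a‖` has `A * card ≤ C D`, so `card ≤ D / (2 m) ≤ card S / 2`.  So `D ≤ 2 m card S'` for the rest `S'`, and `Cnt` for `A`,
`δ = 1 / (2 (C + 1))`: `D ≤ 2 m C' H_y ^ δ`, so `D ≤ M` (`CountG_bound` in `PWG/CountG.lean` with `2 m` in place of `m`; private, copy it).
Then for all `y ∈ T`: `H_y ≤ H = (C M) ^ C + 2`; `hbad` for `{y}` (`s` the identity) and a natural number `A' > C M`: all `‖y a‖ ≤ H_y ^ A' ≤ H ^ A'`.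
`Cnt` for `A'` bounds the cardinality of the finite subsets of `T`.
-/

namespace Pool.Agent.LGO.PWG

open MvPolynomial Metric Pool.Agent.LGO.PW

variable {mm : ℕ}

private theorem FinK_bound {C m D c : ℕ} {C' : ℝ} (hC' : 0 < C') (hD : 1 ≤ D) (hDm : D ≤ m * c)
    (hc : (c : ℝ) ≤ C' * (((C : ℝ) * D) ^ C + 2) ^ (1 / (2 * ((C : ℝ) + 1)))) :
    (D : ℝ) ≤ ((m : ℝ) * C' * (3 : ℝ) ^ (1 / (2 * ((C : ℝ) + 1))) * ((C : ℝ) + 2) ^ (1 / 2 : ℝ)) ^ 2 := by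
  set δ : ℝ := 1 / (2 * ((C : ℝ) + 1)) with hδ
  have hC0 : (0 : ℝ) ≤ C := Nat.cast_nonneg _
  have hδ0 : 0 < δ := by positivity
  have hD1 : (1 : ℝ) ≤ D := by exact_mod_cast hD
  have hD0 : (0 : ℝ) < D := by linarith
  set E : ℝ := ((C : ℝ) + 2) * D with hE
  have hE1 : 1 ≤ E := by rw [hE]; nlinarith
  have hE0 : 0 < E := by linarith
  have hCD : (C : ℝ) * D ≤ E := by rw [hE]; nlinarith
  have h1 : ((C : ℝ) * D) ^ C ≤ E ^ (C + 1) :=
    (pow_le_pow_left₀ (by positivity) hCD C).trans (pow_le_pow_right₀ hE1 (Nat.le_succ C))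
  have h2 : 1 ≤ E ^ (C + 1) := one_le_pow₀ hE1
  have h3 : ((C : ℝ) * D) ^ C + 2 ≤ 3 * E ^ (C + 1) := by linarith
  have h4 : (((C : ℝ) * D) ^ C + 2) ^ δ ≤ (3 * E ^ (C + 1)) ^ δ :=
    Real.rpow_le_rpow (by positivity) h3 hδ0.le
  have h5 : (3 * E ^ (C + 1)) ^ δ = (3 : ℝ) ^ δ * E ^ (1 / 2 : ℝ) := by
    rw [Real.mul_rpow (by norm_num) (by positivity), ← Real.rpow_natCast E, ← Real.rpow_mul hE0.le]
    congr 2
    rw [hδ]
    push_cast
    field_simp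
  have h6 : E ^ (1 / 2 : ℝ) = ((C : ℝ) + 2) ^ (1 / 2 : ℝ) * (D : ℝ) ^ (1 / 2 : ℝ) := by
    rw [hE, Real.mul_rpow (by positivity) hD0.le]
  set q : ℝ := (D : ℝ) ^ (1 / 2 : ℝ) with hq
  have hq0 : 0 < q := Real.rpow_pos_of_pos hD0 _
  have hqq : q * q = D := by
    rw [hq, ← Real.rpow_add hD0]
    norm_num
  have h7 : (D : ℝ) ≤ m * c := by exact_mod_cast hDm
  have hm0 : (0 : ℝ) ≤ m := Nat.cast_nonneg _
  have h8 : (D : ℝ) ≤ ((m : ℝ) * C' * (3 : ℝ) ^ δ * ((C : ℝ) + 2) ^ (1 / 2 : ℝ)) * q := by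
    calc (D : ℝ) ≤ m * c := h7
      _ ≤ m * (C' * (((C : ℝ) * D) ^ C + 2) ^ δ) := mul_le_mul_of_nonneg_left hc hm0
      _ ≤ m * (C' * ((3 : ℝ) ^ δ * (((C : ℝ) + 2) ^ (1 / 2 : ℝ) * q))) := by
          rw [h5, h6] at h4
          exact mul_le_mul_of_nonneg_left (mul_le_mul_of_nonneg_left h4 hC'.le) hm0
      _ = _ := by ring
  set M : ℝ := (m : ℝ) * C' * (3 : ℝ) ^ δ * ((C : ℝ) + 2) ^ (1 / 2 : ℝ) with hM
  have h9 : q ≤ M := by
    rw [← hqq] at h8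
    exact le_of_mul_le_mul_right h8 hq0
  rw [← hqq, sq]
  exact mul_le_mul h9 h9 hq0.le (hq0.le.trans h9)

/-- many good conjugates -/
private theorem FinK_many (k₀ : IntermediateField ℚ ℂ) [FiniteDimensional ℚ k₀] (C : ℕ)
    {y : Fin mm → ℂ} (hal : ∀ a, IsAlgebraic ℚ (y a)) {H : ℝ}
    (hbad : ∀ S : Finset (Fin mm → ℂ),
      (∀ x ∈ S, (∃ s : ℂ ≃+* ℂ, x = fun a => s (y a)) ∧
        ∃ a, H ^ (2 * Module.finrank ℚ k₀ * C + 1) < ‖x a‖) →
      (((2 * Module.finrank ℚ k₀ * C + 1 : ℕ)) : ℝ) * S.card ≤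
        C * Module.finrank ℚ (IntermediateField.adjoin ℚ (Set.range y))) :
    ∃ S : Finset (Fin mm → ℂ),
      Module.finrank ℚ (IntermediateField.adjoin ℚ (Set.range y)) ≤
        2 * Module.finrank ℚ k₀ * S.card ∧
      ∀ x ∈ S, (∃ s : ℂ ≃+* ℂ, (∀ z ∈ k₀, s z = z) ∧ x = fun a => s (y a)) ∧
        ∀ a, ‖x a‖ ≤ H ^ (2 * Module.finrank ℚ k₀ * C + 1) := by
  classical
  obtain ⟨S, hS1, hS2⟩ := conj_many
    (W := {x : Fin mm → ℂ | ∃ s : ℂ ≃+* ℂ, (∀ z ∈ k₀, s z = z) ∧ x = fun a => s (y a)}) k₀ (by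
      rintro t ht x ⟨s, hs, rfl⟩
      refine ⟨s.trans t, fun z hz => ?_, rfl⟩
      rw [RingEquiv.trans_apply, hs z hz, ht z hz])
    (x := y) ⟨RingEquiv.refl ℂ, fun _ _ => rfl, rfl⟩ hal
  set m : ℕ := Module.finrank ℚ k₀ with hm
  set D : ℕ := Module.finrank ℚ (IntermediateField.adjoin ℚ (Set.range y)) with hD
  set p : (Fin mm → ℂ) → Prop := fun x => ∃ a, H ^ (2 * m * C + 1) < ‖x a‖ with hp
  have h1 := hbad (S.filter p) (by
    intro x hx
    obtain ⟨hxS, hxp⟩ := Finset.mem_filter.1 hx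
    obtain ⟨-, s, hs⟩ := hS2 x hxS
    exact ⟨⟨s, hs⟩, hxp⟩)
  have h2 : (2 * m * C + 1) * (S.filter p).card ≤ C * D := by exact_mod_cast h1
  have h3 : 2 * m * (S.filter p).card ≤ D := by
    obtain ⟨b, hb⟩ : ∃ b, b = (S.filter p).card := ⟨_, rfl⟩
    rw [← hb] at h2 ⊢
    rcases Nat.eq_zero_or_pos C with hC | hC
    · rw [hC, mul_zero, zero_add, one_mul, zero_mul] at h2
      rw [Nat.le_zero.1 h2, mul_zero]
      exact Nat.zero_le _
    · have h4 : C * (2 * m * b) ≤ C * D := by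
        refine le_trans ?_ h2
        calc C * (2 * m * b) = 2 * m * C * b := by ring
          _ ≤ (2 * m * C + 1) * b := Nat.mul_le_mul_right _ (Nat.le_succ _)
      exact Nat.le_of_mul_le_mul_left h4 hC
  refine ⟨S.filter fun x => ¬ p x, ?_, ?_⟩
  · have h4 : (S.filter p).card + (S.filter fun x => ¬ p x).card = S.card :=
      Finset.card_filter_add_card_filter_not _
    rw [← h4] at hS1
    have h5 : 2 * D ≤ 2 * (m * ((S.filter p).card + (S.filter fun x => ¬ p x).card)) :=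
      Nat.mul_le_mul_left 2 hS1
    have h6 : 2 * (m * ((S.filter p).card + (S.filter fun x => ¬ p x).card)) =
      2 * m * (S.filter p).card + 2 * m * (S.filter fun x => ¬ p x).card := by ring
    omega
  · intro x hx
    obtain ⟨hxS, hxp⟩ := Finset.mem_filter.1 hx
    refine ⟨(hS2 x hxS).1, fun a => ?_⟩
    by_contra hcon
    exact hxp ⟨a, not_le.1 hcon⟩

theorem fin_small {Q : ℝ → (Fin mm → ℂ) → Prop} (hmono : ∀ (H H' : ℝ), H ≤ H' → ∀ x, Q H x → Q H' x)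
    {W : Set (Fin mm → ℂ)} (hcnt : Cnt W Q)
    (k₀ : IntermediateField ℚ ℂ) [FiniteDimensional ℚ k₀]
    (hW : ∀ s : ℂ ≃+* ℂ, (∀ z ∈ k₀, s z = z) → ∀ y ∈ W, (fun a => s (y a)) ∈ W)
    {T : Set (Fin mm → ℂ)} (hTW : T ⊆ W) (C : ℕ) (hal : ∀ y ∈ T, ∀ a, IsAlgebraic ℚ (y a))
    (hT : ∀ y ∈ T, ∀ s : ℂ ≃+* ℂ, (∀ z ∈ k₀, s z = z) →
      Q (((C : ℝ) * Module.finrank ℚ (IntermediateField.adjoin ℚ (Set.range y))) ^ C + 2)
        (fun a => s (y a)))
    (hbad : ∀ y ∈ T, ∀ (A : ℕ) (S : Finset (Fin mm → ℂ)),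
      (∀ x ∈ S, (∃ s : ℂ ≃+* ℂ, x = fun a => s (y a)) ∧
        ∃ a, (((C : ℝ) * Module.finrank ℚ (IntermediateField.adjoin ℚ (Set.range y))) ^ C + 2) ^ A <
          ‖x a‖) →
      (A : ℝ) * S.card ≤ C * Module.finrank ℚ (IntermediateField.adjoin ℚ (Set.range y))) :
    T.Finite := by
  classical
  set m : ℕ := Module.finrank ℚ k₀ with hm
  have hδ : 0 < 1 / (2 * ((C : ℝ) + 1)) := by positivity
  obtain ⟨C', hC', hcount⟩ := hcnt (2 * m * C + 1) (1 / (2 * ((C : ℝ) + 1))) hδ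
  set M : ℝ := (((2 * m : ℕ) : ℝ) * C' * (3 : ℝ) ^ (1 / (2 * ((C : ℝ) + 1))) *
    ((C : ℝ) + 2) ^ (1 / 2 : ℝ)) ^ 2 with hM
  have hM0 : 0 ≤ M := by rw [hM]; positivity
  have hH2 : ∀ t : ℝ, 0 ≤ t → 2 ≤ ((C : ℝ) * t) ^ C + 2 := by
    intro t ht
    have : (0 : ℝ) ≤ ((C : ℝ) * t) ^ C := by positivity
    linarith
  -- the degree is bounded
  have hdeg : ∀ y ∈ T, (Module.finrank ℚ (IntermediateField.adjoin ℚ (Set.range y)) : ℝ) ≤ M := by
    intro y hy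
    have hfd : FiniteDimensional ℚ (IntermediateField.adjoin ℚ (Set.range y)) := by
      refine IntermediateField.finiteDimensional_adjoin ?_
      rintro z ⟨a, rfl⟩
      exact (hal y hy a).isIntegral
    have hD : 1 ≤ Module.finrank ℚ (IntermediateField.adjoin ℚ (Set.range y)) := Module.finrank_pos
    obtain ⟨S, hS1, hS2⟩ := FinK_many k₀ C (hal y hy) (hbad y hy (2 * m * C + 1))
    refine FinK_bound hC' hD hS1 ?_
    refine hcount _ (hH2 _ (Nat.cast_nonneg _)) S fun x hx => ?_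
    obtain ⟨⟨s, hs, rfl⟩, hsmall⟩ := hS2 x hx
    exact ⟨hW s hs y (hTW hy), hsmall, hT y hy s hs⟩
  -- all points satisfy the condition with a fixed height
  set H : ℝ := ((C : ℝ) * M) ^ C + 2 with hH
  obtain ⟨A', hA'⟩ := exists_nat_gt ((C : ℝ) * M)
  obtain ⟨C₂, hC₂, hcount₂⟩ := hcnt A' 1 one_pos
  have hHy : ∀ y ∈ T,
      ((C : ℝ) * Module.finrank ℚ (IntermediateField.adjoin ℚ (Set.range y))) ^ C + 2 ≤ H := by
    intro y hy
    have h3 : (C : ℝ) * Module.finrank ℚ (IntermediateField.adjoin ℚ (Set.range y)) ≤ C * M :=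
      mul_le_mul_of_nonneg_left (hdeg y hy) (Nat.cast_nonneg _)
    have h4 := pow_le_pow_left₀ (by positivity) h3 C
    rw [hH]
    linarith
  by_contra hinf
  have hinf' : T.Infinite := hinf
  obtain ⟨S, hST, hScard⟩ := hinf'.exists_subset_card_eq (⌈C₂ * H ^ (1 : ℝ)⌉₊ + 1)
  have h1 : (S.card : ℝ) ≤ C₂ * H ^ (1 : ℝ) := by
    refine hcount₂ H (hH2 _ hM0) S fun y hy => ?_
    have hyT : y ∈ T := hST hy
    have hle := hHy y hyT
    have hy2 := hH2 (Module.finrank ℚ (IntermediateField.adjoin ℚ (Set.range y)) : ℝ)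
      (Nat.cast_nonneg _)
    refine ⟨hTW hyT, fun a => ?_, hmono _ _ hle _ (hT y hyT (RingEquiv.refl ℂ) fun _ _ => rfl)⟩
    refine le_trans ?_ (pow_le_pow_left₀ (by linarith) hle A')
    by_contra hcon
    have h5 := hbad y hyT A' {y} (by
      intro x hx
      rw [Finset.mem_singleton] at hx
      subst hx
      exact ⟨⟨RingEquiv.refl ℂ, rfl⟩, a, not_le.1 hcon⟩)
    rw [Finset.card_singleton, Nat.cast_one, mul_one] at h5
    have h6 : (C : ℝ) * Module.finrank ℚ (IntermediateField.adjoin ℚ (Set.range y)) ≤ C * M :=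
      mul_le_mul_of_nonneg_left (hdeg y hyT) (Nat.cast_nonneg _)
    linarith
  have h2 : C₂ * H ^ (1 : ℝ) ≤ (⌈C₂ * H ^ (1 : ℝ)⌉₊ : ℝ) := Nat.le_ceil _
  rw [hScard] at h1
  push_cast at h1
  linarith

end Pool.Agent.LGO.PWG
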