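import Mathlib
import Pool.Agent.LGO.KC.Defs
import Pool.Agent.LGO.PWG.Grow

/-!
# LGO/KC: growth of the ranks for the types A, B, C

`RelA`, `RelB`, `RelC`: the relations between the values of `z` and the eight integers `v s`, as `Rel2`, `Rel3` (`PWG/Typ.lean`), the first function is the
constant `τ`.  `exists_relA`, .. as `exists_rel2`, `exists_rel3`.

PROOFS of `grwA`, `grwB`, `grwC`: as `grw2`, `grw3` (`PWG/Grow.lean`) with `grow_poly` (`PWG/GrowA.lean`).  The function `(v₂ τ + v₃) ^ b z₀ ^ γ`, `γ ≤ b`,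
`z₀ = (v₀ τ + v₁) / (v₂ τ + v₃)`, is the value of the polynomial `(C τ X₂ + X₃) ^ (b - γ) (C τ X₀ + X₁) ^ γ` in the `v k`, of degree at most `b` in every
variable (as `mob_pow` in `PWG/GrowQ.lean`, with the constant `τ` in place of the variable `y`).
* A: `m = 2`, no remaining variable (`p = 0`): `ρ (b + 1) ^ 2 ≤ rk`.
* B: `m = 3`, one remaining variable `z 1`, of degree at most `2 b`: `ρ (b + 1) ^ 3 ≤ (2 b + 1) rk ≤ 2 (b + 1) rk`.
* C: `m = 2`, one remaining variable `z 1`, of degree at most `1` (`quad_pow`): `ρ (b + 1) ^ 2 ≤ 2 rk`.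
-/

namespace Pool.Agent.LGO.PWG

open MvPolynomial

/-- type A, with the eight integers -/
structure RelA (τ τ' : ℂ) (z : Fin 2 → ℂ → ℂ) (v : ℂ → Fin 8 → ℤ) (s : ℂ) : Prop where
  d1 : (v s 2 : ℂ) * τ + (v s 3 : ℂ) ≠ 0
  d2 : (v s 6 : ℂ) * τ' + (v s 7 : ℂ) ≠ 0
  r1 : z 0 s * ((v s 2 : ℂ) * τ + (v s 3 : ℂ)) = (v s 0 : ℂ) * τ + (v s 1 : ℂ)
  r2 : z 1 s * ((v s 6 : ℂ) * τ' + (v s 7 : ℂ)) = (v s 4 : ℂ) * τ' + (v s 5 : ℂ)

/-- type B, with the eight integers -/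
structure RelB (τ : ℂ) (z : Fin 3 → ℂ → ℂ) (v : ℂ → Fin 8 → ℤ) (s : ℂ) : Prop where
  d1 : (v s 2 : ℂ) * τ + (v s 3 : ℂ) ≠ 0
  d2 : (v s 6 : ℂ) * z 1 s + (v s 7 : ℂ) ≠ 0
  r1 : z 0 s * ((v s 2 : ℂ) * τ + (v s 3 : ℂ)) = (v s 0 : ℂ) * τ + (v s 1 : ℂ)
  r2 : z 2 s * ((v s 6 : ℂ) * z 1 s + (v s 7 : ℂ)) = (v s 4 : ℂ) * z 1 s + (v s 5 : ℂ)

/-- type C, with the eight integers (the last one is not used) -/
structure RelC (τ : ℂ) (z : Fin 2 → ℂ → ℂ) (v : ℂ → Fin 8 → ℤ) (s : ℂ) : Prop where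
  d1 : (v s 2 : ℂ) * τ + (v s 3 : ℂ) ≠ 0
  d2 : (v s 4 : ℂ) ≠ 0
  r1 : z 0 s * ((v s 2 : ℂ) * τ + (v s 3 : ℂ)) = (v s 0 : ℂ) * τ + (v s 1 : ℂ)
  r2 : (v s 4 : ℂ) * z 1 s ^ 2 + (v s 5 : ℂ) * z 1 s + (v s 6 : ℂ) = 0

private theorem Grw_den {g : Matrix (Fin 2) (Fin 2) ℤ} (hg : g.det ≠ 0) {τ τ' : ℂ} (h : Maps g τ τ') :
    (g 1 0 : ℂ) * τ + (g 1 1 : ℂ) ≠ 0 := by
  intro h0
  unfold Maps at h
  rw [h0, mul_zero] at h
  have h1 : (g 0 0 : ℂ) * (g 1 1 : ℂ) - (g 0 1 : ℂ) * (g 1 0 : ℂ) = 0 := by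
    linear_combination (g 0 0 : ℂ) * h0 + (g 1 0 : ℂ) * h
  rw [Matrix.det_fin_two] at hg
  apply hg
  exact_mod_cast h1

private theorem Grw_ne {x : ℂ} (hx : 0 < x.im) {q : Fin 3 → ℤ} (hq : q ≠ 0)
    (h : (q 0 : ℂ) * x ^ 2 + (q 1 : ℂ) * x + (q 2 : ℂ) = 0) : (q 0 : ℂ) ≠ 0 := by
  intro h0
  apply hq
  rw [h0, zero_mul, zero_add] at h
  have h1 : (q 1 : ℝ) * x.im = 0 := by
    have h2 := congrArg Complex.im h
    simpa using h2
  have h3 : (q 1 : ℝ) = 0 := by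
    rcases mul_eq_zero.mp h1 with h4 | h4
    · exact h4
    · exact absurd h4 hx.ne'
  have h5 : q 1 = 0 := by exact_mod_cast h3
  have h6 : q 2 = 0 := by
    rw [h5, Int.cast_zero, zero_mul, zero_add] at h
    exact_mod_cast h
  have h7 : q 0 = 0 := by exact_mod_cast h0
  funext k
  fin_cases k
  · exact h7
  · exact h5
  · exact h6

private theorem Grw_dX {p : ℕ} (i : Fin p) (n : ℕ) (j : Fin p ⊕ Fin 8) :
    (X (Sum.inl i) ^ n : MvPolynomial (Fin p ⊕ Fin 8) ℂ).degreeOf j ≤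
      if j = Sum.inl i then n else 0 := by
  refine (degreeOf_pow_le _ _ _).trans ?_
  rw [degreeOf_X]
  split_ifs <;> simp

private theorem Grw_lin {σ : Type} [DecidableEq σ] (τ : ℂ) (a b i : σ) :
    (X a * C τ + X b : MvPolynomial σ ℂ).degreeOf i ≤ if i = a ∨ i = b then 1 else 0 := by
  refine (degreeOf_add_le i _ _).trans (max_le ?_ ?_)
  · refine (degreeOf_mul_le i _ _).trans ?_
    rw [degreeOf_X, degreeOf_C]
    split_ifs <;> simp_all
  · rw [degreeOf_X]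
    split_ifs <;> simp_all

/-- the power of a fractional linear expression in a constant -/
private theorem Grw_mob {σ : Type} [DecidableEq σ] (τ : ℂ) (i₀ i₁ i₂ i₃ : σ) {n k : ℕ} (hk : k ≤ n) :
    ∃ F : MvPolynomial σ ℂ, (∀ i, F.degreeOf i ≤ n) ∧
      (∀ i, i ≠ i₀ → i ≠ i₁ → i ≠ i₂ → i ≠ i₃ → F.degreeOf i = 0) ∧
      ∀ (x : σ → ℂ) (w : ℂ), w * (x i₂ * τ + x i₃) = x i₀ * τ + x i₁ →
        (x i₂ * τ + x i₃) ^ n * w ^ k = eval x F := by
  have hk' : n - k + k = n := Nat.sub_add_cancel hk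
  have key : ∀ i, ((X i₂ * C τ + X i₃) ^ (n - k) * (X i₀ * C τ + X i₁) ^ k :
      MvPolynomial σ ℂ).degreeOf i ≤
      (n - k) * (if i = i₂ ∨ i = i₃ then 1 else 0) + k * (if i = i₀ ∨ i = i₁ then 1 else 0) := by
    intro i
    refine (degreeOf_mul_le i _ _).trans (Nat.add_le_add ?_ ?_)
    · exact (degreeOf_pow_le i _ _).trans (Nat.mul_le_mul_left _ (Grw_lin τ _ _ i))
    · exact (degreeOf_pow_le i _ _).trans (Nat.mul_le_mul_left _ (Grw_lin τ _ _ i))
  refine ⟨(X i₂ * C τ + X i₃) ^ (n - k) * (X i₀ * C τ + X i₁) ^ k, fun i => ?_,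
    fun i j0 j1 j2 j3 => ?_, fun x w hx => ?_⟩
  · refine (key i).trans ?_
    split_ifs <;> omega
  · have h := key i
    rw [if_neg (by tauto), if_neg (by tauto)] at h
    simpa using h
  · simp only [map_add, map_mul, map_pow, eval_X, eval_C]
    rw [← hx]
    calc (x i₂ * τ + x i₃) ^ n * w ^ k = (x i₂ * τ + x i₃) ^ (n - k + k) * w ^ k := by rw [hk']
      _ = _ := by rw [pow_add, mul_pow]; ring

theorem exists_relA {H : ℝ} (hH : 0 ≤ H) (τ τ' : ℂ) (z : Fin 2 → ℂ → ℂ) : ∃ v : ℂ → Fin 8 → ℤ,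
    (∀ s k, |(v s k : ℝ)| ≤ H) ∧ ∀ s, PtA τ τ' z H s → RelA τ τ' z v s := by
  have key : ∀ s, ∃ w : Fin 8 → ℤ, (∀ k, |(w k : ℝ)| ≤ H) ∧ (PtA τ τ' z H s →
      ((w 2 : ℂ) * τ + (w 3 : ℂ) ≠ 0 ∧ (w 6 : ℂ) * τ' + (w 7 : ℂ) ≠ 0 ∧
        z 0 s * ((w 2 : ℂ) * τ + (w 3 : ℂ)) = (w 0 : ℂ) * τ + (w 1 : ℂ) ∧
        z 1 s * ((w 6 : ℂ) * τ' + (w 7 : ℂ)) = (w 4 : ℂ) * τ' + (w 5 : ℂ))) := by
    intro s
    by_cases hs : PtA τ τ' z H s
    · obtain ⟨⟨g, hg, hgH, hgM⟩, ⟨g', hg', hgH', hgM'⟩⟩ := hs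
      refine ⟨![g 0 0, g 0 1, g 1 0, g 1 1, g' 0 0, g' 0 1, g' 1 0, g' 1 1], ?_,
        fun _ => ⟨?_, ?_, ?_, ?_⟩⟩
      · intro k
        fin_cases k
        · exact hgH 0 0
        · exact hgH 0 1
        · exact hgH 1 0
        · exact hgH 1 1
        · exact hgH' 0 0
        · exact hgH' 0 1
        · exact hgH' 1 0
        · exact hgH' 1 1
      · exact Grw_den hg hgM
      · exact Grw_den hg' hgM'
      · exact hgM
      · exact hgM'
    · exact ⟨0, fun k => by simpa using hH, fun h => absurd h hs⟩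
  choose v hv using key
  refine ⟨v, fun s => (hv s).1, fun s hs => ?_⟩
  obtain ⟨h1, h2, h3, h4⟩ := (hv s).2 hs
  exact ⟨h1, h2, h3, h4⟩

theorem exists_relB {H : ℝ} (hH : 0 ≤ H) (τ : ℂ) (z : Fin 3 → ℂ → ℂ) : ∃ v : ℂ → Fin 8 → ℤ,
    (∀ s k, |(v s k : ℝ)| ≤ H) ∧ ∀ s, PtB τ z H s → RelB τ z v s := by
  have key : ∀ s, ∃ w : Fin 8 → ℤ, (∀ k, |(w k : ℝ)| ≤ H) ∧ (PtB τ z H s →
      ((w 2 : ℂ) * τ + (w 3 : ℂ) ≠ 0 ∧ (w 6 : ℂ) * z 1 s + (w 7 : ℂ) ≠ 0 ∧
        z 0 s * ((w 2 : ℂ) * τ + (w 3 : ℂ)) = (w 0 : ℂ) * τ + (w 1 : ℂ) ∧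
        z 2 s * ((w 6 : ℂ) * z 1 s + (w 7 : ℂ)) = (w 4 : ℂ) * z 1 s + (w 5 : ℂ))) := by
    intro s
    by_cases hs : PtB τ z H s
    · obtain ⟨⟨g, hg, hgH, hgM⟩, ⟨g', hg', hgH', hgM'⟩⟩ := hs
      refine ⟨![g 0 0, g 0 1, g 1 0, g 1 1, g' 0 0, g' 0 1, g' 1 0, g' 1 1], ?_,
        fun _ => ⟨?_, ?_, ?_, ?_⟩⟩
      · intro k
        fin_cases k
        · exact hgH 0 0
        · exact hgH 0 1
        · exact hgH 1 0
        · exact hgH 1 1
        · exact hgH' 0 0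
        · exact hgH' 0 1
        · exact hgH' 1 0
        · exact hgH' 1 1
      · exact Grw_den hg hgM
      · exact Grw_den hg' hgM'
      · exact hgM
      · exact hgM'
    · exact ⟨0, fun k => by simpa using hH, fun h => absurd h hs⟩
  choose v hv using key
  refine ⟨v, fun s => (hv s).1, fun s hs => ?_⟩
  obtain ⟨h1, h2, h3, h4⟩ := (hv s).2 hs
  exact ⟨h1, h2, h3, h4⟩

theorem exists_relC {H : ℝ} (hH : 0 ≤ H) (τ : ℂ) (z : Fin 2 → ℂ → ℂ) : ∃ v : ℂ → Fin 8 → ℤ,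
    (∀ s k, |(v s k : ℝ)| ≤ H) ∧ ∀ s, PtC τ z H s → RelC τ z v s := by
  have key : ∀ s, ∃ w : Fin 8 → ℤ, (∀ k, |(w k : ℝ)| ≤ H) ∧ (PtC τ z H s →
      ((w 2 : ℂ) * τ + (w 3 : ℂ) ≠ 0 ∧ (w 4 : ℂ) ≠ 0 ∧
        z 0 s * ((w 2 : ℂ) * τ + (w 3 : ℂ)) = (w 0 : ℂ) * τ + (w 1 : ℂ) ∧
        (w 4 : ℂ) * z 1 s ^ 2 + (w 5 : ℂ) * z 1 s + (w 6 : ℂ) = 0)) := by
    intro s
    by_cases hs : PtC τ z H s
    · obtain ⟨⟨g, hg, hgH, hgM⟩, ⟨hx, q, hq, hqH, hqM⟩⟩ := hs
      refine ⟨![g 0 0, g 0 1, g 1 0, g 1 1, q 0, q 1, q 2, 0], ?_, fun _ => ⟨?_, ?_, ?_, ?_⟩⟩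
      · intro k
        fin_cases k
        · exact hgH 0 0
        · exact hgH 0 1
        · exact hgH 1 0
        · exact hgH 1 1
        · exact hqH 0
        · exact hqH 1
        · exact hqH 2
        · simpa using hH
      · exact Grw_den hg hgM
      · exact Grw_ne hx hq hqM
      · exact hgM
      · exact hqM
    · exact ⟨0, fun k => by simpa using hH, fun h => absurd h hs⟩
  choose v hv using key
  refine ⟨v, fun s => (hv s).1, fun s hs => ?_⟩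
  obtain ⟨h1, h2, h3, h4⟩ := (hv s).2 hs
  exact ⟨h1, h2, h3, h4⟩

theorem grwA (τ τ' : ℂ) (z : Fin 2 → ℂ → ℂ) (v : ℂ → Fin 8 → ℤ) : Grw z v (RelA τ τ' z v) := by
  intro S hS b ρ t hli
  have h := grow_poly (p := 0) (y := ![]) (D := ![])
    (Om := fun s => ((v s 2 : ℂ) * τ + (v s 3 : ℂ)) ^ b * ((v s 6 : ℂ) * τ' + (v s 7 : ℂ)) ^ b)
    (fun s hs => mul_ne_zero (pow_ne_zero _ (hS s hs).d1) (pow_ne_zero _ (hS s hs).d2)) ?_ t hli
  · rw [Fin.prod_univ_zero] at h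
    omega
  · intro γ
    have hγ : ∀ i, (γ i : ℕ) ≤ b := fun i => Nat.lt_succ_iff.1 (γ i).isLt
    obtain ⟨F₁, a2, a3, a4⟩ := Grw_mob (σ := Fin 0 ⊕ Fin 8) τ (Sum.inr 0) (Sum.inr 1) (Sum.inr 2)
      (Sum.inr 3) (n := b) (k := γ 0) (hγ 0)
    obtain ⟨F₂, b2, b3, b4⟩ := Grw_mob (σ := Fin 0 ⊕ Fin 8) τ' (Sum.inr 4) (Sum.inr 5) (Sum.inr 6)
      (Sum.inr 7) (n := b) (k := γ 1) (hγ 1)
    refine ⟨F₁ * F₂, fun i => i.elim0, ?_, ?_⟩
    · intro k
      refine (degreeOf_mul_le _ _ _).trans ?_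
      have d1 := a2 (Sum.inr k)
      have d2 := b2 (Sum.inr k)
      fin_cases k
      · have c1 := b3 (Sum.inr 0) (by decide) (by decide) (by decide) (by decide)
        simp at d1 d2 ⊢
        omega
      · have c1 := b3 (Sum.inr 1) (by decide) (by decide) (by decide) (by decide)
        simp at d1 d2 ⊢
        omega
      · have c1 := b3 (Sum.inr 2) (by decide) (by decide) (by decide) (by decide)
        simp at d1 d2 ⊢
        omega
      · have c1 := b3 (Sum.inr 3) (by decide) (by decide) (by decide) (by decide)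
        simp at d1 d2 ⊢
        omega
      · have c1 := a3 (Sum.inr 4) (by decide) (by decide) (by decide) (by decide)
        simp at d1 d2 ⊢
        omega
      · have c1 := a3 (Sum.inr 5) (by decide) (by decide) (by decide) (by decide)
        simp at d1 d2 ⊢
        omega
      · have c1 := a3 (Sum.inr 6) (by decide) (by decide) (by decide) (by decide)
        simp at d1 d2 ⊢
        omega
      · have c1 := a3 (Sum.inr 7) (by decide) (by decide) (by decide) (by decide)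
        simp at d1 d2 ⊢
        omega
    · intro s hs
      have f1 := a4 (Sum.elim (fun i => (![] : Fin 0 → ℂ → ℂ) i s) fun k => (v s k : ℂ)) (z 0 s)
        (hS s hs).r1
      have f2 := b4 (Sum.elim (fun i => (![] : Fin 0 → ℂ → ℂ) i s) fun k => (v s k : ℂ)) (z 1 s)
        (hS s hs).r2
      rw [map_mul, ← f1, ← f2, Fin.prod_univ_two]
      simp only [Sum.elim_inr]
      ring

theorem grwB (τ : ℂ) (z : Fin 3 → ℂ → ℂ) (v : ℂ → Fin 8 → ℤ) : Grw z v (RelB τ z v) := by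
  intro S hS b ρ t hli
  have h := grow_poly (y := ![z 1]) (D := ![2 * b])
    (Om := fun s => ((v s 2 : ℂ) * τ + (v s 3 : ℂ)) ^ b * ((v s 6 : ℂ) * z 1 s + (v s 7 : ℂ)) ^ b)
    (fun s hs => mul_ne_zero (pow_ne_zero _ (hS s hs).d1) (pow_ne_zero _ (hS s hs).d2)) ?_ t hli
  · rw [Fin.prod_univ_one] at h
    simp only [Matrix.cons_val_fin_one] at h
    have h1 : ρ * (b + 1) ^ 2 * (b + 1) ≤ 4 * PWC.rk v S (2 * b) * (b + 1) := by
      calc ρ * (b + 1) ^ 2 * (b + 1) = ρ * (b + 1) ^ 3 := by ring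
        _ ≤ (2 * b + 1) * PWC.rk v S (2 * b) := h
        _ ≤ (4 * (b + 1)) * PWC.rk v S (2 * b) := Nat.mul_le_mul_right _ (by omega)
        _ = 4 * PWC.rk v S (2 * b) * (b + 1) := by ring
    exact Nat.le_of_mul_le_mul_right h1 (by positivity)
  · intro γ
    have hγ : ∀ i, (γ i : ℕ) ≤ b := fun i => Nat.lt_succ_iff.1 (γ i).isLt
    obtain ⟨F₁, a2, a3, a4⟩ := Grw_mob (σ := Fin 1 ⊕ Fin 8) τ (Sum.inr 0) (Sum.inr 1) (Sum.inr 2)
      (Sum.inr 3) (n := b) (k := γ 0) (hγ 0)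
    obtain ⟨F₂, b1, b2, b3, b4⟩ := mob_pow (σ := Fin 1 ⊕ Fin 8) (y := Sum.inl 0) (i₀ := Sum.inr 4)
      (i₁ := Sum.inr 5) (i₂ := Sum.inr 6) (i₃ := Sum.inr 7) (by decide) (by decide) (by decide)
      (by decide) (by decide) (by decide) (by decide) (by decide) (by decide) (by decide)
      (n := b) (k := γ 2) (hγ 2)
    have hdeg : ∀ j, (X (Sum.inl 0) ^ (γ 1 : ℕ) * F₁ * F₂ :
        MvPolynomial (Fin 1 ⊕ Fin 8) ℂ).degreeOf j ≤ (if j = Sum.inl 0 then (γ 1 : ℕ) else 0) +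
        F₁.degreeOf j + F₂.degreeOf j := by
      intro j
      refine (degreeOf_mul_le _ _ _).trans (Nat.add_le_add_right ?_ _)
      refine (degreeOf_mul_le _ _ _).trans (Nat.add_le_add_right (Grw_dX _ _ _) _)
    refine ⟨X (Sum.inl 0) ^ (γ 1 : ℕ) * F₁ * F₂, ?_, ?_, ?_⟩
    · intro i
      refine (hdeg _).trans ?_
      have e1 := hγ 1
      fin_cases i
      have c1 := a3 (Sum.inl 0) (by decide) (by decide) (by decide) (by decide)
      simp
      omega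
    · intro k
      refine (hdeg _).trans ?_
      rw [if_neg (by simp)]
      have d1 := a2 (Sum.inr k)
      have d2 := b2 (Sum.inr k) (by simp)
      fin_cases k
      · have c1 := b3 (Sum.inr 0) (by decide) (by decide) (by decide) (by decide) (by decide)
        simp at d1 d2 ⊢
        omega
      · have c1 := b3 (Sum.inr 1) (by decide) (by decide) (by decide) (by decide) (by decide)
        simp at d1 d2 ⊢
        omega
      · have c1 := b3 (Sum.inr 2) (by decide) (by decide) (by decide) (by decide) (by decide)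
        simp at d1 d2 ⊢
        omega
      · have c1 := b3 (Sum.inr 3) (by decide) (by decide) (by decide) (by decide) (by decide)
        simp at d1 d2 ⊢
        omega
      · have c1 := a3 (Sum.inr 4) (by decide) (by decide) (by decide) (by decide)
        simp at d1 d2 ⊢
        omega
      · have c1 := a3 (Sum.inr 5) (by decide) (by decide) (by decide) (by decide)
        simp at d1 d2 ⊢
        omega
      · have c1 := a3 (Sum.inr 6) (by decide) (by decide) (by decide) (by decide)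
        simp at d1 d2 ⊢
        omega
      · have c1 := a3 (Sum.inr 7) (by decide) (by decide) (by decide) (by decide)
        simp at d1 d2 ⊢
        omega
    · intro s hs
      have f1 := a4 (Sum.elim (fun i => (![z 1] : Fin 1 → ℂ → ℂ) i s) fun k => (v s k : ℂ)) (z 0 s)
        (hS s hs).r1
      have f2 := b4 (Sum.elim (fun i => (![z 1] : Fin 1 → ℂ → ℂ) i s) fun k => (v s k : ℂ)) (z 2 s)
        (hS s hs).r2
      rw [map_mul, map_mul, map_pow, eval_X, ← f1, ← f2, Fin.prod_univ_three]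
      simp only [Sum.elim_inl, Sum.elim_inr, Matrix.cons_val_fin_one]
      ring

theorem grwC (τ : ℂ) (z : Fin 2 → ℂ → ℂ) (v : ℂ → Fin 8 → ℤ) : Grw z v (RelC τ z v) := by
  intro S hS b ρ t hli
  have h := grow_poly (y := ![z 1]) (D := ![1])
    (Om := fun s => ((v s 2 : ℂ) * τ + (v s 3 : ℂ)) ^ b * (v s 4 : ℂ) ^ b)
    (fun s hs => mul_ne_zero (pow_ne_zero _ (hS s hs).d1) (pow_ne_zero _ (hS s hs).d2)) ?_ t hli
  · rw [Fin.prod_univ_one] at h
    simp only [Matrix.cons_val_fin_one] at h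
    omega
  · intro γ
    have hγ : ∀ i, (γ i : ℕ) ≤ b := fun i => Nat.lt_succ_iff.1 (γ i).isLt
    obtain ⟨F₁, a2, a3, a4⟩ := Grw_mob (σ := Fin 1 ⊕ Fin 8) τ (Sum.inr 0) (Sum.inr 1) (Sum.inr 2)
      (Sum.inr 3) (n := b) (k := γ 0) (hγ 0)
    obtain ⟨F₂, b1, b2, b3, b4⟩ := quad_pow (σ := Fin 1 ⊕ Fin 8) (y := Sum.inl 0) (i₀ := Sum.inr 4)
      (i₁ := Sum.inr 5) (i₂ := Sum.inr 6) (by decide) (by decide) (by decide)
      (by decide) (by decide) (by decide) (n := b) (k := γ 1) (hγ 1)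
    refine ⟨F₁ * F₂, ?_, ?_, ?_⟩
    · intro i
      refine (degreeOf_mul_le _ _ _).trans ?_
      fin_cases i
      have c1 := a3 (Sum.inl 0) (by decide) (by decide) (by decide) (by decide)
      simp
      omega
    · intro k
      refine (degreeOf_mul_le _ _ _).trans ?_
      have d1 := a2 (Sum.inr k)
      have d2 := b2 (Sum.inr k) (by simp)
      fin_cases k
      · have c1 := b3 (Sum.inr 0) (by decide) (by decide) (by decide) (by decide)
        simp at d1 d2 ⊢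
        omega
      · have c1 := b3 (Sum.inr 1) (by decide) (by decide) (by decide) (by decide)
        simp at d1 d2 ⊢
        omega
      · have c1 := b3 (Sum.inr 2) (by decide) (by decide) (by decide) (by decide)
        simp at d1 d2 ⊢
        omega
      · have c1 := b3 (Sum.inr 3) (by decide) (by decide) (by decide) (by decide)
        simp at d1 d2 ⊢
        omega
      · have c1 := a3 (Sum.inr 4) (by decide) (by decide) (by decide) (by decide)
        simp at d1 d2 ⊢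
        omega
      · have c1 := a3 (Sum.inr 5) (by decide) (by decide) (by decide) (by decide)
        simp at d1 d2 ⊢
        omega
      · have c1 := a3 (Sum.inr 6) (by decide) (by decide) (by decide) (by decide)
        simp at d1 d2 ⊢
        omega
      · have c1 := a3 (Sum.inr 7) (by decide) (by decide) (by decide) (by decide)
        simp at d1 d2 ⊢
        omega
    · intro s hs
      have f1 := a4 (Sum.elim (fun i => (![z 1] : Fin 1 → ℂ → ℂ) i s) fun k => (v s k : ℂ)) (z 0 s)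
        (hS s hs).r1
      have f2 := b4 (Sum.elim (fun i => (![z 1] : Fin 1 → ℂ → ℂ) i s) fun k => (v s k : ℂ))
        (hS s hs).r2
      rw [map_mul, ← f1, ← f2, Fin.prod_univ_two]
      simp only [Sum.elim_inl, Sum.elim_inr, Matrix.cons_val_fin_one]
      ring

end Pool.Agent.LGO.PWG
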