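import Mathlib
import Pool.Agent.LGO.KC.SH
import Pool.Agent.LGO.PA.LinkB
import Pool.Agent.LGO.U.BArch
import Pool.Agent.LGO.U.BGal
import Pool.Agent.LGO.U.BMem

/-!
# LGO/KC: the height of a number isogenous to a constant

`sh_iso`: `c` algebraic, not CM, `x ~ c`: the height of `x` is `O(1 + log N)`, `N = mdeg c x`.

PROOF.  `exists_B` (`U/BDef.lean`): `B` with `IsB c x B`, `B ≠ 0`, `B ∈ K` (`IsB.mem`).
Finite places (`PA.b_size` for `c`, `x`, second inequality): with `κ = (4 * 6 ^ 12) ^ 6`: `‖κ‖ ‖N‖ ^ 12 max 1 ‖φ x‖ ≤ ‖φ B‖ max 1 ‖φ c‖`.  Square it and use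
`max 1 ‖φ x‖ ≤ (max 1 ‖φ x‖) ^ 2`: `‖κ ^ 2 N ^ 24‖ (max 1 ‖φ x‖ ‖φ β‖) ≤ (max 1 ‖φ c‖) ^ 2` with `β = (B ^ 2)⁻¹`.
Infinite places (`U.B_arch` for `s c`, `s x`, `s B`; `IsB.map`, and `NCM (s c)`): the conjugates of `c` are at most `exp M₀`; with
`H = M₀ + 1 + log u`, `u = max 1 ‖s x‖`: `u ≤ N ^ 6 u ≤ C H ^ 6 ‖s B‖ max 1 ‖s c‖`, and `H ^ 6 ≤ C' u ^ (1/2)`, so `u ^ (1/2) ≤ C'' ‖s B‖`,
`u ‖s β‖ ≤ C'' ^ 2`.  `sh_of` with the reference point `c` (`sh_alg`), `k = 2`, `n = κ ^ 2 N ^ 24`.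
-/

namespace Pool.Agent.LGO.KC

open Pool.Agent.Hhelper14.ZP Pool.Agent.LGO Pool.Agent.LGO.PA Pool.Agent.LGO.U

theorem sh_iso {c : ℂ} (hc : IsAlgebraic ℚ c) (hn : NCM c) : ∃ C : ℕ, ∀ (K : IntermediateField ℚ ℂ)
    [FiniteDimensional ℚ K] (x : ℂ), c ∈ K → x ∈ K → (∃ N, 0 < N ∧ IsogDeg N c x) →
    SH K (C * Module.finrank ℚ K * (1 + Real.log (mdeg c x))) x := by
  sorry

end Pool.Agent.LGO.KC
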