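import Mathlib
import Pool.Agent.LGO.KC.SH
import Pool.Agent.LGO.ZV.Hts
import Pool.Agent.LGO.Q.Quad

/-!
# LGO/KC: the heights of all coordinates of a point of a curve are `O(1 + h(x a))`

`sh_rel`: `R(x, y) = 0`.  PROOF: `β = lc(x)`, the value of the leading coefficient.  Choose a positive integer `n` with `n α` integral for all
coefficients `α` of the coefficients of `R` (algebraic numbers), and `M` with `‖s α‖ ≤ exp M` for all of them and all automorphisms `s` of `ℂ`;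
`d` the largest degree of the coefficients of `R` (at least `1`).  Finite places: `‖n‖ ‖φ c_j(x)‖ ≤ (max 1 ‖φ x‖) ^ d` (ultrametric); if `‖φ y‖ ≤ 1` this
for the leading coefficient is the claim; if `‖φ y‖ > 1`: `lc(x) y = - ∑_(j < J) c_j(x) y ^ (j - J + 1)`, so
`‖φ lc(x)‖ ‖φ y‖ ≤ max ‖φ c_j(x)‖`.  Infinite places in the same way with sums.  Then `sh_of` with `k = d`.
`sh_v`: as `ZV.hts_v` (`ZV/Hts.lean`: `Hts_rel`, `Hts_ext` are private there, copy them): `K'` is the field of `Hts_ext` for `K ⊔ K₀ ⊔ k₀`, where `K₀`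
contains the coefficients of the relations (`U.fld_fix`).
-/

namespace Pool.Agent.LGO.KC

open Polynomial Pool.Agent.Hhelper14.ZPL Pool.Agent.LGO

/-- roots in an ultrametric field -/
private theorem HtV_ultra {F : Type} [NormedField F] [IsUltrametricDist F] {a : ℕ → F} {Y : F}
    {J : ℕ} (hJ : 0 < J) (h0 : ∑ j ∈ Finset.range (J + 1), a j * Y ^ j = 0) {A : ℝ} (hA : 0 ≤ A)
    (ha : ∀ j ≤ J, ‖a j‖ ≤ A) : max 1 ‖Y‖ * ‖a J‖ ≤ A := by
  rcases le_or_gt ‖Y‖ 1 with hY | hY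
  · rw [max_eq_left hY, one_mul]
    exact ha J le_rfl
  · rw [max_eq_right hY.le]
    obtain ⟨m, rfl⟩ : ∃ m, J = m + 1 := ⟨J - 1, by omega⟩
    rw [Finset.sum_range_succ] at h0
    have h1 : ‖a (m + 1) * Y ^ (m + 1)‖ ≤ A * ‖Y‖ ^ m := by
      rw [eq_neg_of_add_eq_zero_right h0, norm_neg]
      refine IsUltrametricDist.norm_sum_le_of_forall_le_of_nonneg (by positivity) fun j hj => ?_
      have hjm : j ≤ m := Nat.lt_succ_iff.1 (Finset.mem_range.1 hj)
      rw [norm_mul, norm_pow]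
      exact mul_le_mul (ha j (by omega)) (pow_le_pow_right₀ hY.le hjm) (by positivity) hA
    rw [norm_mul, norm_pow, pow_succ] at h1
    have h2 : 0 < ‖Y‖ ^ m := pow_pos (by linarith) m
    have h3 : ‖Y‖ * ‖a (m + 1)‖ * ‖Y‖ ^ m ≤ A * ‖Y‖ ^ m := by
      calc ‖Y‖ * ‖a (m + 1)‖ * ‖Y‖ ^ m = ‖a (m + 1)‖ * (‖Y‖ ^ m * ‖Y‖) := by ring
        _ ≤ _ := h1
    exact le_of_mul_le_mul_right h3 h2

/-- roots of complex polynomials -/
private theorem HtV_arch {a : ℕ → ℂ} {Y : ℂ} {J : ℕ} (hJ : 0 < J)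
    (h0 : ∑ j ∈ Finset.range (J + 1), a j * Y ^ j = 0) {A : ℝ} (hA : 0 ≤ A)
    (ha : ∀ j ≤ J, ‖a j‖ ≤ A) : max 1 ‖Y‖ * ‖a J‖ ≤ J * A := by
  have hJ1 : (1 : ℝ) ≤ J := by exact_mod_cast hJ
  rcases le_or_gt ‖Y‖ 1 with hY | hY
  · rw [max_eq_left hY, one_mul]
    exact (ha J le_rfl).trans (le_mul_of_one_le_left hA hJ1)
  · rw [max_eq_right hY.le]
    obtain ⟨m, rfl⟩ : ∃ m, J = m + 1 := ⟨J - 1, by omega⟩
    rw [Finset.sum_range_succ] at h0
    have h1 : ‖a (m + 1) * Y ^ (m + 1)‖ ≤ ((m + 1 : ℕ) : ℝ) * (A * ‖Y‖ ^ m) := by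
      rw [eq_neg_of_add_eq_zero_right h0, norm_neg]
      refine (norm_sum_le_of_le _ fun j hj => ?_).trans (b := ∑ _j ∈ Finset.range (m + 1), A * ‖Y‖ ^ m) ?_
      · have hjm : j ≤ m := Nat.lt_succ_iff.1 (Finset.mem_range.1 hj)
        rw [norm_mul, norm_pow]
        exact mul_le_mul (ha j (by omega)) (pow_le_pow_right₀ hY.le hjm) (by positivity) hA
      · rw [Finset.sum_const, Finset.card_range, nsmul_eq_mul]
    rw [norm_mul, norm_pow, pow_succ] at h1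
    have h2 : 0 < ‖Y‖ ^ m := pow_pos (by linarith) m
    have h3 : ‖Y‖ * ‖a (m + 1)‖ * ‖Y‖ ^ m ≤ ((m + 1 : ℕ) : ℝ) * A * ‖Y‖ ^ m := by
      calc ‖Y‖ * ‖a (m + 1)‖ * ‖Y‖ ^ m = ‖a (m + 1)‖ * (‖Y‖ ^ m * ‖Y‖) := by ring
        _ ≤ _ := h1
        _ = _ := by ring
    exact le_of_mul_le_mul_right h3 h2

/-- an algebraic number -/
private theorem HtV_num (α : Qb) : ∃ (n : ℕ) (M : ℝ), 0 < n ∧ 0 ≤ M ∧
    IsIntegral ℤ ((n : ℂ) * (α : ℂ)) ∧ ∀ s : ℂ ≃+* ℂ, ‖s (α : ℂ)‖ ≤ Real.exp M := by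
  have hα : IsAlgebraic ℚ (α : ℂ) := by
    have h1 := α.2
    exact mem_algebraicClosure_iff.1 h1
  obtain ⟨M, hM, hB⟩ := Quad_bd_alg hα
  have h1 := hB ⊤ (IntermediateField.mem_top)
  obtain ⟨n, hn, -, hint⟩ := h1.den
  exact ⟨n, M, hn, hM, hint, fun s => h1.aut s⟩

/-- values of one polynomial -/
private theorem HtV_val (P : Polynomial Qb) : ∃ (n : ℕ) (M : ℝ), 0 < n ∧ 0 ≤ M ∧
    (∀ (p : ℕ) [Fact p.Prime] (φ : ℂ →+* ℂ_[p]) (x : ℂ),
      ‖(n : ℂ_[p])‖ * ‖φ (aeval x P)‖ ≤ (max 1 ‖φ x‖) ^ P.natDegree) ∧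
    ∀ (s : ℂ ≃+* ℂ) (x : ℂ), ‖s (aeval x P)‖ ≤ Real.exp M * (max 1 ‖s x‖) ^ P.natDegree := by
  classical
  choose n M hn hM hint hs using fun i => HtV_num (P.coeff i)
  set N : ℕ := ∏ i ∈ Finset.range (P.natDegree + 1), n i with hN
  set E : ℝ := ∑ i ∈ Finset.range (P.natDegree + 1), Real.exp (M i) with hE
  have hE0 : 0 ≤ E := Finset.sum_nonneg fun i _ => (Real.exp_pos _).le
  have hev : ∀ x : ℂ, (aeval x P : ℂ) =
      ∑ i ∈ Finset.range (P.natDegree + 1), ((P.coeff i : Qb) : ℂ) * x ^ i := by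
    intro x
    rw [aeval_eq_sum_range]
    refine Finset.sum_congr rfl fun i _ => ?_
    rw [Algebra.smul_def]
    rfl
  refine ⟨N, Real.log (1 + E), Finset.prod_pos fun i _ => hn i, Real.log_nonneg (by linarith),
    ?_, ?_⟩
  · intro p _ φ x
    rw [← map_natCast φ N, ← norm_mul, ← map_mul, hev, Finset.mul_sum, map_sum]
    refine IsUltrametricDist.norm_sum_le_of_forall_le_of_nonneg (by positivity) fun i hi => ?_
    have h1 : IsIntegral ℤ ((N : ℂ) * ((P.coeff i : Qb) : ℂ)) := by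
      rw [hN, ← Finset.mul_prod_erase _ _ hi]
      have h2 : (((n i * ∏ j ∈ (Finset.range (P.natDegree + 1)).erase i, n j : ℕ) : ℂ)) *
          ((P.coeff i : Qb) : ℂ) =
          ((∏ j ∈ (Finset.range (P.natDegree + 1)).erase i, n j : ℕ) : ℂ) *
            ((n i : ℂ) * ((P.coeff i : Qb) : ℂ)) := by
        push_cast
        ring
      rw [h2]
      exact isIntegral_natCast_mul _ (hint i)
    have h3 : (N : ℂ) * (((P.coeff i : Qb) : ℂ) * x ^ i) =
        ((N : ℂ) * ((P.coeff i : Qb) : ℂ)) * x ^ i := by ring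
    rw [h3, map_mul, map_pow, norm_mul, norm_pow]
    calc ‖φ ((N : ℂ) * ((P.coeff i : Qb) : ℂ))‖ * ‖φ x‖ ^ i ≤ 1 * (max 1 ‖φ x‖) ^ i :=
          mul_le_mul (PA.norm_le_one_of_integral φ h1)
            (pow_le_pow_left₀ (norm_nonneg _) (le_max_right _ _) _) (by positivity) zero_le_one
      _ = (max 1 ‖φ x‖) ^ i := one_mul _
      _ ≤ (max 1 ‖φ x‖) ^ P.natDegree :=
          pow_le_pow_right₀ (le_max_left _ _) (Nat.lt_succ_iff.1 (Finset.mem_range.1 hi))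
  · intro s x
    rw [Real.exp_log (by linarith), hev, map_sum]
    have key : ∀ i ∈ Finset.range (P.natDegree + 1), ‖s (((P.coeff i : Qb) : ℂ) * x ^ i)‖ ≤
        Real.exp (M i) * (max 1 ‖s x‖) ^ P.natDegree := by
      intro i hi
      rw [map_mul, map_pow, norm_mul, norm_pow]
      refine mul_le_mul (hs i s) ?_ (by positivity) (Real.exp_pos _).le
      exact (pow_le_pow_left₀ (norm_nonneg _) (le_max_right _ _) _).trans
        (pow_le_pow_right₀ (le_max_left _ _) (Nat.lt_succ_iff.1 (Finset.mem_range.1 hi)))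
    refine (norm_sum_le_of_le _ key).trans ?_
    rw [← Finset.sum_mul]
    exact mul_le_mul_of_nonneg_right (by linarith) (by positivity)

/-- values of several polynomials -/
private theorem HtV_all (c : ℕ → Polynomial Qb) (J : ℕ) : ∃ (n : ℕ) (M : ℝ) (d : ℕ), 0 < n ∧
    0 ≤ M ∧ ∀ j ≤ J,
    (∀ (p : ℕ) [Fact p.Prime] (φ : ℂ →+* ℂ_[p]) (x : ℂ),
      ‖(n : ℂ_[p])‖ * ‖φ (aeval x (c j))‖ ≤ (max 1 ‖φ x‖) ^ d) ∧
    ∀ (s : ℂ ≃+* ℂ) (x : ℂ), ‖s (aeval x (c j))‖ ≤ Real.exp M * (max 1 ‖s x‖) ^ d := by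
  induction J with
  | zero =>
    obtain ⟨n, M, h1, h2, h3, h4⟩ := HtV_val (c 0)
    refine ⟨n, M, (c 0).natDegree, h1, h2, fun j hj => ?_⟩
    obtain rfl : j = 0 := by omega
    exact ⟨h3, h4⟩
  | succ J ih =>
    obtain ⟨n, M, d, h1, h2, h3⟩ := ih
    obtain ⟨n', M', k1, k2, k3, k4⟩ := HtV_val (c (J + 1))
    refine ⟨n * n', max M M', max d (c (J + 1)).natDegree, Nat.mul_pos h1 k1,
      h2.trans (le_max_left _ _), fun j hj => ⟨?_, ?_⟩⟩
    · intro p _ φ x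
      have e1 : ‖(n : ℂ_[p])‖ ≤ 1 := IsUltrametricDist.norm_natCast_le_one ℂ_[p] n
      have e2 : ‖(n' : ℂ_[p])‖ ≤ 1 := IsUltrametricDist.norm_natCast_le_one ℂ_[p] n'
      rw [Nat.cast_mul, norm_mul]
      rcases Nat.lt_or_ge J j with hj' | hj'
      · obtain rfl : j = J + 1 := by omega
        calc ‖(n : ℂ_[p])‖ * ‖(n' : ℂ_[p])‖ * ‖φ (aeval x (c (J + 1)))‖
            ≤ 1 * ‖(n' : ℂ_[p])‖ * ‖φ (aeval x (c (J + 1)))‖ := by gcongr
          _ ≤ (max 1 ‖φ x‖) ^ (c (J + 1)).natDegree := by rw [one_mul]; exact k3 p φ x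
          _ ≤ _ := pow_le_pow_right₀ (le_max_left _ _) (le_max_right _ _)
      · calc ‖(n : ℂ_[p])‖ * ‖(n' : ℂ_[p])‖ * ‖φ (aeval x (c j))‖
            ≤ ‖(n : ℂ_[p])‖ * 1 * ‖φ (aeval x (c j))‖ := by gcongr
          _ ≤ (max 1 ‖φ x‖) ^ d := by rw [mul_one]; exact (h3 j hj').1 p φ x
          _ ≤ _ := pow_le_pow_right₀ (le_max_left _ _) (le_max_left _ _)
    · intro s x
      rcases Nat.lt_or_ge J j with hj' | hj'
      · obtain rfl : j = J + 1 := by omega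
        refine (k4 s x).trans (mul_le_mul (Real.exp_le_exp.2 (le_max_right _ _))
          (pow_le_pow_right₀ (le_max_left _ _) (le_max_right _ _)) (by positivity)
          (Real.exp_pos _).le)
      · refine ((h3 j hj').2 s x).trans (mul_le_mul (Real.exp_le_exp.2 (le_max_left _ _))
          (pow_le_pow_right₀ (le_max_left _ _) (le_max_left _ _)) (by positivity)
          (Real.exp_pos _).le)

theorem sh_rel {R : Polynomial (Polynomial Qb)} (hR : 0 < R.natDegree) : ∃ C : ℕ,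
    ∀ (K : IntermediateField ℚ ℂ) [FiniteDimensional ℚ K] (B : ℝ) (x y : ℂ),
      (∀ j i, (((R.coeff j).coeff i : Qb) : ℂ) ∈ K) → y ∈ K → SH K B x →
      (aeval x R.leadingCoeff : ℂ) ≠ 0 →
      ∑ j ∈ Finset.range (R.natDegree + 1), (aeval x (R.coeff j) : ℂ) * y ^ j = 0 →
      SH K (C * (Module.finrank ℚ K + B)) y := by
  obtain ⟨n, M, d, hn, hM, hval⟩ := HtV_all R.coeff R.natDegree
  set J : ℕ := R.natDegree with hJ
  obtain ⟨C, hC⟩ := exists_nat_ge (max (M + Real.log J + Real.log n) (d : ℝ))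
  refine ⟨C, ?_⟩
  intro K _ B x y hK hy hx hβ0 hrel
  have hxK : x ∈ K := hx.mem
  have hβ : (aeval x R.leadingCoeff : ℂ) ∈ K := U.mem_aeval hxK fun i => hK _ i
  have hJr : (0 : ℝ) < J := by exact_mod_cast hR
  have h1 := sh_of hx hy hβ hβ0 hn (M := M + Real.log J) (k := d) (by
    intro p _ φ
    have hr : ∑ j ∈ Finset.range (J + 1), (φ (n : ℂ) * φ (aeval x (R.coeff j))) * (φ y) ^ j = 0 := by
      have e1 := congrArg (fun z => φ ((n : ℂ) * z)) hrel
      simp only [mul_zero, map_zero] at e1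
      rw [← e1, map_mul, map_sum, Finset.mul_sum]
      refine Finset.sum_congr rfl fun j _ => ?_
      rw [map_mul, map_pow]
      ring
    have h2 := HtV_ultra hR hr (A := (max 1 ‖φ x‖) ^ d) (by positivity) (by
      intro j hj
      rw [norm_mul, map_natCast]
      exact (hval j hj).1 p φ x)
    rw [norm_mul, map_natCast] at h2
    calc ‖(n : ℂ_[p])‖ * (max 1 ‖φ y‖ * ‖φ (aeval x R.leadingCoeff)‖)
        = max 1 ‖φ y‖ * (‖(n : ℂ_[p])‖ * ‖φ (aeval x (R.coeff J))‖) := by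
          rw [hJ, leadingCoeff]
          ring
      _ ≤ _ := h2) (by
    intro s
    have hr : ∑ j ∈ Finset.range (J + 1), (s (aeval x (R.coeff j))) * (s y) ^ j = 0 := by
      have e1 := congrArg (fun z => s z) hrel
      simp only [map_zero] at e1
      rw [← e1, map_sum]
      refine Finset.sum_congr rfl fun j _ => ?_
      rw [map_mul, map_pow]
    have h2 := HtV_arch hR hr (A := Real.exp M * (max 1 ‖s x‖) ^ d) (by positivity)
      (fun j hj => (hval j hj).2 s x)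
    calc max 1 ‖s y‖ * ‖s (aeval x R.leadingCoeff)‖
        = max 1 ‖s y‖ * ‖s (aeval x (R.coeff J))‖ := by rw [hJ, leadingCoeff]
      _ ≤ J * (Real.exp M * (max 1 ‖s x‖) ^ d) := h2
      _ = Real.exp (M + Real.log J) * (max 1 ‖s x‖) ^ d := by
          rw [Real.exp_add, Real.exp_log hJr]
          ring)
  refine h1.mono ?_
  have hB : 0 ≤ B := hx.nonneg
  have hD : (0 : ℝ) ≤ Module.finrank ℚ K := Nat.cast_nonneg _
  calc (Module.finrank ℚ K : ℝ) * (M + Real.log J + Real.log n) + d * B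
      ≤ Module.finrank ℚ K * C + C * B :=
        add_le_add (mul_le_mul_of_nonneg_left ((le_max_left _ _).trans hC) hD)
          (mul_le_mul_of_nonneg_right ((le_max_right _ _).trans hC) hB)
    _ = C * (Module.finrank ℚ K + B) := by ring

/-- the relation between two coordinates -/
private theorem HtV_rel {n : ℕ} {V : Set (Fin n → ℂ)} (hV : Pool.Agent.Hhelper14.ZPL.IsIrredClosed V)
    (hVk : KClosed V) (hdim : Pool.Agent.Hhelper14.ZPL.dim V = 1) (a : Fin n)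
    (hnc : ∀ c : ℂ, ∃ x ∈ V, x a ≠ c) (k : Fin n) :
    ∃ R : Polynomial (Polynomial Qb), 0 < R.natDegree ∧
      (∀ x ∈ V, ∑ j ∈ Finset.range (R.natDegree + 1),
        (aeval (x a) (R.coeff j) : ℂ) * x k ^ j = 0) ∧
      {x ∈ V | (aeval (x a) R.leadingCoeff : ℂ) = 0}.Finite := by
  obtain ⟨R, h1, h2, h3⟩ := exists_rel hV hVk hdim ![a, k, k] (F := MvPolynomial.X 0) (by
    intro c
    obtain ⟨x, hx, hne⟩ := hnc c
    refine ⟨x, hx, ?_⟩
    rw [MvPolynomial.aeval_X]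
    exact hne) 1
  refine ⟨R, h1, ?_, ?_⟩
  · intro x hx
    have := h2 x hx
    rw [MvPolynomial.aeval_X] at this
    exact this
  · refine h3.subset ?_
    rintro x ⟨hx, h4⟩
    refine ⟨hx, ?_⟩
    rw [MvPolynomial.aeval_X]
    exact h4

/-- a field which contains the other coordinates -/
private theorem HtV_ext {n : ℕ} (R : Fin n → Polynomial (Polynomial Qb)) (x : Fin n → ℂ) (y : ℂ)
    (hrel : ∀ k, ∑ j ∈ Finset.range ((R k).natDegree + 1), (aeval y ((R k).coeff j) : ℂ) * x k ^ j = 0)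
    (hlead : ∀ k, (aeval y (R k).leadingCoeff : ℂ) ≠ 0)
    (K : IntermediateField ℚ ℂ) [FiniteDimensional ℚ K] (hy : y ∈ K)
    (hK : ∀ k j i, ((((R k).coeff j).coeff i : Qb) : ℂ) ∈ K) (s : Finset (Fin n)) :
    ∃ K' : IntermediateField ℚ ℂ, K ≤ K' ∧ FiniteDimensional ℚ K' ∧
      Module.finrank ℚ K' ≤ (∏ k ∈ s, (R k).natDegree) * Module.finrank ℚ K ∧ ∀ k ∈ s, x k ∈ K' := by
  classical
  induction s using Finset.induction_on with
  | empty => exact ⟨K, le_rfl, inferInstance, by simp, by simp⟩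
  | insert k s hk ih =>
    obtain ⟨K₁, h1, h2, h3, h4⟩ := ih
    set P : ℂ[X] := (R k).map ((aeval y : Polynomial Qb →ₐ[Qb] ℂ) : Polynomial Qb →+* ℂ) with hP
    have hPc : ∀ j, P.coeff j = aeval y ((R k).coeff j) := fun j => by
      rw [hP, coeff_map]
      rfl
    have hP0 : P ≠ 0 := by
      intro h
      apply hlead k
      rw [leadingCoeff, ← hPc, h, coeff_zero]
    have hroot : P.eval (x k) = 0 := by
      rw [hP, eval_map, eval₂_eq_sum_range]
      exact hrel k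
    obtain ⟨K', h5, h6, h7, h8⟩ := U.fld_root (R k).natDegree K₁ P hP0 natDegree_map_le (fun j => by
      rw [hPc]
      exact U.mem_aeval (h1 hy) fun i => h1 (hK k j i)) (x k) hroot
    refine ⟨K', h1.trans h5, h6, ?_, ?_⟩
    · rw [Finset.prod_insert hk]
      calc Module.finrank ℚ K' ≤ (R k).natDegree * Module.finrank ℚ K₁ := h7
        _ ≤ (R k).natDegree * ((∏ k ∈ s, (R k).natDegree) * Module.finrank ℚ K) :=
            Nat.mul_le_mul_left _ h3
        _ = _ := by ring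
    · intro l hl
      rw [Finset.mem_insert] at hl
      rcases hl with rfl | hl
      · exact h8
      · exact h5 (h4 l hl)

theorem sh_v {n : ℕ} {V : Set (Fin n → ℂ)} (hV : Pool.Agent.Hhelper14.ZPL.IsIrredClosed V)
    (hVk : KClosed V) (hdim : Pool.Agent.Hhelper14.ZPL.dim V = 1) (a : Fin n)
    (hnc : ∀ c : ℂ, ∃ x ∈ V, x a ≠ c) (k₀ : IntermediateField ℚ ℂ) [FiniteDimensional ℚ k₀] :
    ∃ (C : ℕ) (E : Set (Fin n → ℂ)), E.Finite ∧ ∀ x ∈ V, x ∉ E →
      ∀ (K : IntermediateField ℚ ℂ) [FiniteDimensional ℚ K], x a ∈ K →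
        ∃ (K' : IntermediateField ℚ ℂ) (_ : FiniteDimensional ℚ K'), K ≤ K' ∧ k₀ ≤ K' ∧
          (Module.finrank ℚ K' : ℝ) ≤ C * Module.finrank ℚ K ∧
          ∀ B : ℝ, SH K' B (x a) → ∀ k, SH K' (C * (Module.finrank ℚ K' + B)) (x k) := by
  classical
  choose R hR hrel hfin using HtV_rel hV hVk hdim a hnc
  obtain ⟨K₀, hK₀, hS⟩ := U.fld_fix (Finset.univ.biUnion fun k =>
    (Finset.range ((R k).natDegree + 1)).image (R k).coeff)
  have hcoef : ∀ k j i, ((((R k).coeff j).coeff i : Qb) : ℂ) ∈ K₀ := by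
    intro k j i
    by_cases hj : j ≤ (R k).natDegree
    · exact hS _ (Finset.mem_biUnion.2 ⟨k, Finset.mem_univ k, Finset.mem_image.2
        ⟨j, Finset.mem_range.2 (by omega), rfl⟩⟩) i
    · have h0 : (R k).coeff j = 0 := coeff_eq_zero_of_natDegree_lt (by omega)
      rw [h0, coeff_zero]
      exact zero_mem K₀
  choose C₁ hC₁ using fun k => sh_rel (hR k)
  set C₀ : ℕ := (∏ k, (R k).natDegree) * (Module.finrank ℚ K₀ * Module.finrank ℚ k₀) with hC₀
  refine ⟨C₀ + ∑ k, C₁ k, ⋃ k, {x ∈ V | (aeval (x a) (R k).leadingCoeff : ℂ) = 0},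
    Set.finite_iUnion hfin, ?_⟩
  intro x hx hxE K hfd hxK
  have hlead : ∀ k, (aeval (x a) (R k).leadingCoeff : ℂ) ≠ 0 := fun k h =>
    hxE (Set.mem_iUnion.2 ⟨k, hx, h⟩)
  have hfd0 : FiniteDimensional ℚ (K₀ ⊔ k₀ : IntermediateField ℚ ℂ) :=
    IntermediateField.finiteDimensional_sup K₀ k₀
  have hfd1 : FiniteDimensional ℚ (K ⊔ (K₀ ⊔ k₀) : IntermediateField ℚ ℂ) :=
    IntermediateField.finiteDimensional_sup K (K₀ ⊔ k₀)
  obtain ⟨K', h1, h2, h3, h4⟩ := HtV_ext R x (x a) (fun k => hrel k x hx) hlead (K ⊔ (K₀ ⊔ k₀))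
    ((le_sup_left : K ≤ K ⊔ (K₀ ⊔ k₀)) hxK)
    (fun k j i => ((le_sup_left : K₀ ≤ K₀ ⊔ k₀).trans (le_sup_right : K₀ ⊔ k₀ ≤ K ⊔ (K₀ ⊔ k₀)))
      (hcoef k j i)) Finset.univ
  have hKK' : K ≤ K' := le_sup_left.trans h1
  have hK₀K' : K₀ ≤ K' := ((le_sup_left : K₀ ≤ K₀ ⊔ k₀).trans le_sup_right).trans h1
  have hk₀K' : k₀ ≤ K' := ((le_sup_right : k₀ ≤ K₀ ⊔ k₀).trans le_sup_right).trans h1
  have hfr : Module.finrank ℚ K' ≤ C₀ * Module.finrank ℚ K := by
    refine h3.trans ?_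
    rw [hC₀]
    calc (∏ k, (R k).natDegree) * Module.finrank ℚ (K ⊔ (K₀ ⊔ k₀) : IntermediateField ℚ ℂ)
        ≤ (∏ k, (R k).natDegree) * (Module.finrank ℚ K *
            (Module.finrank ℚ K₀ * Module.finrank ℚ k₀)) :=
          Nat.mul_le_mul_left _ ((IntermediateField.finrank_sup_le K (K₀ ⊔ k₀)).trans
            (Nat.mul_le_mul_left _ (IntermediateField.finrank_sup_le K₀ k₀)))
      _ = _ := by ring
  have hfr' : (Module.finrank ℚ K' : ℝ) ≤ C₀ * Module.finrank ℚ K := by exact_mod_cast hfr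
  refine ⟨K', h2, hKK', hk₀K', ?_, ?_⟩
  · refine hfr'.trans (mul_le_mul_of_nonneg_right ?_ (Nat.cast_nonneg _))
    exact_mod_cast Nat.le_add_right _ _
  · intro B hB k
    have hB0 : 0 ≤ B := hB.nonneg
    have h5 := hC₁ k K' B (x a) (x k) (fun j i => hK₀K' (hcoef k j i))
      (h4 k (Finset.mem_univ k)) hB (hlead k) (hrel k x hx)
    refine h5.mono (mul_le_mul_of_nonneg_right ?_
      (add_nonneg (Nat.cast_nonneg _) hB0))
    have h6 : C₁ k ≤ C₀ + ∑ k, C₁ k :=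
      (Finset.single_le_sum (f := C₁) (fun _ _ => Nat.zero_le _) (Finset.mem_univ k)).trans
        (Nat.le_add_left _ _)
    exact_mod_cast h6

end Pool.Agent.LGO.KC
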