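import Pool.Agent.LGO.KC.Main
import Pool.Agent.LGO.ZV.Low

/-!
# LGO/KC: special subvarieties of small dimension, curves with constant coordinates

`low_c`: the Zilber-Pink statement for the special subvarieties of dimension `< n / k` and every curve over `Qb` in `Y(1)ⁿ`, from
the finiteness of the points with `k + 1` isogenous coordinates on the curves with nonconstant coordinates.
-/

namespace Pool.Agent.LGO.KC

open UpperHalfPlane Pool.Agent.Hhelper14.ZP Pool.Agent.Hhelper14.ZPL Pool.Agent.LGO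
  Pool.Agent.LGO.ZF Pool.Agent.LGO.ZG Pool.Agent.LGO.ZV Pool.Agent.LGO.PWG Pool.Agent.ZPE

variable {n m : ℕ} {W : Set (Fin n → ℂ)} {σ : Fin m → Fin n} {c : Fin n → ℂ}

/-- `k + 1` isogenous coordinates -/
theorem Gen.tk (h : Gen W σ c) {k : ℕ} (hk : 2 ≤ k)
    (h5 : ∀ j : Fin (k + 1) → Fin m, Function.Injective j →
      {x ∈ proj σ W | (∀ a, NCM (x (j a))) ∧ ∀ a b, HeckeRel (x (j a)) (x (j b))}.Finite)
    (i : Fin (k + 1) → Fin n) (hi : Function.Injective i) :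
    {x ∈ W | (∀ a, NCM (x (i a))) ∧ ∀ a b, HeckeRel (x (i a)) (x (i b))}.Finite := by
  by_cases hall : ∀ a, i a ∈ Set.range σ
  · obtain ⟨j, hj, hje⟩ := lift_idx (σ := σ) hi hall
    refine h.off.tr (h5 j hj) ?_
    rintro x ⟨hx, a1, a2⟩
    refine ⟨hx, ⟨x, hx, rfl⟩, ?_⟩
    simp only [Function.comp_apply, hje]
    exact ⟨a1, a2⟩
  · push Not at hall
    obtain ⟨a₀, ha₀⟩ := hall
    obtain ⟨a₁, a₂, h1, h2, h12⟩ : ∃ a₁ a₂ : Fin (k + 1), a₁ ≠ a₀ ∧ a₂ ≠ a₀ ∧ a₁ ≠ a₂ := by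
      have hc : 2 < Fintype.card (Fin (k + 1)) := by
        rw [Fintype.card_fin]
        omega
      obtain ⟨b₀, b₁, b₂, e1, e2, e3⟩ := Fintype.two_lt_card_iff.mp hc
      by_cases f0 : b₀ = a₀
      · exact ⟨b₁, b₂, fun h => e1 (f0.trans h.symm), fun h => e2 (f0.trans h.symm), e3⟩
      · by_cases f1 : b₁ = a₀
        · exact ⟨b₀, b₂, f0, fun h => e3 (f1.trans h.symm), e2⟩
        · exact ⟨b₀, b₁, f0, f1, e1⟩
    by_cases g1 : i a₁ ∈ Set.range σ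
    · by_cases g2 : i a₂ ∈ Set.range σ
      · refine (h.p6 ha₀ ha₀ g1 g2 (hi.ne h12)).subset ?_
        rintro x ⟨hx, -, a2⟩
        exact ⟨hx, a2 a₀ a₁, a2 a₀ a₂⟩
      · refine (Set.finite_empty).subset ?_
        rintro x ⟨hx, -, a2⟩
        have h4 := a2 a₀ a₂
        rw [h.off x hx _ ha₀, h.off x hx _ g2] at h4
        exact absurd h4 (h.rel _ _ (hi.ne h2.symm) ha₀ g2)
    · refine (Set.finite_empty).subset ?_
      rintro x ⟨hx, -, a2⟩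
      have h4 := a2 a₀ a₁
      rw [h.off x hx _ ha₀, h.off x hx _ g1] at h4
      exact absurd h4 (h.rel _ _ (hi.ne h1.symm) ha₀ g1)

/-- the points of `W` on special subvarieties of dimension `< n / k` -/
theorem low_pts {k : ℕ} (hk : 2 ≤ k) (hn : 2 ≤ n)
    (h5 : ∀ i : Fin (k + 1) → Fin n, Function.Injective i →
      {x ∈ W | (∀ a, NCM (x (i a))) ∧ ∀ a b, HeckeRel (x (i a)) (x (i b))}.Finite)
    (h3 : T3 W) (h4 : T4 W) :
    {x ∈ W | ∃ Z, Pool.Agent.Hhelper14.ZPL.IsSpecial Z ∧ x ∈ Z ∧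
      (k : WithBot ℕ∞) * Pool.Agent.Hhelper14.ZPL.dim Z < n}.Finite := by
  classical
  have f1 : (⋃ i : {i : Fin (k + 1) → Fin n // Function.Injective i},
      {x ∈ W | (∀ a, NCM (x (i.1 a))) ∧ ∀ a b, HeckeRel (x (i.1 a)) (x (i.1 b))}).Finite :=
    Set.finite_iUnion fun i => h5 i.1 i.2
  have f3 : (⋃ i : {i : Fin 3 → Fin n // Function.Injective i},
      {x ∈ W | NCM (x (i.1 0)) ∧ NCM (x (i.1 1)) ∧ HeckeRel (x (i.1 0)) (x (i.1 1)) ∧
        IsCMVal (x (i.1 2))}).Finite :=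
    Set.finite_iUnion fun i => h3 i.1 i.2
  have f4 : (⋃ i : {i : Fin 2 → Fin n // Function.Injective i},
      {x ∈ W | IsCMVal (x (i.1 0)) ∧ IsCMVal (x (i.1 1))}).Finite :=
    Set.finite_iUnion fun i => h4 i.1 i.2
  refine (f1.union (f3.union f4)).subset ?_
  rintro x ⟨hxV, Z, hZ, hxZ, hd⟩
  rcases typ_low hk hn hZ hd hxZ with ⟨i, hi, h'⟩ | ⟨i, hi, h'⟩ | ⟨i, hi, h'⟩
  · exact Or.inl (Set.mem_iUnion.mpr ⟨⟨i, hi⟩, hxV, h'⟩)
  · exact Or.inr (Or.inl (Set.mem_iUnion.mpr ⟨⟨i, hi⟩, hxV, h'⟩))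
  · exact Or.inr (Or.inr (Set.mem_iUnion.mpr ⟨⟨i, hi⟩, hxV, h'⟩))

private theorem ne_univ_low {k : ℕ} (hk : 2 ≤ k) (hn : 2 ≤ n) {Z : Set (Fin n → ℂ)}
    (hd : (k : WithBot ℕ∞) * Pool.Agent.Hhelper14.ZPL.dim Z < n) : Z ≠ Set.univ := by
  rintro rfl
  rw [dim_univ, Fintype.card_fin] at hd
  have h2 : k * n < n := by exact_mod_cast hd
  have h3 : 2 * n ≤ k * n := Nat.mul_le_mul_right _ hk
  omega

/-- the statement for a curve in a proper special subvariety, or with finitely many points of this kind -/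
theorem low_crit (hW : Pool.Agent.Hhelper14.ZPL.IsIrredClosed W)
    (hdim : Pool.Agent.Hhelper14.ZPL.dim W = 1) {k : ℕ} (hk : 2 ≤ k) (hn : 2 ≤ n)
    (h : (∃ T₀ : Set (Fin n → ℂ), Pool.Agent.Hhelper14.ZPL.IsSpecial T₀ ∧ T₀ ≠ Set.univ ∧ W ⊆ T₀) ∨
      {x ∈ W | ∃ Z, Pool.Agent.Hhelper14.ZPL.IsSpecial Z ∧ x ∈ Z ∧
        (k : WithBot ℕ∞) * Pool.Agent.Hhelper14.ZPL.dim Z < n}.Finite) :
    ∃ S : Set (Set (Fin n → ℂ)), S.Finite ∧
      (∀ T ∈ S, Pool.Agent.Hhelper14.ZP.IsSpecial T ∧ T ≠ Set.univ) ∧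
      ∀ Z, Pool.Agent.Hhelper14.ZP.IsSpecial Z →
        (k : WithBot ℕ∞) * Pool.Agent.Hhelper14.ZP.dim Z < n →
          ∀ C, Pool.Agent.Hhelper14.ZP.IsComponent C (W ∩ Z) → ∃ T ∈ S, C ⊆ T := by
  classical
  by_cases h0 : ∃ T₀ : Set (Fin n → ℂ), Pool.Agent.Hhelper14.ZPL.IsSpecial T₀ ∧ T₀ ≠ Set.univ ∧ W ⊆ T₀
  · obtain ⟨T₀, hT, hne, hVT⟩ := h0
    refine ⟨{T₀}, Set.finite_singleton _, ?_, ?_⟩
    · intro T hTT
      rw [Set.mem_singleton_iff] at hTT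
      rw [hTT]
      exact ⟨hT, hne⟩
    · intro Z _ _ C hC
      exact ⟨T₀, rfl, fun x hx => hVT (hC.2.1 hx).1⟩
  · have hfin := h.resolve_left h0
    set A : Set (Fin n → ℂ) := {x ∈ W | ∃ Z, Pool.Agent.Hhelper14.ZPL.IsSpecial Z ∧ x ∈ Z ∧
      (k : WithBot ℕ∞) * Pool.Agent.Hhelper14.ZPL.dim Z < n} with hA
    have hch : ∀ x : A, ∃ Z, Pool.Agent.Hhelper14.ZPL.IsSpecial Z ∧ x.1 ∈ Z ∧
        (k : WithBot ℕ∞) * Pool.Agent.Hhelper14.ZPL.dim Z < n := fun x => x.2.2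
    choose Z hZs hxZ hZd using hch
    have hfin' : Finite A := hfin
    refine ⟨Set.range Z, Set.finite_range Z, ?_, ?_⟩
    · rintro _ ⟨x, rfl⟩
      exact ⟨hZs x, ne_univ_low hk hn (hZd x)⟩
    · intro Y hY hYd C hC
      have hY' : Pool.Agent.Hhelper14.ZPL.IsSpecial Y := hY
      have hYd' : (k : WithBot ℕ∞) * Pool.Agent.Hhelper14.ZPL.dim Y < n := hYd
      have hC' : Pool.Agent.Hhelper14.ZPL.IsIrredClosed C := hC.1
      obtain ⟨c, hc⟩ := dim_eq_nat hC'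
      have hCV : C ⊆ W := fun x hx => (hC.2.1 hx).1
      have hCY : C ⊆ Y := fun x hx => (hC.2.1 hx).2
      have h4 : Pool.Agent.Hhelper14.ZPL.dim C ≤ Pool.Agent.Hhelper14.ZPL.dim W :=
        Pool.Agent.Hhelper14.ZPL.dim_mono hCV
      rw [hc, hdim] at h4
      have h5' : c ≤ 1 := by exact_mod_cast h4
      by_cases hc1 : c = 1
      · exfalso
        have h6 : C = W := by
          refine eq_of_dim_le hC' hW hCV ?_
          rw [hdim, hc, hc1]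
          exact le_rfl
        exact h0 ⟨Y, hY', ne_univ_low hk hn hYd', h6 ▸ hCY⟩
      · have hc0 : c = 0 := by omega
        obtain ⟨x, hx⟩ := irred_nonempty hC'
        have hxA : x ∈ A := ⟨hCV hx, Y, hY', hCY hx, hYd'⟩
        refine ⟨Z ⟨x, hxA⟩, ⟨_, rfl⟩, fun y hy => ?_⟩
        by_cases hxy : x = y
        · rw [← hxy]
          exact hxZ ⟨x, hxA⟩
        · exfalso
          have h9 := one_le_dim hC' hx hy hxy
          rw [hc, hc0] at h9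
          have h10 : 1 ≤ 0 := by exact_mod_cast h9
          omega

/-- **the Zilber-Pink statement for the special subvarieties of dimension `< n / k`**, with constant coordinates -/
theorem low_c (hW : Pool.Agent.Hhelper14.ZPL.IsIrredClosed W) (hWk : KClosed W)
    (hdim : Pool.Agent.Hhelper14.ZPL.dim W = 1) (hC : CMAll)
    (halg : ∀ x : ℂ, IsCMVal x → IsAlgebraic ℚ x) {k : ℕ} (hk : 2 ≤ k) (hn : 2 ≤ n)
    (h5 : ∀ {m : ℕ} {V : Set (Fin m → ℂ)}, ZV.Crv V → ∀ i : Fin (k + 1) → Fin m,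
      Function.Injective i →
      {x ∈ V | (∀ a, NCM (x (i a))) ∧ ∀ a b, HeckeRel (x (i a)) (x (i b))}.Finite) :
    ∃ S : Set (Set (Fin n → ℂ)), S.Finite ∧
      (∀ T ∈ S, Pool.Agent.Hhelper14.ZP.IsSpecial T ∧ T ≠ Set.univ) ∧
      ∀ Z, Pool.Agent.Hhelper14.ZP.IsSpecial Z →
        (k : WithBot ℕ∞) * Pool.Agent.Hhelper14.ZP.dim Z < n →
          ∀ C, Pool.Agent.Hhelper14.ZP.IsComponent C (W ∩ Z) → ∃ T ∈ S, C ⊆ T := by
  obtain ⟨m, σ, c, hσ, hc, hnc⟩ := exists_sigma W (irred_nonempty hW)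
  refine low_crit hW hdim hk hn ?_
  by_cases hcm : ∃ k, k ∉ Set.range σ ∧ IsCMVal (c k)
  · obtain ⟨k, hk, τ, hτ, hck⟩ := hcm
    refine Or.inl ⟨_, special_const k hτ, ?_, fun x hx => ?_⟩
    · intro hu
      have h3 : (fun _ => jInv τ + 1) ∈ {x : Fin n → ℂ | x k = jInv τ} := by
        rw [hu]
        exact Set.mem_univ _
      have h4 : jInv τ + 1 = jInv τ := h3
      simp at h4
    · show x k = jInv τ
      rw [hc x hx k hk, hck]
  by_cases hrel : ∃ k l, k ≠ l ∧ k ∉ Set.range σ ∧ l ∉ Set.range σ ∧ HeckeRel (c k) (c l)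
  · obtain ⟨k, l, hkl, hk, hl, τ, g, hg, h3, h4⟩ := hrel
    refine Or.inl (sub_of_mod hkl g hg fun x hx => ⟨τ, ?_, ?_⟩)
    · rw [hc x hx k hk, h3]
    · rw [hc x hx l hl, h4]
  by_cases hmod : ∀ a b : Fin m, a ≠ b → ∀ g : GL (Fin 2) ℚ, 0 < g.det.val →
      ∃ x ∈ W, ¬ ∃ τ : ℍ, x (σ a) = jInv τ ∧ x (σ b) = jInv (gact g τ)
  · have hcrv := hc.crv hσ hW hWk hdim hnc hmod
    push Not at hcm hrel
    have hG : Gen W σ c := ⟨hc, hcrv, fun k hk => hc.alg hWk (irred_nonempty hW) hk,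
      fun k hk => ncm_iff.mpr (hcm k hk), fun k l hkl hk hl => hrel k l hkl hk hl⟩
    exact Or.inr (low_pts hk hn (hG.tk hk (h5 hcrv)) (hG.t3 (T3_v hcrv hC))
      (hG.t4 (T4_v hcrv hC halg)))
  · push Not at hmod
    obtain ⟨a, b, hab, g, hg, hx⟩ := hmod
    exact Or.inl (sub_of_mod (hσ.ne hab) g hg hx)

end Pool.Agent.LGO.KC
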