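import Mathlib
import Pool.Agent.LGO.KC.Defs

/-!
# LGO/KC: the two kinds of pairs, and their independence

`pd_mpp`, `pd_cpp`: `PD` for two functions of a family, and for a constant and a function.
`pind_cc`, `pind_cm`: the independence for two pairs `(τ, a₁)`, `(τ', a₂)` and `(τ, a₁)`, `(b₂, a₂)`; `τ`, `τ'` not quadratic
(as `PWG.mpp_indep`: the ratio `P A₂ / P A₁` takes all values but one; the determinant of the coefficients is a nonzero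
integral quadratic polynomial in `τ`).
-/

namespace Pool.Agent.LGO.PWG

open MvPolynomial Metric Pool.Agent.LGO.PW

variable {mm : ℕ} {Ω Cn : Set ℂ} {z : Fin mm → ℂ → ℂ} {ρ : ℂ → ℝ}

theorem pd_mpp (hF : Fam Ω Cn z ρ) {b a : Fin mm} (hab : a ≠ b) : PD Ω Cn z (z b) (z a) (mpp b a) := by
  obtain ⟨c, hc, him⟩ := hF.im
  obtain ⟨C₁, hsz⟩ := hF.size
  obtain ⟨C₂, hC₂, hlip⟩ := hF.lip
  exact ⟨⟨c, hc, fun s hs => ⟨him b s hs, him a s hs⟩⟩, ⟨C₁, fun s hs => ⟨hsz b s hs, hsz a s hs⟩⟩,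
    ⟨C₂, hC₂, fun w hw s hs t ht => ⟨hlip b w hw s hs t ht, hlip a w hw s hs t ht⟩⟩,
    fun g => mpp_deg b a g, fun p q g h => mpp_lin b a p q g h, fun g hg => mpp_ne_zero hab hg,
    fun g s => mpp_eval b a g _⟩

theorem cpp_eval (τ : ℂ) (a : Fin mm) (g : Matrix (Fin 2) (Fin 2) ℤ) (x : Fin mm → ℂ) :
    eval x (cpp τ a g) =
      x a * ((g 1 0 : ℂ) * τ + (g 1 1 : ℂ)) - ((g 0 0 : ℂ) * τ + (g 0 1 : ℂ)) := by
  unfold cpp
  rw [map_sub, map_mul, eval_X, eval_C, eval_C]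

private theorem lin_zero {τ : ℂ} (hτ : NonCM τ) {p q : ℤ} (h : (p : ℂ) * τ + (q : ℂ) = 0) :
    p = 0 ∧ q = 0 := by
  have h1 := hτ 0 p q (by push_cast; linear_combination h)
  exact ⟨h1.2.1, h1.2.2⟩

theorem pd_cpp (hF : Fam Ω Cn z ρ) {τ : ℂ} (hτ : 0 < τ.im) (hn : NonCM τ) (a : Fin mm) :
    PD Ω Cn z (fun _ => τ) (z a) (cpp τ a) := by
  obtain ⟨c, hc, him⟩ := hF.im
  obtain ⟨C₁, hsz⟩ := hF.size
  obtain ⟨C₂, hC₂, hlip⟩ := hF.lip
  refine ⟨⟨min c τ.im, lt_min hc hτ, fun s hs => ⟨min_le_right _ _, (min_le_left _ _).trans (him a s hs)⟩⟩,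
    ⟨max C₁ ‖τ‖, fun s hs => ⟨?_, ?_⟩⟩, ⟨C₂, hC₂, fun w hw s hs t ht => ⟨?_, hlip a w hw s hs t ht⟩⟩,
    fun g => ?_, fun p q g h => ?_, fun g hg h0 => ?_, fun g s => cpp_eval τ a g _⟩
  · have h1 : ‖τ‖ ≤ max C₁ ‖τ‖ := le_max_right _ _
    have h2 : 0 ≤ max C₁ ‖τ‖ := (norm_nonneg _).trans h1
    nlinarith [norm_nonneg s, mul_nonneg h2 (norm_nonneg s)]
  · refine (hsz a s hs).trans (mul_le_mul_of_nonneg_right (le_max_left _ _) ?_)
    have := norm_nonneg s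
    linarith
  · simp only [sub_self, norm_zero]
    positivity
  · unfold cpp
    refine (totalDegree_sub _ _).trans (max_le ?_ ?_)
    · refine (totalDegree_mul _ _).trans ?_
      rw [totalDegree_X, totalDegree_C]
      norm_num
    · rw [totalDegree_C]
      norm_num
  · unfold cpp
    simp only [Matrix.add_apply, Matrix.smul_apply, smul_eq_mul, Int.cast_add, Int.cast_mul, map_add,
      map_mul]
    ring
  · have h1 := cpp_eval τ a g (fun _ => 0)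
    have h2 := cpp_eval τ a g (fun _ => 1)
    rw [h0, map_zero] at h1 h2
    have e1 : ((g 0 0 : ℤ) : ℂ) * τ + ((g 0 1 : ℤ) : ℂ) = 0 := by linear_combination h1
    have e2 : ((g 1 0 : ℤ) : ℂ) * τ + ((g 1 1 : ℤ) : ℂ) = 0 := by linear_combination h1 - h2
    obtain ⟨f1, f2⟩ := lin_zero hn e1
    obtain ⟨f3, f4⟩ := lin_zero hn e2
    apply hg
    ext i j
    fin_cases i <;> fin_cases j <;> simp [f1, f2, f3, f4]

/-! ### independence -/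

private lemma Mpc_van {d : ℕ} (c : Fin (d + 1) → ℂ) {S : Set ℂ} (hS : S.Infinite)
    (h : ∀ r ∈ S, ∑ i, c i * r ^ (i : ℕ) = 0) : ∀ i, c i = 0 := by
  have h0 : (∑ i, Polynomial.C (c i) * Polynomial.X ^ (i : ℕ) : Polynomial ℂ) = 0 := by
    refine Polynomial.eq_zero_of_infinite_isRoot _ (hS.mono fun r hr => ?_)
    simp only [Set.mem_ofPred_eq, Polynomial.IsRoot.def, Polynomial.eval_finsetSum,
      Polynomial.eval_mul, Polynomial.eval_C, Polynomial.eval_pow, Polynomial.eval_X]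
    exact h r hr
  intro i
  have h1 := congrArg (fun p => Polynomial.coeff p (i : ℕ)) h0
  simp only [Polynomial.finsetSum_coeff, Polynomial.coeff_C_mul, Polynomial.coeff_X_pow,
    Polynomial.coeff_zero] at h1
  rw [Finset.sum_eq_single i] at h1
  · simpa using h1
  · intro j _ hj
    rw [if_neg (fun hh => hj (Fin.ext hh.symm)), mul_zero]
  · intro hh
    exact absurd (Finset.mem_univ i) hh

/-- independence from the values of the ratios -/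
theorem pind_of {P₁ P₂ : Matrix (Fin 2) (Fin 2) ℤ → MvPolynomial (Fin mm) ℂ}
    (h : ∀ A₁ A₂ B₁ B₂ : Matrix (Fin 2) (Fin 2) ℤ, A₁.det ≠ 0 → B₁.det ≠ 0 →
      (∀ x y : ℤ, x • A₁ + y • A₂ = 0 → x = 0 ∧ y = 0) →
      (∀ x y : ℤ, x • B₁ + y • B₂ = 0 → x = 0 ∧ y = 0) → ∃ S S' : Set ℂ, S.Infinite ∧ S'.Infinite ∧
      ∀ r ∈ S, ∀ r' ∈ S', ∃ x : Fin mm → ℂ, eval x (P₁ A₂) = r * eval x (P₁ A₁) ∧
        eval x (P₁ A₁) ≠ 0 ∧ eval x (P₂ B₂) = r' * eval x (P₂ B₁) ∧ eval x (P₂ B₁) ≠ 0) :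
    PInd P₁ P₂ := by
  intro A₁ A₂ B₁ B₂ hA₁ hB₁ hA hB d g hg h0
  obtain ⟨S, S', hS, hS', hx⟩ := h A₁ A₂ B₁ B₂ hA₁ hB₁ hA hB
  apply hg
  have key : ∀ r ∈ S, ∀ r' ∈ S', ∑ i, (∑ j, g i j * r' ^ (j : ℕ)) * r ^ (i : ℕ) = 0 := by
    intro r hr r' hr'
    obtain ⟨x, e1, e2, e3, e4⟩ := hx r hr r' hr'
    have h1 := congrArg (eval x) h0
    simp only [map_sum, map_mul, map_pow, eval_C, map_zero] at h1
    rw [e1, e3] at h1
    generalize eval x (P₁ A₁) = α at h1 e2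
    generalize eval x (P₂ B₁) = β at h1 e4
    have h2 : α ^ d * β ^ d * ∑ i, (∑ j, g i j * r' ^ (j : ℕ)) * r ^ (i : ℕ) = 0 := by
      rw [← h1, Finset.mul_sum]
      refine Finset.sum_congr rfl fun i _ => ?_
      rw [Finset.sum_mul, Finset.mul_sum]
      refine Finset.sum_congr rfl fun j _ => ?_
      have hi : α ^ d = α ^ (i : ℕ) * α ^ (d - i) := by
        rw [← pow_add, Nat.add_sub_cancel' (Nat.lt_succ_iff.1 i.2)]
      have hj : β ^ d = β ^ (j : ℕ) * β ^ (d - j) := by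
        rw [← pow_add, Nat.add_sub_cancel' (Nat.lt_succ_iff.1 j.2)]
      rw [hi, hj, mul_pow, mul_pow]
      ring
    rcases mul_eq_zero.1 h2 with h3 | h3
    · exact absurd h3 (mul_ne_zero (pow_ne_zero _ e2) (pow_ne_zero _ e4))
    · exact h3
  funext i j
  refine Mpc_van (fun j => g i j) hS' (fun r' hr' => ?_) j
  exact Mpc_van (fun i => ∑ j, g i j * r' ^ (j : ℕ)) hS (fun r hr => key r hr r' hr') i

/-- determinant of the coefficients -/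
private noncomputable def Mpc_det (A B : Matrix (Fin 2) (Fin 2) ℤ) (z : ℂ) : ℂ :=
  ((A 1 0 : ℂ) * z + (A 1 1 : ℂ)) * ((B 0 0 : ℂ) * z + (B 0 1 : ℂ)) -
    ((B 1 0 : ℂ) * z + (B 1 1 : ℂ)) * ((A 0 0 : ℂ) * z + (A 0 1 : ℂ))

private lemma Mpc_int {A B : Matrix (Fin 2) (Fin 2) ℤ} (hA : A.det ≠ 0)
    (h : ∀ x y : ℤ, x • A + y • B = 0 → x = 0 ∧ y = 0)
    (j0 : A 1 1 * B 0 1 - B 1 1 * A 0 1 = 0) (j1 : A 1 0 * B 0 0 - B 1 0 * A 0 0 = 0)
    (j2 : A 1 0 * B 0 1 + A 1 1 * B 0 0 - B 1 0 * A 0 1 - B 1 1 * A 0 0 = 0) : False := by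
  rw [Matrix.det_fin_two] at hA
  have k0 : A 1 0 * B 0 1 - A 0 1 * B 1 0 = 0 := by
    have : (A 0 0 * A 1 1 - A 0 1 * A 1 0) * (A 1 0 * B 0 1 - A 0 1 * B 1 0) = 0 := by
      linear_combination A 0 0 * A 1 0 * j0 + A 0 1 * A 1 1 * j1 - A 0 1 * A 1 0 * j2
    rcases mul_eq_zero.1 this with h2 | h2
    · exact absurd h2 hA
    · exact h2
  have k1 : A 1 1 * B 0 0 - A 0 0 * B 1 1 = 0 := by linear_combination j2 - k0
  have h3 := h (-(B 0 0 * A 1 1 - A 1 0 * B 0 1)) (A 0 0 * A 1 1 - A 0 1 * A 1 0) (by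
    ext i j
    simp only [Matrix.add_apply, Matrix.smul_apply, smul_eq_mul, Matrix.zero_apply]
    fin_cases i <;> fin_cases j <;> simp only [Fin.zero_eta, Fin.mk_one, Fin.isValue]
    · linear_combination A 0 0 * k0 - A 0 1 * j1
    · linear_combination A 0 0 * j0 - A 0 1 * k1
    · linear_combination A 1 0 * k0 - A 1 1 * j1
    · linear_combination A 1 0 * j0 - A 1 1 * k1)
  exact hA h3.2

private lemma Mpc_det_poly {A B : Matrix (Fin 2) (Fin 2) ℤ} (hA : A.det ≠ 0)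
    (h : ∀ x y : ℤ, x • A + y • B = 0 → x = 0 ∧ y = 0) : ∃ z : ℂ, Mpc_det A B z ≠ 0 := by
  by_contra hcon
  push Not at hcon
  have e0 := hcon 0
  have e1 := hcon 1
  have e2 := hcon (-1)
  unfold Mpc_det at e0 e1 e2
  have i0 : (A 1 1 * B 0 1 - B 1 1 * A 0 1 : ℂ) = 0 := by linear_combination e0
  have i1 : (A 1 0 * B 0 0 - B 1 0 * A 0 0 : ℂ) = 0 := by
    linear_combination (e1 + e2) / 2 - e0
  have i2 : (A 1 0 * B 0 1 + A 1 1 * B 0 0 - B 1 0 * A 0 1 - B 1 1 * A 0 0 : ℂ) = 0 := by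
    linear_combination (e1 - e2) / 2
  exact Mpc_int hA h (by exact_mod_cast i0) (by exact_mod_cast i1) (by exact_mod_cast i2)

private lemma Mpc_det_ncm {τ : ℂ} (hτ : NonCM τ) {A B : Matrix (Fin 2) (Fin 2) ℤ} (hA : A.det ≠ 0)
    (h : ∀ x y : ℤ, x • A + y • B = 0 → x = 0 ∧ y = 0) : Mpc_det A B τ ≠ 0 := by
  intro h0
  unfold Mpc_det at h0
  obtain ⟨j1, j2, j0⟩ := hτ (A 1 0 * B 0 0 - B 1 0 * A 0 0)
    (A 1 0 * B 0 1 + A 1 1 * B 0 0 - B 1 0 * A 0 1 - B 1 1 * A 0 0)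
    (A 1 1 * B 0 1 - B 1 1 * A 0 1) (by push_cast; linear_combination h0)
  exact Mpc_int hA h j0 j1 j2

private lemma Mpc_sol {A B : Matrix (Fin 2) (Fin 2) ℤ} {z : ℂ} (hz : Mpc_det A B z ≠ 0) :
    ∃ S : Set ℂ, S.Infinite ∧ ∀ r ∈ S, ∃ t : ℂ,
      t * ((B 1 0 : ℂ) * z + (B 1 1 : ℂ)) - ((B 0 0 : ℂ) * z + (B 0 1 : ℂ)) =
        r * (t * ((A 1 0 : ℂ) * z + (A 1 1 : ℂ)) - ((A 0 0 : ℂ) * z + (A 0 1 : ℂ))) ∧
      t * ((A 1 0 : ℂ) * z + (A 1 1 : ℂ)) - ((A 0 0 : ℂ) * z + (A 0 1 : ℂ)) ≠ 0 := by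
  unfold Mpc_det at hz
  generalize ((A 1 0 : ℂ) * z + (A 1 1 : ℂ)) = m at *
  generalize ((A 0 0 : ℂ) * z + (A 0 1 : ℂ)) = k at *
  generalize ((B 1 0 : ℂ) * z + (B 1 1 : ℂ)) = m' at *
  generalize ((B 0 0 : ℂ) * z + (B 0 1 : ℂ)) = k' at *
  refine ⟨{m' / m}ᶜ, (Set.finite_singleton _).infinite_compl, fun r hr => ?_⟩
  have hr' : m' - r * m ≠ 0 := by
    intro h0
    by_cases hm : m = 0
    · apply hz
      rw [hm] at h0 ⊢
      have : m' = 0 := by linear_combination h0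
      rw [this]
      ring
    · apply hr
      rw [Set.mem_singleton_iff, eq_div_iff hm]
      linear_combination -h0
  refine ⟨(k' - r * k) / (m' - r * m), ?_, ?_⟩
  · field_simp
    ring
  · have : (k' - r * k) / (m' - r * m) * m - k = (m * k' - m' * k) / (m' - r * m) := by
      field_simp
      ring
    rw [this]
    exact div_ne_zero hz hr'

/-- two constants -/
theorem pind_cc {τ τ' : ℂ} (hτ : NonCM τ) (hτ' : NonCM τ') {a₁ a₂ : Fin mm} (n : a₁ ≠ a₂) :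
    PInd (cpp τ a₁) (cpp τ' a₂) := by
  refine pind_of fun A₁ A₂ B₁ B₂ hA₁ hB₁ hA hB => ?_
  obtain ⟨S, hS, hS'⟩ := Mpc_sol (Mpc_det_ncm hτ hA₁ hA)
  obtain ⟨S', hT, hT'⟩ := Mpc_sol (Mpc_det_ncm hτ' hB₁ hB)
  refine ⟨S, S', hS, hT, fun r hr r' hr' => ?_⟩
  obtain ⟨t, ht, ht0⟩ := hS' r hr
  obtain ⟨t', ht', ht0'⟩ := hT' r' hr'
  refine ⟨fun i => if i = a₁ then t else t', ?_, ?_, ?_, ?_⟩ <;>
    simp only [cpp_eval, if_true, if_neg n.symm]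
  · exact ht
  · exact ht0
  · exact ht'
  · exact ht0'

/-- a constant and a pair of functions -/
theorem pind_cm {τ : ℂ} (hτ : NonCM τ) {a₁ b₂ a₂ : Fin mm} (n1 : a₁ ≠ a₂) (n2 : a₁ ≠ b₂)
    (n3 : a₂ ≠ b₂) : PInd (cpp τ a₁) (mpp b₂ a₂) := by
  refine pind_of fun A₁ A₂ B₁ B₂ hA₁ hB₁ hA hB => ?_
  obtain ⟨z, hz⟩ := Mpc_det_poly hB₁ hB
  obtain ⟨S, hS, hS'⟩ := Mpc_sol (Mpc_det_ncm hτ hA₁ hA)
  obtain ⟨S', hT, hT'⟩ := Mpc_sol hz
  refine ⟨S, S', hS, hT, fun r hr r' hr' => ?_⟩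
  obtain ⟨t, ht, ht0⟩ := hS' r hr
  obtain ⟨t', ht', ht0'⟩ := hT' r' hr'
  refine ⟨fun i => if i = a₁ then t else if i = a₂ then t' else z, ?_, ?_, ?_, ?_⟩ <;>
    simp only [cpp_eval, mpp_eval, if_true, if_neg n1.symm, if_neg n2.symm, if_neg n3.symm]
  · exact ht
  · exact ht0
  · exact ht'
  · exact ht0'

end Pool.Agent.LGO.PWG
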